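import Pool.Agent.Lib.ConwayAuto.DensePow

/-!
# Powers of two slightly above powers of three
-/

set_option autoImplicit false

namespace ConwayAuto

theorem approx3 (K : ℕ) : ∃ m n h : ℕ, 2 ^ n = 3 ^ m + h ∧ 0 < h ∧ K * h ≤ 3 ^ m := by
  have hK : (0 : ℝ) < (K : ℝ) + 1 := by positivity
  obtain ⟨u, v, h1, h2⟩ := dense_two_third 1 (1 + 1 / ((K : ℝ) + 1)) one_pos
    (by linarith [one_div_pos.2 hK])
  have h2v : (0 : ℝ) < 3 ^ v := by positivity
  rw [lt_div_iff₀ h2v, one_mul] at h1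
  have h1' : 3 ^ v < 2 ^ u := by exact_mod_cast h1
  obtain ⟨h, hh⟩ := Nat.exists_eq_add_of_le h1'.le
  have hh' : (2 : ℝ) ^ u = 3 ^ v + h := by exact_mod_cast hh
  refine ⟨v, u, h, hh, by omega, ?_⟩
  rw [div_lt_iff₀ h2v, hh', add_mul, one_mul, add_lt_add_iff_left, one_div,
    inv_mul_eq_div, lt_div_iff₀ hK] at h2
  have h3 : h * (K + 1) < 3 ^ v := by exact_mod_cast h2
  nlinarith

end ConwayAuto
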