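import Pool.Agent.Lib.ConwayAuto.DensePow

/-!
# Powers of three slightly above powers of a base `2 ^ i 3 ^ j`
-/

set_option autoImplicit false

namespace ConwayAuto

theorem approxB (b i j : ℕ) (hb : b = 2 ^ i * 3 ^ j) (hi : 1 ≤ i) (K : ℕ) :
    ∃ m n h : ℕ, 3 ^ n = b ^ m + h ∧ 0 < h ∧ K * h ≤ b ^ m := by
  have hK : (0 : ℝ) < (K : ℝ) + 1 := by positivity
  obtain ⟨u, v, h1, h2⟩ := dense_pow_pow 3 ((1 / 2) ^ i) (by norm_num) (by positivity)
    (pow_lt_one₀ (by norm_num) (by norm_num) (by omega))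
    (by
      intro u v hu h0
      rw [← pow_mul, div_pow, one_pow, mul_one_div, div_eq_one_iff_eq (by positivity)] at h0
      have h3 : 3 ^ u = 2 ^ (i * v) := by exact_mod_cast h0
      have h4 : Odd (3 ^ u) := Odd.pow (by decide)
      rw [h3] at h4
      rcases Nat.eq_zero_or_pos (i * v) with h5 | h5
      · rw [h5, pow_zero] at h3
        have h6 : 1 < 3 ^ u := Nat.one_lt_pow (by omega) (by norm_num)
        omega
      · exact (Nat.not_odd_iff_even.2 ((Nat.even_pow' (by omega)).2 (by decide))) h4)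
    1 (1 + 1 / ((K : ℝ) + 1)) one_pos (by linarith [one_div_pos.2 hK])
  rw [← pow_mul, div_pow, one_pow, mul_one_div] at h1 h2
  have h2v : (0 : ℝ) < 2 ^ (i * v) := by positivity
  rw [lt_div_iff₀ h2v, one_mul] at h1
  have h1' : 2 ^ (i * v) < 3 ^ u := by exact_mod_cast h1
  obtain ⟨h, hh⟩ := Nat.exists_eq_add_of_le h1'.le
  have hh' : (3 : ℝ) ^ u = 2 ^ (i * v) + h := by exact_mod_cast hh
  have hbv : b ^ v = 2 ^ (i * v) * 3 ^ (j * v) := by
    rw [hb, mul_pow, ← pow_mul, ← pow_mul]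
  have h3v : 0 < 3 ^ (j * v) := by positivity
  refine ⟨v, u + j * v, h * 3 ^ (j * v), ?_, Nat.mul_pos (by omega) h3v, ?_⟩
  · rw [hbv, pow_add, hh, add_mul]
  · rw [div_lt_iff₀ h2v, hh', add_mul, one_mul, add_lt_add_iff_left, one_div,
      inv_mul_eq_div, lt_div_iff₀ hK] at h2
    have h3 : h * (K + 1) < 2 ^ (i * v) := by exact_mod_cast h2
    have h4 : K * h ≤ 2 ^ (i * v) := by nlinarith
    rw [hbv, ← mul_assoc]
    exact Nat.mul_le_mul_right _ h4

end ConwayAuto
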