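import Mathlib

/-!
Conway's permutation `g` (extended by `g 0 = 0`) and 2-automatic sets: basic definitions.
-/

namespace ConwayAuto

/-- Conway's map: `2m ↦ 3m`, `4m+1 ↦ 3m+1`, `4m+3 = 4(m+1)-1 ↦ 3(m+1)-1 = 3m+2` (and `0 ↦ 0`). -/
def g (n : ℕ) : ℕ :=
  if n % 2 = 0 then 3 * (n / 2) else if n % 4 = 1 then 3 * (n / 4) + 1 else 3 * (n / 4) + 2

/-- the inverse of `g` -/
def gi (n : ℕ) : ℕ :=
  if n % 3 = 0 then 2 * (n / 3) else if n % 3 = 1 then 4 * (n / 3) + 1 else 4 * (n / 3) + 3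

/-- `S` is 2-automatic: its 2-kernel is finite. -/
def TwoAutomatic (S : Set ℕ) : Prop :=
  {T : Set ℕ | ∃ w r : ℕ, r < 2 ^ w ∧ T = {m : ℕ | 2 ^ w * m + r ∈ S}}.Finite

/-- `x` and `y` have the same membership pattern on all the blocks
`[2^w x, 2^w (x+2))` and `[2^w y, 2^w (y+2))`. -/
def Eqv (S : Set ℕ) (x y : ℕ) : Prop :=
  ∀ w r : ℕ, r < 2 ^ (w + 1) → (2 ^ w * x + r ∈ S ↔ 2 ^ w * y + r ∈ S)

/-- no element of `D` in the blocks `[2^a 3^j y, 2^a 3^j (y+1))`, `j ≤ n`, `a ≤ 2n` -/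
def Good (D : Set ℕ) (n y : ℕ) : Prop :=
  ∀ j ≤ n, ∀ a ≤ 2 * n, ∀ t < 2 ^ a * 3 ^ j, 2 ^ a * 3 ^ j * y + t ∉ D

/-- every residue class mod `2^w` contains a class mod `2^(w+w')` disjoint from `D` -/
def NowhereDense2 (D : Set ℕ) : Prop :=
  ∀ w r : ℕ, r < 2 ^ w → ∃ w' r' : ℕ, r' < 2 ^ w' ∧ ∀ m : ℕ, 2 ^ w * (2 ^ w' * m + r') + r ∉ D

/-- `n` enters `S` at the next step of `g` -/
def Entry (S : Set ℕ) : Set ℕ := {n | n ∉ S ∧ g n ∈ S}

theorem g_even (m : ℕ) : g (2 * m) = 3 * m := by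
  unfold g; rw [if_pos (by omega)]; congr 1; omega

theorem g_one (m : ℕ) : g (4 * m + 1) = 3 * m + 1 := by
  unfold g; rw [if_neg (by omega), if_pos (by omega)]; congr 2; omega

theorem g_three (m : ℕ) : g (4 * m + 3) = 3 * m + 2 := by
  unfold g; rw [if_neg (by omega), if_neg (by omega)]; congr 2; omega

theorem gi_zero (m : ℕ) : gi (3 * m) = 2 * m := by
  unfold gi; rw [if_pos (by omega)]; congr 1; omega

theorem gi_one (m : ℕ) : gi (3 * m + 1) = 4 * m + 1 := by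
  unfold gi; rw [if_neg (by omega), if_pos (by omega)]; congr 2; omega

theorem gi_two (m : ℕ) : gi (3 * m + 2) = 4 * m + 3 := by
  unfold gi; rw [if_neg (by omega), if_neg (by omega)]; congr 2; omega

theorem g_gi (n : ℕ) : g (gi n) = n := by
  obtain ⟨m, h | h | h⟩ : ∃ m, n = 3 * m ∨ n = 3 * m + 1 ∨ n = 3 * m + 2 := ⟨n / 3, by omega⟩
  · rw [h, gi_zero, g_even]
  · rw [h, gi_one, g_one]
  · rw [h, gi_two, g_three]

theorem gi_g (n : ℕ) : gi (g n) = n := by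
  obtain ⟨m, h | h | h⟩ : ∃ m, n = 2 * m ∨ n = 4 * m + 1 ∨ n = 4 * m + 3 := by
    by_cases h2 : n % 2 = 0
    · exact ⟨n / 2, by omega⟩
    · exact ⟨n / 4, by omega⟩
  · rw [h, g_even, gi_zero]
  · rw [h, g_one, gi_one]
  · rw [h, g_three, gi_two]

theorem g_injective : Function.Injective g := fun a b h => by
  rw [← gi_g a, h, gi_g]

theorem gi_injective : Function.Injective gi := fun a b h => by
  rw [← g_gi a, h, g_gi]

theorem Eqv.refl (S : Set ℕ) (x : ℕ) : Eqv S x x := fun _ _ _ => Iff.rfl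

theorem Eqv.symm {S : Set ℕ} {x y : ℕ} (h : Eqv S x y) : Eqv S y x := fun w r hr => (h w r hr).symm

theorem Eqv.trans {S : Set ℕ} {x y z : ℕ} (h : Eqv S x y) (h' : Eqv S y z) : Eqv S x z :=
  fun w r hr => (h w r hr).trans (h' w r hr)

theorem Eqv.desc {S : Set ℕ} {x y : ℕ} (h : Eqv S x y) {a v : ℕ} (hv : v < 2 ^ a) :
    Eqv S (2 ^ a * x + v) (2 ^ a * y + v) := by
  intro w r hr
  have e : ∀ z : ℕ, 2 ^ w * (2 ^ a * z + v) + r = 2 ^ (w + a) * z + (2 ^ w * v + r) := by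
    intro z; rw [pow_add]; ring
  rw [e x, e y]
  apply h
  have h1 : 2 ^ w * (v + 1) ≤ 2 ^ w * 2 ^ a := Nat.mul_le_mul_left _ hv
  have h2 : 2 ^ w ≤ 2 ^ w * 2 ^ a := Nat.le_mul_of_pos_right _ (by positivity)
  have h3 : 2 ^ (w + a + 1) = 2 * (2 ^ w * 2 ^ a) := by rw [pow_succ, pow_add]; ring
  have h4 : 2 ^ (w + 1) = 2 * 2 ^ w := by rw [pow_succ]; ring
  rw [h3]
  rw [h4] at hr
  nlinarith

theorem Eqv.compl_iff {S : Set ℕ} {x y : ℕ} : Eqv Sᶜ x y ↔ Eqv S x y := by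
  unfold Eqv
  simp only [Set.mem_compl_iff, not_iff_not]

theorem TwoAutomatic.compl {S : Set ℕ} (h : TwoAutomatic S) : TwoAutomatic Sᶜ := by
  unfold TwoAutomatic at *
  apply (h.image (fun T => Tᶜ)).subset
  rintro T ⟨w, r, hr, rfl⟩
  exact ⟨{m : ℕ | 2 ^ w * m + r ∈ S}, ⟨w, r, hr, rfl⟩, by ext m; simp⟩

/-- the classes of `Eqv S` as a finite colouring -/
theorem TwoAutomatic.coloring {S : Set ℕ} (h : TwoAutomatic S) :
    ∃ (ι : Type) (_ : Finite ι) (c : ℕ → ι), ∀ x y, c x = c y ↔ Eqv S x y := by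
  classical
  let K : Set (Set ℕ) := {T : Set ℕ | ∃ w r : ℕ, r < 2 ^ w ∧ T = {m : ℕ | 2 ^ w * m + r ∈ S}}
  haveI : Finite K := h
  let st : Setoid ℕ := ⟨Eqv S, ⟨Eqv.refl S, Eqv.symm, Eqv.trans⟩⟩
  let F : ℕ → (K → Prop × Prop) := fun x T => (x ∈ T.1, x + 1 ∈ T.1)
  have hF : ∀ x y, F x = F y → Eqv S x y := by
    intro x y hxy w r hr
    by_cases hrw : r < 2 ^ w
    · have := congrFun hxy ⟨{m : ℕ | 2 ^ w * m + r ∈ S}, ⟨w, r, hrw, rfl⟩⟩
      have h1 := congrArg Prod.fst this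
      simpa [F] using h1
    · have h2 : r - 2 ^ w < 2 ^ w := by
        have : 2 ^ (w + 1) = 2 * 2 ^ w := by rw [pow_succ]; ring
        omega
      have := congrFun hxy ⟨{m : ℕ | 2 ^ w * m + (r - 2 ^ w) ∈ S}, ⟨w, r - 2 ^ w, h2, rfl⟩⟩
      have h1 := congrArg Prod.snd this
      have e : ∀ z : ℕ, 2 ^ w * (z + 1) + (r - 2 ^ w) = 2 ^ w * z + r := by
        intro z
        have : 2 ^ w * (z + 1) = 2 ^ w * z + 2 ^ w := by ring
        omega
      simpa [F, e] using h1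
  have hfin : Finite (Quotient st) := by
    have : Function.Injective (fun q : Quotient st => F q.out) := by
      intro a b hab
      have := hF _ _ hab
      rw [← Quotient.out_eq a, ← Quotient.out_eq b]
      exact Quotient.sound this
    exact Finite.of_injective _ this
  refine ⟨Quotient st, hfin, fun x => Quotient.mk st x, fun x y => ?_⟩
  exact ⟨fun hxy => Quotient.exact hxy, fun hxy => Quotient.sound hxy⟩

/-- cylinders: the numbers whose `k`-th image under `g` is `≡ t (mod 3^k)` -/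
theorem cyl (k t : ℕ) (ht : t < 3 ^ k) :
    ∃ w r : ℕ, k ≤ w ∧ w ≤ 2 * k ∧ r < 2 ^ w ∧ ∀ m, g^[k] (2 ^ w * m + r) = 3 ^ k * m + t := by
  induction k generalizing t with
  | zero =>
    exact ⟨0, 0, le_rfl, le_rfl, by norm_num, fun m => by simp at ht ⊢; omega⟩
  | succ k ih =>
    -- go one step back from `3^(k+1) m + t`
    have key : ∃ a v : ℕ, 1 ≤ a ∧ a ≤ 2 ∧ v < 2 ^ a * 3 ^ k ∧
        ∀ m, g (2 ^ a * 3 ^ k * m + v) = 3 ^ (k + 1) * m + t := by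
      have hk : 3 ^ (k + 1) = 3 * 3 ^ k := by rw [pow_succ]; ring
      rw [hk] at ht
      obtain ⟨s, h | h | h⟩ : ∃ s, t = 3 * s ∨ t = 3 * s + 1 ∨ t = 3 * s + 2 := ⟨t / 3, by omega⟩
      · refine ⟨1, 2 * s, le_rfl, by norm_num, by omega, fun m => ?_⟩
        have : 2 ^ 1 * 3 ^ k * m + 2 * s = 2 * (3 ^ k * m + s) := by ring
        rw [this, g_even, hk, h]; ring
      · refine ⟨2, 4 * s + 1, by norm_num, le_rfl, by omega, fun m => ?_⟩
        have : 2 ^ 2 * 3 ^ k * m + (4 * s + 1) = 4 * (3 ^ k * m + s) + 1 := by ring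
        rw [this, g_one, hk, h]; ring
      · refine ⟨2, 4 * s + 3, by norm_num, le_rfl, by omega, fun m => ?_⟩
        have : 2 ^ 2 * 3 ^ k * m + (4 * s + 3) = 4 * (3 ^ k * m + s) + 3 := by ring
        rw [this, g_three, hk, h]; ring
    obtain ⟨a, v, ha1, ha2, hv, hg⟩ := key
    obtain ⟨w, r, hw1, hw2, hr, hgk⟩ := ih (v % 3 ^ k) (Nat.mod_lt _ (by positivity))
    have hdiv : v / 3 ^ k < 2 ^ a := by
      rw [Nat.div_lt_iff_lt_mul (by positivity)]; exact hv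
    refine ⟨w + a, 2 ^ w * (v / 3 ^ k) + r, by omega, by omega, ?_, fun m => ?_⟩
    · have h1 : 2 ^ w * (v / 3 ^ k + 1) ≤ 2 ^ w * 2 ^ a := Nat.mul_le_mul_left _ hdiv
      rw [pow_add]; nlinarith
    · have e : 2 ^ (w + a) * m + (2 ^ w * (v / 3 ^ k) + r) = 2 ^ w * (2 ^ a * m + v / 3 ^ k) + r := by
        rw [pow_add]; ring
      rw [e, Function.iterate_succ_apply', hgk]
      have e2 : 3 ^ k * (2 ^ a * m + v / 3 ^ k) + v % 3 ^ k = 2 ^ a * 3 ^ k * m + v := by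
        have := Nat.div_add_mod v (3 ^ k)
        calc 3 ^ k * (2 ^ a * m + v / 3 ^ k) + v % 3 ^ k
            = 2 ^ a * 3 ^ k * m + (3 ^ k * (v / 3 ^ k) + v % 3 ^ k) := by ring
          _ = 2 ^ a * 3 ^ k * m + v := by rw [this]
      rw [e2, hg]

theorem g_iterate_injective (k : ℕ) : Function.Injective (g^[k]) := g_injective.iterate k

/-- every `n` lies in a cylinder of `k` steps -/
theorem cyl_of (k n : ℕ) :
    ∃ w r t m : ℕ, k ≤ w ∧ w ≤ 2 * k ∧ r < 2 ^ w ∧ t < 3 ^ k ∧ n = 2 ^ w * m + r ∧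
      ∀ m', g^[k] (2 ^ w * m' + r) = 3 ^ k * m' + t := by
  obtain ⟨w, r, h1, h2, h3, h4⟩ := cyl k (g^[k] n % 3 ^ k) (Nat.mod_lt _ (by positivity))
  refine ⟨w, r, g^[k] n % 3 ^ k, g^[k] n / 3 ^ k, h1, h2, h3, Nat.mod_lt _ (by positivity), ?_, h4⟩
  apply g_iterate_injective k
  rw [h4]
  exact (Nat.div_add_mod _ _).symm

end ConwayAuto
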