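import Pool.Agent.Lib.ConwayAuto.Defs

/-!
3-automatic sets: basic definitions (base 3 version of `Defs`).
-/

namespace ConwayAuto

/-- `S` is 3-automatic: its 3-kernel is finite. -/
def ThreeAutomatic (S : Set ℕ) : Prop :=
  {T : Set ℕ | ∃ w r : ℕ, r < 3 ^ w ∧ T = {m : ℕ | 3 ^ w * m + r ∈ S}}.Finite

/-- `x` and `y` have the same membership pattern on all the blocks
`[3^w x, 3^w (x+2))` and `[3^w y, 3^w (y+2))`. -/
def Eqv3 (S : Set ℕ) (x y : ℕ) : Prop :=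
  ∀ w r : ℕ, r < 2 * 3 ^ w → (3 ^ w * x + r ∈ S ↔ 3 ^ w * y + r ∈ S)

/-- no element of `D` in the blocks `[2^a 3^j y, 2^a 3^j (y+1))`, `j ≤ n`, `a ≤ n` -/
def Good3 (D : Set ℕ) (n y : ℕ) : Prop :=
  ∀ j ≤ n, ∀ a ≤ n, ∀ t < 2 ^ a * 3 ^ j, 2 ^ a * 3 ^ j * y + t ∉ D

/-- every residue class mod `3^w` contains a class mod `3^(w+w')` disjoint from `D` -/
def NowhereDense3 (D : Set ℕ) : Prop :=
  ∀ w r : ℕ, r < 3 ^ w → ∃ w' r' : ℕ, r' < 3 ^ w' ∧ ∀ m : ℕ, 3 ^ w * (3 ^ w' * m + r') + r ∉ D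

theorem Eqv3.refl (S : Set ℕ) (x : ℕ) : Eqv3 S x x := fun _ _ _ => Iff.rfl

theorem Eqv3.symm {S : Set ℕ} {x y : ℕ} (h : Eqv3 S x y) : Eqv3 S y x :=
  fun w r hr => (h w r hr).symm

theorem Eqv3.trans {S : Set ℕ} {x y z : ℕ} (h : Eqv3 S x y) (h' : Eqv3 S y z) : Eqv3 S x z :=
  fun w r hr => (h w r hr).trans (h' w r hr)

theorem Eqv3.desc {S : Set ℕ} {x y : ℕ} (h : Eqv3 S x y) {a v : ℕ} (hv : v < 3 ^ a) :
    Eqv3 S (3 ^ a * x + v) (3 ^ a * y + v) := by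
  intro w r hr
  have e : ∀ z : ℕ, 3 ^ w * (3 ^ a * z + v) + r = 3 ^ (w + a) * z + (3 ^ w * v + r) := by
    intro z; rw [pow_add]; ring
  rw [e x, e y]
  apply h
  have h1 : 3 ^ w * (v + 1) ≤ 3 ^ w * 3 ^ a := Nat.mul_le_mul_left _ hv
  have h2 : 3 ^ w ≤ 3 ^ w * 3 ^ a := Nat.le_mul_of_pos_right _ (by positivity)
  rw [pow_add]
  nlinarith

theorem ThreeAutomatic.compl {S : Set ℕ} (h : ThreeAutomatic S) : ThreeAutomatic Sᶜ := by
  unfold ThreeAutomatic at *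
  apply (h.image (fun T => Tᶜ)).subset
  rintro T ⟨w, r, hr, rfl⟩
  exact ⟨{m : ℕ | 3 ^ w * m + r ∈ S}, ⟨w, r, hr, rfl⟩, by ext m; simp⟩

/-- the classes of `Eqv3 S` as a finite colouring -/
theorem ThreeAutomatic.coloring {S : Set ℕ} (h : ThreeAutomatic S) :
    ∃ (ι : Type) (_ : Finite ι) (c : ℕ → ι), ∀ x y, c x = c y ↔ Eqv3 S x y := by
  classical
  let K : Set (Set ℕ) := {T : Set ℕ | ∃ w r : ℕ, r < 3 ^ w ∧ T = {m : ℕ | 3 ^ w * m + r ∈ S}}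
  haveI : Finite K := h
  let st : Setoid ℕ := ⟨Eqv3 S, ⟨Eqv3.refl S, Eqv3.symm, Eqv3.trans⟩⟩
  let F : ℕ → (K → Prop × Prop) := fun x T => (x ∈ T.1, x + 1 ∈ T.1)
  have hF : ∀ x y, F x = F y → Eqv3 S x y := by
    intro x y hxy w r hr
    by_cases hrw : r < 3 ^ w
    · have := congrFun hxy ⟨{m : ℕ | 3 ^ w * m + r ∈ S}, ⟨w, r, hrw, rfl⟩⟩
      have h1 := congrArg Prod.fst this
      simpa [F] using h1
    · have h2 : r - 3 ^ w < 3 ^ w := by omega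
      have := congrFun hxy ⟨{m : ℕ | 3 ^ w * m + (r - 3 ^ w) ∈ S}, ⟨w, r - 3 ^ w, h2, rfl⟩⟩
      have h1 := congrArg Prod.snd this
      have e : ∀ z : ℕ, 3 ^ w * (z + 1) + (r - 3 ^ w) = 3 ^ w * z + r := by
        intro z
        have : 3 ^ w * (z + 1) = 3 ^ w * z + 3 ^ w := by ring
        omega
      simpa [F, e] using h1
  have hfin : Finite (Quotient st) := by
    have : Function.Injective (fun q : Quotient st => F q.out) := by
      intro a b hab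
      have := hF _ _ hab
      rw [← Quotient.out_eq a, ← Quotient.out_eq b]
      exact Quotient.sound this
    exact Finite.of_injective _ this
  refine ⟨Quotient st, hfin, fun x => Quotient.mk st x, fun x y => ?_⟩
  exact ⟨fun hxy => Quotient.exact hxy, fun hxy => Quotient.sound hxy⟩

end ConwayAuto
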