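import Pool.Agent.Lib.ConwayAuto.Defs3

/-!
b-automatic sets: basic definitions (general base).
-/

namespace ConwayAuto

/-- `S` is `b`-automatic: its `b`-kernel is finite. -/
def AutomaticIn (b : ℕ) (S : Set ℕ) : Prop :=
  {T : Set ℕ | ∃ w r : ℕ, r < b ^ w ∧ T = {m : ℕ | b ^ w * m + r ∈ S}}.Finite

theorem automaticIn_two {S : Set ℕ} : AutomaticIn 2 S ↔ TwoAutomatic S := Iff.rfl

theorem automaticIn_three {S : Set ℕ} : AutomaticIn 3 S ↔ ThreeAutomatic S := Iff.rfl

/-- `x` and `y` have the same membership pattern on all the blocks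
`[b^w x, b^w (x+2))` and `[b^w y, b^w (y+2))`. -/
def EqvB (b : ℕ) (S : Set ℕ) (x y : ℕ) : Prop :=
  ∀ w r : ℕ, r < 2 * b ^ w → (b ^ w * x + r ∈ S ↔ b ^ w * y + r ∈ S)

/-- every residue class mod `b^w` contains a class mod `b^(w+w')` disjoint from `D` -/
def NowhereDenseB (b : ℕ) (D : Set ℕ) : Prop :=
  ∀ w r : ℕ, r < b ^ w → ∃ w' r' : ℕ, r' < b ^ w' ∧ ∀ m : ℕ, b ^ w * (b ^ w' * m + r') + r ∉ D

variable {b : ℕ}

theorem EqvB.refl (S : Set ℕ) (x : ℕ) : EqvB b S x x := fun _ _ _ => Iff.rfl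

theorem EqvB.symm {S : Set ℕ} {x y : ℕ} (h : EqvB b S x y) : EqvB b S y x :=
  fun w r hr => (h w r hr).symm

theorem EqvB.trans {S : Set ℕ} {x y z : ℕ} (h : EqvB b S x y) (h' : EqvB b S y z) :
    EqvB b S x z :=
  fun w r hr => (h w r hr).trans (h' w r hr)

theorem EqvB.desc {S : Set ℕ} {x y : ℕ} (hb : 0 < b) (h : EqvB b S x y) {a v : ℕ}
    (hv : v < b ^ a) : EqvB b S (b ^ a * x + v) (b ^ a * y + v) := by
  intro w r hr
  have e : ∀ z : ℕ, b ^ w * (b ^ a * z + v) + r = b ^ (w + a) * z + (b ^ w * v + r) := by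
    intro z; rw [pow_add]; ring
  rw [e x, e y]
  apply h
  have h1 : b ^ w * (v + 1) ≤ b ^ w * b ^ a := Nat.mul_le_mul_left _ hv
  have h2 : b ^ w ≤ b ^ w * b ^ a := Nat.le_mul_of_pos_right _ (by positivity)
  rw [pow_add]
  nlinarith

theorem AutomaticIn.compl {S : Set ℕ} (h : AutomaticIn b S) : AutomaticIn b Sᶜ := by
  unfold AutomaticIn at *
  apply (h.image (fun T => Tᶜ)).subset
  rintro T ⟨w, r, hr, rfl⟩
  exact ⟨{m : ℕ | b ^ w * m + r ∈ S}, ⟨w, r, hr, rfl⟩, by ext m; simp⟩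

/-- the classes of `EqvB b S` as a finite colouring -/
theorem AutomaticIn.coloring {S : Set ℕ} (h : AutomaticIn b S) :
    ∃ (ι : Type) (_ : Finite ι) (c : ℕ → ι), ∀ x y, c x = c y ↔ EqvB b S x y := by
  classical
  let K : Set (Set ℕ) := {T : Set ℕ | ∃ w r : ℕ, r < b ^ w ∧ T = {m : ℕ | b ^ w * m + r ∈ S}}
  haveI : Finite K := h
  let st : Setoid ℕ := ⟨EqvB b S, ⟨EqvB.refl S, EqvB.symm, EqvB.trans⟩⟩
  let F : ℕ → (K → Prop × Prop) := fun x T => (x ∈ T.1, x + 1 ∈ T.1)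
  have hF : ∀ x y, F x = F y → EqvB b S x y := by
    intro x y hxy w r hr
    by_cases hrw : r < b ^ w
    · have := congrFun hxy ⟨{m : ℕ | b ^ w * m + r ∈ S}, ⟨w, r, hrw, rfl⟩⟩
      have h1 := congrArg Prod.fst this
      simpa [F] using h1
    · have h2 : r - b ^ w < b ^ w := by omega
      have := congrFun hxy ⟨{m : ℕ | b ^ w * m + (r - b ^ w) ∈ S}, ⟨w, r - b ^ w, h2, rfl⟩⟩
      have h1 := congrArg Prod.snd this
      have e : ∀ z : ℕ, b ^ w * (z + 1) + (r - b ^ w) = b ^ w * z + r := by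
        intro z
        have : b ^ w * (z + 1) = b ^ w * z + b ^ w := by ring
        omega
      simpa [F, e] using h1
  have hfin : Finite (Quotient st) := by
    have : Function.Injective (fun q : Quotient st => F q.out) := by
      intro a b hab
      have := hF _ _ hab
      rw [← Quotient.out_eq a, ← Quotient.out_eq b]
      exact Quotient.sound this
    exact Finite.of_injective _ this
  refine ⟨Quotient st, hfin, fun x => Quotient.mk st x, fun x y => ?_⟩
  exact ⟨fun hxy => Quotient.exact hxy, fun hxy => Quotient.sound hxy⟩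

end ConwayAuto
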