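import Mathlib

/-!
# Products of powers of two numbers are dense in the positive reals
-/

set_option autoImplicit false

namespace ConwayAuto

namespace DensePowAux

/-- Small steps: `i x - j y` can be made small and nonzero with naturals `i`, `j`. -/
theorem step (x y : ℝ) (hx : 0 < x) (hy : 0 < y)
    (h : ∀ i j : ℕ, 0 < i → (i : ℝ) * x - j * y ≠ 0) (ε : ℝ) (hε : 0 < ε) :
    ∃ i j : ℕ, 0 < |(i : ℝ) * x - j * y| ∧ |(i : ℝ) * x - j * y| < ε := by
  obtain ⟨n, hn⟩ := exists_nat_gt (y / ε)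
  obtain ⟨j, k, hk, -, hjk⟩ := Real.exists_int_int_abs_mul_sub_le (x / y) (Nat.succ_pos n)
  have hn1 : (1 : ℝ) / ((n.succ : ℕ) + 1) < ε / y := by
    rw [div_lt_div_iff₀ (by positivity) hy, one_mul]
    rw [div_lt_iff₀ hε] at hn
    push_cast
    nlinarith
  have hn2 : (1 : ℝ) / ((n.succ : ℕ) + 1) < 1 := by
    rw [div_lt_one (by positivity)]
    push_cast
    linarith [Nat.cast_nonneg (α := ℝ) n]
  have hkξ : 0 < (k : ℝ) * (x / y) := mul_pos (by exact_mod_cast hk) (div_pos hx hy)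
  have hj : 0 ≤ j := by
    by_contra hneg
    push Not at hneg
    have h1 : (j : ℝ) ≤ -1 := by exact_mod_cast (by omega : j ≤ -1)
    have h2 := (abs_le.1 hjk).2
    linarith
  obtain ⟨i', rfl⟩ := Int.eq_ofNat_of_zero_le hk.le
  obtain ⟨j', rfl⟩ := Int.eq_ofNat_of_zero_le hj
  have hi' : 0 < i' := by exact_mod_cast hk
  refine ⟨i', j', abs_pos.2 (h i' j' hi'), ?_⟩
  have e1 : (i' : ℝ) * x - j' * y = y * (i' * (x / y) - j') := by
    field_simp
  rw [e1, abs_mul, abs_of_pos hy]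
  simp only [Int.cast_natCast] at hjk
  calc y * |(i' : ℝ) * (x / y) - j'| ≤ y * (1 / ((n.succ : ℕ) + 1)) :=
        mul_le_mul_of_nonneg_left hjk hy.le
    _ < y * (ε / y) := mul_lt_mul_of_pos_left hn1 hy
    _ = ε := by field_simp

/-- The differences `u x - v y` with naturals `u`, `v` are dense in the reals. -/
theorem dense (x y : ℝ) (hx : 0 < x) (hy : 0 < y)
    (h : ∀ i j : ℕ, 0 < i → (i : ℝ) * x - j * y ≠ 0) (L U : ℝ) (hLU : L < U) :
    ∃ u v : ℕ, L < (u : ℝ) * x - v * y ∧ (u : ℝ) * x - v * y < U := by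
  obtain ⟨i, j, h0, h1⟩ := step x y hx hy h (U - L) (by linarith)
  rcases lt_or_gt_of_ne (abs_pos.1 h0) with hneg | hpos
  · -- negative steps
    rw [abs_of_neg hneg] at h1
    set δ : ℝ := -((i : ℝ) * x - j * y) with hδ
    have hδ0 : 0 < δ := by rw [hδ]; linarith
    obtain ⟨u, hu⟩ := exists_nat_gt (U / x)
    rw [div_lt_iff₀ hx] at hu
    set n := ⌊((u : ℝ) * x - U) / δ⌋₊ + 1 with hn
    have hq : 0 ≤ ((u : ℝ) * x - U) / δ := div_nonneg (by linarith) hδ0.le
    have h2 : ((u : ℝ) * x - U) / δ < n := by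
      rw [hn]
      push_cast
      exact Nat.lt_floor_add_one _
    have h3 : (n : ℝ) ≤ ((u : ℝ) * x - U) / δ + 1 := by
      rw [hn]
      push_cast
      have := Nat.floor_le hq
      linarith
    rw [div_lt_iff₀ hδ0] at h2
    have h4 : (n : ℝ) * δ ≤ (u : ℝ) * x - U + δ := by
      have := mul_le_mul_of_nonneg_right h3 hδ0.le
      rwa [add_mul, div_mul_cancel₀ _ hδ0.ne', one_mul] at this
    have e : ((u + n * i : ℕ) : ℝ) * x - ((n * j : ℕ) : ℝ) * y = u * x - n * δ := by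
      rw [hδ]
      push_cast
      ring
    refine ⟨u + n * i, n * j, ?_, ?_⟩
    · rw [e]
      linarith
    · rw [e]
      linarith
  · -- positive steps
    rw [abs_of_pos hpos] at h1
    set δ : ℝ := (i : ℝ) * x - j * y with hδ
    have hδ0 : 0 < δ := hpos
    obtain ⟨v, hv⟩ := exists_nat_gt (-L / y)
    rw [div_lt_iff₀ hy] at hv
    set n := ⌊(L + (v : ℝ) * y) / δ⌋₊ + 1 with hn
    have hq : 0 ≤ (L + (v : ℝ) * y) / δ := div_nonneg (by linarith) hδ0.le
    have h2 : (L + (v : ℝ) * y) / δ < n := by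
      rw [hn]
      push_cast
      exact Nat.lt_floor_add_one _
    have h3 : (n : ℝ) ≤ (L + (v : ℝ) * y) / δ + 1 := by
      rw [hn]
      push_cast
      have := Nat.floor_le hq
      linarith
    rw [div_lt_iff₀ hδ0] at h2
    have h4 : (n : ℝ) * δ ≤ L + (v : ℝ) * y + δ := by
      have := mul_le_mul_of_nonneg_right h3 hδ0.le
      rwa [add_mul, div_mul_cancel₀ _ hδ0.ne', one_mul] at this
    have e : ((n * i : ℕ) : ℝ) * x - ((v + n * j : ℕ) : ℝ) * y = n * δ - v * y := by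
      rw [hδ]
      push_cast
      ring
    refine ⟨n * i, v + n * j, ?_, ?_⟩
    · rw [e]
      linarith
    · rw [e]
      linarith

end DensePowAux

theorem dense_pow_pow (a b : ℝ) (ha : 1 < a) (hb : 0 < b) (hb1 : b < 1)
    (hab : ∀ i j : ℕ, 0 < i → a ^ i * b ^ j ≠ 1) (α β : ℝ) (hα : 0 < α) (hαβ : α < β) :
    ∃ u v : ℕ, α < a ^ u * b ^ v ∧ a ^ u * b ^ v < β := by
  have ha0 : 0 < a := by linarith
  have key : ∀ i j : ℕ, a ^ i * b ^ j = Real.exp ((i : ℝ) * Real.log a - j * (-Real.log b)) := by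
    intro i j
    rw [mul_neg, sub_neg_eq_add, Real.exp_add, ← Real.log_pow, ← Real.log_pow,
      Real.exp_log (pow_pos ha0 _), Real.exp_log (pow_pos hb _)]
  obtain ⟨u, v, h1, h2⟩ := DensePowAux.dense (Real.log a) (-Real.log b) (Real.log_pos ha)
    (by linarith [Real.log_neg hb hb1]) (by
      intro i j hi h0
      apply hab i j hi
      rw [key, h0, Real.exp_zero]) (Real.log α) (Real.log β) (Real.log_lt_log hα hαβ)
  refine ⟨u, v, ?_, ?_⟩
  · rw [key]
    exact (Real.log_lt_iff_lt_exp hα).1 h1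
  · rw [key]
    exact (Real.lt_log_iff_exp_lt (hα.trans hαβ)).1 h2

theorem dense_three_half (α β : ℝ) (hα : 0 < α) (hαβ : α < β) :
    ∃ u v : ℕ, α < (3 : ℝ) ^ u / 2 ^ v ∧ (3 : ℝ) ^ u / 2 ^ v < β := by
  obtain ⟨u, v, h1, h2⟩ := dense_pow_pow 3 (1 / 2) (by norm_num) (by norm_num) (by norm_num)
    (by
      intro i j hi h0
      rw [div_pow, one_pow, mul_one_div, div_eq_one_iff_eq (by positivity)] at h0
      have h3 : 3 ^ i = 2 ^ j := by exact_mod_cast h0
      have h4 : Odd (3 ^ i) := Odd.pow (by decide)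
      rw [h3] at h4
      rcases Nat.eq_zero_or_pos j with rfl | hj
      · rw [pow_zero] at h3
        have h5 : 1 < 3 ^ i := Nat.one_lt_pow (by omega) (by norm_num)
        omega
      · exact (Nat.not_odd_iff_even.2 ((Nat.even_pow' (by omega)).2 (by decide))) h4) α β hα hαβ
  refine ⟨u, v, ?_, ?_⟩
  · rwa [div_pow, one_pow, mul_one_div] at h1
  · rwa [div_pow, one_pow, mul_one_div] at h2

theorem dense_two_third (α β : ℝ) (hα : 0 < α) (hαβ : α < β) :
    ∃ u v : ℕ, α < (2 : ℝ) ^ u / 3 ^ v ∧ (2 : ℝ) ^ u / 3 ^ v < β := by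
  obtain ⟨u, v, h1, h2⟩ := dense_pow_pow 2 (1 / 3) (by norm_num) (by norm_num) (by norm_num)
    (by
      intro i j hi h0
      rw [div_pow, one_pow, mul_one_div, div_eq_one_iff_eq (by positivity)] at h0
      have h3 : 2 ^ i = 3 ^ j := by exact_mod_cast h0
      have h4 : Odd (3 ^ j) := Odd.pow (by decide)
      rw [← h3] at h4
      exact (Nat.not_odd_iff_even.2 ((Nat.even_pow' (by omega)).2 (by decide))) h4) α β hα hαβ
  refine ⟨u, v, ?_, ?_⟩
  · rwa [div_pow, one_pow, mul_one_div] at h1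
  · rwa [div_pow, one_pow, mul_one_div] at h2

theorem approx (K : ℕ) : ∃ m n h : ℕ, 3 ^ n = 2 ^ m + h ∧ 0 < h ∧ K * h ≤ 2 ^ m := by
  have hK : (0 : ℝ) < (K : ℝ) + 1 := by positivity
  obtain ⟨u, v, h1, h2⟩ := dense_three_half 1 (1 + 1 / ((K : ℝ) + 1)) one_pos
    (by linarith [one_div_pos.2 hK])
  have h2v : (0 : ℝ) < 2 ^ v := by positivity
  rw [lt_div_iff₀ h2v, one_mul] at h1
  have h1' : 2 ^ v < 3 ^ u := by exact_mod_cast h1
  obtain ⟨h, hh⟩ := Nat.exists_eq_add_of_le h1'.le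
  have hh' : (3 : ℝ) ^ u = 2 ^ v + h := by exact_mod_cast hh
  refine ⟨v, u, h, hh, by omega, ?_⟩
  rw [div_lt_iff₀ h2v, hh', add_mul, one_mul, add_lt_add_iff_left, one_div,
    inv_mul_eq_div, lt_div_iff₀ hK] at h2
  have h3 : h * (K + 1) < 2 ^ v := by exact_mod_cast h2
  nlinarith

end ConwayAuto
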