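import Pool.Agent.Lib.ConwayAuto.Defs

/-!
The set of the numbers which enter a 2-automatic set at the next step of `g` is 2-automatic.
-/

namespace ConwayAuto

/-- the 2-kernel of a set -/
def entryAutoKer (S : Set ℕ) : Set (Set ℕ) :=
  {T : Set ℕ | ∃ w r : ℕ, r < 2 ^ w ∧ T = {m : ℕ | 2 ^ w * m + r ∈ S}}

/-- `g` on a residue class mod `2 ^ w`, `w ≥ 2` -/
theorem entryAuto_g {w r : ℕ} (hw : 2 ≤ w) (hr : r < 2 ^ w) :
    ∃ v c u : ℕ, u < 2 ^ v ∧ c < 3 ∧ ∀ m : ℕ, g (2 ^ w * m + r) = 2 ^ v * (3 * m + c) + u := by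
  obtain ⟨w, rfl⟩ : ∃ w', w = w' + 2 := ⟨w - 2, by omega⟩
  have aux : ∀ v x : ℕ, x < 3 * 2 ^ v → ∀ m : ℕ,
      2 ^ v * (3 * m) + x = 2 ^ v * (3 * m + x / 2 ^ v) + x % 2 ^ v := by
    intro v x _ m
    have h := Nat.div_add_mod x (2 ^ v)
    calc 2 ^ v * (3 * m) + x = 2 ^ v * (3 * m) + (2 ^ v * (x / 2 ^ v) + x % 2 ^ v) := by rw [h]
      _ = 2 ^ v * (3 * m + x / 2 ^ v) + x % 2 ^ v := by ring
  have fin : ∀ v x : ℕ, x < 3 * 2 ^ v →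
      (∀ m : ℕ, g (2 ^ (w + 2) * m + r) = 2 ^ v * (3 * m) + x) →
      ∃ v c u : ℕ, u < 2 ^ v ∧ c < 3 ∧
        ∀ m : ℕ, g (2 ^ (w + 2) * m + r) = 2 ^ v * (3 * m + c) + u := by
    intro v x hx hg
    refine ⟨v, x / 2 ^ v, x % 2 ^ v, Nat.mod_lt _ (by positivity), ?_, fun m => ?_⟩
    · exact (Nat.div_lt_iff_lt_mul (by positivity)).2 hx
    · rw [hg m, aux v x hx m]
  have e4 : (2 : ℕ) ^ (w + 2) = 4 * 2 ^ w := by rw [pow_add]; ring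
  have e2 : (2 : ℕ) ^ (w + 2) = 2 * 2 ^ (w + 1) := by rw [pow_add, pow_add]; ring
  obtain ⟨s, h | h | h⟩ : ∃ s, r = 2 * s ∨ r = 4 * s + 1 ∨ r = 4 * s + 3 := by
    by_cases h2 : r % 2 = 0
    · exact ⟨r / 2, by omega⟩
    · exact ⟨r / 4, by omega⟩
  · refine fin (w + 1) (3 * s) (by omega) (fun m => ?_)
    have e : 2 ^ (w + 2) * m + r = 2 * (2 ^ (w + 1) * m + s) := by rw [h, e2]; ring
    rw [e, g_even]; ring
  · refine fin w (3 * s + 1) (by omega) (fun m => ?_)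
    have e : 2 ^ (w + 2) * m + r = 4 * (2 ^ w * m + s) + 1 := by rw [h, e4]; ring
    rw [e, g_one]; ring
  · refine fin w (3 * s + 2) (by omega) (fun m => ?_)
    have e : 2 ^ (w + 2) * m + r = 4 * (2 ^ w * m + s) + 3 := by rw [h, e4]; ring
    rw [e, g_three]; ring

theorem entry_automatic (S : Set ℕ) (hA : TwoAutomatic S) : TwoAutomatic (Entry S) := by
  have hK : (entryAutoKer S).Finite := hA
  have hfin : ((fun p : (Set ℕ × Set ℕ) × ℕ => p.1.1ᶜ ∩ {m : ℕ | 3 * m + p.2 ∈ p.1.2}) ''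
      ((entryAutoKer S ×ˢ entryAutoKer S) ×ˢ Set.Iio 3)).Finite :=
    ((hK.prod hK).prod (Set.finite_Iio 3)).image _
  have hfin2 : ({T : Set ℕ | ∃ w r : ℕ, w < 2 ∧ r < 2 ∧
      T = {m : ℕ | 2 ^ w * m + r ∈ Entry S}}).Finite := by
    apply (((Set.finite_Iio 2).prod (Set.finite_Iio 2)).image
      (fun p : ℕ × ℕ => {m : ℕ | 2 ^ p.1 * m + p.2 ∈ Entry S})).subset
    rintro T ⟨w, r, hw, hr, rfl⟩
    exact ⟨(w, r), ⟨hw, hr⟩, rfl⟩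
  unfold TwoAutomatic
  apply (hfin.union hfin2).subset
  rintro T ⟨w, r, hr, rfl⟩
  by_cases hw : w < 2
  · right
    refine ⟨w, r, hw, ?_, rfl⟩
    have : (2 : ℕ) ^ w ≤ 2 ^ 1 := Nat.pow_le_pow_right (by norm_num) (by omega)
    omega
  · left
    obtain ⟨v, c, u, hu, hc, hg⟩ := entryAuto_g (by omega : 2 ≤ w) hr
    refine ⟨(({m : ℕ | 2 ^ w * m + r ∈ S}, {m : ℕ | 2 ^ v * m + u ∈ S}), c),
      ⟨⟨⟨w, r, hr, rfl⟩, ⟨v, u, hu, rfl⟩⟩, hc⟩, ?_⟩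
    ext m
    simp only [Entry, Set.mem_inter_iff, Set.mem_compl_iff, Set.mem_ofPred_eq, hg m]

end ConwayAuto
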