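import Pool.Agent.Lib.ConwayAuto.Defs3

/-!
The set of the numbers which enter a 3-automatic set at the next step of `g` is 3-automatic.
-/

namespace ConwayAuto

/-- the 3-kernel of a set -/
def entryAuto3Ker (S : Set ℕ) : Set (Set ℕ) :=
  {T : Set ℕ | ∃ w r : ℕ, r < 3 ^ w ∧ T = {m : ℕ | 3 ^ w * m + r ∈ S}}

/-- `g` on the numbers `3 ^ w * m + r`, for the residue class of `m` mod `4` -/
theorem entryAuto3_g {w r b : ℕ} (hr : r < 3 ^ w) (hb : b < 4) :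
    ∃ k c u : ℕ, k < 3 ∧ c < 2 ∧ u < 3 ^ (w + 1) ∧
      ∀ m : ℕ, g (3 ^ w * (4 * m + b) + r) = 3 ^ (w + 1) * (k * m + c) + u := by
  have hs : 3 ^ w * b + r < 4 * 3 ^ w := by
    have h1 : 3 ^ w * (b + 1) ≤ 3 ^ w * 4 := Nat.mul_le_mul_left _ hb
    have h2 : 3 ^ w * (b + 1) = 3 ^ w * b + 3 ^ w := by ring
    omega
  have e3 : (3 : ℕ) ^ (w + 1) = 3 * 3 ^ w := by rw [pow_succ]; ring
  have en : ∀ m : ℕ, 3 ^ w * (4 * m + b) + r = 4 * (3 ^ w * m) + (3 ^ w * b + r) := by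
    intro m; ring
  generalize 3 ^ w * b + r = s at hs en
  obtain ⟨x, h | h | h⟩ : ∃ x, s = 2 * x ∨ s = 4 * x + 1 ∨ s = 4 * x + 3 := by
    by_cases h2 : s % 2 = 0
    · exact ⟨s / 2, by omega⟩
    · exact ⟨s / 4, by omega⟩
  · refine ⟨2, 3 * x / 3 ^ (w + 1), 3 * x % 3 ^ (w + 1), by norm_num, ?_,
      Nat.mod_lt _ (by positivity), fun m => ?_⟩
    · exact (Nat.div_lt_iff_lt_mul (by positivity)).2 (by omega)
    · have e : 4 * (3 ^ w * m) + 2 * x = 2 * (2 * (3 ^ w * m) + x) := by ring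
      have h1 := Nat.div_add_mod (3 * x) (3 ^ (w + 1))
      rw [en m, h, e, g_even]
      calc 3 * (2 * (3 ^ w * m) + x) = 3 * 3 ^ w * (2 * m) + 3 * x := by ring
        _ = 3 ^ (w + 1) * (2 * m) +
            (3 ^ (w + 1) * (3 * x / 3 ^ (w + 1)) + 3 * x % 3 ^ (w + 1)) := by rw [h1, e3]
        _ = 3 ^ (w + 1) * (2 * m + 3 * x / 3 ^ (w + 1)) + 3 * x % 3 ^ (w + 1) := by ring
  · refine ⟨1, 0, 3 * x + 1, by norm_num, by norm_num, by omega, fun m => ?_⟩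
    have e : 4 * (3 ^ w * m) + (4 * x + 1) = 4 * (3 ^ w * m + x) + 1 := by ring
    rw [en m, h, e, g_one, e3]; ring
  · refine ⟨1, 0, 3 * x + 2, by norm_num, by norm_num, by omega, fun m => ?_⟩
    have e : 4 * (3 ^ w * m) + (4 * x + 3) = 4 * (3 ^ w * m + x) + 3 := by ring
    rw [en m, h, e, g_three, e3]; ring

theorem entry_automatic3 (S : Set ℕ) (hA : ThreeAutomatic S) : ThreeAutomatic (Entry S) := by
  have hK : (entryAuto3Ker S).Finite := hA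
  have hP : (((Set.Iio 3 : Set ℕ) ×ˢ (Set.Iio 2 : Set ℕ)) ×ˢ entryAuto3Ker S).Finite :=
    ((Set.finite_Iio 3).prod (Set.finite_Iio 2)).prod hK
  have hF : {f : Fin 4 → (ℕ × ℕ) × Set ℕ |
      ∀ i, f i ∈ ((Set.Iio 3 : Set ℕ) ×ˢ (Set.Iio 2 : Set ℕ)) ×ˢ entryAuto3Ker S}.Finite :=
    Set.Finite.pi' (fun _ => hP)
  have hm4 : ∀ m : ℕ, m % 4 < 4 := fun m => Nat.mod_lt _ (by norm_num)
  unfold ThreeAutomatic
  apply ((hK.prod hF).image (fun p : Set ℕ × (Fin 4 → (ℕ × ℕ) × Set ℕ) =>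
    p.1ᶜ ∩ {m : ℕ | (p.2 ⟨m % 4, hm4 m⟩).1.1 * (m / 4) + (p.2 ⟨m % 4, hm4 m⟩).1.2 ∈
      (p.2 ⟨m % 4, hm4 m⟩).2})).subset
  rintro T ⟨w, r, hr, rfl⟩
  have hex : ∀ b : Fin 4, ∃ k c u : ℕ, k < 3 ∧ c < 2 ∧ u < 3 ^ (w + 1) ∧
      ∀ m : ℕ, g (3 ^ w * (4 * m + (b : ℕ)) + r) = 3 ^ (w + 1) * (k * m + c) + u :=
    fun b => entryAuto3_g hr b.2
  choose k c u hk hc hu hg using hex
  refine ⟨({m : ℕ | 3 ^ w * m + r ∈ S},
    fun b => ((k b, c b), {m : ℕ | 3 ^ (w + 1) * m + u b ∈ S})), ⟨⟨w, r, hr, rfl⟩, ?_⟩, ?_⟩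
  · intro b
    exact ⟨⟨hk b, hc b⟩, ⟨w + 1, u b, hu b, rfl⟩⟩
  · ext m
    have h1 := hg ⟨m % 4, hm4 m⟩ (m / 4)
    have h2 : 4 * (m / 4) + m % 4 = m := Nat.div_add_mod m 4
    have h3 : g (3 ^ w * m + r) = 3 ^ (w + 1) *
        (k ⟨m % 4, hm4 m⟩ * (m / 4) + c ⟨m % 4, hm4 m⟩) + u ⟨m % 4, hm4 m⟩ := by
      rw [← h1]
      simp only [h2]
    simp only [Entry, Set.mem_inter_iff, Set.mem_compl_iff, Set.mem_ofPred_eq, h3]

end ConwayAuto
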