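import Pool.Agent.Lib.ConwayAuto.DefsB

/-!
The set of the numbers which enter a `b`-automatic set at the next step of `g` is `b`-automatic.
-/

namespace ConwayAuto

/-- the `b`-kernel of a set -/
def entryAutoBKer (b : ℕ) (S : Set ℕ) : Set (Set ℕ) :=
  {T : Set ℕ | ∃ w r : ℕ, r < b ^ w ∧ T = {m : ℕ | b ^ w * m + r ∈ S}}

/-- `g` on the numbers `q * m + r`, `r < q`, for the residue class of `m` mod `4` -/
theorem entryAutoB_g {q r e : ℕ} (hq : 0 < q) (hr : r < q) (he : e < 4) :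
    ∃ k c u : ℕ, k < 7 ∧ c < 6 ∧ u < q ∧
      ∀ m : ℕ, g (q * (4 * m + e) + r) = q * (k * m + c) + u := by
  have hs : q * e + r < 4 * q := by
    have h1 : q * (e + 1) ≤ q * 4 := Nat.mul_le_mul_left _ he
    have h2 : q * (e + 1) = q * e + q := by ring
    omega
  have en : ∀ m : ℕ, q * (4 * m + e) + r = 4 * (q * m) + (q * e + r) := by
    intro m; ring
  generalize q * e + r = s at hs en
  have fin : ∀ k x : ℕ, k < 7 → x < 6 * q →
      (∀ m : ℕ, g (4 * (q * m) + s) = q * (k * m) + x) →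
      ∃ k c u : ℕ, k < 7 ∧ c < 6 ∧ u < q ∧
        ∀ m : ℕ, g (q * (4 * m + e) + r) = q * (k * m + c) + u := by
    intro k x hk hx hg
    refine ⟨k, x / q, x % q, hk, (Nat.div_lt_iff_lt_mul hq).2 hx, Nat.mod_lt _ hq, fun m => ?_⟩
    have h1 := Nat.div_add_mod x q
    rw [en m, hg m]
    calc q * (k * m) + x = q * (k * m) + (q * (x / q) + x % q) := by rw [h1]
      _ = q * (k * m + x / q) + x % q := by ring
  obtain ⟨x, h | h | h⟩ : ∃ x, s = 2 * x ∨ s = 4 * x + 1 ∨ s = 4 * x + 3 := by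
    by_cases h2 : s % 2 = 0
    · exact ⟨s / 2, by omega⟩
    · exact ⟨s / 4, by omega⟩
  · refine fin 6 (3 * x) (by norm_num) (by omega) (fun m => ?_)
    have e1 : 4 * (q * m) + s = 2 * (2 * (q * m) + x) := by rw [h]; ring
    rw [e1, g_even]; ring
  · refine fin 3 (3 * x + 1) (by norm_num) (by omega) (fun m => ?_)
    have e1 : 4 * (q * m) + s = 4 * (q * m + x) + 1 := by rw [h]; ring
    rw [e1, g_one]; ring
  · refine fin 3 (3 * x + 2) (by norm_num) (by omega) (fun m => ?_)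
    have e1 : 4 * (q * m) + s = 4 * (q * m + x) + 3 := by rw [h]; ring
    rw [e1, g_three]; ring

theorem entry_automaticB (b : ℕ) (hb : 0 < b) (S : Set ℕ) (hA : AutomaticIn b S) :
    AutomaticIn b (Entry S) := by
  have hK : (entryAutoBKer b S).Finite := hA
  have hP : (((Set.Iio 7 : Set ℕ) ×ˢ (Set.Iio 6 : Set ℕ)) ×ˢ entryAutoBKer b S).Finite :=
    ((Set.finite_Iio 7).prod (Set.finite_Iio 6)).prod hK
  have hF : {f : Fin 4 → (ℕ × ℕ) × Set ℕ |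
      ∀ i, f i ∈ ((Set.Iio 7 : Set ℕ) ×ˢ (Set.Iio 6 : Set ℕ)) ×ˢ entryAutoBKer b S}.Finite :=
    Set.Finite.pi' (fun _ => hP)
  have hm4 : ∀ m : ℕ, m % 4 < 4 := fun m => Nat.mod_lt _ (by norm_num)
  unfold AutomaticIn
  apply ((hK.prod hF).image (fun p : Set ℕ × (Fin 4 → (ℕ × ℕ) × Set ℕ) =>
    p.1ᶜ ∩ {m : ℕ | (p.2 ⟨m % 4, hm4 m⟩).1.1 * (m / 4) + (p.2 ⟨m % 4, hm4 m⟩).1.2 ∈
      (p.2 ⟨m % 4, hm4 m⟩).2})).subset
  rintro T ⟨w, r, hr, rfl⟩
  have hex : ∀ e : Fin 4, ∃ k c u : ℕ, k < 7 ∧ c < 6 ∧ u < b ^ w ∧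
      ∀ m : ℕ, g (b ^ w * (4 * m + (e : ℕ)) + r) = b ^ w * (k * m + c) + u :=
    fun e => entryAutoB_g (Nat.pow_pos hb) hr e.2
  choose k c u hk hc hu hg using hex
  refine ⟨({m : ℕ | b ^ w * m + r ∈ S},
    fun e => ((k e, c e), {m : ℕ | b ^ w * m + u e ∈ S})), ⟨⟨w, r, hr, rfl⟩, ?_⟩, ?_⟩
  · intro e
    exact ⟨⟨hk e, hc e⟩, ⟨w, u e, hu e, rfl⟩⟩
  · ext m
    have h1 := hg ⟨m % 4, hm4 m⟩ (m / 4)
    have h2 : 4 * (m / 4) + m % 4 = m := Nat.div_add_mod m 4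
    have h3 : g (b ^ w * m + r) = b ^ w *
        (k ⟨m % 4, hm4 m⟩ * (m / 4) + c ⟨m % 4, hm4 m⟩) + u ⟨m % 4, hm4 m⟩ := by
      rw [← h1]
      simp only [h2]
    simp only [Entry, Set.mem_inter_iff, Set.mem_compl_iff, Set.mem_ofPred_eq, h3]

end ConwayAuto
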