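import Pool.Agent.Lib.ConwayAuto.Defs
import Pool.Agent.Lib.ConwayAuto.DensePow

/-!
Steering lemma for Conway's permutation.
-/

namespace ConwayAuto

namespace Steer

/-- a cylinder of `k` steps -/
def Cyl (k w r t : ℕ) : Prop :=
  r < 2 ^ w ∧ t < 3 ^ k ∧ ∀ m, g^[k] (2 ^ w * m + r) = 3 ^ k * m + t

theorem solve (M c r ρ : ℕ) (hM : 0 < M) (hc : Nat.Coprime c M) : ∃ m, (c * m + r) ≡ ρ [MOD M] := by
  haveI : NeZero M := ⟨hM.ne'⟩
  refine ⟨(((ρ : ZMod M) - r) * (c : ZMod M)⁻¹).val, ?_⟩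
  rw [← ZMod.natCast_eq_natCast_iff]
  push_cast
  rw [ZMod.natCast_zmod_val]
  have h := ZMod.coe_mul_inv_eq_one c hc
  calc (c : ZMod M) * (((ρ : ZMod M) - r) * (c : ZMod M)⁻¹) + r
      = ((ρ : ZMod M) - r) * ((c : ZMod M) * (c : ZMod M)⁻¹) + r := by ring
    _ = ρ := by rw [h]; ring

/-- composition of cylinders -/
theorem Cyl.comp {k₁ w₁ r₁ t₁ k₂ w₂ r₂ t₂ : ℕ} (h₁ : Cyl k₁ w₁ r₁ t₁) (h₂ : Cyl k₂ w₂ r₂ t₂) :
    ∃ c d : ℕ, 3 ^ k₁ * c + t₁ = 2 ^ w₂ * d + r₂ ∧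
      Cyl (k₁ + k₂) (w₁ + w₂) (2 ^ w₁ * c + r₁) (3 ^ k₂ * d + t₂) := by
  obtain ⟨hr₁, ht₁, hg₁⟩ := h₁
  obtain ⟨hr₂, ht₂, hg₂⟩ := h₂
  obtain ⟨m, hm⟩ := solve (2 ^ w₂) (3 ^ k₁) t₁ r₂ (by positivity)
    (Nat.Coprime.pow _ _ (by norm_num))
  set c := m % 2 ^ w₂ with hc
  have hc2 : c < 2 ^ w₂ := Nat.mod_lt _ (by positivity)
  have hm' : 3 ^ k₁ * c + t₁ ≡ r₂ [MOD 2 ^ w₂] := by
    refine Nat.ModEq.trans ?_ hm
    exact Nat.ModEq.add_right _ (Nat.ModEq.mul_left _ (Nat.mod_modEq _ _))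
  have hmod : (3 ^ k₁ * c + t₁) % 2 ^ w₂ = r₂ := by
    have := hm'
    unfold Nat.ModEq at this
    rw [this, Nat.mod_eq_of_lt hr₂]
  set d := (3 ^ k₁ * c + t₁) / 2 ^ w₂ with hd
  have heq : 3 ^ k₁ * c + t₁ = 2 ^ w₂ * d + r₂ := by
    have := Nat.div_add_mod (3 ^ k₁ * c + t₁) (2 ^ w₂)
    rw [hmod] at this
    exact this.symm
  have hd3 : d < 3 ^ k₁ := by
    rw [hd, Nat.div_lt_iff_lt_mul (by positivity)]
    calc 3 ^ k₁ * c + t₁ < 3 ^ k₁ * c + 3 ^ k₁ := by omega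
      _ = 3 ^ k₁ * (c + 1) := by ring
      _ ≤ 3 ^ k₁ * 2 ^ w₂ := Nat.mul_le_mul_left _ hc2
  refine ⟨c, d, heq, ?_, ?_, fun m => ?_⟩
  · calc 2 ^ w₁ * c + r₁ < 2 ^ w₁ * c + 2 ^ w₁ := by omega
      _ = 2 ^ w₁ * (c + 1) := by ring
      _ ≤ 2 ^ w₁ * 2 ^ w₂ := Nat.mul_le_mul_left _ hc2
      _ = 2 ^ (w₁ + w₂) := by rw [pow_add]
  · calc 3 ^ k₂ * d + t₂ < 3 ^ k₂ * d + 3 ^ k₂ := by omega
      _ = 3 ^ k₂ * (d + 1) := by ring
      _ ≤ 3 ^ k₂ * 3 ^ k₁ := Nat.mul_le_mul_left _ hd3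
      _ = 3 ^ (k₁ + k₂) := by rw [pow_add]; ring
  · have e : 2 ^ (w₁ + w₂) * m + (2 ^ w₁ * c + r₁) = 2 ^ w₁ * (2 ^ w₂ * m + c) + r₁ := by
      rw [pow_add]; ring
    rw [e, add_comm k₁ k₂, Function.iterate_add_apply, hg₁]
    have e2 : 3 ^ k₁ * (2 ^ w₂ * m + c) + t₁ = 2 ^ w₂ * (3 ^ k₁ * m + d) + r₂ := by
      calc 3 ^ k₁ * (2 ^ w₂ * m + c) + t₁ = 2 ^ w₂ * (3 ^ k₁ * m) + (3 ^ k₁ * c + t₁) := by ring
        _ = 2 ^ w₂ * (3 ^ k₁ * m + d) + r₂ := by rw [heq]; ring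
    rw [e2, hg₂, pow_add]; ring

theorem cyl_even : Cyl 1 1 0 0 := by
  refine ⟨by norm_num, by norm_num, fun m => ?_⟩
  simp [g_even]

theorem cyl_plus : Cyl 1 2 1 1 := by
  refine ⟨by norm_num, by norm_num, fun m => ?_⟩
  simpa using g_one m

theorem cyl_minus : Cyl 1 2 3 2 := by
  refine ⟨by norm_num, by norm_num, fun m => ?_⟩
  simpa using g_three m

theorem cyl_nil : Cyl 0 0 0 0 := by
  refine ⟨by norm_num, by norm_num, fun m => ?_⟩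
  simp

/-- a cylinder acting on `ZMod q` so that `y ↦ y'` -/
def Rel (q k w r t : ℕ) (y y' : ZMod q) : Prop :=
  Cyl k w r t ∧ (2 : ZMod q) ^ w * (y' - t) = 3 ^ k * (y - r)

theorem Rel.comp {q k₁ w₁ r₁ t₁ k₂ w₂ r₂ t₂ : ℕ} {y y' y'' : ZMod q}
    (h₁ : Rel q k₁ w₁ r₁ t₁ y y') (h₂ : Rel q k₂ w₂ r₂ t₂ y' y'') :
    ∃ c d : ℕ, Rel q (k₁ + k₂) (w₁ + w₂) (2 ^ w₁ * c + r₁) (3 ^ k₂ * d + t₂) y y'' := by
  obtain ⟨hc₁, he₁⟩ := h₁
  obtain ⟨hc₂, he₂⟩ := h₂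
  obtain ⟨c, d, hcd, hC⟩ := hc₁.comp hc₂
  refine ⟨c, d, hC, ?_⟩
  have hcd' : (3 : ZMod q) ^ k₁ * c + t₁ = 2 ^ w₂ * d + r₂ := by
    exact_mod_cast congrArg (Nat.cast : ℕ → ZMod q) hcd
  push_cast
  rw [pow_add, pow_add]
  linear_combination (2 : ZMod q) ^ w₁ * he₂ + (3 : ZMod q) ^ k₂ * he₁ +
    (2 : ZMod q) ^ w₁ * 3 ^ k₂ * hcd'

def Mv (q k w : ℕ) (y y' : ZMod q) : Prop := ∃ r t, Rel q k w r t y y'

theorem Mv.comp {q k₁ w₁ k₂ w₂ : ℕ} {y y' y'' : ZMod q} (h₁ : Mv q k₁ w₁ y y')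
    (h₂ : Mv q k₂ w₂ y' y'') : Mv q (k₁ + k₂) (w₁ + w₂) y y'' := by
  obtain ⟨r₁, t₁, h₁⟩ := h₁
  obtain ⟨r₂, t₂, h₂⟩ := h₂
  obtain ⟨c, d, h⟩ := h₁.comp h₂
  exact ⟨_, _, h⟩

theorem Mv.cast {q k w k' w' : ℕ} {y y' : ZMod q} (h : Mv q k w y y') (hk : k = k') (hw : w = w') :
    Mv q k' w' y y' := by subst hk; subst hw; exact h

theorem mv_refl (q : ℕ) (y : ZMod q) : Mv q 0 0 y y := ⟨0, 0, cyl_nil, by simp⟩

theorem mv_even {q : ℕ} {y y' : ZMod q} (h : 2 * y' = 3 * y) : Mv q 1 1 y y' :=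
  ⟨0, 0, cyl_even, by simpa using h⟩

theorem mv_plus {q : ℕ} {y y' : ZMod q} (h : 4 * (y' - 1) = 3 * (y - 1)) : Mv q 1 2 y y' :=
  ⟨1, 1, cyl_plus, by push_cast; linear_combination h⟩

theorem mv_minus {q : ℕ} {y y' : ZMod q} (h : 4 * (y' + 1) = 3 * (y + 1)) : Mv q 1 2 y y' :=
  ⟨3, 2, cyl_minus, by push_cast; linear_combination h⟩

theorem mv_even_pow {q : ℕ} {i2 : ZMod q} (h2 : 2 * i2 = 1) (n : ℕ) :
    ∀ y y' : ZMod q, 2 ^ n * y' = 3 ^ n * y → Mv q n n y y' := by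
  induction n with
  | zero => intro y y' h; simp at h; rw [h]; exact mv_refl q y
  | succ n ih =>
    intro y y' h
    have hp : (2 : ZMod q) ^ n * i2 ^ n = 1 := by rw [← mul_pow, h2, one_pow]
    refine (ih y (3 ^ n * y * i2 ^ n) ?_).comp (mv_even ?_)
    · linear_combination (3 : ZMod q) ^ n * y * hp
    · rw [pow_succ, pow_succ] at h
      linear_combination i2 ^ n * h - 2 * y' * hp

theorem mv_minus_pow {q : ℕ} {i2 : ZMod q} (h2 : 2 * i2 = 1) (n : ℕ) :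
    ∀ y y' : ZMod q, 4 ^ n * (y' + 1) = 3 ^ n * (y + 1) → Mv q n (2 * n) y y' := by
  induction n with
  | zero =>
    intro y y' h
    have : y' = y := by linear_combination h
    rw [this]; exact mv_refl q y
  | succ n ih =>
    intro y y' h
    have h4 : (4 : ZMod q) * i2 ^ 2 = 1 := by linear_combination (2 * i2 + 1) * h2
    have hp : (4 : ZMod q) ^ n * (i2 ^ 2) ^ n = 1 := by rw [← mul_pow, h4, one_pow]
    refine ((ih y (3 ^ n * (y + 1) * (i2 ^ 2) ^ n - 1) ?_).comp (mv_minus (y' := y') ?_)).cast rfl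
      (by ring)
    · linear_combination (3 : ZMod q) ^ n * (y + 1) * hp
    · rw [pow_succ, pow_succ] at h
      linear_combination (i2 ^ 2) ^ n * h - 4 * (y' + 1) * hp

section
variable {q : ℕ} (hq : Nat.Coprime q 6)
include hq

theorem cop2 : Nat.Coprime 2 q := by
  have : Nat.Coprime q 2 := Nat.Coprime.coprime_dvd_right (by norm_num) hq
  exact this.symm

theorem cop3 : Nat.Coprime 3 q := by
  have : Nat.Coprime q 3 := Nat.Coprime.coprime_dvd_right (by norm_num) hq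
  exact this.symm

theorem two_pow_tot : (2 : ZMod q) ^ q.totient = 1 := by
  have h : ((ZMod.unitOfCoprime 2 (cop2 hq) ^ q.totient : (ZMod q)ˣ) : ZMod q) = 1 := by
    rw [ZMod.pow_totient]; rfl
  rw [Units.val_pow_eq_pow_val, ZMod.coe_unitOfCoprime] at h
  exact_mod_cast h

theorem three_pow_tot : (3 : ZMod q) ^ q.totient = 1 := by
  have h : ((ZMod.unitOfCoprime 3 (cop3 hq) ^ q.totient : (ZMod q)ˣ) : ZMod q) = 1 := by
    rw [ZMod.pow_totient]; rfl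
  rw [Units.val_pow_eq_pow_val, ZMod.coe_unitOfCoprime] at h
  exact_mod_cast h

theorem exists_half : ∃ i2 : ZMod q, 2 * i2 = 1 := by
  refine ⟨((2 : ℕ) : ZMod q)⁻¹, ?_⟩
  have := ZMod.coe_mul_inv_eq_one (n := q) 2 (cop2 hq)
  simpa using this

theorem q_pos : 0 < q := by
  rcases Nat.eq_zero_or_pos q with h | h
  · subst h; simp at hq
  · exact h

theorem tot_pos : 0 < q.totient := Nat.totient_pos.mpr (q_pos hq)

theorem mv_even_full (y : ZMod q) : Mv q q.totient q.totient y y := by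
  obtain ⟨i2, h2⟩ := exists_half hq
  exact mv_even_pow h2 _ y y (by rw [two_pow_tot hq, three_pow_tot hq])

theorem mv_minus_full (y : ZMod q) : Mv q q.totient (2 * q.totient) y y := by
  obtain ⟨i2, h2⟩ := exists_half hq
  refine mv_minus_pow h2 _ y y ?_
  have : (4 : ZMod q) = 2 ^ 2 := by norm_num
  rw [this, ← pow_mul, mul_comm 2, pow_mul, two_pow_tot hq, three_pow_tot hq]; simp

theorem mv_half (y y' : ZMod q) (h : 2 * y' = 2 * y + 1) : Mv q q.totient (2 * q.totient) y y' := by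
  obtain ⟨i2, h2⟩ := exists_half hq
  obtain ⟨N, hN⟩ : ∃ N, q.totient = N + 1 := ⟨q.totient - 1, by have := tot_pos hq; omega⟩
  have h3 := three_pow_tot hq
  have h4 : (4 : ZMod q) ^ q.totient = 1 := by
    have : (4 : ZMod q) = 2 ^ 2 := by norm_num
    rw [this, ← pow_mul, mul_comm 2, pow_mul, two_pow_tot hq]; simp
  rw [hN, pow_succ] at h3 h4
  rw [hN]
  refine ((mv_minus_pow h2 N y (4 * 3 ^ N * (y + 1) - 1) ?_).comp (mv_plus (y' := y') ?_)).cast rfl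
    (by ring)
  · linear_combination (3 : ZMod q) ^ N * (y + 1) * h4
  · linear_combination 2 * h - 4 * (y + 1) * h3

theorem mv_add (i : ℕ) (y : ZMod q) : Mv q (2 * i * q.totient) (4 * i * q.totient) y (y + i) := by
  obtain ⟨i2, h2⟩ := exists_half hq
  induction i with
  | zero => simpa using mv_refl q y
  | succ i ih =>
    have h1 : Mv q q.totient (2 * q.totient) (y + i) (y + i + i2) :=
      mv_half hq _ _ (by linear_combination h2)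
    have h3 : Mv q q.totient (2 * q.totient) (y + i + i2) (y + (i + 1 : ℕ)) :=
      mv_half hq _ _ (by push_cast; linear_combination -h2)
    exact ((ih.comp h1).comp h3).cast (by ring) (by ring)

theorem mv_adj_even (u : ℕ) (y : ZMod q) : Mv q (q.totient * u) (q.totient * u) y y := by
  induction u with
  | zero => simpa using mv_refl q y
  | succ u ih => exact (ih.comp (mv_even_full hq y)).cast (by ring) (by ring)

theorem mv_adj_minus (v : ℕ) (y : ZMod q) : Mv q (q.totient * v) (q.totient * (2 * v)) y y := by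
  induction v with
  | zero => simpa using mv_refl q y
  | succ v ih => exact (ih.comp (mv_minus_full hq y)).cast (by ring) (by ring)

theorem mv_adj (u v : ℕ) (y : ZMod q) :
    Mv q (q.totient * (u + v)) (q.totient * (u + 2 * v)) y y :=
  ((mv_adj_even hq u y).comp (mv_adj_minus hq v y)).cast (by ring) (by ring)

end

/-- the main existence statement: a cylinder with prescribed beginning mod `2^a`, end mod `3^b`,
action on `ZMod q` and ratio -/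
theorem main_cyl (a b q ρ ρ' : ℕ) (hq : Nat.Coprime q 6) (α β : ℝ) (hα : 0 < α) (hαβ : α < β) :
    ∃ k w r t : ℕ, Rel q k w r t (ρ : ZMod q) (ρ' : ZMod q) ∧ r ≡ ρ [MOD 2 ^ a] ∧
      t ≡ ρ' [MOD 3 ^ b] ∧ b ≤ k ∧ a ≤ w ∧ α < (3 : ℝ) ^ k / 2 ^ w ∧ (3 : ℝ) ^ k / 2 ^ w < β := by
  obtain ⟨i2, h2⟩ := exists_half hq
  obtain ⟨i3, h3⟩ : ∃ i3 : ZMod q, 3 * i3 = 1 := by
    refine ⟨((3 : ℕ) : ZMod q)⁻¹, ?_⟩
    have := ZMod.coe_mul_inv_eq_one (n := q) 3 (cop3 hq)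
    simpa using this
  -- the first cylinder
  obtain ⟨w₀, r₀, t₀, m₀, hkw, -, hr₀, ht₀, hρ, hg₀⟩ := cyl_of a ρ
  have hρr : r₀ ≡ ρ [MOD 2 ^ w₀] := by
    rw [hρ]; unfold Nat.ModEq; simp [Nat.add_mod]
  set y₁ : ZMod q := 3 ^ a * ((ρ : ZMod q) - r₀) * i2 ^ w₀ + t₀ with hy₁
  have hR₀ : Rel q a w₀ r₀ t₀ (ρ : ZMod q) y₁ := by
    refine ⟨⟨hr₀, ht₀, hg₀⟩, ?_⟩
    have hp : (2 : ZMod q) ^ w₀ * i2 ^ w₀ = 1 := by rw [← mul_pow, h2, one_pow]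
    rw [hy₁]
    linear_combination (3 : ZMod q) ^ a * ((ρ : ZMod q) - r₀) * hp
  -- the last cylinder
  obtain ⟨w₃, r₃, hw₃, -, hr₃, hg₃⟩ := cyl b (ρ' % 3 ^ b) (Nat.mod_lt _ (by positivity))
  set t₃ := ρ' % 3 ^ b with ht₃
  have ht₃' : t₃ < 3 ^ b := Nat.mod_lt _ (by positivity)
  set y₂ : ZMod q := 2 ^ w₃ * ((ρ' : ZMod q) - t₃) * i3 ^ b + r₃ with hy₂
  have hR₃ : Rel q b w₃ r₃ t₃ y₂ (ρ' : ZMod q) := by
    refine ⟨⟨hr₃, ht₃', hg₃⟩, ?_⟩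
    have hp : (3 : ZMod q) ^ b * i3 ^ b = 1 := by rw [← mul_pow, h3, one_pow]
    rw [hy₂]
    linear_combination -(2 : ZMod q) ^ w₃ * ((ρ' : ZMod q) - t₃) * hp
  -- the translation
  haveI : NeZero q := ⟨(q_pos hq).ne'⟩
  set i : ℕ := (y₂ - y₁).val with hi
  have hyi : y₁ + (i : ZMod q) = y₂ := by
    rw [hi, ZMod.natCast_zmod_val]; ring
  have hM₁ := mv_add hq i y₁
  rw [hyi] at hM₁
  -- the ratio
  set N := q.totient with hN
  have hNpos : 0 < N := tot_pos hq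
  set Θ : ℝ := (3 : ℝ) ^ a / 2 ^ w₀ * (3 ^ (2 * i * N) / 2 ^ (4 * i * N)) * (3 ^ b / 2 ^ w₃) with hΘ
  have hΘpos : 0 < Θ := by positivity
  obtain ⟨u, v, huv1, huv2⟩ := dense_pow_pow (((3 : ℝ) / 2) ^ N) (((3 : ℝ) / 4) ^ N)
    (one_lt_pow₀ (by norm_num) hNpos.ne') (by positivity)
    (pow_lt_one₀ (by norm_num) (by norm_num) hNpos.ne')
    (by
      intro i' j' hi' h
      rw [← pow_mul, ← pow_mul, div_pow, div_pow, div_mul_div_comm, ← pow_add] at h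
      have h2' : (2 : ℝ) ^ (N * i') * 4 ^ (N * j') ≠ 0 := by positivity
      rw [div_eq_one_iff_eq h2'] at h
      have h' : 3 ^ (N * i' + N * j') = 2 ^ (N * i') * 4 ^ (N * j') := by exact_mod_cast h
      have hodd : Odd (3 ^ (N * i' + N * j')) := Odd.pow (by decide)
      rw [h'] at hodd
      have heven : Even (2 ^ (N * i') * 4 ^ (N * j')) := by
        apply Even.mul_right
        exact (Nat.even_pow.mpr ⟨by decide, by positivity⟩)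
      exact (Nat.not_even_iff_odd.mpr hodd) heven)
    (α / Θ) (β / Θ) (by positivity) (by gcongr)
  have hM₂ := mv_adj hq u v y₂
  obtain ⟨r₁, t₁, hR₁⟩ := hM₁
  obtain ⟨r₂, t₂, hR₂⟩ := hM₂
  obtain ⟨c₁, d₁, hR₀₁⟩ := hR₀.comp hR₁
  obtain ⟨c₂, d₂, hR₀₂⟩ := hR₀₁.comp hR₂
  obtain ⟨c₃, d₃, hRR⟩ := hR₀₂.comp hR₃
  have hratio : (3 : ℝ) ^ (a + 2 * i * N + N * (u + v) + b) /
      2 ^ (w₀ + 4 * i * N + N * (u + 2 * v) + w₃) =
      Θ * ((((3 : ℝ) / 2) ^ N) ^ u * (((3 : ℝ) / 4) ^ N) ^ v) := by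
    rw [hΘ]
    have h4 : (4 : ℝ) = 2 ^ 2 := by norm_num
    rw [← pow_mul, ← pow_mul, div_pow, div_pow, h4, ← pow_mul]
    field_simp
    ring
  refine ⟨_, _, _, _, hRR, ?_, ?_, by omega, by omega, ?_, ?_⟩
  · have hd : 2 ^ a ∣ 2 ^ w₀ := pow_dvd_pow _ hkw
    have h1 : r₀ ≡ ρ [MOD 2 ^ a] := hρr.of_dvd hd
    refine Nat.ModEq.trans ?_ h1
    have e : 2 ^ (w₀ + 4 * i * N + N * (u + 2 * v)) * c₃ +
        (2 ^ (w₀ + 4 * i * N) * c₂ + (2 ^ w₀ * c₁ + r₀)) =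
        2 ^ a * (2 ^ (w₀ - a) * (2 ^ (4 * i * N + N * (u + 2 * v)) * c₃ +
          2 ^ (4 * i * N) * c₂ + c₁)) + r₀ := by
      have h0 : 2 ^ w₀ = 2 ^ a * 2 ^ (w₀ - a) := by rw [← pow_add]; congr 1; omega
      have h01 : 2 ^ (w₀ + 4 * i * N + N * (u + 2 * v)) =
        2 ^ a * 2 ^ (w₀ - a) * 2 ^ (4 * i * N + N * (u + 2 * v)) := by
        rw [← h0, ← pow_add]; congr 1; ring
      have h02 : 2 ^ (w₀ + 4 * i * N) = 2 ^ a * 2 ^ (w₀ - a) * 2 ^ (4 * i * N) := by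
        rw [← h0, ← pow_add]
      rw [h01, h02, h0]; ring
    rw [e]
    unfold Nat.ModEq
    simp [Nat.add_mod]
  · have : 3 ^ b * d₃ + t₃ ≡ t₃ [MOD 3 ^ b] := by
      unfold Nat.ModEq; simp [Nat.add_mod]
    exact this.trans (Nat.mod_modEq _ _)
  · rw [hratio]
    rw [div_lt_iff₀ hΘpos] at huv1
    linarith
  · rw [hratio]
    rw [lt_div_iff₀ hΘpos] at huv2
    linarith

theorem steer1 (a b q x l ρ ρ' : ℕ) (hq : Nat.Coprime q 6) (hx : 0 < x) (hl : 0 < l) :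
    ∃ T₀ : ℕ, ∀ T ≥ T₀, ∃ n k : ℕ,
      T * x ≤ n ∧ n < T * (x + 1) ∧ n ≡ ρ [MOD 2 ^ a * (3 ^ b * q)] ∧
      T * l * x ≤ g^[k] n ∧ g^[k] n < T * l * (x + 1) ∧
      g^[k] n ≡ ρ' [MOD 2 ^ a * (3 ^ b * q)] := by
  have hlR : (1 : ℝ) ≤ l := by exact_mod_cast hl
  have hqpos := q_pos hq
  have hxR : (0 : ℝ) < x := by exact_mod_cast hx
  obtain ⟨k, w, r, t, hR, hr, ht, hbk, haw, hα, hβ⟩ := main_cyl a b q ρ ρ' hq
    (l * (1 + 1 / (4 * x))) (l * (1 + 1 / (2 * x))) (by positivity)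
    (by
      have : (1 : ℝ) / (4 * x) < 1 / (2 * x) := by
        apply one_div_lt_one_div_of_lt (by positivity); nlinarith
      have h2 : (0 : ℝ) < l := by linarith
      nlinarith)
  obtain ⟨⟨hrw, htk, hg⟩, hrel⟩ := hR
  set P := 2 ^ a * (3 ^ b * q) with hP
  have hPpos : 0 < P := by positivity
  obtain ⟨m₁, hm₁⟩ := solve (3 ^ b * q) (2 ^ w) r ρ (by positivity)
    (by
      apply Nat.Coprime.mul_right
      · exact Nat.Coprime.pow _ _ (by norm_num)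
      · exact Nat.Coprime.pow_left _ (cop2 hq))
  obtain ⟨m₂, hm₂⟩ := solve (2 ^ a) (3 ^ k) t ρ' (by positivity)
    (Nat.Coprime.pow _ _ (by norm_num))
  have hcop : Nat.Coprime (2 ^ a) (3 ^ b * q) := by
    apply Nat.Coprime.mul_right
    · exact Nat.Coprime.pow _ _ (by norm_num)
    · exact Nat.Coprime.pow_left _ (cop2 hq)
  obtain ⟨m₀, hm₀a, hm₀b⟩ := Nat.chineseRemainder hcop m₂ m₁
  set m₀' := m₀ % P with hm₀'
  have hm₀P : m₀' < P := Nat.mod_lt _ hPpos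
  have h0 : m₀' ≡ m₀ [MOD P] := Nat.mod_modEq _ _
  have h0a : m₀' ≡ m₂ [MOD 2 ^ a] := (h0.of_dvd (Dvd.intro _ rfl)).trans hm₀a
  have h0b : m₀' ≡ m₁ [MOD 3 ^ b * q] := (h0.of_dvd (Dvd.intro_left _ rfl)).trans hm₀b
  refine ⟨4 * (3 ^ k + 2 ^ w) * (P + 1) + 1, fun T hj => ?_⟩
  have h2j : 4 * (3 ^ k + 2 ^ w) * (P + 1) < T := hj
  set A := T * x with hA
  set B := 2 ^ w * m₀' + r with hB
  set Dd := 2 ^ w * P with hDd
  have hDpos : 0 < Dd := by positivity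
  have hBD : B < Dd := by
    calc B < 2 ^ w * m₀' + 2 ^ w := by omega
      _ = 2 ^ w * (m₀' + 1) := by ring
      _ ≤ Dd := Nat.mul_le_mul_left _ hm₀P
  have hD2 : Dd + 4 * 3 ^ k * (P + 1) < T := by
    have e : 4 * (3 ^ k + 2 ^ w) * (P + 1) = 4 * 3 ^ k * (P + 1) + 4 * Dd + 4 * 2 ^ w := by
      rw [hDd]; ring
    omega
  have hA2 : T ≤ A := Nat.le_mul_of_pos_right _ hx
  set s := (A - B) / Dd + 1 with hs
  have hdm := Nat.div_add_mod (A - B) Dd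
  have hml := Nat.mod_lt (A - B) hDpos
  set m := m₀' + P * s with hm
  have hn : 2 ^ w * m + r = B + Dd * s := by rw [hm, hB, hDd]; ring
  have hnDs : Dd * s = Dd * ((A - B) / Dd) + Dd := by rw [hs]; ring
  have hn1 : A ≤ 2 ^ w * m + r := by rw [hn, hnDs]; omega
  have hn2 : 2 ^ w * m + r ≤ A + Dd := by rw [hn, hnDs]; omega
  have hAx : T * (x + 1) = A + T := by rw [hA]; ring
  refine ⟨2 ^ w * m + r, k, hn1, by omega, ?_, ?_, ?_, ?_⟩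
  · rw [← Nat.modEq_and_modEq_iff_modEq_mul hcop]
    constructor
    · refine Nat.ModEq.trans ?_ hr
      have hd : 2 ^ w = 2 ^ a * 2 ^ (w - a) := by rw [← pow_add]; congr 1; omega
      rw [hd, mul_assoc]
      unfold Nat.ModEq
      simp [Nat.add_mod]
    · refine Nat.ModEq.trans ?_ hm₁
      apply Nat.ModEq.add_right
      apply Nat.ModEq.mul_left
      refine Nat.ModEq.trans ?_ h0b
      rw [hm, hP]
      have : m₀' + 2 ^ a * (3 ^ b * q) * s = m₀' + (3 ^ b * q) * (2 ^ a * s) := by ring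
      rw [this]
      unfold Nat.ModEq
      simp [Nat.add_mod]
  · -- lower bound
    rw [hg]
    have hreal : ((T * l * x : ℕ) : ℝ) ≤ ((3 ^ k * m + t : ℕ) : ℝ) := by
      push_cast
      have hw0 : (0 : ℝ) < 2 ^ w := by positivity
      have hmA : (2 : ℝ) ^ w * m + r ≥ T * x := by exact_mod_cast hn1
      have hrR : (r : ℝ) < 2 ^ w := by exact_mod_cast hrw
      set Θ : ℝ := (3 : ℝ) ^ k / 2 ^ w with hΘ
      have hΘw : (3 : ℝ) ^ k = Θ * 2 ^ w := by rw [hΘ]; field_simp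
      have h1 : (l : ℝ) * (1 + 1 / (4 * x)) * (T * x) ≤ Θ * (T * x) :=
        mul_le_mul_of_nonneg_right hα.le (by positivity)
      have h2 : (l : ℝ) * (1 + 1 / (4 * x)) * (T * x) = T * l * x + T * l / 4 := by
        field_simp
      have h3 : Θ * (T * x) ≤ Θ * (2 ^ w * m + r) :=
        mul_le_mul_of_nonneg_left hmA (by positivity)
      have h4 : Θ * (2 ^ w * m + r) ≤ 3 ^ k * m + 3 ^ k := by
        have : Θ * r ≤ Θ * 2 ^ w := mul_le_mul_of_nonneg_left hrR.le (by positivity)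
        rw [hΘw]; nlinarith
      have h5 : (4 : ℝ) * 3 ^ k ≤ T := by
        have : 4 * 3 ^ k ≤ T := by
          have : 4 * 3 ^ k * 1 ≤ 4 * 3 ^ k * (P + 1) := Nat.mul_le_mul_left _ (by omega)
          omega
        exact_mod_cast this
      have h6 : (T : ℝ) ≤ T * l := le_mul_of_one_le_right (by positivity) hlR
      have h7 : (0 : ℝ) ≤ t := by positivity
      linarith
    exact_mod_cast hreal
  · rw [hg]
    have hreal : ((3 ^ k * m + t : ℕ) : ℝ) < ((T * l * (x + 1) : ℕ) : ℝ) := by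
      push_cast
      have hw0 : (0 : ℝ) < 2 ^ w := by positivity
      have hmA : (2 : ℝ) ^ w * m + r ≤ T * x + 2 ^ w * P := by exact_mod_cast hn2
      have htR : (t : ℝ) < 3 ^ k := by exact_mod_cast htk
      set Θ : ℝ := (3 : ℝ) ^ k / 2 ^ w with hΘ
      have hΘw : (3 : ℝ) ^ k = Θ * 2 ^ w := by rw [hΘ]; field_simp
      have hΘ0 : 0 ≤ Θ := by positivity
      have h1 : Θ * (T * x) ≤ (l : ℝ) * (1 + 1 / (2 * x)) * (T * x) :=
        mul_le_mul_of_nonneg_right hβ.le (by positivity)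
      have h2 : (l : ℝ) * (1 + 1 / (2 * x)) * (T * x) = T * l * x + T * l / 2 := by
        field_simp
      have h3 : Θ * (2 ^ w * m + r) ≤ Θ * (T * x + 2 ^ w * P) :=
        mul_le_mul_of_nonneg_left hmA hΘ0
      have h4 : (3 : ℝ) ^ k * m ≤ Θ * (2 ^ w * m + r) := by
        have : 0 ≤ Θ * r := by positivity
        rw [hΘw]; nlinarith
      have h5 : (4 : ℝ) * 3 ^ k * (P + 1) < T := by
        have : 4 * 3 ^ k * (P + 1) < T := by omega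
        exact_mod_cast this
      have h6 : (T : ℝ) ≤ T * l := le_mul_of_one_le_right (by positivity) hlR
      have h8 : Θ * (T * x + 2 ^ w * P) = Θ * (T * x) + 3 ^ k * P := by rw [hΘw]; ring
      have h9 : (T : ℝ) * l * (x + 1) = T * l * x + T * l := by ring
      rw [h9]
      nlinarith [pow_pos (show (0:ℝ) < 3 by norm_num) k]
    exact_mod_cast hreal
  · rw [hg]
    rw [← Nat.modEq_and_modEq_iff_modEq_mul hcop]
    constructor
    · refine Nat.ModEq.trans ?_ hm₂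
      apply Nat.ModEq.add_right
      apply Nat.ModEq.mul_left
      refine Nat.ModEq.trans ?_ h0a
      rw [hm, hP, mul_assoc]
      unfold Nat.ModEq
      simp [Nat.add_mod]
    · rw [← Nat.modEq_and_modEq_iff_modEq_mul (Nat.Coprime.pow_left _ (cop3 hq))]
      constructor
      · refine Nat.ModEq.trans ?_ ht
        have hd : 3 ^ k = 3 ^ b * 3 ^ (k - b) := by rw [← pow_add]; congr 1; omega
        rw [hd, mul_assoc]
        unfold Nat.ModEq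
        simp [Nat.add_mod]
      · rw [← ZMod.natCast_eq_natCast_iff]
        obtain ⟨i2, h2⟩ := exists_half hq
        have hp : (2 : ZMod q) ^ w * i2 ^ w = 1 := by rw [← mul_pow, h2, one_pow]
        have hnq : (2 ^ w * m + r) ≡ ρ [MOD q] := by
          refine Nat.ModEq.trans ?_ (hm₁.of_dvd (Dvd.intro_left _ rfl))
          apply Nat.ModEq.add_right
          apply Nat.ModEq.mul_left
          refine Nat.ModEq.trans ?_ (h0b.of_dvd (Dvd.intro_left _ rfl))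
          rw [hm, hP]
          have : m₀' + 2 ^ a * (3 ^ b * q) * s = m₀' + q * (3 ^ b * 2 ^ a * s) := by ring
          rw [this]
          unfold Nat.ModEq
          simp [Nat.add_mod]
        rw [← ZMod.natCast_eq_natCast_iff] at hnq
        push_cast at hnq ⊢
        linear_combination (-(i2 ^ w)) * hrel + (i2 ^ w) * 3 ^ k * hnq -
          ((3 : ZMod q) ^ k * m + t - ρ') * hp
end Steer

open Steer in
/-- general steering: windows `[T x, T (x+1))` and `[T l x, T l (x+1))` -/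
theorem steer_gen (P x L : ℕ) (hP : 0 < P) (hx : 0 < x) :
    ∃ T₀ : ℕ, ∀ T ≥ T₀, ∀ l : ℕ, 0 < l → l ≤ L → ∀ ρ ρ' : ℕ, ∃ n k : ℕ,
      T * x ≤ n ∧ n < T * (x + 1) ∧ n % P = ρ % P ∧
      T * l * x ≤ g^[k] n ∧ g^[k] n < T * l * (x + 1) ∧ g^[k] n % P = ρ' % P := by
  classical
  obtain ⟨a, P₁, hP₁, hPe⟩ := Nat.exists_eq_pow_mul_and_not_dvd hP.ne' 2 (by norm_num)
  have hP₁0 : P₁ ≠ 0 := by rintro rfl; simp at hP₁
  obtain ⟨b, q, hq, hP₁e⟩ := Nat.exists_eq_pow_mul_and_not_dvd hP₁0 3 (by norm_num)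
  have hq6 : Nat.Coprime q 6 := by
    have h3 : Nat.Coprime q 3 := ((Nat.Prime.coprime_iff_not_dvd Nat.prime_three).mpr hq).symm
    have h2 : Nat.Coprime q 2 := by
      refine ((Nat.Prime.coprime_iff_not_dvd Nat.prime_two).mpr ?_).symm
      intro h; exact hP₁ (hP₁e ▸ h.mul_left _)
    have h23 := Nat.Coprime.mul_right h2 h3
    exact h23
  have hPP : P = 2 ^ a * (3 ^ b * q) := by rw [hPe, hP₁e]
  choose f hf using fun (l : ℕ) (ρ ρ' : ℕ) => steer1 a b q x (l + 1) ρ ρ' hq6 hx (Nat.succ_pos l)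
  let J : ℕ := ((Finset.range (L + 1) ×ˢ Finset.range P ×ˢ Finset.range P).sup
    (fun z => f z.1 z.2.1 z.2.2))
  refine ⟨J, fun T hT l hl0 hl ρ ρ' => ?_⟩
  obtain ⟨l', rfl⟩ : ∃ l', l = l' + 1 := ⟨l - 1, by omega⟩
  have hle : f l' (ρ % P) (ρ' % P) ≤ J :=
    Finset.le_sup (f := fun z : ℕ × ℕ × ℕ => f z.1 z.2.1 z.2.2) (b := (l', ρ % P, ρ' % P))
      (by simp [Nat.mod_lt _ hP]; omega)
  obtain ⟨n, k, h1, h2, h3, h4, h5, h6⟩ := hf l' (ρ % P) (ρ' % P) T (hle.trans hT)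
  rw [← hPP] at h3 h6
  refine ⟨n, k, h1, h2, ?_, h4, h5, ?_⟩
  · have := h3; unfold Nat.ModEq at this; rw [this, Nat.mod_mod]
  · have := h6; unfold Nat.ModEq at this; rw [this, Nat.mod_mod]

theorem steer (P x : ℕ) (hP : 0 < P) (hx : 0 < x) :
    ∃ j₀ : ℕ, ∀ j ≥ j₀, ∀ l ≤ 1, ∀ ρ ρ' : ℕ, ∃ n k : ℕ,
      2 ^ j * x ≤ n ∧ n < 2 ^ j * (x + 1) ∧ n % P = ρ % P ∧
      2 ^ (j + l) * x ≤ g^[k] n ∧ g^[k] n < 2 ^ (j + l) * (x + 1) ∧ g^[k] n % P = ρ' % P := by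
  obtain ⟨T₀, h⟩ := steer_gen P x 2 hP hx
  refine ⟨T₀, fun j hj l hl ρ ρ' => ?_⟩
  have h1 : T₀ ≤ 2 ^ j := hj.trans Nat.lt_two_pow_self.le
  have h2 : 2 ^ l ≤ 2 := by
    calc 2 ^ l ≤ 2 ^ 1 := Nat.pow_le_pow_right (by norm_num) hl
      _ = 2 := by norm_num
  obtain ⟨n, k, h3⟩ := h (2 ^ j) h1 (2 ^ l) (by positivity) h2 ρ ρ'
  rw [← pow_add] at h3
  exact ⟨n, k, h3⟩

theorem steer3 (P x : ℕ) (hP : 0 < P) (hx : 0 < x) :
    ∃ j₀ : ℕ, ∀ j ≥ j₀, ∀ l ≤ 1, ∀ ρ ρ' : ℕ, ∃ n k : ℕ,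
      3 ^ j * x ≤ n ∧ n < 3 ^ j * (x + 1) ∧ n % P = ρ % P ∧
      3 ^ (j + l) * x ≤ g^[k] n ∧ g^[k] n < 3 ^ (j + l) * (x + 1) ∧ g^[k] n % P = ρ' % P := by
  obtain ⟨T₀, h⟩ := steer_gen P x 3 hP hx
  refine ⟨T₀, fun j hj l hl ρ ρ' => ?_⟩
  have h1 : T₀ ≤ 3 ^ j := hj.trans (Nat.lt_pow_self (by norm_num)).le
  have h2 : 3 ^ l ≤ 3 := by
    calc 3 ^ l ≤ 3 ^ 1 := Nat.pow_le_pow_right (by norm_num) hl
      _ = 3 := by norm_num
  obtain ⟨n, k, h3⟩ := h (3 ^ j) h1 (3 ^ l) (by positivity) h2 ρ ρ'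
  rw [← pow_add] at h3
  exact ⟨n, k, h3⟩

theorem steerB (b P x : ℕ) (hb : 2 ≤ b) (hP : 0 < P) (hx : 0 < x) :
    ∃ k₀ : ℕ, ∀ k' ≥ k₀, ∀ l ≤ 1, ∀ ρ ρ' : ℕ, ∃ n k : ℕ,
      b ^ k' * x ≤ n ∧ n < b ^ k' * (x + 1) ∧ n % P = ρ % P ∧
      b ^ (k' + l) * x ≤ g^[k] n ∧ g^[k] n < b ^ (k' + l) * (x + 1) ∧ g^[k] n % P = ρ' % P := by
  obtain ⟨T₀, h⟩ := steer_gen P x b hP hx
  refine ⟨T₀, fun j hj l hl ρ ρ' => ?_⟩
  have h1 : T₀ ≤ b ^ j := hj.trans (Nat.lt_pow_self (by omega)).le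
  have h2 : b ^ l ≤ b := by
    calc b ^ l ≤ b ^ 1 := Nat.pow_le_pow_right (by omega) hl
      _ = b := by ring
  obtain ⟨n, k, h3⟩ := h (b ^ j) h1 (b ^ l) (by positivity) h2 ρ ρ'
  rw [← pow_add] at h3
  exact ⟨n, k, h3⟩

end ConwayAuto
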