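import Pool.Agent.Lib.ConwayAuto.Defs

/-!
A 2-automatic set `D` of numbers such that no point of `D` comes back to `D` under Conway's map `g` is
nowhere dense (2-adically).
-/

namespace ConwayAuto

namespace WanderAux

theorem bound {D : Set ℕ} (hA : TwoAutomatic D) {w0 r0 : ℕ} (hr0 : r0 < 2 ^ w0)
    (h : ∀ w' r' : ℕ, r' < 2 ^ w' → ∃ m : ℕ, 2 ^ w0 * (2 ^ w' * m + r') + r0 ∈ D) :
    ∃ B : ℕ, ∀ w' r' : ℕ, r' < 2 ^ w' → ∃ m ≤ B, 2 ^ w0 * (2 ^ w' * m + r') + r0 ∈ D := by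
  unfold TwoAutomatic at hA
  obtain ⟨B, hB⟩ := (hA.image sInf).bddAbove
  refine ⟨B, fun w' r' hr' => ?_⟩
  obtain ⟨T, hT⟩ : ∃ T : Set ℕ,
    T = {m : ℕ | 2 ^ (w0 + w') * m + (2 ^ w0 * r' + r0) ∈ D} := ⟨_, rfl⟩
  have e : ∀ m, 2 ^ (w0 + w') * m + (2 ^ w0 * r' + r0) = 2 ^ w0 * (2 ^ w' * m + r') + r0 := by
    intro m
    rw [pow_add]
    ring
  have hmemT : ∀ m, m ∈ T ↔ 2 ^ w0 * (2 ^ w' * m + r') + r0 ∈ D := by
    intro m
    rw [hT, Set.mem_ofPred_eq, e]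
  have hne : T.Nonempty := by
    obtain ⟨m, hm⟩ := h w' r' hr'
    exact ⟨m, (hmemT m).2 hm⟩
  refine ⟨sInf T, ?_, (hmemT _).1 (Nat.sInf_mem hne)⟩
  apply hB
  refine ⟨T, ⟨w0 + w', 2 ^ w0 * r' + r0, ?_, hT⟩, rfl⟩
  have h1 : 2 ^ w0 * (r' + 1) ≤ 2 ^ w0 * 2 ^ w' := Nat.mul_le_mul_left _ hr'
  rw [pow_add]
  nlinarith

theorem solve (a w t ρ : ℕ) (ha : Nat.Coprime a (2 ^ w)) (hρ : ρ < 2 ^ w) :
    ∃ r < 2 ^ w, (a * r + t) % 2 ^ w = ρ := by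
  have : NeZero (2 ^ w) := ⟨by positivity⟩
  refine ⟨((a : ZMod (2 ^ w))⁻¹ * ((ρ : ZMod (2 ^ w)) - t)).val, ZMod.val_lt _, ?_⟩
  have h1 : ((a * ((a : ZMod (2 ^ w))⁻¹ * ((ρ : ZMod (2 ^ w)) - t)).val + t : ℕ) : ZMod (2 ^ w)) =
      ((ρ : ℕ) : ZMod (2 ^ w)) := by
    rw [Nat.cast_add, Nat.cast_mul, ZMod.natCast_zmod_val, ← mul_assoc,
      ZMod.coe_mul_inv_eq_one a ha]
    ring
  have h2 := (ZMod.natCast_eq_natCast_iff' _ _ _).1 h1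
  rw [h2, Nat.mod_eq_of_lt hρ]

theorem level {D : Set ℕ} {k0 w1 r0 t0 B : ℕ} (ht0 : t0 < 3 ^ k0)
    (hcyl : ∀ M, g^[k0] (2 ^ w1 * M + r0) = 3 ^ k0 * M + t0)
    (hB : ∀ w' r' : ℕ, r' < 2 ^ w' → ∃ m ≤ B, 2 ^ w1 * (2 ^ w' * m + r') + r0 ∈ D)
    (l b : ℕ) :
    ∃ S : Finset ℕ, S.card = 3 ^ l * 2 ^ b ∧
      ∀ e ∈ S, e < 3 ^ l * 2 ^ b * (3 ^ k0 * (B + 1)) ∧ ∃ n ∈ D, g^[l + k0] n = e := by
  have hex : ∀ τ : ℕ, τ < 3 ^ l → ∃ c : ℕ, c < 3 ^ k0 ∧ ∀ i : ℕ, i < 2 ^ b → ∃ m : ℕ, m ≤ B ∧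
      ∃ n ∈ D, g^[l + k0] n = 3 ^ l * (3 ^ k0 * (2 ^ b * m + i) + c) + τ := by
    intro τ hτ
    obtain ⟨w2, ρ, -, -, hρ, hg⟩ := cyl l τ hτ
    have hcop : Nat.Coprime (3 ^ k0) (2 ^ w2) := Nat.Coprime.pow _ _ (by norm_num)
    obtain ⟨r, hr, hrm⟩ := solve (3 ^ k0) w2 t0 ρ hcop hρ
    have hdiv := Nat.div_add_mod (3 ^ k0 * r + t0) (2 ^ w2)
    rw [hrm] at hdiv
    refine ⟨(3 ^ k0 * r + t0) / 2 ^ w2, ?_, ?_⟩
    · rw [Nat.div_lt_iff_lt_mul (by positivity)]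
      have h1 : 3 ^ k0 * (r + 1) ≤ 3 ^ k0 * 2 ^ w2 := Nat.mul_le_mul_left _ hr
      nlinarith
    · intro i hi
      have hlt : r + 2 ^ w2 * i < 2 ^ (w2 + b) := by
        have h1 : 2 ^ w2 * (i + 1) ≤ 2 ^ w2 * 2 ^ b := Nat.mul_le_mul_left _ hi
        rw [pow_add]
        nlinarith
      obtain ⟨m, hm, hmD⟩ := hB (w2 + b) (r + 2 ^ w2 * i) hlt
      refine ⟨m, hm, _, hmD, ?_⟩
      rw [Function.iterate_add_apply, hcyl]
      have e1 : 3 ^ k0 * (2 ^ (w2 + b) * m + (r + 2 ^ w2 * i)) + t0 =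
          2 ^ w2 * (3 ^ k0 * (2 ^ b * m + i) + (3 ^ k0 * r + t0) / 2 ^ w2) + ρ := by
        calc 3 ^ k0 * (2 ^ (w2 + b) * m + (r + 2 ^ w2 * i)) + t0
            = 2 ^ w2 * (3 ^ k0 * (2 ^ b * m + i)) + (3 ^ k0 * r + t0) := by
              rw [pow_add]
              ring
          _ = 2 ^ w2 * (3 ^ k0 * (2 ^ b * m + i)) +
              (2 ^ w2 * ((3 ^ k0 * r + t0) / 2 ^ w2) + ρ) := by rw [hdiv]
          _ = 2 ^ w2 * (3 ^ k0 * (2 ^ b * m + i) + (3 ^ k0 * r + t0) / 2 ^ w2) + ρ := by ring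
      rw [e1, hg]
  choose! c hc hc' using hex
  choose! m hm n hn using hc'
  have h3 : 0 < 3 ^ l := by positivity
  have h2 : 0 < 2 ^ b := by positivity
  have hk : 0 < 3 ^ k0 := by positivity
  refine ⟨((Finset.range (3 ^ l)) ×ˢ (Finset.range (2 ^ b))).image
    (fun p : ℕ × ℕ => 3 ^ l * (3 ^ k0 * (2 ^ b * m p.1 p.2 + p.2) + c p.1) + p.1), ?_, ?_⟩
  · rw [Finset.card_image_of_injOn, Finset.card_product, Finset.card_range, Finset.card_range]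
    rintro ⟨τ, i⟩ hp ⟨τ', i'⟩ hp' he
    simp only [Finset.coe_product, Finset.coe_range, Set.mem_prod, Set.mem_Iio] at hp hp'
    simp only at he
    have e1 : τ = τ' := by
      have h4 := congrArg (fun z => z % 3 ^ l) he
      simp only [Nat.mul_add_mod] at h4
      rw [Nat.mod_eq_of_lt hp.1, Nat.mod_eq_of_lt hp'.1] at h4
      exact h4
    subst e1
    have e2 : 3 ^ l * (3 ^ k0 * (2 ^ b * m τ i + i) + c τ) =
        3 ^ l * (3 ^ k0 * (2 ^ b * m τ i' + i') + c τ) := by omega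
    have e3 := Nat.eq_of_mul_eq_mul_left h3 e2
    have e4 : 3 ^ k0 * (2 ^ b * m τ i + i) = 3 ^ k0 * (2 ^ b * m τ i' + i') := by omega
    have e5 := Nat.eq_of_mul_eq_mul_left hk e4
    have e6 : i = i' := by
      have h4 := congrArg (fun z => z % 2 ^ b) e5
      simp only [Nat.mul_add_mod] at h4
      rw [Nat.mod_eq_of_lt hp.2, Nat.mod_eq_of_lt hp'.2] at h4
      exact h4
    rw [e6]
  · intro e he
    rw [Finset.mem_image] at he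
    obtain ⟨⟨τ, i⟩, hp, rfl⟩ := he
    rw [Finset.mem_product, Finset.mem_range, Finset.mem_range] at hp
    obtain ⟨hτ, hi⟩ := hp
    simp only at hτ hi ⊢
    refine ⟨?_, n τ i, (hn τ hτ i hi).1, (hn τ hτ i hi).2⟩
    have hmB := hm τ hτ i hi
    have hcτ := hc τ hτ
    have a1 : 2 ^ b * m τ i + i + 1 ≤ 2 ^ b * (B + 1) := by
      have : 2 ^ b * m τ i ≤ 2 ^ b * B := Nat.mul_le_mul_left _ hmB
      rw [Nat.mul_add, Nat.mul_one]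
      omega
    have a2 : 3 ^ k0 * (2 ^ b * m τ i + i) + c τ + 1 ≤ 3 ^ k0 * (2 ^ b * (B + 1)) := by
      have h4 : 3 ^ k0 * (2 ^ b * m τ i + i + 1) ≤ 3 ^ k0 * (2 ^ b * (B + 1)) :=
        Nat.mul_le_mul_left _ a1
      rw [Nat.mul_add (3 ^ k0) (2 ^ b * m τ i + i) 1, Nat.mul_one] at h4
      omega
    have a3 : 3 ^ l * (3 ^ k0 * (2 ^ b * m τ i + i) + c τ + 1) ≤
        3 ^ l * (3 ^ k0 * (2 ^ b * (B + 1))) := Nat.mul_le_mul_left _ a2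
    rw [Nat.mul_add (3 ^ l) (3 ^ k0 * (2 ^ b * m τ i + i) + c τ) 1, Nat.mul_one] at a3
    have a4 : 3 ^ l * (3 ^ k0 * (2 ^ b * (B + 1))) = 3 ^ l * 2 ^ b * (3 ^ k0 * (B + 1)) := by ring
    rw [← a4]
    omega

theorem exists_b (N l : ℕ) (hl : l < N) :
    ∃ b : ℕ, 2 ^ (2 * N - 1) ≤ 3 ^ l * 2 ^ b ∧ 3 ^ l * 2 ^ b ≤ 2 ^ (2 * N) := by
  obtain ⟨s, hs⟩ : ∃ s, s = Nat.log 2 (3 ^ l) := ⟨_, rfl⟩
  have h1 : 2 ^ s ≤ 3 ^ l := by
    rw [hs]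
    exact Nat.pow_log_le_self 2 (by positivity)
  have h2 : 3 ^ l < 2 ^ (s + 1) := by
    rw [hs]
    exact Nat.lt_pow_succ_log_self (by norm_num) _
  have h3 : 3 ^ l ≤ 2 ^ (2 * l) := by
    rw [pow_mul]
    exact Nat.pow_le_pow_left (by norm_num) l
  have h4 : s ≤ 2 * l := by
    by_contra hc
    have : 2 ^ (2 * l) < 2 ^ s := Nat.pow_lt_pow_right (by norm_num) (by omega)
    omega
  refine ⟨2 * N - 1 - s, ?_, ?_⟩
  · calc 2 ^ (2 * N - 1) = 2 ^ s * 2 ^ (2 * N - 1 - s) := by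
          rw [← pow_add]
          congr 1
          omega
      _ ≤ 3 ^ l * 2 ^ (2 * N - 1 - s) := Nat.mul_le_mul_right _ h1
  · calc 3 ^ l * 2 ^ (2 * N - 1 - s) ≤ 2 ^ (s + 1) * 2 ^ (2 * N - 1 - s) :=
          Nat.mul_le_mul_right _ h2.le
      _ = 2 ^ (2 * N) := by
          rw [← pow_add]
          congr 1
          omega

end WanderAux

open WanderAux

theorem wandering_nowhereDense (D : Set ℕ) (hA : TwoAutomatic D)
    (hw : ∀ n ∈ D, ∀ k : ℕ, 0 < k → g^[k] n ∉ D) : NowhereDense2 D := by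
  unfold NowhereDense2
  by_contra hcon
  push Not at hcon
  obtain ⟨k0, r0, hr0, h⟩ := hcon
  obtain ⟨B, hB⟩ := bound hA hr0 h
  obtain ⟨w1, r1, t0, m0, hw1, -, hr1, ht0, hr01, hcyl⟩ := cyl_of k0 r0
  have hpow : 2 ^ k0 ≤ 2 ^ w1 := Nat.pow_le_pow_right (by norm_num) hw1
  have hm0 : m0 = 0 := by
    by_contra hne
    have : 2 ^ w1 * 1 ≤ 2 ^ w1 * m0 := Nat.mul_le_mul_left _ (by omega)
    omega
  have hr : r1 = r0 := by
    rw [hr01, hm0]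
    simp
  rw [hr] at hcyl
  have hB1 : ∀ w' r' : ℕ, r' < 2 ^ w' → ∃ m ≤ B, 2 ^ w1 * (2 ^ w' * m + r') + r0 ∈ D := by
    intro w' r' hr'
    have hlt : 2 ^ (w1 - k0) * r' < 2 ^ (w1 - k0 + w') := by
      rw [pow_add]
      exact Nat.mul_lt_mul_of_pos_left hr' (by positivity)
    obtain ⟨m, hm, hmD⟩ := hB (w1 - k0 + w') (2 ^ (w1 - k0) * r') hlt
    refine ⟨m, hm, ?_⟩
    have e : 2 ^ k0 * (2 ^ (w1 - k0 + w') * m + 2 ^ (w1 - k0) * r') + r0 =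
        2 ^ w1 * (2 ^ w' * m + r') + r0 := by
      have e1 : 2 ^ w1 = 2 ^ k0 * 2 ^ (w1 - k0) := by
        rw [← pow_add]
        congr 1
        omega
      rw [e1, pow_add]
      ring
    rw [← e]
    exact hmD
  have hk : 0 < 3 ^ k0 := by positivity
  obtain ⟨N, hN⟩ : ∃ N, N = 2 * (3 ^ k0 * (B + 2)) := ⟨_, rfl⟩
  have hSex : ∀ l : ℕ, l < N → ∃ S : Finset ℕ, 2 ^ (2 * N - 1) ≤ S.card ∧
      ∀ e ∈ S, e < 2 ^ (2 * N) * (3 ^ k0 * (B + 1)) ∧ ∃ n ∈ D, g^[l + k0] n = e := by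
    intro l hl
    obtain ⟨b, hb1, hb2⟩ := exists_b N l hl
    obtain ⟨S, hS1, hS2⟩ := level ht0 hcyl hB1 l b
    refine ⟨S, by rw [hS1]; exact hb1, fun e he => ?_⟩
    obtain ⟨h1, h2⟩ := hS2 e he
    exact ⟨lt_of_lt_of_le h1 (Nat.mul_le_mul_right _ hb2), h2⟩
  choose! S hS1 hS2 using hSex
  have hdisj' : ∀ l1 l2 : ℕ, l1 < l2 → l2 < N → Disjoint (S l1) (S l2) := by
    intro l1 l2 h12 h2N
    rw [Finset.disjoint_left]
    intro e he1 he2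
    obtain ⟨-, n1, hn1, hg1⟩ := hS2 l1 (by omega) e he1
    obtain ⟨-, n2, hn2, hg2⟩ := hS2 l2 h2N e he2
    have e1 : l2 + k0 = (l1 + k0) + (l2 - l1) := by omega
    rw [e1, Function.iterate_add_apply, ← hg1] at hg2
    have e2 := g_iterate_injective _ hg2
    exact hw n2 hn2 (l2 - l1) (by omega) (by rw [e2]; exact hn1)
  have hdisj : ∀ l1 ∈ Finset.range N, ∀ l2 ∈ Finset.range N, l1 ≠ l2 →
      Disjoint (S l1) (S l2) := by
    intro l1 h1 l2 h2 hne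
    rw [Finset.mem_range] at h1 h2
    rcases Nat.lt_or_gt_of_ne hne with hlt | hgt
    · exact hdisj' l1 l2 hlt h2
    · exact (hdisj' l2 l1 hgt h1).symm
  have hcard := Finset.card_biUnion hdisj
  have hsub : (Finset.range N).biUnion S ⊆ Finset.range (2 ^ (2 * N) * (3 ^ k0 * (B + 1))) := by
    intro e he
    rw [Finset.mem_biUnion] at he
    obtain ⟨l, hl, hel⟩ := he
    rw [Finset.mem_range]
    exact (hS2 l (Finset.mem_range.1 hl) e hel).1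
  have hle := Finset.card_le_card hsub
  rw [hcard, Finset.card_range] at hle
  have hge : N * 2 ^ (2 * N - 1) ≤ ∑ l ∈ Finset.range N, (S l).card := by
    calc N * 2 ^ (2 * N - 1) = ∑ l ∈ Finset.range N, 2 ^ (2 * N - 1) := by
          rw [Finset.sum_const, Finset.card_range, smul_eq_mul]
      _ ≤ _ := Finset.sum_le_sum fun l hl => hS1 l (Finset.mem_range.1 hl)
  have hN1 : 1 ≤ N := by
    rw [hN]
    have : 1 ≤ 3 ^ k0 * (B + 2) := Nat.mul_pos hk (by omega)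
    omega
  have hpow2 : 2 ^ (2 * N) = 2 * 2 ^ (2 * N - 1) := by
    rw [← pow_succ']
    congr 1
    omega
  have hfin : N * 2 ^ (2 * N - 1) ≤ (2 * (3 ^ k0 * (B + 1))) * 2 ^ (2 * N - 1) := by
    calc N * 2 ^ (2 * N - 1) ≤ 2 ^ (2 * N) * (3 ^ k0 * (B + 1)) := hge.trans hle
      _ = (2 * (3 ^ k0 * (B + 1))) * 2 ^ (2 * N - 1) := by
          rw [hpow2]
          ring
  have hfin2 := Nat.le_of_mul_le_mul_right hfin (by positivity)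
  rw [hN] at hfin2
  have h5 : 3 ^ k0 * (B + 2) = 3 ^ k0 * (B + 1) + 3 ^ k0 := by ring
  rw [h5] at hfin2
  omega

end ConwayAuto
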