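import Pool.Agent.Lib.ConwayAuto.Defs3

/-!
MODULE Good3: good blocks exist in base 3, and the transfer of membership along them.
-/

namespace ConwayAuto

namespace Good3Aux

/-- every residue class mod `3^w` contains a class mod `3^(w+w')` inside `A` -/
def Fat (A : Set ℕ) : Prop :=
  ∀ w r : ℕ, r < 3 ^ w → ∃ w' r' : ℕ, r' < 3 ^ w' ∧ ∀ m : ℕ, 3 ^ w * (3 ^ w' * m + r') + r ∈ A

theorem lt_aux {w w1 r r1 : ℕ} (hr : r < 3 ^ w) (hr1 : r1 < 3 ^ w1) :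
    3 ^ w * r1 + r < 3 ^ (w + w1) := by
  have h1 : 3 ^ w * (r1 + 1) ≤ 3 ^ w * 3 ^ w1 := Nat.mul_le_mul_left _ hr1
  rw [pow_add]
  have h2 : 3 ^ w * (r1 + 1) = 3 ^ w * r1 + 3 ^ w := by ring
  omega

theorem Fat.inter {A B : Set ℕ} (hA : Fat A) (hB : Fat B) : Fat (A ∩ B) := by
  intro w r hr
  obtain ⟨w1, r1, hr1, h1⟩ := hA w r hr
  obtain ⟨w2, r2, hr2, h2⟩ := hB (w + w1) (3 ^ w * r1 + r) (lt_aux hr hr1)
  refine ⟨w1 + w2, 3 ^ w1 * r2 + r1, lt_aux hr1 hr2, fun m => ⟨?_, ?_⟩⟩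
  · have e : 3 ^ w * (3 ^ (w1 + w2) * m + (3 ^ w1 * r2 + r1)) + r =
        3 ^ w * (3 ^ w1 * (3 ^ w2 * m + r2) + r1) + r := by
      rw [pow_add]; ring
    rw [e]
    exact h1 _
  · have e : 3 ^ w * (3 ^ (w1 + w2) * m + (3 ^ w1 * r2 + r1)) + r =
        3 ^ (w + w1) * (3 ^ w2 * m + r2) + (3 ^ w * r1 + r) := by
      rw [pow_add, pow_add]; ring
    rw [e]
    exact h2 _

theorem fat_univ : Fat Set.univ := fun _ _ _ => ⟨0, 0, by norm_num, fun _ => trivial⟩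

theorem fat_finset {ι : Type} (s : Finset ι) (A : ι → Set ℕ) (hA : ∀ i, Fat (A i)) :
    Fat {y | ∀ i ∈ s, y ∈ A i} := by
  classical
  induction s using Finset.induction_on with
  | empty =>
    have : {y : ℕ | ∀ i ∈ (∅ : Finset ι), y ∈ A i} = Set.univ := by
      ext y; simp
    rw [this]
    exact fat_univ
  | insert b s hb ih =>
    have : {y : ℕ | ∀ i ∈ insert b s, y ∈ A i} = A b ∩ {y | ∀ i ∈ s, y ∈ A i} := by
      ext y; simp
    rw [this]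
    exact (hA b).inter ih

theorem exists_solve (a w u1 r' : ℕ) (hr' : r' < 3 ^ w) :
    ∃ ρ : ℕ, ρ < 3 ^ w ∧ (2 ^ a * ρ + u1) % 3 ^ w = r' := by
  have : NeZero (3 ^ w) := ⟨by positivity⟩
  have hcop : Nat.Coprime (2 ^ a) (3 ^ w) := Nat.Coprime.pow _ _ (by norm_num)
  let x : ZMod (3 ^ w) := ((r' : ZMod (3 ^ w)) - (u1 : ZMod (3 ^ w))) *
    ((2 ^ a : ℕ) : ZMod (3 ^ w))⁻¹
  refine ⟨x.val, ZMod.val_lt x, ?_⟩
  have hone : ((2 ^ a : ℕ) : ZMod (3 ^ w)) * ((2 ^ a : ℕ) : ZMod (3 ^ w))⁻¹ = 1 :=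
    ZMod.coe_mul_inv_eq_one _ hcop
  have h1 : ((2 ^ a * x.val + u1 : ℕ) : ZMod (3 ^ w)) = ((r' : ℕ) : ZMod (3 ^ w)) := by
    rw [Nat.cast_add, Nat.cast_mul, ZMod.natCast_zmod_val]
    calc ((2 ^ a : ℕ) : ZMod (3 ^ w)) * x + (u1 : ZMod (3 ^ w))
        = (((2 ^ a : ℕ) : ZMod (3 ^ w)) * ((2 ^ a : ℕ) : ZMod (3 ^ w))⁻¹) *
            ((r' : ZMod (3 ^ w)) - (u1 : ZMod (3 ^ w))) + (u1 : ZMod (3 ^ w)) := by
          simp only [x]; ring
      _ = (r' : ZMod (3 ^ w)) := by rw [hone]; ring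
  have h2 := (ZMod.natCast_eq_natCast_iff _ _ _).1 h1
  have h3 : (2 ^ a * x.val + u1) % 3 ^ w = r' % 3 ^ w := h2
  rw [h3, Nat.mod_eq_of_lt hr']

theorem fat_shift (D : Set ℕ) (hD : NowhereDense3 D) (j a t i : ℕ) :
    Fat {y : ℕ | 2 ^ a * 3 ^ j * (y + i) + t ∉ D} := by
  intro w r hr
  have hu0 : (2 ^ a * 3 ^ j * (r + i) + t) % 3 ^ (j + w) < 3 ^ (j + w) :=
    Nat.mod_lt _ (by positivity)
  obtain ⟨w', r', hr', h⟩ := hD (j + w) _ hu0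
  obtain ⟨ρ, hρ, hρ2⟩ := exists_solve a w' ((2 ^ a * 3 ^ j * (r + i) + t) / 3 ^ (j + w)) r' hr'
  refine ⟨w', ρ, hρ, fun m => ?_⟩
  show 2 ^ a * 3 ^ j * (3 ^ w * (3 ^ w' * m + ρ) + r + i) + t ∉ D
  have e1 := Nat.div_add_mod (2 ^ a * 3 ^ j * (r + i) + t) (3 ^ (j + w))
  have e2 := Nat.div_add_mod
    (2 ^ a * ρ + (2 ^ a * 3 ^ j * (r + i) + t) / 3 ^ (j + w)) (3 ^ w')
  rw [hρ2] at e2
  generalize (2 ^ a * 3 ^ j * (r + i) + t) / 3 ^ (j + w) = u1 at e1 e2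
  generalize hu : (2 ^ a * 3 ^ j * (r + i) + t) % 3 ^ (j + w) = u0 at e1 h
  generalize (2 ^ a * ρ + u1) / 3 ^ w' = q at e2
  have e3 : 2 ^ a * 3 ^ j * (3 ^ w * (3 ^ w' * m + ρ) + r + i) + t =
      3 ^ (j + w) * (3 ^ w' * (2 ^ a * m + q) + r') + u0 := by
    calc 2 ^ a * 3 ^ j * (3 ^ w * (3 ^ w' * m + ρ) + r + i) + t
        = 3 ^ (j + w) * (3 ^ w' * (2 ^ a * m)) + 3 ^ (j + w) * (2 ^ a * ρ) +
            (2 ^ a * 3 ^ j * (r + i) + t) := by rw [pow_add]; ring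
      _ = 3 ^ (j + w) * (3 ^ w' * (2 ^ a * m)) + 3 ^ (j + w) * (2 ^ a * ρ) +
            (3 ^ (j + w) * u1 + u0) := by rw [e1]
      _ = 3 ^ (j + w) * (3 ^ w' * (2 ^ a * m)) + 3 ^ (j + w) * (2 ^ a * ρ + u1) + u0 := by ring
      _ = 3 ^ (j + w) * (3 ^ w' * (2 ^ a * m)) + 3 ^ (j + w) * (3 ^ w' * q + r') + u0 := by
          rw [e2]
      _ = 3 ^ (j + w) * (3 ^ w' * (2 ^ a * m + q) + r') + u0 := by ring
  rw [e3]
  exact h _

theorem step {S : Set ℕ} (hS : ∀ n ∈ S, g n ∈ S) {N N' : ℕ} (hg : g N = N')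
    (hN : N ∉ Entry S) : N ∈ S ↔ N' ∈ S := by
  constructor
  · intro h
    rw [← hg]
    exact hS _ h
  · intro h
    by_contra hc
    exact hN ⟨hc, by rw [hg]; exact h⟩

theorem transfer_aux (S : Set ℕ) (hS : ∀ n ∈ S, g n ∈ S) (n x y : ℕ)
    (hx : Good3 (Entry S) n x) (hy : Good3 (Entry S) n y)
    (h1 : ∀ w r, r < 3 ^ w → (3 ^ w * x + r ∈ S ↔ 3 ^ w * y + r ∈ S))
    (h2 : ∀ w r, r < 2 * 3 ^ w → (3 ^ w * (2 * x) + r ∈ S ↔ 3 ^ w * (2 * y) + r ∈ S)) (a : ℕ) :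
    ∀ j, a + j ≤ n → ∀ c < 2 ^ a * 3 ^ j,
      (2 ^ a * 3 ^ j * x + c ∈ S ↔ 2 ^ a * 3 ^ j * y + c ∈ S) := by
  induction a using Nat.strong_induction_on with
  | _ a ih =>
    intro j hj c hc
    rcases Nat.lt_or_ge a 2 with ha | ha
    · rcases (by omega : a = 0 ∨ a = 1) with h0 | h0
      · subst h0
        rw [pow_zero, one_mul] at hc ⊢
        exact h1 j c hc
      · subst h0
        rw [pow_one] at hc ⊢
        have := h2 j c hc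
        have e : ∀ z : ℕ, 2 * 3 ^ j * z + c = 3 ^ j * (2 * z) + c := fun z => by ring
        rw [e x, e y]
        exact this
    · obtain ⟨b, rfl⟩ : ∃ b, a = b + 2 := ⟨a - 2, by omega⟩
      have e4 : 2 ^ (b + 2) * 3 ^ j = 4 * (2 ^ b * 3 ^ j) := by rw [pow_add]; ring
      have e5 : 2 ^ (b + 1) * 3 ^ (j + 1) = 6 * (2 ^ b * 3 ^ j) := by
        rw [pow_succ, pow_succ]; ring
      have e6 : 2 ^ b * 3 ^ (j + 1) = 3 * (2 ^ b * 3 ^ j) := by rw [pow_succ]; ring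
      obtain ⟨s, h | h | h⟩ : ∃ s, c = 2 * s ∨ c = 4 * s + 1 ∨ c = 4 * s + 3 := by
        by_cases hc2 : c % 2 = 0
        · exact ⟨c / 2, by omega⟩
        · exact ⟨c / 4, by omega⟩
      · have hlt : 3 * s < 2 ^ (b + 1) * 3 ^ (j + 1) := by omega
        have key : ∀ z, Good3 (Entry S) n z →
            (2 ^ (b + 2) * 3 ^ j * z + c ∈ S ↔ 2 ^ (b + 1) * 3 ^ (j + 1) * z + 3 * s ∈ S) := by
          intro z hz
          apply step hS _ (hz j (by omega) (b + 2) (by omega) c hc)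
          have : 2 ^ (b + 2) * 3 ^ j * z + c = 2 * (2 ^ (b + 1) * 3 ^ j * z + s) := by
            rw [h, pow_succ 2 (b + 1)]; ring
          rw [this, g_even, pow_succ 3 j]; ring
        rw [key x hx, key y hy]
        exact ih (b + 1) (by omega) (j + 1) (by omega) (3 * s) hlt
      · have hlt : 3 * s + 1 < 2 ^ b * 3 ^ (j + 1) := by omega
        have key : ∀ z, Good3 (Entry S) n z →
            (2 ^ (b + 2) * 3 ^ j * z + c ∈ S ↔ 2 ^ b * 3 ^ (j + 1) * z + (3 * s + 1) ∈ S) := by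
          intro z hz
          apply step hS _ (hz j (by omega) (b + 2) (by omega) c hc)
          have : 2 ^ (b + 2) * 3 ^ j * z + c = 4 * (2 ^ b * 3 ^ j * z + s) + 1 := by
            rw [h, pow_add]; ring
          rw [this, g_one, pow_succ 3 j]; ring
        rw [key x hx, key y hy]
        exact ih b (by omega) (j + 1) (by omega) (3 * s + 1) hlt
      · have hlt : 3 * s + 2 < 2 ^ b * 3 ^ (j + 1) := by omega
        have key : ∀ z, Good3 (Entry S) n z →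
            (2 ^ (b + 2) * 3 ^ j * z + c ∈ S ↔ 2 ^ b * 3 ^ (j + 1) * z + (3 * s + 2) ∈ S) := by
          intro z hz
          apply step hS _ (hz j (by omega) (b + 2) (by omega) c hc)
          have : 2 ^ (b + 2) * 3 ^ j * z + c = 4 * (2 ^ b * 3 ^ j * z + s) + 3 := by
            rw [h, pow_add]; ring
          rw [this, g_three, pow_succ 3 j]; ring
        rw [key x hx, key y hy]
        exact ih b (by omega) (j + 1) (by omega) (3 * s + 2) hlt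

end Good3Aux

theorem exists_good3 (D : Set ℕ) (hD : NowhereDense3 D) (n C : ℕ) :
    ∃ W ρ : ℕ, ∀ m, ∀ i ≤ C, Good3 D n (3 ^ W * m + ρ + i) := by
  classical
  have hfat := Good3Aux.fat_finset
    (Finset.range (n + 1) ×ˢ (Finset.range (n + 1) ×ˢ
      (Finset.range (2 ^ n * 3 ^ n) ×ˢ Finset.range (C + 1))))
    (fun p : ℕ × ℕ × ℕ × ℕ =>
      {y : ℕ | 2 ^ p.2.1 * 3 ^ p.1 * (y + p.2.2.2) + p.2.2.1 ∉ D})
    (fun p => Good3Aux.fat_shift D hD p.1 p.2.1 p.2.2.1 p.2.2.2)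
  obtain ⟨W, ρ, _, h⟩ := hfat 0 0 (by norm_num)
  refine ⟨W, ρ, fun m i hi j hj a ha t ht => ?_⟩
  have hm := h m
  rw [pow_zero, one_mul, add_zero] at hm
  have ht' : t < 2 ^ n * 3 ^ n :=
    lt_of_lt_of_le ht (Nat.mul_le_mul (Nat.pow_le_pow_right (by norm_num) ha)
      (Nat.pow_le_pow_right (by norm_num) hj))
  exact hm (j, a, t, i) (by
    simp only [Finset.mem_product, Finset.mem_range]
    exact ⟨by omega, by omega, ht', by omega⟩)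

theorem transfer3 (S : Set ℕ) (hS : ∀ n ∈ S, g n ∈ S) (n x y : ℕ)
    (hx : Good3 (Entry S) n x) (hy : Good3 (Entry S) n y)
    (h1 : ∀ w r, r < 3 ^ w → (3 ^ w * x + r ∈ S ↔ 3 ^ w * y + r ∈ S))
    (h2 : ∀ w r, r < 2 * 3 ^ w → (3 ^ w * (2 * x) + r ∈ S ↔ 3 ^ w * (2 * y) + r ∈ S))
    (t : ℕ) (ht : t < 2 ^ n) : (2 ^ n * x + t ∈ S ↔ 2 ^ n * y + t ∈ S) := by
  have h := Good3Aux.transfer_aux S hS n x y hx hy h1 h2 n 0 (by omega) t
    (by rw [pow_zero, mul_one]; exact ht)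
  rw [pow_zero, mul_one] at h
  exact h

end ConwayAuto
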