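import Pool.Agent.Lib.ConwayAuto.Good3

/-!
A local period of an invariant 3-automatic set in the middle of a ternary block.
-/

namespace ConwayAuto

namespace Mid3

theorem pigeon {κ : Type} [Finite κ] (f : ℕ → κ) :
    ∃ i i' : ℕ, i < i' ∧ i' ≤ Nat.card κ ∧ f i = f i' := by
  classical
  have : Fintype κ := Fintype.ofFinite κ
  have hcard : Fintype.card κ < Fintype.card (Fin (Nat.card κ + 1)) := by
    rw [Fintype.card_fin, Nat.card_eq_fintype_card]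
    exact Nat.lt_succ_self _
  obtain ⟨i, j, hij, he⟩ := Fintype.exists_ne_map_eq_of_card_lt
    (fun i : Fin (Nat.card κ + 1) => f i.1) hcard
  have hne : i.1 ≠ j.1 := fun h => hij (Fin.ext h)
  rcases lt_or_gt_of_ne hne with h | h
  · exact ⟨i.1, j.1, h, Nat.le_of_lt_succ j.2, he⟩
  · exact ⟨j.1, i.1, h, Nat.le_of_lt_succ i.2, he.symm⟩

theorem eqv_one {S : Set ℕ} {x y : ℕ} (h : Eqv3 S x y) (w r : ℕ) (hr : r < 3 ^ w) :
    3 ^ w * x + r ∈ S ↔ 3 ^ w * y + r ∈ S := by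
  apply h
  omega

theorem eqv_succ {S : Set ℕ} {x y : ℕ} (h : Eqv3 S x y) (w r : ℕ) (hr : r < 3 ^ w) :
    3 ^ w * (x + 1) + r ∈ S ↔ 3 ^ w * (y + 1) + r ∈ S := by
  have e : ∀ z : ℕ, 3 ^ w * (z + 1) + r = 3 ^ w * z + (3 ^ w + r) := fun z => by ring
  rw [e, e]
  apply h
  omega

end Mid3

/-- **A local period, base 3.** If `2 ^ n` is a little larger than `3 ^ m` and the blocks above
`y`, ..., `y + C + 1` are not entered, then `S` has a period at most `C * h` on a third of a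
block. -/
theorem mid_periodic3 (S : Set ℕ) (hA : ThreeAutomatic S) (hS : ∀ n ∈ S, g n ∈ S) :
    ∃ C : ℕ, ∀ m n h : ℕ, 1 ≤ m → 2 ^ n = 3 ^ m + h → 0 < h → C * h ≤ 3 ^ (m - 1) →
      ∀ y : ℕ, (∀ i ≤ C + 1, Good3 (Entry S) n (y + i)) →
        ∃ X p : ℕ, 0 < p ∧ p ≤ C * h ∧ 2 ^ n * y / 3 ^ m < X ∧ X ≤ 2 ^ n * y / 3 ^ m + C + 1 ∧
          ∀ z, 3 ^ m * X + 3 ^ (m - 1) ≤ z → z < 3 ^ m * X + 2 * 3 ^ (m - 1) →
            (z ∈ S ↔ z + p ∈ S) := by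
  obtain ⟨ι, hι, c, hc⟩ := hA.coloring
  have := hι
  refine ⟨Nat.card (ι × ι × ι × ι), fun m n h hm hn hh hC y hy => ?_⟩
  set C := Nat.card (ι × ι × ι × ι) with hCdef
  set x0 := 2 ^ n * y / 3 ^ m with hx0
  obtain ⟨i, i', hii, hi', he⟩ := Mid3.pigeon
    (fun i => ((c (x0 + i), c (y + i), c (2 * (y + i)), c (2 * (y + i) + 2)) : ι × ι × ι × ι))
  have e1 := congrArg (fun q : ι × ι × ι × ι => q.1) he
  have e2 := congrArg (fun q : ι × ι × ι × ι => q.2.1) he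
  have e3 := congrArg (fun q : ι × ι × ι × ι => q.2.2.1) he
  have e4 := congrArg (fun q : ι × ι × ι × ι => q.2.2.2) he
  simp only at e1 e2 e3 e4
  rw [hc] at e1 e2 e3 e4
  obtain ⟨A, hA1, hA2⟩ : ∃ A, 3 ^ (m - 1) = A ∧ 3 ^ m = 3 * A := by
    refine ⟨3 ^ (m - 1), rfl, ?_⟩
    have : m = (m - 1) + 1 := by omega
    conv_lhs => rw [this]
    rw [pow_succ]; ring
  obtain ⟨d, rfl⟩ : ∃ d, i' = i + d := ⟨i' - i, by omega⟩
  have hd : 0 < d := by omega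
  have hdC : d ≤ C := by omega
  have hiC : i ≤ C := by omega
  have hlow : 3 ^ m * x0 ≤ 2 ^ n * y := Nat.mul_div_le _ _
  have hupp : 2 ^ n * y < 3 ^ m * (x0 + 1) := by
    have := Nat.lt_mul_div_succ (2 ^ n * y) (show 0 < 3 ^ m by positivity)
    exact this
  refine ⟨x0 + (i + d) + 1, d * h, Nat.mul_pos hd hh, Nat.mul_le_mul_right _ hdC, by omega,
    by omega, fun z hz1 hz2 => ?_⟩
  rw [hA1] at hz1 hz2 hC
  have hih : i * h ≤ A := le_trans (Nat.mul_le_mul_right _ hiC) hC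
  obtain ⟨r, hr⟩ : ∃ r, z = 3 ^ m * (x0 + (i + d)) + r := by
    refine ⟨z - 3 ^ m * (x0 + (i + d)), ?_⟩
    have : 3 ^ m * (x0 + (i + d)) ≤ 3 ^ m * (x0 + (i + d) + 1) := Nat.mul_le_mul_left _ (by omega)
    omega
  have hex : 3 ^ m * (x0 + (i + d) + 1) = 3 ^ m * (x0 + (i + d)) + 3 ^ m := by ring
  have hr1 : 3 ^ m + A ≤ r := by omega
  have hr2 : r < 3 ^ m + 2 * A := by omega
  have key1 : 3 ^ m * (x0 + i) + r ∈ S ↔ z ∈ S := by
    rw [hr]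
    apply e1
    rw [hA2]
    rw [hA2] at hr2
    omega
  rw [← key1]
  have hni : 2 ^ n * (y + i) = 2 ^ n * y + 3 ^ m * i + i * h := by rw [hn]; ring
  have hup1 : 3 ^ m * (x0 + 1) = 3 ^ m * x0 + 3 ^ m := by ring
  have hxi : 3 ^ m * (x0 + i) = 3 ^ m * x0 + 3 ^ m * i := by ring
  have hge : 2 ^ n * (y + i) ≤ 3 ^ m * (x0 + i) + r := by
    rw [hni, hxi]
    omega
  have hlt : 3 ^ m * (x0 + i) + r < 2 ^ n * (y + i) + 2 * 2 ^ n := by
    have hnn : 2 * 2 ^ n = 2 * 3 ^ m + 2 * h := by rw [hn]; ring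
    rw [hnn, hni, hxi]
    omega
  have hzp : z + d * h = 3 ^ m * (x0 + i) + r + 2 ^ n * d := by
    rw [hr, hn]; ring
  rw [hzp]
  obtain ⟨t, ht⟩ : ∃ t, 3 ^ m * (x0 + i) + r = 2 ^ n * (y + i) + t :=
    ⟨_, (Nat.add_sub_of_le hge).symm⟩
  rw [ht] at hlt ⊢
  by_cases htn : t < 2 ^ n
  · have e5 : 2 ^ n * (y + i) + t + 2 ^ n * d = 2 ^ n * (y + (i + d)) + t := by ring
    rw [e5]
    exact transfer3 S hS n (y + i) (y + (i + d)) (hy i (by omega)) (hy (i + d) (by omega))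
      (Mid3.eqv_one e2) e3 t htn
  · obtain ⟨t', rfl⟩ : ∃ t', t = 2 ^ n + t' := ⟨t - 2 ^ n, by omega⟩
    have e5 : 2 ^ n * (y + i) + (2 ^ n + t') = 2 ^ n * (y + i + 1) + t' := by ring
    have e6 : 2 ^ n * (y + i) + (2 ^ n + t') + 2 ^ n * d = 2 ^ n * (y + (i + d) + 1) + t' := by
      ring
    rw [e6, e5]
    refine transfer3 S hS n (y + i + 1) (y + (i + d) + 1) (hy (i + 1) (by omega))
      (hy (i + d + 1) (by omega)) (Mid3.eqv_succ e2) (fun w r hr => ?_) t' (by omega)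
    have e7 : ∀ v : ℕ, 2 * (v + 1) = 2 * v + 2 := fun v => by ring
    rw [e7, e7]
    exact e4 w r hr

end ConwayAuto
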