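import Pool.Agent.Lib.ConwayAuto.WindowsG
import Pool.Agent.Lib.ConwayAuto.Good3
import Pool.Agent.Lib.ConwayAuto.Mid3
import Pool.Agent.Lib.ConwayAuto.Graph3
import Pool.Agent.Lib.ConwayAuto.Approx3

/-!
Eventual windows of periodicity for a 3-automatic set closed under Conway's map.
-/

namespace ConwayAuto

/-- the windows theorem in base 3, from the approximation lemma -/
theorem Windows3.windows3_of (approx3 : ∀ K : ℕ, ∃ m n h : ℕ, 2 ^ n = 3 ^ m + h ∧ 0 < h ∧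
      K * h ≤ 3 ^ m) (S : Set ℕ) (hA : ThreeAutomatic S) (hS : ∀ n ∈ S, g n ∈ S)
    (hD : NowhereDense3 (Entry S)) (x₀ : ℕ) (hx₀ : 0 < x₀) :
    ∃ x P j₀ : ℕ, (∃ L V, V < 3 ^ L ∧ x = 3 ^ L * x₀ + V) ∧ 0 < P ∧
      ∀ j ≥ j₀, ∀ z, 3 ^ j * x ≤ z → z < 3 ^ j * (x + 1) → (z ∈ S ↔ z + P ∈ S) := by
  obtain ⟨ι, hfin, c, hc⟩ := hA.coloring
  exact WindowsG.windows_gen 3 1 2 (by norm_num) (by norm_num) S c
    (fun x y hxy => (hc x y).mp hxy) (Good3 (Entry S)) approx3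
    (fun n C => exists_good3 (Entry S) hD n C) (mid_periodic3 S hA hS) x₀
    (graph3 c (fun x y hxy a v hv => (hc _ _).mpr (((hc _ _).mp hxy).desc hv)) x₀ hx₀)

theorem windows3 (S : Set ℕ) (hA : ThreeAutomatic S) (hS : ∀ n ∈ S, g n ∈ S)
    (hD : NowhereDense3 (Entry S)) (x₀ : ℕ) (hx₀ : 0 < x₀) :
    ∃ x P j₀ : ℕ, (∃ L V, V < 3 ^ L ∧ x = 3 ^ L * x₀ + V) ∧ 0 < P ∧
      ∀ j ≥ j₀, ∀ z, 3 ^ j * x ≤ z → z < 3 ^ j * (x + 1) → (z ∈ S ↔ z + P ∈ S) :=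
  Windows3.windows3_of approx3 S hA hS hD x₀ hx₀

end ConwayAuto
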