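import Pool.Agent.Lib.ConwayAuto.DefsB

/-!
MODULE GoodB: good blocks exist in base `b = 2^i 3^j`, and the transfer of membership along them.
-/

namespace ConwayAuto

namespace GoodBAux

/-- every residue class mod `b^w` contains a class mod `b^(w+w')` inside `A` -/
def Fat (b : ℕ) (A : Set ℕ) : Prop :=
  ∀ w r : ℕ, r < b ^ w → ∃ w' r' : ℕ, r' < b ^ w' ∧ ∀ m : ℕ, b ^ w * (b ^ w' * m + r') + r ∈ A

theorem lt_aux {b w w1 r r1 : ℕ} (hr : r < b ^ w) (hr1 : r1 < b ^ w1) :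
    b ^ w * r1 + r < b ^ (w + w1) := by
  have h1 : b ^ w * (r1 + 1) ≤ b ^ w * b ^ w1 := Nat.mul_le_mul_left _ hr1
  rw [pow_add]
  have h2 : b ^ w * (r1 + 1) = b ^ w * r1 + b ^ w := by ring
  omega

theorem Fat.inter {b : ℕ} {A B : Set ℕ} (hA : Fat b A) (hB : Fat b B) : Fat b (A ∩ B) := by
  intro w r hr
  obtain ⟨w1, r1, hr1, h1⟩ := hA w r hr
  obtain ⟨w2, r2, hr2, h2⟩ := hB (w + w1) (b ^ w * r1 + r) (lt_aux hr hr1)
  refine ⟨w1 + w2, b ^ w1 * r2 + r1, lt_aux hr1 hr2, fun m => ⟨?_, ?_⟩⟩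
  · have e : b ^ w * (b ^ (w1 + w2) * m + (b ^ w1 * r2 + r1)) + r =
        b ^ w * (b ^ w1 * (b ^ w2 * m + r2) + r1) + r := by
      rw [pow_add]; ring
    rw [e]
    exact h1 _
  · have e : b ^ w * (b ^ (w1 + w2) * m + (b ^ w1 * r2 + r1)) + r =
        b ^ (w + w1) * (b ^ w2 * m + r2) + (b ^ w * r1 + r) := by
      rw [pow_add, pow_add]; ring
    rw [e]
    exact h2 _

theorem fat_univ (b : ℕ) : Fat b Set.univ := fun _ _ _ => ⟨0, 0, by norm_num, fun _ => trivial⟩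

theorem fat_finset {b : ℕ} {ι : Type} (s : Finset ι) (A : ι → Set ℕ) (hA : ∀ i, Fat b (A i)) :
    Fat b {y | ∀ i ∈ s, y ∈ A i} := by
  classical
  induction s using Finset.induction_on with
  | empty =>
    have : {y : ℕ | ∀ i ∈ (∅ : Finset ι), y ∈ A i} = Set.univ := by
      ext y; simp
    rw [this]
    exact fat_univ b
  | insert c s hc ih =>
    have : {y : ℕ | ∀ i ∈ insert c s, y ∈ A i} = A c ∩ {y | ∀ i ∈ s, y ∈ A i} := by
      ext y; simp
    rw [this]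
    exact (hA c).inter ih

theorem exists_solve {M : ℕ} (hM : 0 < M) (u r : ℕ) (hr : r < M) :
    ∃ e : ℕ, e < M ∧ (e + u) % M = r := by
  refine ⟨(r + (M - u % M)) % M, Nat.mod_lt _ hM, ?_⟩
  have h1 := Nat.div_add_mod u M
  have h2 := Nat.mod_lt u hM
  have h3 : r + (M - u % M) + u = r + M * (u / M + 1) := by
    have h4 : M * (u / M + 1) = M * (u / M) + M := by ring
    omega
  rw [Nat.mod_add_mod, h3, Nat.add_mul_mod_self_left, Nat.mod_eq_of_lt hr]

theorem dvd_pow (b i j : ℕ) (hb : b = 2 ^ i * 3 ^ j) (hi : 1 ≤ i) (hj : 1 ≤ j) (a c : ℕ) :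
    2 ^ a * 3 ^ c ∣ b ^ (a + c) := by
  rw [hb, mul_pow, ← pow_mul, ← pow_mul]
  apply mul_dvd_mul
  · apply pow_dvd_pow
    nlinarith
  · apply pow_dvd_pow
    nlinarith

theorem fat_shift (b i j : ℕ) (hb : b = 2 ^ i * 3 ^ j) (hi : 1 ≤ i) (hj : 1 ≤ j) (D : Set ℕ)
    (hD : NowhereDenseB b D) (c a t l : ℕ) :
    Fat b {y : ℕ | 2 ^ a * 3 ^ c * (y + l) + t ∉ D} := by
  intro w r hr
  have hbpos : 0 < b := by rw [hb]; positivity
  obtain ⟨K', hK'⟩ := dvd_pow b i j hb hi hj a c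
  have hV : ((2 ^ a * 3 ^ c * (r + l) + t) % b ^ (a + c + w)) < b ^ (a + c + w) :=
    Nat.mod_lt _ (by positivity)
  obtain ⟨w', r', hr', h⟩ := hD (a + c + w) _ hV
  obtain ⟨e, he, he2⟩ := exists_solve (M := b ^ w') (by positivity)
    ((2 ^ a * 3 ^ c * (r + l) + t) / b ^ (a + c + w)) r' hr'
  have e1 := Nat.div_add_mod (2 ^ a * 3 ^ c * (r + l) + t) (b ^ (a + c + w))
  have e2 := Nat.div_add_mod (e + (2 ^ a * 3 ^ c * (r + l) + t) / b ^ (a + c + w)) (b ^ w')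
  rw [he2] at e2
  generalize (2 ^ a * 3 ^ c * (r + l) + t) / b ^ (a + c + w) = u1 at e1 e2
  generalize (2 ^ a * 3 ^ c * (r + l) + t) % b ^ (a + c + w) = u0 at e1 h
  generalize (e + u1) / b ^ w' = s at e2
  have hKpos : 0 < 2 ^ a * 3 ^ c := by positivity
  have hK'pos : 0 < K' := by
    rcases Nat.eq_zero_or_pos K' with h0 | h0
    · rw [h0, mul_zero] at hK'
      exact absurd hK' (by positivity)
    · exact h0
  refine ⟨a + c + w', K' * e, ?_, fun m => ?_⟩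
  · rw [pow_add, hK']
    calc K' * e < K' * b ^ w' := Nat.mul_lt_mul_of_pos_left he hK'pos
      _ ≤ 2 ^ a * 3 ^ c * (K' * b ^ w') := Nat.le_mul_of_pos_left _ hKpos
      _ = 2 ^ a * 3 ^ c * K' * b ^ w' := by ring
  · show 2 ^ a * 3 ^ c * (b ^ w * (b ^ (a + c + w') * m + K' * e) + r + l) + t ∉ D
    have e3 : 2 ^ a * 3 ^ c * (b ^ w * (b ^ (a + c + w') * m + K' * e) + r + l) + t =
        b ^ (a + c + w) * (b ^ w' * (2 ^ a * 3 ^ c * m + s) + r') + u0 := by
      calc 2 ^ a * 3 ^ c * (b ^ w * (b ^ (a + c + w') * m + K' * e) + r + l) + t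
          = 2 ^ a * 3 ^ c * b ^ w * b ^ (a + c) * b ^ w' * m +
              (2 ^ a * 3 ^ c * K') * b ^ w * e + (2 ^ a * 3 ^ c * (r + l) + t) := by
            rw [pow_add b (a + c) w']; ring
        _ = 2 ^ a * 3 ^ c * b ^ w * b ^ (a + c) * b ^ w' * m +
              b ^ (a + c) * b ^ w * e + (b ^ (a + c + w) * u1 + u0) := by rw [← hK', e1]
        _ = b ^ (a + c + w) * (b ^ w' * (2 ^ a * 3 ^ c * m) + (e + u1)) + u0 := by
            rw [pow_add b (a + c) w]; ring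
        _ = b ^ (a + c + w) * (b ^ w' * (2 ^ a * 3 ^ c * m) + (b ^ w' * s + r')) + u0 := by
            rw [e2]
        _ = b ^ (a + c + w) * (b ^ w' * (2 ^ a * 3 ^ c * m + s) + r') + u0 := by ring
    rw [e3]
    exact h _

theorem step {S : Set ℕ} (hS : ∀ n ∈ S, g n ∈ S) {N' N : ℕ} (hg : g N' = N)
    (hN : N' ∉ Entry S) : N' ∈ S ↔ N ∈ S := by
  constructor
  · intro h
    rw [← hg]
    exact hS _ h
  · intro h
    by_contra hc
    exact hN ⟨hc, by rw [hg]; exact h⟩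

theorem transfer_aux (b i j : ℕ) (hb : b = 2 ^ i * 3 ^ j) (hj : 1 ≤ j)
    (S : Set ℕ) (hS : ∀ n ∈ S, g n ∈ S) (n x y : ℕ) (hx : Good (Entry S) n x)
    (hy : Good (Entry S) n y)
    (H : ∀ a ≤ i + 2, ∀ d < j, ∀ c < 2 ^ a * 3 ^ d, ∀ w r, r < b ^ w →
      (b ^ w * (2 ^ a * 3 ^ d * x + c) + r ∈ S ↔ b ^ w * (2 ^ a * 3 ^ d * y + c) + r ∈ S))
    (e : ℕ) :
    ∀ w, e ≤ n → w ≤ 2 * (n - e) → w * j ≤ i * (e + 1) + 2 * j → ∀ c < 2 ^ w * 3 ^ e,
      (2 ^ w * 3 ^ e * x + c ∈ S ↔ 2 ^ w * 3 ^ e * y + c ∈ S) := by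
  have hbpos : 0 < b := by rw [hb]; positivity
  -- the direct case
  have direct : ∀ e w, i * e ≤ w * j → w * j ≤ i * (e + 1) + 2 * j → ∀ c < 2 ^ w * 3 ^ e,
      (2 ^ w * 3 ^ e * x + c ∈ S ↔ 2 ^ w * 3 ^ e * y + c ∈ S) := by
    intro e w h1 h2 c hc
    have hd : e % j < j := Nat.mod_lt _ hj
    have he := Nat.div_add_mod e j
    have h3 : i * (e / j) ≤ w := by
      have h4 : (i * (e / j)) * j ≤ w * j := by
        calc (i * (e / j)) * j = i * (j * (e / j)) := by ring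
          _ ≤ i * e := Nat.mul_le_mul_left _ (by omega)
          _ ≤ w * j := h1
      exact Nat.le_of_mul_le_mul_right h4 hj
    obtain ⟨a, ha⟩ : ∃ a, w = i * (e / j) + a := ⟨w - i * (e / j), by omega⟩
    have ha2 : a ≤ i + 2 := by
      have h5 : w * j ≤ (i * (e / j) + (i + 2)) * j := by
        calc w * j ≤ i * (e + 1) + 2 * j := h2
          _ ≤ i * (j * (e / j) + j) + 2 * j := by
              have : e + 1 ≤ j * (e / j) + j := by omega
              have := Nat.mul_le_mul_left i this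
              omega
          _ = (i * (e / j) + (i + 2)) * j := by ring
      have h6 := Nat.le_of_mul_le_mul_right h5 hj
      omega
    have hpow : 2 ^ w * 3 ^ e = b ^ (e / j) * (2 ^ a * 3 ^ (e % j)) := by
      have e7 : 3 ^ e = 3 ^ (j * (e / j)) * 3 ^ (e % j) := by
        rw [← pow_add, he]
      rw [ha, e7, hb, mul_pow, ← pow_mul, ← pow_mul, pow_add]
      ring
    rw [hpow] at hc
    have hc1 : c / b ^ (e / j) < 2 ^ a * 3 ^ (e % j) :=
      Nat.div_lt_of_lt_mul hc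
    have hr : c % b ^ (e / j) < b ^ (e / j) := Nat.mod_lt _ (by positivity)
    have hH := H a ha2 (e % j) hd (c / b ^ (e / j)) hc1 (e / j) (c % b ^ (e / j)) hr
    have e8 : ∀ z, 2 ^ w * 3 ^ e * z + c =
        b ^ (e / j) * (2 ^ a * 3 ^ (e % j) * z + c / b ^ (e / j)) + c % b ^ (e / j) := by
      intro z
      have h9 := Nat.div_add_mod c (b ^ (e / j))
      calc 2 ^ w * 3 ^ e * z + c
          = b ^ (e / j) * (2 ^ a * 3 ^ (e % j)) * z +
              (b ^ (e / j) * (c / b ^ (e / j)) + c % b ^ (e / j)) := by rw [hpow, h9]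
        _ = _ := by ring
    rw [e8 x, e8 y]
    exact hH
  induction e with
  | zero =>
    intro w _ _ h2 c hc
    exact direct 0 w (by simp) h2 c hc
  | succ e ih =>
    intro w he hw h2 c hc
    rcases Nat.lt_or_ge (w * j) (i * (e + 1)) with hlt | hge
    · have e3 : 3 ^ (e + 1) = 3 * 3 ^ e := by rw [pow_succ]; ring
      have he' : e ≤ n := by omega
      obtain ⟨s, h | h | h⟩ : ∃ s, c = 3 * s ∨ c = 3 * s + 1 ∨ c = 3 * s + 2 :=
        ⟨c / 3, by omega⟩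
      · have hs : s < 2 ^ w * 3 ^ e := by
          rw [e3] at hc
          have : 2 ^ w * (3 * 3 ^ e) = 3 * (2 ^ w * 3 ^ e) := by ring
          omega
        have e4 : 2 ^ (w + 1) * 3 ^ e = 2 * (2 ^ w * 3 ^ e) := by rw [pow_succ]; ring
        have hlt2 : 2 * s < 2 ^ (w + 1) * 3 ^ e := by omega
        have hinv : (w + 1) * j ≤ i * (e + 1) + 2 * j := by
          have : (w + 1) * j = w * j + j := by ring
          omega
        have key : ∀ z, Good (Entry S) n z →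
            (2 ^ (w + 1) * 3 ^ e * z + 2 * s ∈ S ↔ 2 ^ w * 3 ^ (e + 1) * z + c ∈ S) := by
          intro z hz
          apply step hS _ (hz e he' (w + 1) (by omega) (2 * s) hlt2)
          have : 2 ^ (w + 1) * 3 ^ e * z + 2 * s = 2 * (2 ^ w * 3 ^ e * z + s) := by
            rw [pow_succ]; ring
          rw [this, g_even, e3, h]; ring
        rw [← key x hx, ← key y hy]
        exact ih (w + 1) he' (by omega) hinv (2 * s) hlt2
      · have hs : s < 2 ^ w * 3 ^ e := by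
          rw [e3] at hc
          have : 2 ^ w * (3 * 3 ^ e) = 3 * (2 ^ w * 3 ^ e) := by ring
          omega
        have e4 : 2 ^ (w + 2) * 3 ^ e = 4 * (2 ^ w * 3 ^ e) := by rw [pow_add]; ring
        have hlt2 : 4 * s + 1 < 2 ^ (w + 2) * 3 ^ e := by omega
        have hinv : (w + 2) * j ≤ i * (e + 1) + 2 * j := by
          have : (w + 2) * j = w * j + 2 * j := by ring
          omega
        have key : ∀ z, Good (Entry S) n z →
            (2 ^ (w + 2) * 3 ^ e * z + (4 * s + 1) ∈ S ↔ 2 ^ w * 3 ^ (e + 1) * z + c ∈ S) := by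
          intro z hz
          apply step hS _ (hz e he' (w + 2) (by omega) (4 * s + 1) hlt2)
          have : 2 ^ (w + 2) * 3 ^ e * z + (4 * s + 1) = 4 * (2 ^ w * 3 ^ e * z + s) + 1 := by
            rw [pow_add]; ring
          rw [this, g_one, e3, h]; ring
        rw [← key x hx, ← key y hy]
        exact ih (w + 2) he' (by omega) hinv (4 * s + 1) hlt2
      · have hs : s < 2 ^ w * 3 ^ e := by
          rw [e3] at hc
          have : 2 ^ w * (3 * 3 ^ e) = 3 * (2 ^ w * 3 ^ e) := by ring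
          omega
        have e4 : 2 ^ (w + 2) * 3 ^ e = 4 * (2 ^ w * 3 ^ e) := by rw [pow_add]; ring
        have hlt2 : 4 * s + 3 < 2 ^ (w + 2) * 3 ^ e := by omega
        have hinv : (w + 2) * j ≤ i * (e + 1) + 2 * j := by
          have : (w + 2) * j = w * j + 2 * j := by ring
          omega
        have key : ∀ z, Good (Entry S) n z →
            (2 ^ (w + 2) * 3 ^ e * z + (4 * s + 3) ∈ S ↔ 2 ^ w * 3 ^ (e + 1) * z + c ∈ S) := by
          intro z hz
          apply step hS _ (hz e he' (w + 2) (by omega) (4 * s + 3) hlt2)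
          have : 2 ^ (w + 2) * 3 ^ e * z + (4 * s + 3) = 4 * (2 ^ w * 3 ^ e * z + s) + 3 := by
            rw [pow_add]; ring
          rw [this, g_three, e3, h]; ring
        rw [← key x hx, ← key y hy]
        exact ih (w + 2) he' (by omega) hinv (4 * s + 3) hlt2
    · exact direct (e + 1) w hge h2 c hc

end GoodBAux

theorem exists_goodB (b i j : ℕ) (hb : b = 2 ^ i * 3 ^ j) (hi : 1 ≤ i) (hj : 1 ≤ j) (D : Set ℕ)
    (hD : NowhereDenseB b D) (n C : ℕ) :
    ∃ W ρ : ℕ, ∀ m, ∀ l ≤ C, Good D n (b ^ W * m + ρ + l) := by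
  classical
  have hfat := GoodBAux.fat_finset
    (Finset.range (n + 1) ×ˢ (Finset.range (2 * n + 1) ×ˢ
      (Finset.range (2 ^ (2 * n) * 3 ^ n) ×ˢ Finset.range (C + 1))))
    (fun p : ℕ × ℕ × ℕ × ℕ =>
      {y : ℕ | 2 ^ p.2.1 * 3 ^ p.1 * (y + p.2.2.2) + p.2.2.1 ∉ D})
    (fun p => GoodBAux.fat_shift b i j hb hi hj D hD p.1 p.2.1 p.2.2.1 p.2.2.2)
  obtain ⟨W, ρ, _, h⟩ := hfat 0 0 (by norm_num)
  refine ⟨W, ρ, fun m l hl q hq a ha t ht => ?_⟩
  have hm := h m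
  rw [pow_zero, one_mul, add_zero] at hm
  have ht' : t < 2 ^ (2 * n) * 3 ^ n :=
    lt_of_lt_of_le ht (Nat.mul_le_mul (Nat.pow_le_pow_right (by norm_num) ha)
      (Nat.pow_le_pow_right (by norm_num) hq))
  exact hm (q, a, t, l) (by
    simp only [Finset.mem_product, Finset.mem_range]
    exact ⟨by omega, by omega, ht', by omega⟩)

theorem transferB (b i j : ℕ) (hb : b = 2 ^ i * 3 ^ j) (hi : 1 ≤ i) (hj : 1 ≤ j)
    (S : Set ℕ) (hS : ∀ n ∈ S, g n ∈ S) (n x y : ℕ) (hx : Good (Entry S) n x)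
    (hy : Good (Entry S) n y)
    (H : ∀ a ≤ i + 2, ∀ d < j, ∀ c < 2 ^ a * 3 ^ d, ∀ w r, r < b ^ w →
      (b ^ w * (2 ^ a * 3 ^ d * x + c) + r ∈ S ↔ b ^ w * (2 ^ a * 3 ^ d * y + c) + r ∈ S))
    (t : ℕ) (ht : t < 3 ^ n) : (3 ^ n * x + t ∈ S ↔ 3 ^ n * y + t ∈ S) := by
  have h := GoodBAux.transfer_aux b i j hb hj S hS n x y hx hy H n 0 le_rfl (Nat.zero_le _)
    (by rw [zero_mul]; exact Nat.zero_le _) t (by rw [pow_zero, one_mul]; exact ht)
  rw [pow_zero, one_mul] at h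
  exact h

end ConwayAuto
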