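import Pool.Agent.Lib.ConwayAuto.DefsB

/-!
Combinatorics of a finite compatible colouring of the base `b` tree, for every base `b ≥ 2`.
-/

namespace ConwayAuto

namespace GraphBAux

variable {p : ℕ}

/-- the colours of the descendants of `x` -/
def Dc (p : ℕ) {κ : Type} (d : ℕ → κ) (x : ℕ) : Set κ :=
  {i | ∃ a v : ℕ, v < p ^ a ∧ d (p ^ a * x + v) = i}

theorem comp {a b x v w : ℕ} : p ^ b * (p ^ a * x + v) + w = p ^ (a + b) * x + (p ^ b * v + w) := by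
  rw [pow_add]; ring

theorem comp_lt {a b v w : ℕ} (hv : v < p ^ a) (hw : w < p ^ b) :
    p ^ b * v + w < p ^ (a + b) := by
  have h1 : p ^ b * (v + 1) ≤ p ^ b * p ^ a := Nat.mul_le_mul_left _ hv
  rw [pow_add]
  nlinarith

theorem self_mem {κ : Type} (d : ℕ → κ) (x : ℕ) : d x ∈ Dc p d x :=
  ⟨0, 0, by simp, by simp⟩

theorem Dc_sub {κ : Type} (d : ℕ → κ) (x : ℕ) {a v : ℕ} (hv : v < p ^ a) :
    Dc p d (p ^ a * x + v) ⊆ Dc p d x := by
  rintro i ⟨b, w, hw, rfl⟩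
  exact ⟨a + b, p ^ b * v + w, comp_lt hv hw, by rw [comp]⟩

theorem exists_min {κ : Type} [Finite κ] (d : ℕ → κ) (x₀ : ℕ) :
    ∃ L V : ℕ, V < p ^ L ∧ ∀ a v : ℕ, v < p ^ a →
      Dc p d (p ^ a * (p ^ L * x₀ + V) + v) = Dc p d (p ^ L * x₀ + V) := by
  classical
  let P : ℕ → Prop := fun n => ∃ L V : ℕ, V < p ^ L ∧ (Dc p d (p ^ L * x₀ + V)).ncard = n
  have hP : ∃ n, P n := ⟨_, 0, 0, by simp, rfl⟩
  obtain ⟨L, V, hV, hn⟩ := Nat.find_spec hP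
  refine ⟨L, V, hV, fun a v hv => ?_⟩
  have hsub := Dc_sub d (p ^ L * x₀ + V) hv
  refine Set.eq_of_subset_of_ncard_le hsub ?_ (Set.toFinite _)
  rw [hn]
  apply Nat.find_min' hP
  exact ⟨L + a, p ^ a * V + v, comp_lt hV hv, by rw [comp]⟩

section

variable {ι : Type} (c : ℕ → ι)

/-- a return of the colour of `x` at depth `e`, in the second slice of size `p ^ (e - 2)` -/
def MR (p : ℕ) {ι : Type} (c : ℕ → ι) (x e : ℕ) : Prop :=
  ∃ i : ℕ, p ^ (e - 2) ≤ i ∧ i < 2 * p ^ (e - 2) ∧ c (p ^ e * x + i) = c x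

variable {c} (hp : 2 ≤ p)
  (hc : ∀ x y, c x = c y → ∀ a v, v < p ^ a → c (p ^ a * x + v) = c (p ^ a * y + v))

include hp in
theorem mid_lt {e i : ℕ} (he : 2 ≤ e) (hi : i < 2 * p ^ (e - 2)) : i < p ^ e := by
  obtain ⟨f, rfl⟩ : ∃ f, e = f + 2 := ⟨e - 2, by omega⟩
  rw [Nat.add_sub_cancel] at hi
  have h1 : p ^ (f + 2) = p ^ f * (p * p) := by ring
  have h2 : 2 * 2 ≤ p * p := Nat.mul_le_mul hp hp
  have h3 : p ^ f * (2 * 2) ≤ p ^ f * (p * p) := Nat.mul_le_mul_left _ h2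
  rw [h1]
  omega

include hp hc in
theorem MR.congr {x y e : ℕ} (he : 2 ≤ e) (hxy : c x = c y) (h : MR p c x e) : MR p c y e := by
  obtain ⟨i, h1, h2, h3⟩ := h
  refine ⟨i, h1, h2, ?_⟩
  rw [← hc x y hxy e i (mid_lt hp he h2), h3, hxy]

theorem mid_comp {j e i r : ℕ} (he : 2 ≤ e) (h1 : p ^ (e - 2) ≤ i) (h2 : i < 2 * p ^ (e - 2))
    (hr : r < p ^ j) : p ^ (e + j - 2) ≤ p ^ j * i + r ∧ p ^ j * i + r < 2 * p ^ (e + j - 2) := by
  have hp : p ^ (e + j - 2) = p ^ j * p ^ (e - 2) := by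
    rw [← pow_add]; congr 1; omega
  have a1 : p ^ j * p ^ (e - 2) ≤ p ^ j * i := Nat.mul_le_mul_left _ h1
  have a2 : p ^ j * (i + 1) ≤ p ^ j * (2 * p ^ (e - 2)) := Nat.mul_le_mul_left _ h2
  rw [hp]
  constructor
  · omega
  · calc p ^ j * i + r < p ^ j * (i + 1) := by rw [mul_add, mul_one]; omega
      _ ≤ p ^ j * (2 * p ^ (e - 2)) := a2
      _ = 2 * (p ^ j * p ^ (e - 2)) := by ring

include hp hc in
theorem MR.add {x e e2 : ℕ} (he : 2 ≤ e) (he2 : 2 ≤ e2) (h : MR p c x e) (h' : MR p c x e2) :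
    MR p c x (e + e2) := by
  obtain ⟨i, h1, h2, h3⟩ := h
  obtain ⟨i2, k1, k2, k3⟩ := h'
  have hi2 := mid_lt hp he2 k2
  have h4 := mid_comp he h1 h2 hi2
  refine ⟨p ^ e2 * i + i2, h4.1, h4.2, ?_⟩
  rw [← comp, hc _ x h3 e2 i2 hi2, k3]

include hp hc in
theorem MR.mul {x e : ℕ} (he : 2 ≤ e) (h : MR p c x e) (n : ℕ) (hn : 1 ≤ n) :
    MR p c x (n * e) := by
  induction n, hn using Nat.le_induction with
  | base => rwa [one_mul]
  | succ n hn ih =>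
    rw [add_mul, one_mul]
    have : 1 * 2 ≤ n * e := Nat.mul_le_mul hn he
    exact MR.add hp hc (by omega) he ih h

include hp in
theorem MR_of_rec {x : ℕ} (h : ∀ a v, v < p ^ a → ∃ b w, w < p ^ b ∧
    c (p ^ b * (p ^ a * x + v) + w) = c x) : ∃ e, 2 ≤ e ∧ MR p c x e := by
  obtain ⟨b, w, hw, hcw⟩ := h 2 1 (by nlinarith)
  refine ⟨b + 2, by omega, p ^ b * 1 + w, ?_, ?_, ?_⟩
  · rw [Nat.add_sub_cancel]; omega
  · rw [Nat.add_sub_cancel]; omega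
  · rw [comp] at hcw
    rw [add_comm b 2]
    exact hcw

include hp hc in
/-- one depth for all recurrent points -/
theorem exists_depth [Finite ι] : ∃ e, 2 ≤ e ∧ ∀ x, (∀ a v, v < p ^ a → ∃ b w, w < p ^ b ∧
    c (p ^ b * (p ^ a * x + v) + w) = c x) → MR p c x e := by
  classical
  have := Fintype.ofFinite ι
  have h1 : ∀ i : ι, ∃ e, 2 ≤ e ∧ ∀ x, c x = i → (∀ a v, v < p ^ a → ∃ b w, w < p ^ b ∧
      c (p ^ b * (p ^ a * x + v) + w) = c x) → MR p c x e := by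
    intro i
    by_cases h : ∃ x, c x = i ∧ (∀ a v, v < p ^ a → ∃ b w, w < p ^ b ∧
      c (p ^ b * (p ^ a * x + v) + w) = c x)
    · obtain ⟨x, hx, hrec⟩ := h
      obtain ⟨e, he, hm⟩ := MR_of_rec hp hrec
      exact ⟨e, he, fun y hy _ => MR.congr hp hc he (hx.trans hy.symm) hm⟩
    · exact ⟨2, le_rfl, fun y hy hrec => absurd ⟨y, hy, hrec⟩ h⟩
  choose f hf1 hf2 using h1
  have hpos : 0 < ∏ i, f i := Finset.prod_pos fun i _ => lt_of_lt_of_le two_pos (hf1 i)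
  refine ⟨∏ i, f i, (hf1 (c 0)).trans (Nat.le_of_dvd hpos
    (Finset.dvd_prod_of_mem _ (Finset.mem_univ _))), fun x hx => ?_⟩
  obtain ⟨n, hn⟩ : f (c x) ∣ ∏ i, f i := Finset.dvd_prod_of_mem _ (Finset.mem_univ _)
  rw [hn, mul_comm]
  refine MR.mul hp hc (hf1 _) (hf2 _ x rfl hx) n ?_
  rcases Nat.eq_zero_or_pos n with h0 | h0
  · rw [h0, mul_zero] at hn; omega
  · exact h0

include hp hc in
/-- stabilisation of the set of colours -/
theorem exists_stable [Finite ι] {e : ℕ} (he : 2 ≤ e) {y : ℕ} (hy : MR p c y e) :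
    ∃ N, ∀ l r, r < p ^ (e * (N + 1) + e * l) → ∃ r', p ^ (e * (N + 1) - 2) ≤ r' ∧
      r' < 2 * p ^ (e * (N + 1) - 2) ∧
      c (p ^ (e * (N + 1) + e * l) * y + r) = c (p ^ (e * (N + 1)) * y + r') := by
  classical
  obtain ⟨i, h1, h2, h3⟩ := hy
  let A : ℕ → Set ι := fun j => {k | ∃ r, r < p ^ j ∧ c (p ^ j * y + r) = k}
  have hmid : ∀ j, ∀ k ∈ A j, ∃ r, p ^ (e + j - 2) ≤ r ∧ r < 2 * p ^ (e + j - 2) ∧
      c (p ^ (e + j) * y + r) = k := by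
    rintro j k ⟨r, hr, rfl⟩
    have h4 := mid_comp he h1 h2 hr
    refine ⟨_, h4.1, h4.2, ?_⟩
    rw [← comp]
    exact hc _ y h3 j r hr
  have hstep : ∀ j, A j ⊆ A (e + j) := by
    intro j k hk
    obtain ⟨r, _, hr2, hr3⟩ := hmid j k hk
    exact ⟨r, mid_lt hp (by omega) hr2, hr3⟩
  have hmono : Monotone fun l => A (e * l) := by
    refine monotone_nat_of_le_succ fun l => ?_
    have := hstep (e * l)
    rw [show e + e * l = e * (l + 1) by ring] at this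
    exact this
  obtain ⟨N, hN⟩ := WellFoundedGT.monotone_chain_condition (⟨fun l => A (e * l), hmono⟩ : ℕ →o Set ι)
  refine ⟨N, fun l r hr => ?_⟩
  have h5 : c (p ^ (e * (N + 1) + e * l) * y + r) ∈ A (e * (N + 1 + l)) := by
    rw [show e * (N + 1 + l) = e * (N + 1) + e * l by ring]
    exact ⟨r, hr, rfl⟩
  have h6 : A (e * N) = A (e * (N + 1 + l)) := hN (N + 1 + l) (by omega)
  rw [← h6] at h5
  obtain ⟨r', g1, g2, g3⟩ := hmid _ _ h5
  rw [show e + e * N = e * (N + 1) by ring] at g1 g2 g3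
  exact ⟨r', g1, g2, g3.symm⟩

include hp hc in
theorem exists_stable_all [Finite ι] {e : ℕ} (he : 2 ≤ e) :
    ∃ s₀, ∀ y, MR p c y e → ∃ s, 2 ≤ s ∧ s ≤ s₀ ∧ ∀ l r, r < p ^ (s + e * l) →
      ∃ r', p ^ (s - 2) ≤ r' ∧ r' < 2 * p ^ (s - 2) ∧
        c (p ^ (s + e * l) * y + r) = c (p ^ s * y + r') := by
  classical
  have := Fintype.ofFinite ι
  have hle : ∀ N : ℕ, 2 ≤ e * (N + 1) := fun N => by
    have : 2 * 1 ≤ e * (N + 1) := Nat.mul_le_mul he (by omega)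
    omega
  have h1 : ∀ i : ι, ∃ N, ∀ y, c y = i → MR p c y e →
      ∀ l r, r < p ^ (e * (N + 1) + e * l) → ∃ r', p ^ (e * (N + 1) - 2) ≤ r' ∧
      r' < 2 * p ^ (e * (N + 1) - 2) ∧
      c (p ^ (e * (N + 1) + e * l) * y + r) = c (p ^ (e * (N + 1)) * y + r') := by
    intro i
    by_cases h : ∃ x, c x = i ∧ MR p c x e
    · obtain ⟨x, hx, hm⟩ := h
      obtain ⟨N, hN⟩ := exists_stable hp hc he hm
      refine ⟨N, fun y hy _ l r hr => ?_⟩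
      obtain ⟨r', g1, g2, g3⟩ := hN l r hr
      refine ⟨r', g1, g2, ?_⟩
      have hxy : c y = c x := hy.trans hx.symm
      rw [hc y x hxy _ r hr, g3, hc x y hxy.symm _ r' (mid_lt hp (hle N) g2)]
    · exact ⟨0, fun y hy hm => absurd ⟨y, hy, hm⟩ h⟩
  choose f hf using h1
  refine ⟨e * ((∑ i, f i) + 1), fun y hy => ⟨e * (f (c y) + 1), hle _, ?_,
    hf (c y) y rfl hy⟩⟩
  have : f (c y) ≤ ∑ i, f i := Finset.single_le_sum (fun _ _ => Nat.zero_le _) (Finset.mem_univ _)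
  exact Nat.mul_le_mul_left _ (by omega)

end

theorem log_desc (hp : 2 ≤ p) {x a v : ℕ} (hx : 1 ≤ x) (hv : v < p ^ a) :
    Nat.log p (p ^ a * x + v) = a + Nat.log p x := by
  have h1 : p ^ Nat.log p x ≤ x := Nat.pow_log_le_self p (by omega)
  have h2 : x < p ^ (Nat.log p x + 1) := Nat.lt_pow_succ_log_self (by omega) x
  have hpa : 0 < p ^ a := Nat.pow_pos (by omega)
  have hne : p ^ a * x + v ≠ 0 := by
    have := Nat.mul_pos hpa hx
    omega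
  rw [Nat.log_eq_iff (Or.inr ⟨by omega, hne⟩)]
  constructor
  · rw [pow_add]
    exact (Nat.mul_le_mul_left _ h1).trans (Nat.le_add_right _ _)
  · have h3 : p ^ a * (x + 1) ≤ p ^ a * p ^ (Nat.log p x + 1) := Nat.mul_le_mul_left _ h2
    rw [show a + Nat.log p x + 1 = a + (Nat.log p x + 1) by ring, pow_add]
    nlinarith

theorem main (hp : 2 ≤ p) {ι : Type} [Finite ι] (c : ℕ → ι)
    (hc : ∀ x y, c x = c y → ∀ a v, v < p ^ a → c (p ^ a * x + v) = c (p ^ a * y + v))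
    (x₀ : ℕ) (hx₀ : 0 < x₀) :
    ∃ e s₀ u : ℕ, 0 < e ∧ (∃ L V, V < p ^ L ∧ u = p ^ L * x₀ + V) ∧
      (∀ L V, V < p ^ L → ∃ s, 2 ≤ s ∧ s ≤ s₀ ∧ ∀ l r, r < p ^ (s + e * l) →
        ∃ r', p ^ (s - 2) ≤ r' ∧ r' < 2 * p ^ (s - 2) ∧
          c (p ^ (s + e * l) * (p ^ L * u + V) + r) = c (p ^ s * (p ^ L * u + V) + r')) ∧
      (∀ L V : ℕ → ℕ, (∀ T, V T < p ^ L T) → ∃ x Lx Vx : ℕ, Vx < p ^ Lx ∧ x = p ^ Lx * u + Vx ∧
        ∀ T < e, ∃ a k X v : ℕ, a + k = Lx ∧ a % e = L T % e ∧ v < p ^ k ∧ x = p ^ k * X + v ∧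
          c X = c (p ^ L T * u + V T)) := by
  classical
  obtain ⟨e, he, hMR⟩ := exists_depth hp hc
  obtain ⟨s₀, hs₀⟩ := exists_stable_all hp hc he
  have he0 : 0 < e := by omega
  let d : ℕ → ι × Fin e := fun x => (c x, ⟨Nat.log p x % e, Nat.mod_lt _ he0⟩)
  obtain ⟨L0, V0, hV0, hmin⟩ := exists_min (p := p) d x₀
  set u := p ^ L0 * x₀ + V0 with hu
  have hu1 : 1 ≤ u := by
    have h1 : 0 < p ^ L0 * x₀ := Nat.mul_pos (Nat.pow_pos (by omega)) hx₀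
    omega
  -- return to the colour of a descendant
  have hret : ∀ a v b w, v < p ^ a → w < p ^ b → ∃ b' w', w' < p ^ b' ∧
      d (p ^ b' * (p ^ b * u + w) + w') = d (p ^ a * u + v) := by
    intro a v b w hv hw
    have h1 : d (p ^ a * u + v) ∈ Dc p d (p ^ b * u + w) := by
      rw [hmin b w hw, ← hmin a v hv]
      exact self_mem d _
    exact h1
  have hrec : ∀ L V, V < p ^ L → ∀ a v, v < p ^ a → ∃ b w, w < p ^ b ∧
      c (p ^ b * (p ^ a * (p ^ L * u + V) + v) + w) = c (p ^ L * u + V) := by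
    intro L V hV a v hv
    obtain ⟨b, w, hw, h⟩ := hret L V (L + a) (p ^ a * V + v) hV (comp_lt hV hv)
    rw [← comp] at h
    exact ⟨b, w, hw, congrArg Prod.fst h⟩
  refine ⟨e, s₀, u, he0, ⟨L0, V0, hV0, hu⟩, fun L V hV => hs₀ _ (hMR _ (hrec L V hV)), ?_⟩
  intro L V hLV
  have key : ∀ n : ℕ, ∃ x Lx Vx : ℕ, Vx < p ^ Lx ∧ x = p ^ Lx * u + Vx ∧
        ∀ T < n, ∃ a b X v : ℕ, a + b = Lx ∧ a % e = L T % e ∧ v < p ^ b ∧ x = p ^ b * X + v ∧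
          c X = c (p ^ L T * u + V T) := by
    intro n
    induction n with
    | zero => exact ⟨u, 0, 0, by simp, by simp, fun T hT => absurd hT (Nat.not_lt_zero _)⟩
    | succ n ih =>
      obtain ⟨x, Lx, Vx, hVx, hx, hall⟩ := ih
      obtain ⟨β, w, hw, hdw⟩ := hret 0 0 Lx Vx (by simp) hVx
      rw [pow_zero, one_mul, add_zero, ← hx] at hdw
      have hc1 : c (p ^ β * x + w) = c u := congrArg Prod.fst hdw
      have hl1 : Nat.log p (p ^ β * x + w) % e = Nat.log p u % e := by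
        have := congrArg (fun q : ι × Fin e => (q.2 : ℕ)) hdw
        exact this
      have hx' : p ^ β * x + w = p ^ (Lx + β) * u + (p ^ β * Vx + w) := by rw [hx, comp]
      have hlt' := comp_lt hVx hw
      have hmod : (Lx + β) % e = 0 := by
        rw [hx', log_desc hp hu1 hlt'] at hl1
        have h5 : (Lx + β + Nat.log p u) ≡ 0 + Nat.log p u [MOD e] := by
          rw [zero_add]; exact hl1
        exact Nat.ModEq.add_right_cancel' _ h5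
      refine ⟨p ^ L n * (p ^ β * x + w) + V n, Lx + β + L n, p ^ L n * (p ^ β * Vx + w) + V n,
        comp_lt hlt' (hLV n), ?_, ?_⟩
      · rw [hx', comp]
      · intro T hT
        rcases Nat.lt_succ_iff_lt_or_eq.1 hT with h | rfl
        · obtain ⟨a, b, X, v, h1, h2, h3, h4, h5⟩ := hall T h
          refine ⟨a, b + β + L n, X, p ^ L n * (p ^ β * v + w) + V n, by omega, h2,
            comp_lt (comp_lt h3 hw) (hLV n), ?_, h5⟩
          rw [h4, comp (a := b) (b := β) (x := X) (v := v) (w := w), comp]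
        · refine ⟨Lx + β + L T, 0, p ^ L T * (p ^ β * x + w) + V T, 0, by omega, ?_, by simp,
            by simp, ?_⟩
          · rw [Nat.add_mod, hmod, zero_add, Nat.mod_mod]
          · exact hc _ _ hc1 _ _ (hLV T)
  exact key e

end GraphBAux

theorem graphB (b : ℕ) (hb : 2 ≤ b) {ι : Type} [Finite ι] (c : ℕ → ι)
    (hc : ∀ x y, c x = c y → ∀ a v, v < b ^ a → c (b ^ a * x + v) = c (b ^ a * y + v))
    (x₀ : ℕ) (hx₀ : 0 < x₀) :
    ∃ e s₀ u : ℕ, 0 < e ∧ (∃ L V, V < b ^ L ∧ u = b ^ L * x₀ + V) ∧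
      (∀ L V, V < b ^ L → ∃ s, 2 ≤ s ∧ s ≤ s₀ ∧ ∀ l r, r < b ^ (s + e * l) →
        ∃ r', b ^ (s - 2) ≤ r' ∧ r' < 2 * b ^ (s - 2) ∧
          c (b ^ (s + e * l) * (b ^ L * u + V) + r) = c (b ^ s * (b ^ L * u + V) + r')) ∧
      (∀ L V : ℕ → ℕ, (∀ T, V T < b ^ L T) → ∃ x Lx Vx : ℕ, Vx < b ^ Lx ∧ x = b ^ Lx * u + Vx ∧
        ∀ T < e, ∃ a k X v : ℕ, a + k = Lx ∧ a % e = L T % e ∧ v < b ^ k ∧ x = b ^ k * X + v ∧
          c X = c (b ^ L T * u + V T)) :=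
  GraphBAux.main hb c hc x₀ hx₀

theorem graph {ι : Type} [Finite ι] (c : ℕ → ι)
    (hc : ∀ x y, c x = c y → ∀ a v, v < 2 ^ a → c (2 ^ a * x + v) = c (2 ^ a * y + v)) :
    ∃ e s₀ u : ℕ, 0 < e ∧ 0 < u ∧
      (∀ L V, V < 2 ^ L → ∃ s, 2 ≤ s ∧ s ≤ s₀ ∧ ∀ l r, r < 2 ^ (s + e * l) →
        ∃ r', 2 ^ (s - 2) ≤ r' ∧ r' < 2 ^ (s - 1) ∧
          c (2 ^ (s + e * l) * (2 ^ L * u + V) + r) = c (2 ^ s * (2 ^ L * u + V) + r')) ∧
      (∀ L V : ℕ → ℕ, (∀ T, V T < 2 ^ L T) → ∃ x Lx Vx : ℕ, Vx < 2 ^ Lx ∧ x = 2 ^ Lx * u + Vx ∧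
        ∀ T < e, ∃ a b X v : ℕ, a + b = Lx ∧ a % e = L T % e ∧ v < 2 ^ b ∧ x = 2 ^ b * X + v ∧
          c X = c (2 ^ L T * u + V T)) := by
  obtain ⟨e, s₀, u, he, ⟨L0, V0, _, hu⟩, h1, h2⟩ := graphB 2 le_rfl c hc 1 one_pos
  refine ⟨e, s₀, u, he, ?_, ?_, h2⟩
  · have : 0 < 2 ^ L0 * 1 := by positivity
    omega
  · intro L V hV
    obtain ⟨s, hs2, hs, h⟩ := h1 L V hV
    refine ⟨s, hs2, hs, fun l r hr => ?_⟩
    obtain ⟨r', g1, g2, g3⟩ := h l r hr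
    refine ⟨r', g1, ?_, g3⟩
    have : 2 * 2 ^ (s - 2) = 2 ^ (s - 1) := by
      rw [show s - 1 = (s - 2) + 1 by omega, pow_succ]; ring
    omega

end ConwayAuto
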