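import Pool.Agent.Lib.ConwayAuto.GoodB

/-!
A local period of an invariant `b`-automatic set, `b = 2 ^ i * 3 ^ j`, in a `b`-adic block.
-/

namespace ConwayAuto

namespace MidB

theorem pigeon {κ : Type} [Finite κ] (f : ℕ → κ) :
    ∃ i i' : ℕ, i < i' ∧ i' ≤ Nat.card κ ∧ f i = f i' := by
  classical
  have : Fintype κ := Fintype.ofFinite κ
  have hcard : Fintype.card κ < Fintype.card (Fin (Nat.card κ + 1)) := by
    rw [Fintype.card_fin, Nat.card_eq_fintype_card]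
    exact Nat.lt_succ_self _
  obtain ⟨i, j, hij, he⟩ := Fintype.exists_ne_map_eq_of_card_lt
    (fun i : Fin (Nat.card κ + 1) => f i.1) hcard
  have hne : i.1 ≠ j.1 := fun h => hij (Fin.ext h)
  rcases lt_or_gt_of_ne hne with h | h
  · exact ⟨i.1, j.1, h, Nat.le_of_lt_succ j.2, he⟩
  · exact ⟨j.1, i.1, h, Nat.le_of_lt_succ i.2, he.symm⟩

theorem eqv_one {b : ℕ} {S : Set ℕ} {x y : ℕ} (h : EqvB b S x y) (w r : ℕ) (hr : r < b ^ w) :
    b ^ w * x + r ∈ S ↔ b ^ w * y + r ∈ S := by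
  apply h
  omega

/-- the index type of the colours used for `transferB` -/
abbrev Ix (i j : ℕ) : Type := Fin (i + 3) × Fin j × Fin (2 ^ (i + 2) * 3 ^ j)

/-- the colours of the numbers `2 ^ a * 3 ^ d * y + c` -/
def cv {ι : Type} (col : ℕ → ι) (i j y : ℕ) (q : Ix i j) : ι :=
  col (2 ^ (q.1 : ℕ) * 3 ^ (q.2.1 : ℕ) * y + (q.2.2 : ℕ))

theorem cv_eq {ι : Type} {b : ℕ} {S : Set ℕ} {col : ℕ → ι} (hcol : ∀ x y, col x = col y ↔
    EqvB b S x y) {i j x y : ℕ} (h : cv col i j x = cv col i j y) (a : ℕ) (ha : a ≤ i + 2) (d : ℕ)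
    (hd : d < j) (c : ℕ) (hc : c < 2 ^ a * 3 ^ d) (w r : ℕ) (hr : r < b ^ w) :
    b ^ w * (2 ^ a * 3 ^ d * x + c) + r ∈ S ↔ b ^ w * (2 ^ a * 3 ^ d * y + c) + r ∈ S := by
  have h1 : 2 ^ a * 3 ^ d ≤ 2 ^ (i + 2) * 3 ^ j :=
    Nat.mul_le_mul (Nat.pow_le_pow_right (by norm_num) ha)
      (Nat.pow_le_pow_right (by norm_num) hd.le)
  have h2 := congrFun h (⟨a, by omega⟩, ⟨d, hd⟩, ⟨c, lt_of_lt_of_le hc h1⟩)
  unfold cv at h2
  simp only at h2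
  rw [hcol] at h2
  exact eqv_one h2 w r hr

end MidB

/-- **A local period, base `b = 2 ^ i * 3 ^ j`.** -/
theorem mid_periodicB (b i j : ℕ) (hb : b = 2 ^ i * 3 ^ j) (hi : 1 ≤ i) (hj : 1 ≤ j)
    (S : Set ℕ) (hA : AutomaticIn b S) (hS : ∀ n ∈ S, g n ∈ S) :
    ∃ C : ℕ, ∀ m n h : ℕ, 2 ≤ m → 3 ^ n = b ^ m + h → 0 < h → C * h ≤ b ^ (m - 2) →
      ∀ y : ℕ, (∀ l ≤ C + 1, Good (Entry S) n (y + l)) →
        ∃ X p : ℕ, 0 < p ∧ p ≤ C * h ∧ 3 ^ n * y / b ^ m < X ∧ X ≤ 3 ^ n * y / b ^ m + C + 1 ∧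
          ∀ z, b ^ m * X + b ^ (m - 2) ≤ z → z < b ^ m * X + 2 * b ^ (m - 2) →
            (z ∈ S ↔ z + p ∈ S) := by
  obtain ⟨ι, hι, col, hcol⟩ := hA.coloring
  have hb2 : 2 ≤ b := by
    rw [hb]
    have h1 : 2 ^ 1 ≤ 2 ^ i := Nat.pow_le_pow_right (by norm_num) hi
    have h2 : 1 ≤ 3 ^ j := Nat.one_le_pow _ _ (by norm_num)
    calc 2 = 2 ^ 1 * 1 := by norm_num
      _ ≤ 2 ^ i * 3 ^ j := Nat.mul_le_mul h1 h2
  have hb0 : 0 < b := by omega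
  refine ⟨Nat.card (ι × (MidB.Ix i j → ι) × (MidB.Ix i j → ι)), fun m n h hm hn hh hC y hy => ?_⟩
  set C := Nat.card (ι × (MidB.Ix i j → ι) × (MidB.Ix i j → ι)) with hCdef
  set x0 := 3 ^ n * y / b ^ m with hx0
  obtain ⟨l, l', hll, hl', he⟩ := MidB.pigeon
    (fun l => ((col (x0 + l), MidB.cv col i j (y + l), MidB.cv col i j (y + l + 1)) :
      ι × (MidB.Ix i j → ι) × (MidB.Ix i j → ι)))
  have e1 := congrArg (fun q : ι × (MidB.Ix i j → ι) × (MidB.Ix i j → ι) => q.1) he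
  have e2 := congrArg (fun q : ι × (MidB.Ix i j → ι) × (MidB.Ix i j → ι) => q.2.1) he
  have e3 := congrArg (fun q : ι × (MidB.Ix i j → ι) × (MidB.Ix i j → ι) => q.2.2) he
  simp only at e1 e2 e3
  rw [hcol] at e1
  obtain ⟨A, hA1, hA2, hA3⟩ : ∃ A, b ^ (m - 2) = A ∧ 2 * A ≤ b ^ m ∧ 0 < A := by
    refine ⟨b ^ (m - 2), rfl, ?_, by positivity⟩
    have : m = (m - 2) + 2 := by omega
    conv_rhs => rw [this]
    rw [pow_add]
    have h4 : 2 ≤ b ^ 2 := by nlinarith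
    calc 2 * b ^ (m - 2) = b ^ (m - 2) * 2 := by ring
      _ ≤ b ^ (m - 2) * b ^ 2 := Nat.mul_le_mul_left _ h4
  obtain ⟨d, rfl⟩ : ∃ d, l' = l + d := ⟨l' - l, by omega⟩
  have hd : 0 < d := by omega
  have hdC : d ≤ C := by omega
  have hlC : l ≤ C := by omega
  have hbm : 0 < b ^ m := by positivity
  have hlow : b ^ m * x0 ≤ 3 ^ n * y := Nat.mul_div_le _ _
  have hupp : 3 ^ n * y < b ^ m * (x0 + 1) := Nat.lt_mul_div_succ (3 ^ n * y) hbm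
  refine ⟨x0 + (l + d) + 1, d * h, Nat.mul_pos hd hh, Nat.mul_le_mul_right _ hdC, by omega,
    by omega, fun z hz1 hz2 => ?_⟩
  rw [hA1] at hz1 hz2 hC
  have hlh : l * h ≤ A := le_trans (Nat.mul_le_mul_right _ hlC) hC
  obtain ⟨r, hr⟩ : ∃ r, z = b ^ m * (x0 + (l + d)) + r := by
    refine ⟨z - b ^ m * (x0 + (l + d)), ?_⟩
    have : b ^ m * (x0 + (l + d)) ≤ b ^ m * (x0 + (l + d) + 1) := Nat.mul_le_mul_left _ (by omega)
    omega
  have hex : b ^ m * (x0 + (l + d) + 1) = b ^ m * (x0 + (l + d)) + b ^ m := by ring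
  have hr1 : b ^ m + A ≤ r := by omega
  have hr2 : r < b ^ m + 2 * A := by omega
  have key1 : b ^ m * (x0 + l) + r ∈ S ↔ z ∈ S := by
    rw [hr]
    apply e1
    omega
  rw [← key1]
  have hni : 3 ^ n * (y + l) = 3 ^ n * y + b ^ m * l + l * h := by rw [hn]; ring
  have hup1 : b ^ m * (x0 + 1) = b ^ m * x0 + b ^ m := by ring
  have hxi : b ^ m * (x0 + l) = b ^ m * x0 + b ^ m * l := by ring
  have hge : 3 ^ n * (y + l) ≤ b ^ m * (x0 + l) + r := by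
    rw [hni, hxi]
    omega
  have hlt : b ^ m * (x0 + l) + r < 3 ^ n * (y + l) + 2 * 3 ^ n := by
    have hnn : 2 * 3 ^ n = 2 * b ^ m + 2 * h := by rw [hn]; ring
    rw [hnn, hni, hxi]
    omega
  have hzp : z + d * h = b ^ m * (x0 + l) + r + 3 ^ n * d := by
    rw [hr, hn]; ring
  rw [hzp]
  obtain ⟨t, ht⟩ : ∃ t, b ^ m * (x0 + l) + r = 3 ^ n * (y + l) + t :=
    ⟨_, (Nat.add_sub_of_le hge).symm⟩
  rw [ht] at hlt ⊢
  by_cases htn : t < 3 ^ n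
  · have e5 : 3 ^ n * (y + l) + t + 3 ^ n * d = 3 ^ n * (y + (l + d)) + t := by ring
    rw [e5]
    exact transferB b i j hb hi hj S hS n (y + l) (y + (l + d)) (hy l (by omega))
      (hy (l + d) (by omega)) (MidB.cv_eq hcol e2) t htn
  · obtain ⟨t', rfl⟩ : ∃ t', t = 3 ^ n + t' := ⟨t - 3 ^ n, by omega⟩
    have e5 : 3 ^ n * (y + l) + (3 ^ n + t') = 3 ^ n * (y + l + 1) + t' := by ring
    have e6 : 3 ^ n * (y + l) + (3 ^ n + t') + 3 ^ n * d = 3 ^ n * (y + (l + d) + 1) + t' := by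
      ring
    rw [e6, e5]
    exact transferB b i j hb hi hj S hS n (y + l + 1) (y + (l + d) + 1) (hy (l + 1) (by omega))
      (hy (l + d + 1) (by omega)) (MidB.cv_eq hcol e3) t' (by omega)

end ConwayAuto
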