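import Pool.Agent.Lib.ConwayAuto.WindowsG
import Pool.Agent.Lib.ConwayAuto.GoodB
import Pool.Agent.Lib.ConwayAuto.MidB
import Pool.Agent.Lib.ConwayAuto.GraphB
import Pool.Agent.Lib.ConwayAuto.ApproxB

/-!
Eventual windows of periodicity for a set automatic in base `2 ^ i * 3 ^ j` closed under
Conway's map.
-/

namespace ConwayAuto

/-- the windows theorem in base `b = 2 ^ i * 3 ^ j`, from the approximation lemma and the graph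
lemma -/
theorem WindowsB.windowsB_of (b i j : ℕ) (hb : b = 2 ^ i * 3 ^ j) (hi : 1 ≤ i) (hj : 1 ≤ j)
    (approxB : ∀ K : ℕ, ∃ m n h : ℕ, 3 ^ n = b ^ m + h ∧ 0 < h ∧ K * h ≤ b ^ m)
    (graphB : ∀ (ι : Type) (_ : Finite ι) (c : ℕ → ι),
      (∀ x y, c x = c y → ∀ a v, v < b ^ a → c (b ^ a * x + v) = c (b ^ a * y + v)) →
      ∀ x₀ : ℕ, 0 < x₀ → ∃ e s₀ u : ℕ, 0 < e ∧ (∃ L V, V < b ^ L ∧ u = b ^ L * x₀ + V) ∧
        (∀ L V, V < b ^ L → ∃ s, 2 ≤ s ∧ s ≤ s₀ ∧ ∀ l r, r < b ^ (s + e * l) →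
          ∃ r', b ^ (s - 2) ≤ r' ∧ r' < 2 * b ^ (s - 2) ∧
            c (b ^ (s + e * l) * (b ^ L * u + V) + r) = c (b ^ s * (b ^ L * u + V) + r')) ∧
        (∀ L V : ℕ → ℕ, (∀ T, V T < b ^ L T) →
          ∃ x Lx Vx : ℕ, Vx < b ^ Lx ∧ x = b ^ Lx * u + Vx ∧
            ∀ T < e, ∃ a k X v : ℕ, a + k = Lx ∧ a % e = L T % e ∧ v < b ^ k ∧
              x = b ^ k * X + v ∧ c X = c (b ^ L T * u + V T)))
    (S : Set ℕ) (hA : AutomaticIn b S) (hS : ∀ n ∈ S, g n ∈ S)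
    (hD : NowhereDenseB b (Entry S)) (x₀ : ℕ) (hx₀ : 0 < x₀) :
    ∃ x P k₀ : ℕ, (∃ L V, V < b ^ L ∧ x = b ^ L * x₀ + V) ∧ 0 < P ∧
      ∀ k ≥ k₀, ∀ z, b ^ k * x ≤ z → z < b ^ k * (x + 1) → (z ∈ S ↔ z + P ∈ S) := by
  have hb2 : 2 ≤ b := by
    rw [hb]
    have h1 : 2 ^ 1 ≤ 2 ^ i := Nat.pow_le_pow_right (by norm_num) hi
    have h2 : 1 ≤ 3 ^ j := Nat.one_le_pow _ _ (by norm_num)
    calc 2 = 2 ^ 1 * 1 := by norm_num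
      _ ≤ 2 ^ i * 3 ^ j := Nat.mul_le_mul h1 h2
  obtain ⟨ι, hfin, c, hc⟩ := hA.coloring
  exact WindowsG.windows_gen b 2 3 hb2 (by norm_num) S c
    (fun x y hxy => (hc x y).mp hxy) (Good (Entry S)) approxB
    (fun n C => exists_goodB b i j hb hi hj (Entry S) hD n C)
    (mid_periodicB b i j hb hi hj S hA hS) x₀
    (graphB ι hfin c (fun x y hxy a v hv =>
      (hc _ _).mpr (((hc _ _).mp hxy).desc (by omega) hv)) x₀ hx₀)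

theorem windowsB (b i j : ℕ) (hb : b = 2 ^ i * 3 ^ j) (hi : 1 ≤ i) (hj : 1 ≤ j)
    (S : Set ℕ) (hA : AutomaticIn b S) (hS : ∀ n ∈ S, g n ∈ S)
    (hD : NowhereDenseB b (Entry S)) (x₀ : ℕ) (hx₀ : 0 < x₀) :
    ∃ x P k₀ : ℕ, (∃ L V, V < b ^ L ∧ x = b ^ L * x₀ + V) ∧ 0 < P ∧
      ∀ k ≥ k₀, ∀ z, b ^ k * x ≤ z → z < b ^ k * (x + 1) → (z ∈ S ↔ z + P ∈ S) := by
  have hb2 : 2 ≤ b := by
    rw [hb]
    have h1 : 2 ^ 1 ≤ 2 ^ i := Nat.pow_le_pow_right (by norm_num) hi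
    have h2 : 1 ≤ 3 ^ j := Nat.one_le_pow _ _ (by norm_num)
    calc 2 = 2 ^ 1 * 1 := by norm_num
      _ ≤ 2 ^ i * 3 ^ j := Nat.mul_le_mul h1 h2
  exact WindowsB.windowsB_of b i j hb hi hj (approxB b i j hb hi)
    (fun _ _ c hc x₀ hx₀ => graphB b hb2 c hc x₀ hx₀) S hA hS hD x₀ hx₀

end ConwayAuto
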