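import Pool.Agent.Lib.ConwayAuto.Windows
import Pool.Agent.Lib.ConwayAuto.Windows3
import Pool.Agent.Lib.ConwayAuto.WindowsB

/-!
The windows theorems in the bases `2`, `3` and `2 ^ i * 3 ^ j` (imports only).
-/
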