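import Pool.Agent.Lib.ConwayAuto.RightDense
import Pool.Agent.Lib.ConwayAuto.EntryAuto
import Pool.Agent.Lib.ConwayAuto.Wander
import Pool.Agent.Lib.ConwayAuto.WindowsAll
import Pool.Agent.Lib.ConwayAuto.Steer

/-!
A 2-automatic set of naturals which is closed under Conway's map is finite or cofinite; hence no
2-automatic set closed under the map contains `12 = g 8` but not `8`.
-/

namespace ConwayAuto

namespace Final

theorem closed_iter {S : Set ℕ} (hS : ∀ n ∈ S, g n ∈ S) {n : ℕ} (hn : n ∈ S) (k : ℕ) :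
    g^[k] n ∈ S := by
  induction k with
  | zero => exact hn
  | succ k ih => rw [Function.iterate_succ_apply']; exact hS _ ih

theorem entry_wandering {S : Set ℕ} (hS : ∀ n ∈ S, g n ∈ S) :
    ∀ n ∈ Entry S, ∀ k : ℕ, 0 < k → g^[k] n ∉ Entry S := by
  intro n hn k hk h
  obtain ⟨k, rfl⟩ : ∃ l, k = l + 1 := ⟨k - 1, by omega⟩
  rw [Function.iterate_succ_apply] at h
  exact h.1 (closed_iter hS hn.2 k)

theorem window_step {S : Set ℕ} {P a b : ℕ} (hw : ∀ z, a ≤ z → z < b → (z ∈ S ↔ z + P ∈ S))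
    (z : ℕ) (hz : a ≤ z) : ∀ i : ℕ, z + P * i < b → (z ∈ S ↔ z + P * i ∈ S) := by
  intro i
  induction i with
  | zero => intro _; simp
  | succ i ih =>
    intro h
    have e : z + P * (i + 1) = z + P * i + P := by ring
    have h1 : z + P * i < b := by rw [e] at h; omega
    rw [e]
    exact (ih h1).trans (hw (z + P * i) (by omega) h1)

theorem window_le {S : Set ℕ} {P a b : ℕ} (hw : ∀ z, a ≤ z → z < b → (z ∈ S ↔ z + P ∈ S))
    {z z' : ℕ} (h1 : a ≤ z) (h2 : z' < b) (hle : z ≤ z') (hm : z % P = z' % P) :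
    z ∈ S ↔ z' ∈ S := by
  have hd : P ∣ z' - z := (Nat.modEq_iff_dvd' hle).1 hm
  obtain ⟨i, hi⟩ := hd
  have e : z' = z + P * i := by omega
  rw [e]
  exact window_step hw z h1 i (by omega)

theorem window_eq {S : Set ℕ} {P a b : ℕ} (hw : ∀ z, a ≤ z → z < b → (z ∈ S ↔ z + P ∈ S))
    {z z' : ℕ} (h1 : a ≤ z) (h2 : z < b) (h3 : a ≤ z') (h4 : z' < b) (hm : z % P = z' % P) :
    z ∈ S ↔ z' ∈ S := by
  rcases le_total z z' with h | h
  · exact window_le hw h1 h4 h hm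
  · exact (window_le hw h3 h2 h hm.symm).symm

theorem in_window {x i j r : ℕ} (hr : r < 2 ^ j) :
    2 ^ (i + j) * x ≤ 2 ^ j * (2 ^ i * x) + r ∧
      2 ^ j * (2 ^ i * x) + r < 2 ^ (i + j) * (x + 1) := by
  have e1 : 2 ^ (i + j) * x = 2 ^ j * (2 ^ i * x) := by rw [pow_add]; ring
  have e2 : 2 ^ (i + j) * (x + 1) = 2 ^ j * (2 ^ i * x) + 2 ^ j * 2 ^ i := by rw [pow_add]; ring
  have h3 : 2 ^ j ≤ 2 ^ j * 2 ^ i := Nat.le_mul_of_pos_right _ (by positivity)
  rw [e1, e2]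
  constructor <;> omega

theorem image_eq_of_closed {f : ℕ → ℕ} (hf : Function.Injective f) {S : Set ℕ} (hfin : S.Finite)
    (hS : ∀ n ∈ S, f n ∈ S) : f '' S = S := by
  apply Set.eq_of_subset_of_ncard_le _ _ hfin
  · rintro _ ⟨n, hn, rfl⟩; exact hS n hn
  · exact le_of_eq (Set.ncard_image_of_injective S hf).symm

end Final

/-- A 2-automatic set closed under Conway's map is finite or cofinite. -/
theorem finite_or_cofinite (S : Set ℕ) (hA : TwoAutomatic S) (hS : ∀ n ∈ S, g n ∈ S) :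
    S.Finite ∨ Sᶜ.Finite := by
  by_contra hcon
  rw [not_or] at hcon
  have hinf : S.Infinite := hcon.1
  have hinf' : Sᶜ.Infinite := hcon.2
  obtain ⟨x, P, j₀, hx, hP, hw⟩ := windows S hA hS
    (wandering_nowhereDense (Entry S) (entry_automatic S hA) (Final.entry_wandering hS))
  obtain ⟨j₁, hst⟩ := steer P x hP hx
  have hwin : ∀ j, max j₀ j₁ ≤ j → ∀ z z', 2 ^ j * x ≤ z → z < 2 ^ j * (x + 1) →
      2 ^ j * x ≤ z' → z' < 2 ^ j * (x + 1) → z % P = z' % P → (z ∈ S ↔ z' ∈ S) :=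
    fun j hj z z' h1 h2 h3 h4 hm =>
      Final.window_eq (hw j (le_trans (le_max_left _ _) hj)) h1 h2 h3 h4 hm
  obtain ⟨j, r, hr, hn⟩ := right_dense_fwd S hA hS hinf (2 ^ (max j₀ j₁) * x) (by positivity)
  have hnw := Final.in_window (x := x) (i := max j₀ j₁) hr
  generalize hJ : max j₀ j₁ = J at *
  generalize hN : 2 ^ j * (2 ^ J * x) + r = N at *
  have hj1 : j₁ ≤ J := by rw [← hJ]; exact le_max_right _ _
  have hfull : ∀ d : ℕ, ∀ ρ : ℕ, ∃ n ∈ S, 2 ^ (J + j + d) * x ≤ n ∧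
      n < 2 ^ (J + j + d) * (x + 1) ∧ n % P = ρ % P := by
    intro d
    induction d with
    | zero =>
      intro ρ
      obtain ⟨n0, k, h1, h2, h3, h4, h5, h6⟩ := hst (J + j) (by omega) 0 (by omega) N ρ
      have h0 : n0 ∈ S :=
        (hwin (J + j) (by omega) n0 N h1 h2 hnw.1 hnw.2 h3).2 hn
      exact ⟨g^[k] n0, Final.closed_iter hS h0 k, h4, h5, h6⟩
    | succ d ih =>
      intro ρ
      obtain ⟨n0, k, h1, h2, h3, h4, h5, h6⟩ := hst (J + j + d) (by omega) 1 le_rfl 0 ρ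
      obtain ⟨n1, hn1, h7, h8, h9⟩ := ih 0
      have h0 : n0 ∈ S :=
        (hwin (J + j + d) (by omega) n0 n1 h1 h2 h7 h8 (h3.trans h9.symm)).2 hn1
      exact ⟨g^[k] n0, Final.closed_iter hS h0 k, h4, h5, h6⟩
  have hS' : ∀ n ∈ Sᶜ, gi n ∈ Sᶜ := by
    intro n hn' h
    apply hn'
    rw [← g_gi n]
    exact hS _ h
  obtain ⟨j', r', hr', hn'⟩ := right_dense_bwd Sᶜ hA.compl hS' hinf' (2 ^ (J + j) * x)
    (by positivity)
  have hnw' := Final.in_window (x := x) (i := J + j) hr'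
  obtain ⟨m, hm, h1, h2, h3⟩ := hfull j' (2 ^ j' * (2 ^ (J + j) * x) + r')
  exact hn' ((hwin (J + j + j') (by omega) m _ h1 h2 hnw'.1 hnw'.2 h3).1 hm)

/-- No 2-automatic set which is closed under Conway's map contains `12 = g 8` but not `8`. -/
theorem no_invariant :
    ¬ ∃ S : Set ℕ, TwoAutomatic S ∧ (∀ n ∈ S, g n ∈ S) ∧ 12 ∈ S ∧ 8 ∉ S := by
  rintro ⟨S, hA, hS, h12, h8⟩
  have hg8 : g 8 = 12 := g_even 4
  rcases finite_or_cofinite S hA hS with hfin | hfin
  · have h := Final.image_eq_of_closed g_injective hfin hS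
    rw [← h] at h12
    obtain ⟨s, hs, hs12⟩ := h12
    have : s = 8 := g_injective (hs12.trans hg8.symm)
    rw [this] at hs
    exact h8 hs
  · have hS' : ∀ n ∈ Sᶜ, gi n ∈ Sᶜ := by
      intro n hn' h
      apply hn'
      rw [← g_gi n]
      exact hS _ h
    have h := Final.image_eq_of_closed gi_injective hfin hS'
    have h8' : 8 ∈ Sᶜ := h8
    rw [← h] at h8'
    obtain ⟨s, hs, hs8⟩ := h8'
    have : s = 12 := by rw [← g_gi s, hs8, hg8]
    rw [this] at hs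
    exact hs h12

end ConwayAuto
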