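import Pool.Agent.Lib.ConwayAuto.DefsB
import Pool.Agent.Lib.ConwayAuto.DensePow
import Pool.Agent.Lib.ConwayAuto.Kill3H

/-!
Base `b = 2^i 3^j`, `j ≥ 1`: if an invariant set `S` contains the windows `[b^k x, b^k (x+1))` for
all large `k`, then every class mod `b^K` contains a class whose elements (except possibly the
first) are all in `S`.  The proof is the one of `Kill3H.lean`.
-/

namespace ConwayAuto

namespace KillB

open Kill3 (exists_c g_pow mem_iter eta eta_pos eta_le eta_mul)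

/-- the class `(K, t)` is good at all scales in `(α, β)`, for every `β < B` -/
def GG (b : ℕ) (S : Set ℕ) (K t : ℕ) (α B : ℝ) : Prop :=
  ∀ β : ℝ, β < B → ∃ L₀ : ℕ, ∀ L ≥ L₀, ∀ m : ℕ, α * (b:ℝ) ^ L < m → (m : ℝ) < β * (b:ℝ) ^ L →
    b ^ K * m + t ∈ S

theorem persist {b : ℕ} (hb : 3 ≤ b) {S : Set ℕ} {K t : ℕ} {α B : ℝ} (h : GG b S K t α B)
    (k c : ℕ) (hc : c < b ^ k) : GG b S (K + k) (b ^ K * c + t) α B := by
  have hbR : (3:ℝ) ≤ b := by exact_mod_cast hb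
  have hb1 : (1:ℝ) < b := by linarith
  have hb0 : (0:ℝ) < b := by linarith
  intro β hβ
  obtain ⟨β', h1, h2⟩ := exists_between hβ
  obtain ⟨L₀, hL₀⟩ := h β' h2
  obtain ⟨L₁, hL₁⟩ := pow_unbounded_of_one_lt (1 / (β' - β)) hb1
  refine ⟨max L₀ L₁, fun L hL m hm1 hm2 => ?_⟩
  have e : b ^ (K + k) * m + (b ^ K * c + t) = b ^ K * (b ^ k * m + c) + t := by
    rw [pow_add]; ring
  rw [e]
  have hd : 0 < β' - β := sub_pos.2 h1
  have hk : (0:ℝ) < (b:ℝ) ^ k := by positivity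
  have hL1 : L₁ ≤ L := (le_max_right _ _).trans hL
  have h3 : (b:ℝ) ^ L₁ ≤ (b:ℝ) ^ L := pow_le_pow_right₀ hb1.le hL1
  have h4 : 1 ≤ (β' - β) * (b:ℝ) ^ L := by
    have h5 : 1 / (β' - β) ≤ (b:ℝ) ^ L := hL₁.le.trans h3
    rw [div_le_iff₀ hd] at h5
    linarith
  have hc' : (c:ℝ) < (b:ℝ) ^ k := by exact_mod_cast hc
  have hL0 : L₀ ≤ L := (le_max_left _ _).trans hL
  apply hL₀ (L + k) (by omega) (b ^ k * m + c)
  · push_cast
    rw [pow_add]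
    have h6 : (0:ℝ) ≤ c := by positivity
    have h7 := mul_lt_mul_of_pos_right hm1 hk
    nlinarith
  · push_cast
    rw [pow_add]
    have h6 : (b:ℝ) ^ k * m + c < (b:ℝ) ^ k * (m + 1) := by nlinarith
    have h7 : (b:ℝ) ^ k * (m + 1) ≤ (b:ℝ) ^ k * (β' * (b:ℝ) ^ L) :=
      mul_le_mul_of_nonneg_left (by nlinarith) hk.le
    calc (b:ℝ) ^ k * m + c < (b:ℝ) ^ k * (β' * (b:ℝ) ^ L) := h6.trans_le h7
      _ = β' * ((b:ℝ) ^ L * (b:ℝ) ^ k) := by ring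

/-- the numbers `2e` and `b = 3e` are multiplicatively independent -/
theorem indep {b e : ℕ} (hbe : b = 3 * e) (he : 0 < e) (u v : ℕ) (hu : 0 < u) :
    (2 * e) ^ u ≠ b ^ v := by
  intro h
  have hb : 0 < b := by omega
  have h1 : 2 ^ u * b ^ u = 3 ^ u * b ^ v := by
    rw [← h, ← mul_pow, ← mul_pow, hbe]
    congr 1
    ring
  rcases Nat.lt_or_ge v u with hvu | hvu
  · obtain ⟨d, rfl⟩ : ∃ d, u = v + d := ⟨u - v, by omega⟩
    have h2 : 2 ^ (v + d) * b ^ d = 3 ^ (v + d) := by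
      have h3 : b ^ v * (2 ^ (v + d) * b ^ d) = b ^ v * 3 ^ (v + d) := by
        rw [pow_add b] at h1
        linarith
      exact Nat.eq_of_mul_eq_mul_left (by positivity) h3
    have h3 : 2 ∣ 3 ^ (v + d) := by
      rw [← h2]
      exact Dvd.dvd.mul_right (dvd_pow_self 2 (by omega)) _
    have h4 := Nat.Prime.dvd_of_dvd_pow Nat.prime_two h3
    omega
  · obtain ⟨d, rfl⟩ : ∃ d, v = u + d := ⟨v - u, by omega⟩
    have h2 : 2 ^ u = 3 ^ u * b ^ d := by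
      have h3 : b ^ u * 2 ^ u = b ^ u * (3 ^ u * b ^ d) := by
        rw [pow_add b] at h1
        linarith
      exact Nat.eq_of_mul_eq_mul_left (by positivity) h3
    have h3 : 2 ^ u < 3 ^ u := Nat.pow_lt_pow_left (by norm_num) (by omega)
    have h4 : 3 ^ u ≤ 3 ^ u * b ^ d := Nat.le_mul_of_pos_right _ (by positivity)
    omega

theorem step {b i j e : ℕ} (hb : b = 2 ^ i * 3 ^ j) (hbe : b = 3 * e) (he : 0 < e)
    {S : Set ℕ} (hS : ∀ n ∈ S, g n ∈ S) (x k₀ : ℕ)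
    (hZ : ∀ k ≥ k₀, ∀ z, b ^ k * x ≤ z → z < b ^ k * (x + 1) → z ∈ S) (K t : ℕ)
    (A : ℝ) (hA : 0 < A) :
    ∃ k c : ℕ, c < b ^ k ∧
      GG b S (K + k) (b ^ K * c + t) (A * (1 - eta x)) (A * (1 + eta x)) := by
  have hb3 : 3 ≤ b := by omega
  have hbR : (3:ℝ) ≤ b := by exact_mod_cast hb3
  have hb1 : (1:ℝ) < b := by linarith
  have hb0 : (0:ℝ) < b := by linarith
  have heR : (1:ℝ) ≤ e := by exact_mod_cast he
  obtain ⟨w, r, -, -, -, hcyl⟩ := cyl (j * K) (t % 3 ^ (j * K)) (Nat.mod_lt _ (by positivity))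
  set t₁ : ℕ := t / 3 ^ (j * K) with ht₁
  set W₀ : ℕ := w + i * K with hW₀
  set s : ℕ := 2 ^ w * t₁ + r with hs
  have hx0 : (0:ℝ) ≤ x := by positivity
  have hw : (0:ℝ) < 2 ^ W₀ := by positivity
  have hη := eta_pos x
  have hη8 := eta_le x
  have hηm := eta_mul x
  obtain ⟨u, v, huv1, huv2⟩ := dense_pow_pow (2 * (e:ℝ)) (1 / (b:ℝ)) (by linarith)
    (by positivity) (by rw [div_lt_one hb0]; exact hb1)
    (by
      intro u v hu h
      rw [div_pow, one_pow, mul_one_div, div_eq_one_iff_eq (by positivity)] at h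
      have h' : (2 * e) ^ u = b ^ v := by exact_mod_cast h
      exact indep hbe he u v hu h')
    (((x:ℝ) + 1 / 4) / (2 ^ W₀ * A))
    (((x:ℝ) + 3 / 4) / (2 ^ W₀ * A)) (by positivity)
    (div_lt_div_of_pos_right (by linarith) (by positivity))
  have hv : (0:ℝ) < (b:ℝ) ^ v := by positivity
  have hu : (0:ℝ) < (2 * (e:ℝ)) ^ u := by positivity
  have hfr : (2 * (e:ℝ)) ^ u * (1 / (b:ℝ)) ^ v = (2 * (e:ℝ)) ^ u / (b:ℝ) ^ v := by
    rw [div_pow, one_pow, mul_one_div]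
  rw [hfr] at huv1 huv2
  rw [div_lt_div_iff₀ (by positivity) hv] at huv1
  rw [div_lt_div_iff₀ hv (by positivity)] at huv2
  set T : ℝ := (2 * (e:ℝ)) ^ u * 2 ^ W₀ with hT
  have hT0 : 0 < T := by positivity
  have hTA1 : ((x:ℝ) + 1 / 4) * (b:ℝ) ^ v < T * A := by rw [hT]; linarith
  have hTA2 : T * A < ((x:ℝ) + 3 / 4) * (b:ℝ) ^ v := by rw [hT]; linarith
  obtain ⟨c, d, hc, hcd⟩ := exists_c W₀ s u
  refine ⟨u, c, hc.trans_le (Nat.pow_le_pow_left hb3 u), ?_⟩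
  intro β hβ
  obtain ⟨L₁, hL₁⟩ := pow_unbounded_of_one_lt (8 * 2 ^ u * (d:ℝ)) hb1
  refine ⟨max k₀ L₁, fun L hL m hm1 hm2 => ?_⟩
  have hLi : k₀ ≤ L := (le_max_left _ _).trans hL
  have hL1 : L₁ ≤ L := (le_max_right _ _).trans hL
  have hP : (0:ℝ) < (b:ℝ) ^ L := by positivity
  have hd : 8 * 2 ^ u * (d:ℝ) < (b:ℝ) ^ L :=
    hL₁.trans_le (pow_le_pow_right₀ hb1.le hL1)
  -- the element of the window
  have hbK : b ^ K = 2 ^ (i * K) * 3 ^ (j * K) := by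
    rw [hb, mul_pow, pow_mul, pow_mul]
  have hbu : b ^ u = 3 ^ u * e ^ u := by rw [hbe, mul_pow]
  have ht : t = 3 ^ (j * K) * t₁ + t % 3 ^ (j * K) := (Nat.div_add_mod t _).symm
  have e1 : b ^ (K + u) * m + (b ^ K * c + t) = b ^ K * (b ^ u * m + c) + t := by
    rw [pow_add]; ring
  have e2 : b ^ K * (b ^ u * m + c) + t =
      g^[j * K] (g^[u] (2 ^ u * (2 ^ W₀ * e ^ u * m + d))) := by
    have e3 : b ^ K * (b ^ u * m + c) + t =
        3 ^ (j * K) * (2 ^ (i * K) * (b ^ u * m + c) + t₁) + t % 3 ^ (j * K) := by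
      rw [hbK]
      calc 2 ^ (i * K) * 3 ^ (j * K) * (b ^ u * m + c) + t
          = 2 ^ (i * K) * 3 ^ (j * K) * (b ^ u * m + c) +
            (3 ^ (j * K) * t₁ + t % 3 ^ (j * K)) := by rw [← ht]
        _ = _ := by ring
    rw [e3, ← hcyl, g_pow]
    congr 1
    calc 2 ^ w * (2 ^ (i * K) * (b ^ u * m + c) + t₁) + r
        = 2 ^ W₀ * b ^ u * m + (2 ^ W₀ * c + s) := by rw [hW₀, hs, pow_add]; ring
      _ = 3 ^ u * (2 ^ W₀ * e ^ u * m + d) := by rw [hcd, hbu]; ring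
  rw [e1, e2]
  apply mem_iter hS
  apply mem_iter hS
  have hPv : (b:ℝ) ^ (L + v) = (b:ℝ) ^ L * (b:ℝ) ^ v := pow_add _ _ _
  have hv1 : (1:ℝ) ≤ (b:ℝ) ^ v := one_le_pow₀ hb1.le
  have hTm1 : T * (A * (1 - eta x) * (b:ℝ) ^ L) < T * m := mul_lt_mul_of_pos_left hm1 hT0
  have hTm2 : T * m < T * (A * (1 + eta x) * (b:ℝ) ^ L) := by
    apply mul_lt_mul_of_pos_left _ hT0
    exact hm2.trans (mul_lt_mul_of_pos_right hβ hP)
  have hQ : (0:ℝ) < (b:ℝ) ^ L * (b:ℝ) ^ v := by positivity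
  have hz : (2:ℝ) ^ u * (2 ^ W₀ * (e:ℝ) ^ u * m + d) = T * m + 2 ^ u * d := by
    rw [hT, mul_pow]; ring
  apply hZ (L + v) (by omega)
  · have h1 : ((b:ℝ) ^ L * (b:ℝ) ^ v) * x ≤ T * m := by
      have h2 : ((x:ℝ) + 1 / 4) * (b:ℝ) ^ v * ((1 - eta x) * (b:ℝ) ^ L) ≤
          T * A * ((1 - eta x) * (b:ℝ) ^ L) := by
        apply mul_le_mul_of_nonneg_right hTA1.le
        apply mul_nonneg (by linarith) hP.le
      have h3 : (x:ℝ) ≤ ((x:ℝ) + 1 / 4) * (1 - eta x) := by nlinarith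
      have h4 : ((b:ℝ) ^ L * (b:ℝ) ^ v) * x ≤
          ((b:ℝ) ^ L * (b:ℝ) ^ v) * (((x:ℝ) + 1 / 4) * (1 - eta x)) :=
        mul_le_mul_of_nonneg_left h3 hQ.le
      calc ((b:ℝ) ^ L * (b:ℝ) ^ v) * x ≤
            ((b:ℝ) ^ L * (b:ℝ) ^ v) * (((x:ℝ) + 1 / 4) * (1 - eta x)) := h4
        _ = ((x:ℝ) + 1 / 4) * (b:ℝ) ^ v * ((1 - eta x) * (b:ℝ) ^ L) := by ring
        _ ≤ T * A * ((1 - eta x) * (b:ℝ) ^ L) := h2
        _ = T * (A * (1 - eta x) * (b:ℝ) ^ L) := by ring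
        _ ≤ T * m := hTm1.le
    have h5 : ((b ^ (L + v) * x : ℕ) : ℝ) ≤ ((2 ^ u * (2 ^ W₀ * e ^ u * m + d) : ℕ) : ℝ) := by
      push_cast
      rw [hPv, hz]
      have h6 : (0:ℝ) ≤ 2 ^ u * d := by positivity
      linarith
    exact_mod_cast h5
  · have h1 : T * m < ((b:ℝ) ^ L * (b:ℝ) ^ v) * ((x:ℝ) + 7 / 8) := by
      have h2 : T * A * ((1 + eta x) * (b:ℝ) ^ L) ≤
          ((x:ℝ) + 3 / 4) * (b:ℝ) ^ v * ((1 + eta x) * (b:ℝ) ^ L) := by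
        apply mul_le_mul_of_nonneg_right hTA2.le
        positivity
      have h3 : ((x:ℝ) + 3 / 4) * (1 + eta x) ≤ (x:ℝ) + 7 / 8 := by nlinarith
      have h4 : ((b:ℝ) ^ L * (b:ℝ) ^ v) * (((x:ℝ) + 3 / 4) * (1 + eta x)) ≤
          ((b:ℝ) ^ L * (b:ℝ) ^ v) * ((x:ℝ) + 7 / 8) := mul_le_mul_of_nonneg_left h3 hQ.le
      calc T * m < T * (A * (1 + eta x) * (b:ℝ) ^ L) := hTm2
        _ = T * A * ((1 + eta x) * (b:ℝ) ^ L) := by ring
        _ ≤ ((x:ℝ) + 3 / 4) * (b:ℝ) ^ v * ((1 + eta x) * (b:ℝ) ^ L) := h2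
        _ = ((b:ℝ) ^ L * (b:ℝ) ^ v) * (((x:ℝ) + 3 / 4) * (1 + eta x)) := by ring
        _ ≤ _ := h4
    have h5 : ((2 ^ u * (2 ^ W₀ * e ^ u * m + d) : ℕ) : ℝ) <
        ((b ^ (L + v) * (x + 1) : ℕ) : ℝ) := by
      push_cast
      rw [hPv, hz]
      have h6 : (b:ℝ) ^ L ≤ (b:ℝ) ^ L * (b:ℝ) ^ v := le_mul_of_one_le_right hP.le hv1
      have h7 : 2 ^ u * (d:ℝ) < ((b:ℝ) ^ L * (b:ℝ) ^ v) * (1 / 8) := by linarith
      calc T * m + 2 ^ u * d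
          < (b:ℝ) ^ L * (b:ℝ) ^ v * ((x:ℝ) + 7 / 8) + ((b:ℝ) ^ L * (b:ℝ) ^ v) * (1 / 8) :=
            add_lt_add h1 h7
        _ = (b:ℝ) ^ L * (b:ℝ) ^ v * (x + 1) := by ring
    exact_mod_cast h5

theorem cover {b i j e : ℕ} (hb : b = 2 ^ i * 3 ^ j) (hbe : b = 3 * e) (he : 0 < e)
    {S : Set ℕ} (hS : ∀ n ∈ S, g n ∈ S) (x k₀ : ℕ)
    (hZ : ∀ k ≥ k₀, ∀ z, b ^ k * x ≤ z → z < b ^ k * (x + 1) → z ∈ S) (K t : ℕ) (N : ℕ) :
    ∃ k c : ℕ, c < b ^ k ∧ ∀ s < N, GG b S (K + k) (b ^ K * c + t)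
      ((1 + s * (eta x / 2)) * (1 - eta x)) ((1 + s * (eta x / 2)) * (1 + eta x)) := by
  have hb3 : 3 ≤ b := by omega
  induction N with
  | zero => exact ⟨0, 0, by norm_num, fun s hs => absurd hs (by omega)⟩
  | succ N ih =>
    obtain ⟨k₁, c₁, hc₁, h₁⟩ := ih
    have hη := eta_pos x
    obtain ⟨k₂, c₂, hc₂, h₂⟩ := step hb hbe he hS x k₀ hZ (K + k₁) (b ^ K * c₁ + t)
      (1 + N * (eta x / 2)) (by positivity)
    have e1 : K + (k₁ + k₂) = K + k₁ + k₂ := by ring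
    have e2 : b ^ K * (b ^ k₁ * c₂ + c₁) + t = b ^ (K + k₁) * c₂ + (b ^ K * c₁ + t) := by
      rw [pow_add]; ring
    refine ⟨k₁ + k₂, b ^ k₁ * c₂ + c₁, ?_, fun s hs => ?_⟩
    · have h3 : b ^ k₁ * (c₂ + 1) ≤ b ^ k₁ * b ^ k₂ := Nat.mul_le_mul_left _ hc₂
      rw [pow_add]
      nlinarith
    · rw [e1, e2]
      rcases Nat.lt_succ_iff_lt_or_eq.1 hs with h | h
      · exact persist hb3 (h₁ s h) k₂ c₂ hc₂
      · rw [h]
        exact h₂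

end KillB

open Kill3 (eta eta_pos eta_le eta_mul)
open KillB

theorem killB (b i j : ℕ) (hb : b = 2 ^ i * 3 ^ j) (hj : 1 ≤ j)
    (S : Set ℕ) (hS : ∀ n ∈ S, g n ∈ S) (x k₀ : ℕ) (hx : 0 < x)
    (hZ : ∀ k ≥ k₀, ∀ z, b ^ k * x ≤ z → z < b ^ k * (x + 1) → z ∈ S) (K t : ℕ)
    (ht : t < b ^ K) :
    ∃ K' t' : ℕ, t' < b ^ K' ∧ ∀ m ≥ 1, b ^ K * (b ^ K' * m + t') + t ∈ S := by
  have _ := hx
  have _ := ht
  obtain ⟨j', rfl⟩ : ∃ j', j = j' + 1 := ⟨j - 1, by omega⟩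
  have he : 0 < 2 ^ i * 3 ^ j' := by positivity
  have hbe : b = 3 * (2 ^ i * 3 ^ j') := by rw [hb, pow_succ]; ring
  have hb3 : 3 ≤ b := by omega
  have hbR : (3:ℝ) ≤ b := by exact_mod_cast hb3
  have hb0 : (0:ℝ) < b := by linarith
  have hη := eta_pos x
  obtain ⟨N, hN⟩ := exists_nat_gt ((b:ℝ) / (eta x / 2))
  obtain ⟨k, c, hc, h⟩ := cover hb hbe he hS x k₀ hZ K t N
  have h1 : ∀ s < N, ∃ L₀ : ℕ, ∀ L ≥ L₀, ∀ m : ℕ,
      ((1 + s * (eta x / 2)) * (1 - eta x)) * (b:ℝ) ^ L < m →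
      (m : ℝ) < (1 + s * (eta x / 2) + eta x / 2) * (b:ℝ) ^ L →
      b ^ (K + k) * m + (b ^ K * c + t) ∈ S := by
    intro s hs
    apply h s hs
    have h2 : (0:ℝ) ≤ s * (eta x / 2) := by positivity
    nlinarith
  choose! f hf using h1
  set L₀ : ℕ := (Finset.range N).sup f with hL₀
  have hfL : ∀ s < N, f s ≤ L₀ := fun s hs => Finset.le_sup (f := f) (Finset.mem_range.2 hs)
  have key : ∀ m : ℕ, b ^ L₀ ≤ m → b ^ (K + k) * m + (b ^ K * c + t) ∈ S := by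
    intro m hm
    have hm0 : m ≠ 0 := by
      have : 0 < b ^ L₀ := by positivity
      omega
    set L : ℕ := Nat.log b m with hL
    have hL1 : L₀ ≤ L := Nat.le_log_of_pow_le (by omega) hm
    have hLm : b ^ L ≤ m := Nat.pow_log_le_self b hm0
    have hLm2 : m < b ^ (L + 1) := Nat.lt_pow_succ_log_self (by omega) m
    have hP : (0:ℝ) < (b:ℝ) ^ L := by positivity
    have hLm' : (b:ℝ) ^ L ≤ m := by exact_mod_cast hLm
    have hLm2' : (m:ℝ) < b * (b:ℝ) ^ L := by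
      have : (m:ℝ) < (b:ℝ) ^ (L + 1) := by exact_mod_cast hLm2
      rw [pow_succ] at this
      linarith
    set y : ℝ := (m:ℝ) / (b:ℝ) ^ L with hy
    have hy1 : 1 ≤ y := by rw [hy, le_div_iff₀ hP]; linarith
    have hy3 : y < b := by rw [hy, div_lt_iff₀ hP]; exact hLm2'
    have hη2 : 0 < eta x / 2 := by linarith
    set s : ℕ := ⌊(y - 1) / (eta x / 2)⌋₊ with hs
    have hs0 : 0 ≤ (y - 1) / (eta x / 2) := div_nonneg (by linarith) hη2.le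
    have hs1 : (s:ℝ) ≤ (y - 1) / (eta x / 2) := Nat.floor_le hs0
    have hs2 : (y - 1) / (eta x / 2) < s + 1 := Nat.lt_floor_add_one _
    have hsN : s < N := by
      have h3 : (y - 1) / (eta x / 2) < (b:ℝ) / (eta x / 2) :=
        div_lt_div_of_pos_right (by linarith) hη2
      have h4 : (s:ℝ) < N := by linarith
      exact_mod_cast h4
    rw [le_div_iff₀ hη2] at hs1
    rw [div_lt_iff₀ hη2] at hs2
    have hmy : (m:ℝ) = y * (b:ℝ) ^ L := by rw [hy]; field_simp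
    apply hf s hsN L ((hfL s hsN).trans hL1) m
    · rw [hmy]
      apply mul_lt_mul_of_pos_right _ hP
      have h5 : (0:ℝ) ≤ s * (eta x / 2) := by positivity
      nlinarith
    · rw [hmy]
      apply mul_lt_mul_of_pos_right _ hP
      linarith
  refine ⟨k + L₀, c, ?_, fun m hm => ?_⟩
  · exact hc.trans_le (Nat.pow_le_pow_right (by omega) (by omega))
  · have h2 := key (b ^ L₀ * m) (Nat.le_mul_of_pos_right _ hm)
    have e : b ^ K * (b ^ (k + L₀) * m + c) + t = b ^ (K + k) * (b ^ L₀ * m) + (b ^ K * c + t) := by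
      rw [pow_add, pow_add]; ring
    rw [e]
    exact h2

end ConwayAuto
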