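import Pool.Agent.Lib.ConwayAuto.Defs3

/-!
A universal class for a 3-automatic set all of whose kernel sets are avoided locally.
-/

namespace ConwayAuto

namespace Universal3

theorem step {R : Set ℕ}
    (hk : ∀ K t, t < 3 ^ K → ∃ K' t' : ℕ, t' < 3 ^ K' ∧
      ∀ m ≥ 1, 3 ^ K * (3 ^ K' * m + t') + t ∉ R)
    (F : Finset (Set ℕ)) :
    (∀ T ∈ F, ∃ w r : ℕ, r < 3 ^ w ∧ T = {m : ℕ | 3 ^ w * m + r ∈ R}) →
      ∃ a c : ℕ, c < 3 ^ a ∧ ∀ T ∈ F, ∀ m ≥ 1, 3 ^ a * m + c ∉ T := by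
  classical
  induction F using Finset.induction_on with
  | empty =>
    intro _
    exact ⟨0, 0, by norm_num, by simp⟩
  | insert T F _ ih =>
    intro hF
    obtain ⟨a, c, hc, hac⟩ := ih (fun T' hT' => hF T' (Finset.mem_insert_of_mem hT'))
    obtain ⟨K, t, ht, rfl⟩ := hF T (Finset.mem_insert_self _ _)
    have hlt : 3 ^ K * c + t < 3 ^ (K + a) := by
      have h1 : 3 ^ K * (c + 1) ≤ 3 ^ K * 3 ^ a := Nat.mul_le_mul_left _ hc
      rw [pow_add]
      nlinarith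
    obtain ⟨K', t', ht', h⟩ := hk (K + a) (3 ^ K * c + t) hlt
    refine ⟨a + K', 3 ^ a * t' + c, ?_, ?_⟩
    · have h1 : 3 ^ a * (t' + 1) ≤ 3 ^ a * 3 ^ K' := Nat.mul_le_mul_left _ ht'
      rw [pow_add]
      nlinarith
    · intro T' hT' m hm
      rcases Finset.mem_insert.1 hT' with rfl | hT'
      · intro hmem
        apply h m hm
        have e : 3 ^ (K + a) * (3 ^ K' * m + t') + (3 ^ K * c + t) =
            3 ^ K * (3 ^ (a + K') * m + (3 ^ a * t' + c)) + t := by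
          rw [pow_add, pow_add]; ring
        rw [e]
        exact hmem
      · have e : 3 ^ (a + K') * m + (3 ^ a * t' + c) = 3 ^ a * (3 ^ K' * m + t') + c := by
          rw [pow_add]; ring
        rw [e]
        apply hac T' hT'
        have h1 : 1 ≤ 3 ^ K' * m := Nat.mul_pos (by positivity) hm
        omega

end Universal3

theorem universal3 (R : Set ℕ) (hA : ThreeAutomatic R)
    (hk : ∀ K t, t < 3 ^ K → ∃ K' t' : ℕ, t' < 3 ^ K' ∧
      ∀ m ≥ 1, 3 ^ K * (3 ^ K' * m + t') + t ∉ R) :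
    ∃ a c : ℕ, c < 3 ^ a ∧ ∀ K t, t < 3 ^ K → ∀ m ≥ 1, 3 ^ K * (3 ^ a * m + c) + t ∉ R := by
  classical
  have hfin : {T : Set ℕ | ∃ w r : ℕ, r < 3 ^ w ∧ T = {m : ℕ | 3 ^ w * m + r ∈ R}}.Finite := hA
  obtain ⟨a, c, hc, h⟩ := Universal3.step hk hfin.toFinset
    (fun T hT => by simpa using (hfin.mem_toFinset.1 hT))
  refine ⟨a, c, hc, ?_⟩
  intro K t ht m hm hmem
  exact h {m : ℕ | 3 ^ K * m + t ∈ R} (hfin.mem_toFinset.2 ⟨K, t, ht, rfl⟩) m hm hmem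

end ConwayAuto
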