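import Pool.Agent.Lib.ConwayAuto.Defs3

/-!
A 3-automatic set `D` of numbers such that no point of `D` comes back to `D` under Conway's map `g` is
nowhere dense (3-adically).
-/

namespace ConwayAuto

namespace WanderAux3

theorem bound3 {D : Set ℕ} (hA : ThreeAutomatic D) {w0 r0 : ℕ} (hr0 : r0 < 3 ^ w0)
    (h : ∀ w' r' : ℕ, r' < 3 ^ w' → ∃ m : ℕ, 3 ^ w0 * (3 ^ w' * m + r') + r0 ∈ D) :
    ∃ B : ℕ, ∀ w' r' : ℕ, r' < 3 ^ w' → ∃ m ≤ B, 3 ^ w0 * (3 ^ w' * m + r') + r0 ∈ D := by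
  unfold ThreeAutomatic at hA
  obtain ⟨B, hB⟩ := (hA.image sInf).bddAbove
  refine ⟨B, fun w' r' hr' => ?_⟩
  obtain ⟨T, hT⟩ : ∃ T : Set ℕ,
    T = {m : ℕ | 3 ^ (w0 + w') * m + (3 ^ w0 * r' + r0) ∈ D} := ⟨_, rfl⟩
  have e : ∀ m, 3 ^ (w0 + w') * m + (3 ^ w0 * r' + r0) = 3 ^ w0 * (3 ^ w' * m + r') + r0 := by
    intro m
    rw [pow_add]
    ring
  have hmemT : ∀ m, m ∈ T ↔ 3 ^ w0 * (3 ^ w' * m + r') + r0 ∈ D := by
    intro m
    rw [hT, Set.mem_ofPred_eq, e]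
  have hne : T.Nonempty := by
    obtain ⟨m, hm⟩ := h w' r' hr'
    exact ⟨m, (hmemT m).2 hm⟩
  refine ⟨sInf T, ?_, (hmemT _).1 (Nat.sInf_mem hne)⟩
  apply hB
  refine ⟨T, ⟨w0 + w', 3 ^ w0 * r' + r0, ?_, hT⟩, rfl⟩
  have h1 : 3 ^ w0 * (r' + 1) ≤ 3 ^ w0 * 3 ^ w' := Nat.mul_le_mul_left _ hr'
  rw [pow_add]
  nlinarith

theorem solve3 (a n t ρ : ℕ) (hn : 0 < n) (ha : Nat.Coprime a n) (hρ : ρ < n) :
    ∃ r < n, (a * r + t) % n = ρ := by
  have : NeZero n := ⟨by omega⟩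
  refine ⟨((a : ZMod n)⁻¹ * ((ρ : ZMod n) - t)).val, ZMod.val_lt _, ?_⟩
  have h1 : ((a * ((a : ZMod n)⁻¹ * ((ρ : ZMod n) - t)).val + t : ℕ) : ZMod n) =
      ((ρ : ℕ) : ZMod n) := by
    rw [Nat.cast_add, Nat.cast_mul, ZMod.natCast_zmod_val, ← mul_assoc,
      ZMod.coe_mul_inv_eq_one a ha]
    ring
  have h2 := (ZMod.natCast_eq_natCast_iff' _ _ _).1 h1
  rw [h2, Nat.mod_eq_of_lt hρ]

theorem exists_b3 (Q l w : ℕ) (hw : w ≤ 2 * l) (hl : 2 * l + 1 ≤ Q) :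
    ∃ b : ℕ, 3 ^ (Q - 1) ≤ 2 ^ w * 3 ^ b ∧ 2 ^ w * 3 ^ b ≤ 3 ^ Q := by
  obtain ⟨s, hs⟩ : ∃ s, s = Nat.log 3 (2 ^ w) := ⟨_, rfl⟩
  have h1 : 3 ^ s ≤ 2 ^ w := by
    rw [hs]
    exact Nat.pow_log_le_self 3 (by positivity)
  have h2 : 2 ^ w < 3 ^ (s + 1) := by
    rw [hs]
    exact Nat.lt_pow_succ_log_self (by norm_num) _
  have h3 : 2 ^ w ≤ 3 ^ (2 * l) :=
    (Nat.pow_le_pow_left (by norm_num) w).trans (Nat.pow_le_pow_right (by norm_num) hw)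
  have h4 : s ≤ 2 * l := by
    by_contra hc
    have : 3 ^ (2 * l) < 3 ^ s := Nat.pow_lt_pow_right (by norm_num) (by omega)
    omega
  refine ⟨Q - 1 - s, ?_, ?_⟩
  · calc 3 ^ (Q - 1) = 3 ^ s * 3 ^ (Q - 1 - s) := by
          rw [← pow_add]
          congr 1
          omega
      _ ≤ 2 ^ w * 3 ^ (Q - 1 - s) := Nat.mul_le_mul_right _ h1
  · calc 2 ^ w * 3 ^ (Q - 1 - s) ≤ 3 ^ (s + 1) * 3 ^ (Q - 1 - s) :=
          Nat.mul_le_mul_right _ h2.le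
      _ = 3 ^ Q := by
          rw [← pow_add]
          congr 1
          omega

theorem kraft (l : ℕ) (w ρ : ℕ → ℕ) (hw : ∀ t, t < 3 ^ l → w t ≤ 2 * l)
    (hg : ∀ t, t < 3 ^ l → ∀ m, g^[l] (2 ^ (w t) * m + ρ t) = 3 ^ l * m + t) :
    2 ^ (2 * l) ≤ ∑ t ∈ Finset.range (3 ^ l), 2 ^ (2 * l - w t) := by
  have hsub : Finset.range (2 ^ (2 * l)) ⊆ (Finset.range (3 ^ l)).biUnion (fun t =>
      (Finset.range (2 ^ (2 * l - w t))).image (fun m => 2 ^ (w t) * m + ρ t)) := by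
    intro n hn
    rw [Finset.mem_range] at hn
    obtain ⟨t, ht0⟩ : ∃ t, t = g^[l] n % 3 ^ l := ⟨_, rfl⟩
    obtain ⟨m, hm0⟩ : ∃ m, m = g^[l] n / 3 ^ l := ⟨_, rfl⟩
    have ht : t < 3 ^ l := by
      rw [ht0]
      exact Nat.mod_lt _ (by positivity)
    have e : n = 2 ^ (w t) * m + ρ t := by
      apply g_iterate_injective l
      rw [hg t ht m, ht0, hm0]
      exact (Nat.div_add_mod _ _).symm
    rw [Finset.mem_biUnion]
    refine ⟨t, Finset.mem_range.2 ht, ?_⟩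
    rw [Finset.mem_image]
    refine ⟨m, ?_, e.symm⟩
    rw [Finset.mem_range]
    by_contra hc
    push Not at hc
    have h1 : 2 ^ (w t) * 2 ^ (2 * l - w t) ≤ 2 ^ (w t) * m := Nat.mul_le_mul_left _ hc
    rw [← pow_add, Nat.add_sub_cancel' (hw t ht)] at h1
    omega
  calc 2 ^ (2 * l) = (Finset.range (2 ^ (2 * l))).card := (Finset.card_range _).symm
    _ ≤ _ := Finset.card_le_card hsub
    _ ≤ ∑ t ∈ Finset.range (3 ^ l),
        ((Finset.range (2 ^ (2 * l - w t))).image (fun m => 2 ^ (w t) * m + ρ t)).card :=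
        Finset.card_biUnion_le
    _ ≤ ∑ t ∈ Finset.range (3 ^ l), 2 ^ (2 * l - w t) :=
        Finset.sum_le_sum fun t _ => Finset.card_image_le.trans (Finset.card_range _).le

theorem level3 {D : Set ℕ} {k0 v0 r0 s0 B : ℕ} (hs0 : s0 < 2 ^ v0)
    (hcyl : ∀ M, g^[k0] (2 ^ v0 * M + s0) = 3 ^ k0 * M + r0)
    (hB : ∀ w' r' : ℕ, r' < 3 ^ w' → ∃ m ≤ B, 3 ^ k0 * (3 ^ w' * m + r') + r0 ∈ D)
    (l Q : ℕ) (hl : 2 * l + 1 ≤ Q) :
    ∃ S : Finset ℕ, 3 ^ (Q - 1) ≤ S.card ∧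
      ∀ e ∈ S, e < 3 ^ Q * (2 ^ v0 * (B + 1)) ∧ g^[k0 + l] e ∈ D := by
  have hex : ∀ t : ℕ, t < 3 ^ l → ∃ w ρ b c : ℕ, w ≤ 2 * l ∧ ρ < 2 ^ w ∧
      3 ^ (Q - 1) ≤ 2 ^ w * 3 ^ b ∧ 2 ^ w * 3 ^ b ≤ 3 ^ Q ∧ c < 2 ^ v0 ∧
      (∀ m, g^[l] (2 ^ w * m + ρ) = 3 ^ l * m + t) ∧
      ∀ i : ℕ, i < 3 ^ b → ∃ m : ℕ, m ≤ B ∧
        g^[k0 + l] (2 ^ w * (2 ^ v0 * (3 ^ b * m + i) + c) + ρ) ∈ D := by
    intro t ht
    obtain ⟨w, ρ, -, hw2, hρ, hg⟩ := cyl l t ht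
    obtain ⟨b, hb1, hb2⟩ := exists_b3 Q l w hw2 hl
    have hcop : Nat.Coprime (2 ^ v0) (3 ^ l) := Nat.Coprime.pow _ _ (by norm_num)
    obtain ⟨r, hr, hrm⟩ := solve3 (2 ^ v0) (3 ^ l) s0 t (by positivity) hcop ht
    have hdiv := Nat.div_add_mod (2 ^ v0 * r + s0) (3 ^ l)
    rw [hrm] at hdiv
    refine ⟨w, ρ, b, (2 ^ v0 * r + s0) / 3 ^ l, hw2, hρ, hb1, hb2, ?_, hg, ?_⟩
    · rw [Nat.div_lt_iff_lt_mul (by positivity)]
      have h1 : 2 ^ v0 * (r + 1) ≤ 2 ^ v0 * 3 ^ l := Nat.mul_le_mul_left _ hr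
      nlinarith
    · intro i hi
      have hlt : r + 3 ^ l * i < 3 ^ (l + b) := by
        have h1 : 3 ^ l * (i + 1) ≤ 3 ^ l * 3 ^ b := Nat.mul_le_mul_left _ hi
        rw [pow_add]
        nlinarith
      obtain ⟨m, hm, hmD⟩ := hB (l + b) (r + 3 ^ l * i) hlt
      refine ⟨m, hm, ?_⟩
      rw [Function.iterate_add_apply, hg]
      have e1 : 3 ^ l * (2 ^ v0 * (3 ^ b * m + i) + (2 ^ v0 * r + s0) / 3 ^ l) + t =
          2 ^ v0 * (3 ^ (l + b) * m + (r + 3 ^ l * i)) + s0 := by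
        calc 3 ^ l * (2 ^ v0 * (3 ^ b * m + i) + (2 ^ v0 * r + s0) / 3 ^ l) + t
            = 3 ^ l * (2 ^ v0 * (3 ^ b * m + i)) +
              (3 ^ l * ((2 ^ v0 * r + s0) / 3 ^ l) + t) := by ring
          _ = 3 ^ l * (2 ^ v0 * (3 ^ b * m + i)) + (2 ^ v0 * r + s0) := by rw [hdiv]
          _ = 2 ^ v0 * (3 ^ (l + b) * m + (r + 3 ^ l * i)) + s0 := by
              rw [pow_add]
              ring
      rw [e1, hcyl]
      exact hmD
  choose! w ρ b c hw hρ hb1 hb2 hc hg hi using hex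
  choose! m hm hD using hi
  have h3 : 0 < 3 ^ l := by positivity
  have hv : 0 < 2 ^ v0 := by positivity
  -- the set
  obtain ⟨F, hF⟩ : ∃ F : ℕ → ℕ → ℕ, F = fun t i =>
    2 ^ (w t) * (2 ^ v0 * (3 ^ (b t) * m t i + i) + c t) + ρ t := ⟨_, rfl⟩
  have hFg : ∀ t, t < 3 ^ l → ∀ i, g^[l] (F t i) =
      3 ^ l * (2 ^ v0 * (3 ^ (b t) * m t i + i) + c t) + t := by
    intro t ht i
    rw [hF]
    exact hg t ht _
  have hFt : ∀ t t' i i', t < 3 ^ l → t' < 3 ^ l → F t i = F t' i' → t = t' := by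
    intro t t' i i' ht ht' he
    have h4 := congrArg (fun z => g^[l] z % 3 ^ l) he
    simp only [hFg t ht i, hFg t' ht' i', Nat.mul_add_mod] at h4
    rw [Nat.mod_eq_of_lt ht, Nat.mod_eq_of_lt ht'] at h4
    exact h4
  have hFi : ∀ t, t < 3 ^ l → ∀ i i', i < 3 ^ (b t) → i' < 3 ^ (b t) → F t i = F t i' →
      i = i' := by
    intro t ht i i' hi hi' he
    have h4 := congrArg (fun z => g^[l] z) he
    simp only [hFg t ht i, hFg t ht i'] at h4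
    have e2 : 3 ^ l * (2 ^ v0 * (3 ^ (b t) * m t i + i) + c t) =
        3 ^ l * (2 ^ v0 * (3 ^ (b t) * m t i' + i') + c t) := by omega
    have e3 := Nat.eq_of_mul_eq_mul_left h3 e2
    have e4 : 2 ^ v0 * (3 ^ (b t) * m t i + i) = 2 ^ v0 * (3 ^ (b t) * m t i' + i') := by omega
    have e5 := Nat.eq_of_mul_eq_mul_left hv e4
    have h5 := congrArg (fun z => z % 3 ^ (b t)) e5
    simp only [Nat.mul_add_mod] at h5
    rw [Nat.mod_eq_of_lt hi, Nat.mod_eq_of_lt hi'] at h5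
    exact h5
  refine ⟨(Finset.range (3 ^ l)).biUnion (fun t => (Finset.range (3 ^ (b t))).image (F t)),
    ?_, ?_⟩
  · have hdisj : ∀ t ∈ Finset.range (3 ^ l), ∀ t' ∈ Finset.range (3 ^ l), t ≠ t' →
        Disjoint ((Finset.range (3 ^ (b t))).image (F t))
          ((Finset.range (3 ^ (b t'))).image (F t')) := by
      intro t ht t' ht' hne
      rw [Finset.disjoint_left]
      intro e he he'
      rw [Finset.mem_image] at he he'
      obtain ⟨i, -, hi⟩ := he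
      obtain ⟨i', -, hi'⟩ := he'
      exact hne (hFt t t' i i' (Finset.mem_range.1 ht) (Finset.mem_range.1 ht') (hi.trans hi'.symm))
    rw [Finset.card_biUnion hdisj]
    have hcard : ∀ t ∈ Finset.range (3 ^ l), ((Finset.range (3 ^ (b t))).image (F t)).card =
        3 ^ (b t) := by
      intro t ht
      rw [Finset.card_image_of_injOn, Finset.card_range]
      intro i hi i' hi' he
      rw [Finset.coe_range, Set.mem_Iio] at hi hi'
      exact hFi t (Finset.mem_range.1 ht) i i' hi hi' he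
    rw [Finset.sum_congr rfl hcard]
    have hk := kraft l w ρ hw hg
    have hpos : 0 < 2 ^ (2 * l) := by positivity
    have h6 : 3 ^ (Q - 1) * 2 ^ (2 * l) ≤ (∑ t ∈ Finset.range (3 ^ l), 3 ^ (b t)) * 2 ^ (2 * l) := by
      calc 3 ^ (Q - 1) * 2 ^ (2 * l)
          ≤ 3 ^ (Q - 1) * ∑ t ∈ Finset.range (3 ^ l), 2 ^ (2 * l - w t) :=
            Nat.mul_le_mul_left _ hk
        _ = ∑ t ∈ Finset.range (3 ^ l), 3 ^ (Q - 1) * 2 ^ (2 * l - w t) := by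
            rw [Finset.mul_sum]
        _ ≤ ∑ t ∈ Finset.range (3 ^ l), 3 ^ (b t) * 2 ^ (2 * l) := by
            refine Finset.sum_le_sum fun t ht => ?_
            have ht' := Finset.mem_range.1 ht
            calc 3 ^ (Q - 1) * 2 ^ (2 * l - w t)
                ≤ (2 ^ (w t) * 3 ^ (b t)) * 2 ^ (2 * l - w t) :=
                  Nat.mul_le_mul_right _ (hb1 t ht')
              _ = 3 ^ (b t) * (2 ^ (w t) * 2 ^ (2 * l - w t)) := by ring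
              _ = 3 ^ (b t) * 2 ^ (2 * l) := by
                  rw [← pow_add, Nat.add_sub_cancel' (hw t ht')]
        _ = _ := by rw [Finset.sum_mul]
    exact Nat.le_of_mul_le_mul_right h6 hpos
  · intro e he
    rw [Finset.mem_biUnion] at he
    obtain ⟨t, ht, he⟩ := he
    rw [Finset.mem_image] at he
    obtain ⟨i, hi, rfl⟩ := he
    rw [Finset.mem_range] at ht hi
    refine ⟨?_, by rw [hF]; exact hD t ht i hi⟩
    have hmB := hm t ht i hi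
    have hct := hc t ht
    have hρt := hρ t ht
    have hb2t := hb2 t ht
    have a1 : 3 ^ (b t) * m t i + i + 1 ≤ 3 ^ (b t) * (B + 1) := by
      have : 3 ^ (b t) * m t i ≤ 3 ^ (b t) * B := Nat.mul_le_mul_left _ hmB
      rw [Nat.mul_add, Nat.mul_one]
      omega
    have a2 : 2 ^ v0 * (3 ^ (b t) * m t i + i) + c t + 1 ≤ 2 ^ v0 * (3 ^ (b t) * (B + 1)) := by
      have h4 : 2 ^ v0 * (3 ^ (b t) * m t i + i + 1) ≤ 2 ^ v0 * (3 ^ (b t) * (B + 1)) :=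
        Nat.mul_le_mul_left _ a1
      rw [Nat.mul_add (2 ^ v0) (3 ^ (b t) * m t i + i) 1, Nat.mul_one] at h4
      omega
    have a3 : 2 ^ (w t) * (2 ^ v0 * (3 ^ (b t) * m t i + i) + c t + 1) ≤
        2 ^ (w t) * (2 ^ v0 * (3 ^ (b t) * (B + 1))) := Nat.mul_le_mul_left _ a2
    rw [Nat.mul_add (2 ^ (w t)) (2 ^ v0 * (3 ^ (b t) * m t i + i) + c t) 1, Nat.mul_one] at a3
    have a4 : 2 ^ (w t) * (2 ^ v0 * (3 ^ (b t) * (B + 1))) =
        2 ^ (w t) * 3 ^ (b t) * (2 ^ v0 * (B + 1)) := by ring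
    have a5 : 2 ^ (w t) * 3 ^ (b t) * (2 ^ v0 * (B + 1)) ≤ 3 ^ Q * (2 ^ v0 * (B + 1)) :=
      Nat.mul_le_mul_right _ hb2t
    rw [hF]
    show 2 ^ (w t) * (2 ^ v0 * (3 ^ (b t) * m t i + i) + c t) + ρ t < _
    omega

end WanderAux3

open WanderAux3

theorem wandering_nowhereDense3 (D : Set ℕ) (hA : ThreeAutomatic D)
    (hw : ∀ n ∈ D, ∀ k : ℕ, 0 < k → g^[k] n ∉ D) : NowhereDense3 D := by
  unfold NowhereDense3
  by_contra hcon
  push Not at hcon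
  obtain ⟨k0, r0, hr0, h⟩ := hcon
  obtain ⟨B, hB⟩ := bound3 hA hr0 h
  obtain ⟨v0, s0, -, -, hs0, hcyl⟩ := cyl k0 r0 hr0
  obtain ⟨N, hN⟩ : ∃ N, N = 3 * (2 ^ v0 * (B + 2)) := ⟨_, rfl⟩
  have hv : 0 < 2 ^ v0 := by positivity
  have hSex : ∀ l : ℕ, l < N → ∃ S : Finset ℕ, 3 ^ (2 * N - 1) ≤ S.card ∧
      ∀ e ∈ S, e < 3 ^ (2 * N) * (2 ^ v0 * (B + 1)) ∧ g^[k0 + l] e ∈ D := by
    intro l hl
    exact level3 hs0 hcyl hB l (2 * N) (by omega)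
  choose! S hS1 hS2 using hSex
  have hdisj' : ∀ l1 l2 : ℕ, l1 < l2 → l2 < N → Disjoint (S l1) (S l2) := by
    intro l1 l2 h12 h2N
    rw [Finset.disjoint_left]
    intro e he1 he2
    have hg1 := (hS2 l1 (by omega) e he1).2
    have hg2 := (hS2 l2 h2N e he2).2
    have e1 : k0 + l2 = (l2 - l1) + (k0 + l1) := by omega
    rw [e1, Function.iterate_add_apply] at hg2
    exact hw _ hg1 (l2 - l1) (by omega) hg2
  have hdisj : ∀ l1 ∈ Finset.range N, ∀ l2 ∈ Finset.range N, l1 ≠ l2 →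
      Disjoint (S l1) (S l2) := by
    intro l1 h1 l2 h2 hne
    rw [Finset.mem_range] at h1 h2
    rcases Nat.lt_or_gt_of_ne hne with hlt | hgt
    · exact hdisj' l1 l2 hlt h2
    · exact (hdisj' l2 l1 hgt h1).symm
  have hcard := Finset.card_biUnion hdisj
  have hsub : (Finset.range N).biUnion S ⊆ Finset.range (3 ^ (2 * N) * (2 ^ v0 * (B + 1))) := by
    intro e he
    rw [Finset.mem_biUnion] at he
    obtain ⟨l, hl, hel⟩ := he
    rw [Finset.mem_range]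
    exact (hS2 l (Finset.mem_range.1 hl) e hel).1
  have hle := Finset.card_le_card hsub
  rw [hcard, Finset.card_range] at hle
  have hge : N * 3 ^ (2 * N - 1) ≤ ∑ l ∈ Finset.range N, (S l).card := by
    calc N * 3 ^ (2 * N - 1) = ∑ l ∈ Finset.range N, 3 ^ (2 * N - 1) := by
          rw [Finset.sum_const, Finset.card_range, smul_eq_mul]
      _ ≤ _ := Finset.sum_le_sum fun l hl => hS1 l (Finset.mem_range.1 hl)
  have hN1 : 1 ≤ N := by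
    rw [hN]
    have : 1 ≤ 2 ^ v0 * (B + 2) := Nat.mul_pos hv (by omega)
    omega
  have hpow3 : 3 ^ (2 * N) = 3 * 3 ^ (2 * N - 1) := by
    rw [← pow_succ']
    congr 1
    omega
  have hfin : N * 3 ^ (2 * N - 1) ≤ (3 * (2 ^ v0 * (B + 1))) * 3 ^ (2 * N - 1) := by
    calc N * 3 ^ (2 * N - 1) ≤ 3 ^ (2 * N) * (2 ^ v0 * (B + 1)) := hge.trans hle
      _ = (3 * (2 ^ v0 * (B + 1))) * 3 ^ (2 * N - 1) := by
          rw [hpow3]
          ring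
  have hfin2 := Nat.le_of_mul_le_mul_right hfin (by positivity)
  rw [hN] at hfin2
  have h5 : 2 ^ v0 * (B + 2) = 2 ^ v0 * (B + 1) + 2 ^ v0 := by ring
  rw [h5] at hfin2
  omega

end ConwayAuto
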