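import Pool.Agent.Lib.ConwayAuto.SomeDense3
import Pool.Agent.Lib.ConwayAuto.EntryAuto3
import Pool.Agent.Lib.ConwayAuto.Wander3
import Pool.Agent.Lib.ConwayAuto.WindowsAll
import Pool.Agent.Lib.ConwayAuto.Steer
import Pool.Agent.Lib.ConwayAuto.KillB
import Pool.Agent.Lib.ConwayAuto.Universal3

/-!
A 3-automatic set of naturals which is closed under Conway's map is finite or cofinite.
-/

namespace ConwayAuto

namespace Final3

theorem closed_iter {S : Set ℕ} (hS : ∀ n ∈ S, g n ∈ S) {n : ℕ} (hn : n ∈ S) (k : ℕ) :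
    g^[k] n ∈ S := by
  induction k with
  | zero => exact hn
  | succ k ih => rw [Function.iterate_succ_apply']; exact hS _ ih

theorem entry_wandering {S : Set ℕ} (hS : ∀ n ∈ S, g n ∈ S) :
    ∀ n ∈ Entry S, ∀ k : ℕ, 0 < k → g^[k] n ∉ Entry S := by
  intro n hn k hk h
  obtain ⟨k, rfl⟩ : ∃ l, k = l + 1 := ⟨k - 1, by omega⟩
  rw [Function.iterate_succ_apply] at h
  exact h.1 (closed_iter hS hn.2 k)

theorem window_step {S : Set ℕ} {P a b : ℕ} (hw : ∀ z, a ≤ z → z < b → (z ∈ S ↔ z + P ∈ S))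
    (z : ℕ) (hz : a ≤ z) : ∀ i : ℕ, z + P * i < b → (z ∈ S ↔ z + P * i ∈ S) := by
  intro i
  induction i with
  | zero => intro _; simp
  | succ i ih =>
    intro h
    have e : z + P * (i + 1) = z + P * i + P := by ring
    have h1 : z + P * i < b := by rw [e] at h; omega
    rw [e]
    exact (ih h1).trans (hw (z + P * i) (by omega) h1)

theorem window_le {S : Set ℕ} {P a b : ℕ} (hw : ∀ z, a ≤ z → z < b → (z ∈ S ↔ z + P ∈ S))
    {z z' : ℕ} (h1 : a ≤ z) (h2 : z' < b) (hle : z ≤ z') (hm : z % P = z' % P) :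
    z ∈ S ↔ z' ∈ S := by
  have hd : P ∣ z' - z := (Nat.modEq_iff_dvd' hle).1 hm
  obtain ⟨i, hi⟩ := hd
  have e : z' = z + P * i := by omega
  rw [e]
  exact window_step hw z h1 i (by omega)

theorem window_eq {S : Set ℕ} {P a b : ℕ} (hw : ∀ z, a ≤ z → z < b → (z ∈ S ↔ z + P ∈ S))
    {z z' : ℕ} (h1 : a ≤ z) (h2 : z < b) (h3 : a ≤ z') (h4 : z' < b) (hm : z % P = z' % P) :
    z ∈ S ↔ z' ∈ S := by
  rcases le_total z z' with h | h
  · exact window_le hw h1 h4 h hm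
  · exact (window_le hw h3 h2 h hm.symm).symm

theorem in_window {x i j r : ℕ} (hr : r < 3 ^ j) :
    3 ^ (i + j) * x ≤ 3 ^ j * (3 ^ i * x) + r ∧
      3 ^ j * (3 ^ i * x) + r < 3 ^ (i + j) * (x + 1) := by
  have e1 : 3 ^ (i + j) * x = 3 ^ j * (3 ^ i * x) := by rw [pow_add]; ring
  have e2 : 3 ^ (i + j) * (x + 1) = 3 ^ j * (3 ^ i * x) + 3 ^ j * 3 ^ i := by rw [pow_add]; ring
  have h3 : 3 ^ j ≤ 3 ^ j * 3 ^ i := Nat.le_mul_of_pos_right _ (by positivity)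
  rw [e1, e2]
  constructor <;> omega

/-- from some stage on, all the windows over `x` lie in `S` -/
theorem all_windows (S : Set ℕ) (hA : ThreeAutomatic S) (hS : ∀ n ∈ S, g n ∈ S)
    (hinf : S.Infinite) : ∃ x i : ℕ, 0 < x ∧
      ∀ j ≥ i, ∀ z, 3 ^ j * x ≤ z → z < 3 ^ j * (x + 1) → z ∈ S := by
  obtain ⟨x₀, hx₀, hdense⟩ := some_dense_fwd S hA hS hinf
  obtain ⟨x, P, j₀, ⟨L, V, hV, hxe⟩, hP, hw⟩ := windows3 S hA hS
    (wandering_nowhereDense3 (Entry S) (entry_automatic3 S hA) (entry_wandering hS)) x₀ hx₀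
  have hx : 0 < x := by
    have : 0 < 3 ^ L * x₀ := by positivity
    omega
  obtain ⟨j₁, hst⟩ := steer3 P x hP hx
  have hwin : ∀ j, max j₀ j₁ ≤ j → ∀ z z', 3 ^ j * x ≤ z → z < 3 ^ j * (x + 1) →
      3 ^ j * x ≤ z' → z' < 3 ^ j * (x + 1) → z % P = z' % P → (z ∈ S ↔ z' ∈ S) :=
    fun j hj z z' h1 h2 h3 h4 hm =>
      window_eq (hw j (le_trans (le_max_left _ _) hj)) h1 h2 h3 h4 hm
  have hj1 : j₁ ≤ max j₀ j₁ := le_max_right _ _
  generalize max j₀ j₁ = J at hwin hj1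
  have hVJ : 3 ^ J * V < 3 ^ (J + L) := by
    rw [pow_add]
    exact Nat.mul_lt_mul_of_pos_left hV (by positivity)
  obtain ⟨j, r, hr, hn⟩ := hdense (J + L) (3 ^ J * V) hVJ
  have hxJ : 3 ^ (J + L) * x₀ + 3 ^ J * V = 3 ^ J * x := by
    rw [hxe, pow_add]; ring
  rw [hxJ] at hn
  have hnw := in_window (x := x) (i := J) hr
  generalize hN : 3 ^ j * (3 ^ J * x) + r = N at hn hnw
  have hfull : ∀ d : ℕ, ∀ ρ : ℕ, ∃ n ∈ S, 3 ^ (J + j + d) * x ≤ n ∧
      n < 3 ^ (J + j + d) * (x + 1) ∧ n % P = ρ % P := by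
    intro d
    induction d with
    | zero =>
      intro ρ
      obtain ⟨n0, k, h1, h2, h3, h4, h5, h6⟩ := hst (J + j) (by omega) 0 (by omega) N ρ
      have h0 : n0 ∈ S :=
        (hwin (J + j) (by omega) n0 N h1 h2 hnw.1 hnw.2 h3).2 hn
      exact ⟨g^[k] n0, closed_iter hS h0 k, h4, h5, h6⟩
    | succ d ih =>
      intro ρ
      obtain ⟨n0, k, h1, h2, h3, h4, h5, h6⟩ := hst (J + j + d) (by omega) 1 le_rfl 0 ρ
      obtain ⟨n1, hn1, h7, h8, h9⟩ := ih 0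
      have h0 : n0 ∈ S :=
        (hwin (J + j + d) (by omega) n0 n1 h1 h2 h7 h8 (h3.trans h9.symm)).2 hn1
      exact ⟨g^[k] n0, closed_iter hS h0 k, h4, h5, h6⟩
  refine ⟨x, J + j, hx, ?_⟩
  intro j' hj' z hz1 hz2
  obtain ⟨d, rfl⟩ : ∃ d, j' = J + j + d := ⟨j' - (J + j), by omega⟩
  obtain ⟨m, hm, h1, h2, h3⟩ := hfull d z
  exact (hwin (J + j + d) (by omega) m z h1 h2 hz1 hz2 h3).1 hm

end Final3

/-- A 3-automatic set closed under Conway's map is finite or cofinite. -/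
theorem finite_or_cofinite3 (S : Set ℕ) (hA : ThreeAutomatic S) (hS : ∀ n ∈ S, g n ∈ S) :
    S.Finite ∨ Sᶜ.Finite := by
  by_contra hcon
  rw [not_or] at hcon
  have hinf : S.Infinite := hcon.1
  have hinf' : Sᶜ.Infinite := hcon.2
  obtain ⟨x, i, hx, hZ⟩ := Final3.all_windows S hA hS hinf
  obtain ⟨a, c, hc, hu⟩ := universal3 Sᶜ hA.compl (by
    intro K t ht
    obtain ⟨K', t', ht', h⟩ := kill3 S hS x i hx hZ K t ht
    exact ⟨K', t', ht', fun m hm hcompl => hcompl (h m hm)⟩)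
  have hS' : ∀ n ∈ Sᶜ, gi n ∈ Sᶜ := by
    intro n hn' h
    apply hn'
    rw [← g_gi n]
    exact hS _ h
  obtain ⟨x₁, hx₁, hd⟩ := some_dense_bwd Sᶜ hA.compl hS' hinf'
  obtain ⟨j, r, hr, hn⟩ := hd a c hc
  exact hu j r hr x₁ hx₁ hn

end ConwayAuto
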