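import Pool.Agent.Lib.ConwayAuto.DefsB

/-!
A universal class for a b-automatic set all of whose kernel sets are avoided locally.
-/

namespace ConwayAuto

namespace UniversalB

theorem step {b : ℕ} (hb : 0 < b) {R : Set ℕ}
    (hk : ∀ K t, t < b ^ K → ∃ K' t' : ℕ, t' < b ^ K' ∧
      ∀ m ≥ 1, b ^ K * (b ^ K' * m + t') + t ∉ R)
    (F : Finset (Set ℕ)) :
    (∀ T ∈ F, ∃ w r : ℕ, r < b ^ w ∧ T = {m : ℕ | b ^ w * m + r ∈ R}) →
      ∃ a c : ℕ, c < b ^ a ∧ ∀ T ∈ F, ∀ m ≥ 1, b ^ a * m + c ∉ T := by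
  classical
  induction F using Finset.induction_on with
  | empty =>
    intro _
    exact ⟨0, 0, by norm_num, by simp⟩
  | insert T F _ ih =>
    intro hF
    obtain ⟨a, c, hc, hac⟩ := ih (fun T' hT' => hF T' (Finset.mem_insert_of_mem hT'))
    obtain ⟨K, t, ht, rfl⟩ := hF T (Finset.mem_insert_self _ _)
    have hlt : b ^ K * c + t < b ^ (K + a) := by
      have h1 : b ^ K * (c + 1) ≤ b ^ K * b ^ a := Nat.mul_le_mul_left _ hc
      rw [pow_add]
      nlinarith
    obtain ⟨K', t', ht', h⟩ := hk (K + a) (b ^ K * c + t) hlt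
    refine ⟨a + K', b ^ a * t' + c, ?_, ?_⟩
    · have h1 : b ^ a * (t' + 1) ≤ b ^ a * b ^ K' := Nat.mul_le_mul_left _ ht'
      rw [pow_add]
      nlinarith
    · intro T' hT' m hm
      rcases Finset.mem_insert.1 hT' with rfl | hT'
      · intro hmem
        apply h m hm
        have e : b ^ (K + a) * (b ^ K' * m + t') + (b ^ K * c + t) =
            b ^ K * (b ^ (a + K') * m + (b ^ a * t' + c)) + t := by
          rw [pow_add, pow_add]; ring
        rw [e]
        exact hmem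
      · have e : b ^ (a + K') * m + (b ^ a * t' + c) = b ^ a * (b ^ K' * m + t') + c := by
          rw [pow_add]; ring
        rw [e]
        apply hac T' hT'
        have h1 : 1 ≤ b ^ K' * m := Nat.mul_pos (pow_pos hb _) hm
        omega

end UniversalB

theorem universalB (b : ℕ) (hb : 2 ≤ b) (R : Set ℕ) (hA : AutomaticIn b R)
    (hk : ∀ K t, t < b ^ K → ∃ K' t' : ℕ, t' < b ^ K' ∧
      ∀ m ≥ 1, b ^ K * (b ^ K' * m + t') + t ∉ R) :
    ∃ a c : ℕ, c < b ^ a ∧ ∀ K t, t < b ^ K → ∀ m ≥ 1, b ^ K * (b ^ a * m + c) + t ∉ R := by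
  classical
  have hfin : {T : Set ℕ | ∃ w r : ℕ, r < b ^ w ∧ T = {m : ℕ | b ^ w * m + r ∈ R}}.Finite := hA
  obtain ⟨a, c, hc, h⟩ := UniversalB.step (by omega) hk hfin.toFinset
    (fun T hT => by simpa using (hfin.mem_toFinset.1 hT))
  refine ⟨a, c, hc, ?_⟩
  intro K t ht m hm hmem
  exact h {m : ℕ | b ^ K * m + t ∈ R} (hfin.mem_toFinset.2 ⟨K, t, ht, rfl⟩) m hm hmem

end ConwayAuto
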