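import Pool.Agent.Lib.ConwayAuto.DefsB
import Pool.Agent.Lib.ConwayAuto.Wander3

/-!
Even base `b`: a `b`-automatic set `D` of numbers such that no point of `D` comes back to `D` under
Conway's map `g` is nowhere dense (with respect to the classes mod the powers of `b`).
-/

namespace ConwayAuto

namespace WanderAuxB

theorem boundB {b : ℕ} {D : Set ℕ} (hA : AutomaticIn b D) {w0 r0 : ℕ} (hr0 : r0 < b ^ w0)
    (h : ∀ w' r' : ℕ, r' < b ^ w' → ∃ m : ℕ, b ^ w0 * (b ^ w' * m + r') + r0 ∈ D) :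
    ∃ B : ℕ, ∀ w' r' : ℕ, r' < b ^ w' → ∃ m ≤ B, b ^ w0 * (b ^ w' * m + r') + r0 ∈ D := by
  unfold AutomaticIn at hA
  obtain ⟨B, hB⟩ := (hA.image sInf).bddAbove
  refine ⟨B, fun w' r' hr' => ?_⟩
  obtain ⟨T, hT⟩ : ∃ T : Set ℕ,
    T = {m : ℕ | b ^ (w0 + w') * m + (b ^ w0 * r' + r0) ∈ D} := ⟨_, rfl⟩
  have e : ∀ m, b ^ (w0 + w') * m + (b ^ w0 * r' + r0) = b ^ w0 * (b ^ w' * m + r') + r0 := by
    intro m
    rw [pow_add]
    ring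
  have hmemT : ∀ m, m ∈ T ↔ b ^ w0 * (b ^ w' * m + r') + r0 ∈ D := by
    intro m
    rw [hT, Set.mem_ofPred_eq, e]
  have hne : T.Nonempty := by
    obtain ⟨m, hm⟩ := h w' r' hr'
    exact ⟨m, (hmemT m).2 hm⟩
  refine ⟨sInf T, ?_, (hmemT _).1 (Nat.sInf_mem hne)⟩
  apply hB
  refine ⟨T, ⟨w0 + w', b ^ w0 * r' + r0, ?_, hT⟩, rfl⟩
  have h1 : b ^ w0 * (r' + 1) ≤ b ^ w0 * b ^ w' := Nat.mul_le_mul_left _ hr'
  rw [pow_add]
  nlinarith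

theorem solveB (v K t ρ w : ℕ) (hK : Nat.Coprime K 2) (hv : v ≤ w) (hρ : ρ < 2 ^ w)
    (h : t % 2 ^ v = ρ % 2 ^ v) : ∃ R < 2 ^ w, (2 ^ v * K * R + t) % 2 ^ w = ρ := by
  have hw : 2 ^ w = 2 ^ v * 2 ^ (w - v) := by
    rw [← pow_add]
    congr 1
    omega
  have h1 : ρ / 2 ^ v < 2 ^ (w - v) := by
    rw [Nat.div_lt_iff_lt_mul (by positivity), mul_comm, ← hw]
    exact hρ
  obtain ⟨R, hR, hRm⟩ := WanderAux3.solve3 K (2 ^ (w - v)) (t / 2 ^ v) (ρ / 2 ^ v)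
    (by positivity) (Nat.Coprime.pow_right _ hK) h1
  refine ⟨R, lt_of_lt_of_le hR (Nat.pow_le_pow_right (by norm_num) (Nat.sub_le _ _)), ?_⟩
  have h2 := Nat.div_add_mod (K * R + t / 2 ^ v) (2 ^ (w - v))
  rw [hRm] at h2
  have h3 := Nat.div_add_mod t (2 ^ v)
  have h4 := Nat.div_add_mod ρ (2 ^ v)
  obtain ⟨z, hz⟩ : ∃ z, z = (K * R + t / 2 ^ v) / 2 ^ (w - v) := ⟨_, rfl⟩
  rw [← hz] at h2
  have e : 2 ^ v * K * R + t = 2 ^ w * z + ρ := by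
    calc 2 ^ v * K * R + t = 2 ^ v * K * R + (2 ^ v * (t / 2 ^ v) + t % 2 ^ v) := by rw [h3]
      _ = 2 ^ v * (K * R + t / 2 ^ v) + t % 2 ^ v := by ring
      _ = 2 ^ v * (2 ^ (w - v) * z + ρ / 2 ^ v) + ρ % 2 ^ v := by rw [h2, h]
      _ = 2 ^ v * 2 ^ (w - v) * z + (2 ^ v * (ρ / 2 ^ v) + ρ % 2 ^ v) := by ring
      _ = 2 ^ w * z + ρ := by rw [h4, ← hw]
  rw [e, Nat.mul_add_mod, Nat.mod_eq_of_lt hρ]

theorem exists_W {b : ℕ} (hb : 2 ≤ b) (hb2 : 2 ∣ b) (l w Q : ℕ) (hQ : w + 2 * l ≤ Q) :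
    ∃ W q : ℕ, b ^ W = 2 ^ w * q ∧ 3 ^ l * q ≤ b ^ Q ∧ b ^ Q ≤ 3 ^ l * (b * q) := by
  obtain ⟨x, hx⟩ : ∃ x, x = b ^ Q * 2 ^ w / 3 ^ l := ⟨_, rfl⟩
  have h3 : 0 < 3 ^ l := by positivity
  have hb0 : 0 < b := by omega
  have h1 : b ^ w * 3 ^ l ≤ b ^ Q * 2 ^ w := by
    calc b ^ w * 3 ^ l ≤ b ^ w * b ^ (2 * l) := by
          apply Nat.mul_le_mul_left
          calc 3 ^ l ≤ 4 ^ l := Nat.pow_le_pow_left (by norm_num) l
            _ = 2 ^ (2 * l) := by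
                rw [pow_mul]
                norm_num
            _ ≤ b ^ (2 * l) := Nat.pow_le_pow_left hb _
      _ = b ^ (w + 2 * l) := (pow_add _ _ _).symm
      _ ≤ b ^ Q := Nat.pow_le_pow_right hb0 hQ
      _ ≤ b ^ Q * 2 ^ w := Nat.le_mul_of_pos_right _ (by positivity)
  have h2 : b ^ w ≤ x := by
    rw [hx, Nat.le_div_iff_mul_le h3]
    exact h1
  have hx0 : x ≠ 0 := by
    have : 0 < b ^ w := by positivity
    omega
  obtain ⟨W, hW⟩ : ∃ W, W = Nat.log b x := ⟨_, rfl⟩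
  have h4 : b ^ W ≤ x := by
    rw [hW]
    exact Nat.pow_log_le_self b hx0
  have h5 : x < b ^ (W + 1) := by
    rw [hW]
    exact Nat.lt_pow_succ_log_self (by omega) _
  have h6 : w ≤ W := by
    by_contra hc
    have : b ^ (W + 1) ≤ b ^ w := Nat.pow_le_pow_right hb0 (by omega)
    omega
  obtain ⟨q, hq⟩ : 2 ^ w ∣ b ^ W := (pow_dvd_pow_of_dvd hb2 w).trans (pow_dvd_pow b h6)
  have h2w : 0 < 2 ^ w := by positivity
  refine ⟨W, q, hq, ?_, ?_⟩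
  · have h8 : b ^ W * 3 ^ l ≤ b ^ Q * 2 ^ w := by
      rw [hx, Nat.le_div_iff_mul_le h3] at h4
      exact h4
    rw [hq] at h8
    have h9 : 2 ^ w * (3 ^ l * q) ≤ 2 ^ w * b ^ Q := by
      calc 2 ^ w * (3 ^ l * q) = 2 ^ w * q * 3 ^ l := by ring
        _ ≤ b ^ Q * 2 ^ w := h8
        _ = 2 ^ w * b ^ Q := mul_comm _ _
    exact Nat.le_of_mul_le_mul_left h9 h2w
  · have h9 : b ^ Q * 2 ^ w < b ^ (W + 1) * 3 ^ l := by
      rw [hx, Nat.div_lt_iff_lt_mul h3] at h5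
      exact h5
    rw [pow_succ, hq] at h9
    have h10 : 2 ^ w * b ^ Q ≤ 2 ^ w * (3 ^ l * (b * q)) := by
      calc 2 ^ w * b ^ Q = b ^ Q * 2 ^ w := mul_comm _ _
        _ ≤ 2 ^ w * q * b * 3 ^ l := h9.le
        _ = 2 ^ w * (3 ^ l * (b * q)) := by ring
    exact Nat.le_of_mul_le_mul_left h10 h2w

theorem compB {k0 w1 r1 t0 : ℕ} (hr1 : r1 < 2 ^ w1) (ht0 : t0 < 3 ^ k0)
    (hcyl : ∀ M, g^[k0] (2 ^ w1 * M + r1) = 3 ^ k0 * M + t0) (l τ : ℕ) (hτ : τ < 3 ^ l) :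
    ∃ w ρ c : ℕ, w1 ≤ w ∧ w ≤ w1 + 2 * l ∧ ρ < 2 ^ w ∧ ρ % 2 ^ w1 = r1 ∧ c < 3 ^ k0 ∧
      ∀ M, g^[l + k0] (2 ^ w * M + ρ) = 3 ^ l * (3 ^ k0 * M + c) + τ := by
  obtain ⟨w, ρ, -, hw2, hρ, hg⟩ := cyl l τ hτ
  obtain ⟨r, hr, hrm⟩ := WanderAux3.solve3 (3 ^ k0) (2 ^ w) t0 ρ (by positivity)
    (Nat.Coprime.pow _ _ (by norm_num)) hρ
  have hdiv := Nat.div_add_mod (3 ^ k0 * r + t0) (2 ^ w)
  rw [hrm] at hdiv
  refine ⟨w1 + w, 2 ^ w1 * r + r1, (3 ^ k0 * r + t0) / 2 ^ w, by omega, by omega, ?_, ?_, ?_, ?_⟩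
  · rw [pow_add]
    have h1 : 2 ^ w1 * (r + 1) ≤ 2 ^ w1 * 2 ^ w := Nat.mul_le_mul_left _ hr
    nlinarith
  · rw [Nat.mul_add_mod, Nat.mod_eq_of_lt hr1]
  · rw [Nat.div_lt_iff_lt_mul (by positivity)]
    have h1 : 3 ^ k0 * (r + 1) ≤ 3 ^ k0 * 2 ^ w := Nat.mul_le_mul_left _ hr
    nlinarith
  · intro M
    have e1 : 2 ^ (w1 + w) * M + (2 ^ w1 * r + r1) = 2 ^ w1 * (2 ^ w * M + r) + r1 := by
      rw [pow_add]
      ring
    rw [Function.iterate_add_apply, e1, hcyl]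
    obtain ⟨z, hz⟩ : ∃ z, z = (3 ^ k0 * r + t0) / 2 ^ w := ⟨_, rfl⟩
    rw [← hz] at hdiv ⊢
    have e2 : 3 ^ k0 * (2 ^ w * M + r) + t0 = 2 ^ w * (3 ^ k0 * M + z) + ρ := by
      calc 3 ^ k0 * (2 ^ w * M + r) + t0 = 2 ^ w * (3 ^ k0 * M) + (3 ^ k0 * r + t0) := by ring
        _ = 2 ^ w * (3 ^ k0 * M) + (2 ^ w * z + ρ) := by rw [hdiv]
        _ = 2 ^ w * (3 ^ k0 * M + z) + ρ := by ring
    rw [e2, hg]

theorem levelB {b : ℕ} (hb : 2 ≤ b) (hb2 : 2 ∣ b) {D : Set ℕ} {v K w0 r0 B w1 r1 t0 : ℕ}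
    (hfac : b ^ w0 = 2 ^ v * K) (hK : Nat.Coprime K 2) (hr0 : r0 < b ^ w0) (hvw : v ≤ w1)
    (hr1 : r1 < 2 ^ w1) (hr01 : r0 % 2 ^ w1 = r1) (ht0 : t0 < 3 ^ v)
    (hcyl : ∀ M, g^[v] (2 ^ w1 * M + r1) = 3 ^ v * M + t0)
    (hB : ∀ w' r' : ℕ, r' < b ^ w' → ∃ m ≤ B, b ^ w0 * (b ^ w' * m + r') + r0 ∈ D)
    (l Q : ℕ) (hQ : w1 + 4 * l + 2 * v ≤ Q) :
    ∃ S : Finset ℕ, b ^ Q ≤ 3 ^ v * (b * S.card) ∧
      ∀ e ∈ S, e < b ^ Q * (b ^ w0 * (B + 1)) ∧ ∃ n ∈ D, g^[l + v] n = e := by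
  have hex : ∀ τ : ℕ, τ < 3 ^ l → ∃ q c c2 : ℕ, c < 3 ^ v ∧ c2 < b ^ w0 ∧
      3 ^ (l + v) * q ≤ b ^ Q ∧ b ^ Q ≤ 3 ^ (l + v) * (b * q) ∧
      ∀ s : ℕ, s < q → ∃ m : ℕ, m ≤ B ∧
        ∃ n ∈ D, g^[l + v] n = 3 ^ l * (3 ^ v * (b ^ w0 * (q * m + s) + c2) + c) + τ := by
    intro τ hτ
    obtain ⟨w2, ρ2, c, hw12, hw2, hρ2, hρm, hc, hg⟩ := compB hr1 ht0 hcyl l τ hτ
    obtain ⟨W, q, hWq, hq1, hq2⟩ := exists_W hb hb2 (l + v) w2 Q (by omega)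
    have hmod : r0 % 2 ^ v = ρ2 % 2 ^ v := by
      have hd : 2 ^ v ∣ 2 ^ w1 := pow_dvd_pow 2 hvw
      rw [← Nat.mod_mod_of_dvd r0 hd, ← Nat.mod_mod_of_dvd ρ2 hd, hr01, hρm]
    obtain ⟨R, hR, hRm⟩ := solveB v K r0 ρ2 w2 hK (by omega) hρ2 hmod
    rw [← hfac] at hRm
    have hdiv := Nat.div_add_mod (b ^ w0 * R + r0) (2 ^ w2)
    rw [hRm] at hdiv
    refine ⟨q, c, (b ^ w0 * R + r0) / 2 ^ w2, hc, ?_, hq1, hq2, ?_⟩
    · rw [Nat.div_lt_iff_lt_mul (by positivity)]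
      have h1 : b ^ w0 * (R + 1) ≤ b ^ w0 * 2 ^ w2 := Nat.mul_le_mul_left _ hR
      nlinarith
    · intro s hs
      have hlt : R + 2 ^ w2 * s < b ^ W := by
        have h1 : 2 ^ w2 * (s + 1) ≤ 2 ^ w2 * q := Nat.mul_le_mul_left _ hs
        rw [hWq]
        nlinarith
      obtain ⟨m, hm, hmD⟩ := hB W (R + 2 ^ w2 * s) hlt
      refine ⟨m, hm, _, hmD, ?_⟩
      obtain ⟨z, hz⟩ : ∃ z, z = (b ^ w0 * R + r0) / 2 ^ w2 := ⟨_, rfl⟩
      rw [← hz] at hdiv ⊢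
      have e1 : b ^ w0 * (b ^ W * m + (R + 2 ^ w2 * s)) + r0 =
          2 ^ w2 * (b ^ w0 * (q * m + s) + z) + ρ2 := by
        calc b ^ w0 * (b ^ W * m + (R + 2 ^ w2 * s)) + r0
            = b ^ w0 * (2 ^ w2 * q * m + (R + 2 ^ w2 * s)) + r0 := by rw [hWq]
          _ = 2 ^ w2 * (b ^ w0 * (q * m + s)) + (b ^ w0 * R + r0) := by ring
          _ = 2 ^ w2 * (b ^ w0 * (q * m + s)) + (2 ^ w2 * z + ρ2) := by rw [hdiv]
          _ = 2 ^ w2 * (b ^ w0 * (q * m + s) + z) + ρ2 := by ring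
      rw [e1, hg]
  choose! q c c2 hc hc2 hq1 hq2 hs using hex
  choose! m hm n hn using hs
  have h3 : 0 < 3 ^ l := by positivity
  have h3v : 0 < 3 ^ v := by positivity
  have hbw : 0 < b ^ w0 := by positivity
  obtain ⟨F, hF⟩ : ∃ F : ℕ → ℕ → ℕ, F = fun τ s =>
    3 ^ l * (3 ^ v * (b ^ w0 * (q τ * m τ s + s) + c2 τ) + c τ) + τ := ⟨_, rfl⟩
  have hFt : ∀ τ τ' s s', τ < 3 ^ l → τ' < 3 ^ l → F τ s = F τ' s' → τ = τ' := by
    intro τ τ' s s' hτ hτ' he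
    have h4 := congrArg (fun z => z % 3 ^ l) he
    simp only [hF, Nat.mul_add_mod] at h4
    rw [Nat.mod_eq_of_lt hτ, Nat.mod_eq_of_lt hτ'] at h4
    exact h4
  have hFi : ∀ τ, τ < 3 ^ l → ∀ s s', s < q τ → s' < q τ → F τ s = F τ s' → s = s' := by
    intro τ hτ s s' hs hs' he
    simp only [hF] at he
    have e2 : 3 ^ l * (3 ^ v * (b ^ w0 * (q τ * m τ s + s) + c2 τ) + c τ) =
        3 ^ l * (3 ^ v * (b ^ w0 * (q τ * m τ s' + s') + c2 τ) + c τ) := by omega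
    have e3 := Nat.eq_of_mul_eq_mul_left h3 e2
    have e4 : 3 ^ v * (b ^ w0 * (q τ * m τ s + s) + c2 τ) =
        3 ^ v * (b ^ w0 * (q τ * m τ s' + s') + c2 τ) := by omega
    have e5 := Nat.eq_of_mul_eq_mul_left h3v e4
    have e6 : b ^ w0 * (q τ * m τ s + s) = b ^ w0 * (q τ * m τ s' + s') := by omega
    have e7 := Nat.eq_of_mul_eq_mul_left hbw e6
    have h5 := congrArg (fun z => z % q τ) e7
    simp only [Nat.mul_add_mod] at h5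
    rw [Nat.mod_eq_of_lt hs, Nat.mod_eq_of_lt hs'] at h5
    exact h5
  refine ⟨(Finset.range (3 ^ l)).biUnion (fun τ => (Finset.range (q τ)).image (F τ)), ?_, ?_⟩
  · have hdisj : ∀ τ ∈ Finset.range (3 ^ l), ∀ τ' ∈ Finset.range (3 ^ l), τ ≠ τ' →
        Disjoint ((Finset.range (q τ)).image (F τ)) ((Finset.range (q τ')).image (F τ')) := by
      intro τ hτ τ' hτ' hne
      rw [Finset.disjoint_left]
      intro e he he'
      rw [Finset.mem_image] at he he'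
      obtain ⟨s, -, hs⟩ := he
      obtain ⟨s', -, hs'⟩ := he'
      exact hne (hFt τ τ' s s' (Finset.mem_range.1 hτ) (Finset.mem_range.1 hτ')
        (hs.trans hs'.symm))
    rw [Finset.card_biUnion hdisj]
    have hcard : ∀ τ ∈ Finset.range (3 ^ l), ((Finset.range (q τ)).image (F τ)).card = q τ := by
      intro τ hτ
      rw [Finset.card_image_of_injOn, Finset.card_range]
      intro s hs s' hs' he
      rw [Finset.coe_range, Set.mem_Iio] at hs hs'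
      exact hFi τ (Finset.mem_range.1 hτ) s s' hs hs' he
    rw [Finset.sum_congr rfl hcard]
    have h6 : 3 ^ l * b ^ Q ≤ 3 ^ l * (3 ^ v * (b * ∑ τ ∈ Finset.range (3 ^ l), q τ)) := by
      calc 3 ^ l * b ^ Q = ∑ τ ∈ Finset.range (3 ^ l), b ^ Q := by
            rw [Finset.sum_const, Finset.card_range, smul_eq_mul]
        _ ≤ ∑ τ ∈ Finset.range (3 ^ l), 3 ^ (l + v) * (b * q τ) :=
            Finset.sum_le_sum fun τ hτ => hq2 τ (Finset.mem_range.1 hτ)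
        _ = 3 ^ l * (3 ^ v * (b * ∑ τ ∈ Finset.range (3 ^ l), q τ)) := by
            rw [← Finset.mul_sum, ← Finset.mul_sum, pow_add]
            ring
    exact Nat.le_of_mul_le_mul_left h6 h3
  · intro e he
    rw [Finset.mem_biUnion] at he
    obtain ⟨τ, hτ, he⟩ := he
    rw [Finset.mem_image] at he
    obtain ⟨s, hs, rfl⟩ := he
    rw [Finset.mem_range] at hτ hs
    refine ⟨?_, n τ s, (hn τ hτ s hs).1, by rw [hF]; exact (hn τ hτ s hs).2⟩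
    have hmB := hm τ hτ s hs
    have hcτ := hc τ hτ
    have hc2τ := hc2 τ hτ
    have hq1τ := hq1 τ hτ
    have a1 : q τ * m τ s + s + 1 ≤ q τ * (B + 1) := by
      have : q τ * m τ s ≤ q τ * B := Nat.mul_le_mul_left _ hmB
      rw [Nat.mul_add, Nat.mul_one]
      omega
    have a2 : b ^ w0 * (q τ * m τ s + s) + c2 τ + 1 ≤ b ^ w0 * (q τ * (B + 1)) := by
      have h4 : b ^ w0 * (q τ * m τ s + s + 1) ≤ b ^ w0 * (q τ * (B + 1)) :=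
        Nat.mul_le_mul_left _ a1
      rw [Nat.mul_add (b ^ w0) (q τ * m τ s + s) 1, Nat.mul_one] at h4
      omega
    have a3 : 3 ^ v * (b ^ w0 * (q τ * m τ s + s) + c2 τ) + c τ + 1 ≤
        3 ^ v * (b ^ w0 * (q τ * (B + 1))) := by
      have h4 : 3 ^ v * (b ^ w0 * (q τ * m τ s + s) + c2 τ + 1) ≤
        3 ^ v * (b ^ w0 * (q τ * (B + 1))) := Nat.mul_le_mul_left _ a2
      rw [Nat.mul_add (3 ^ v) (b ^ w0 * (q τ * m τ s + s) + c2 τ) 1, Nat.mul_one] at h4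
      omega
    have a4 : 3 ^ l * (3 ^ v * (b ^ w0 * (q τ * m τ s + s) + c2 τ) + c τ + 1) ≤
        3 ^ l * (3 ^ v * (b ^ w0 * (q τ * (B + 1)))) := Nat.mul_le_mul_left _ a3
    rw [Nat.mul_add (3 ^ l) (3 ^ v * (b ^ w0 * (q τ * m τ s + s) + c2 τ) + c τ) 1,
      Nat.mul_one] at a4
    have a5 : 3 ^ l * (3 ^ v * (b ^ w0 * (q τ * (B + 1)))) =
        3 ^ (l + v) * q τ * (b ^ w0 * (B + 1)) := by
      rw [pow_add]
      ring
    have a6 : 3 ^ (l + v) * q τ * (b ^ w0 * (B + 1)) ≤ b ^ Q * (b ^ w0 * (B + 1)) :=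
      Nat.mul_le_mul_right _ hq1τ
    rw [hF]
    show 3 ^ l * (3 ^ v * (b ^ w0 * (q τ * m τ s + s) + c2 τ) + c τ) + τ < _
    omega

end WanderAuxB

open WanderAuxB

theorem wandering_nowhereDenseB (b : ℕ) (hb : 0 < b) (hb2 : 2 ∣ b) (D : Set ℕ)
    (hA : AutomaticIn b D) (hw : ∀ n ∈ D, ∀ k : ℕ, 0 < k → g^[k] n ∉ D) :
    NowhereDenseB b D := by
  have hb1 : 2 ≤ b := Nat.le_of_dvd hb hb2
  unfold NowhereDenseB
  by_contra hcon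
  push Not at hcon
  obtain ⟨w0, r0, hr0, h⟩ := hcon
  obtain ⟨B, hB⟩ := boundB hA hr0 h
  have hbw : 0 < b ^ w0 := by positivity
  obtain ⟨v, K, hKo, hfac⟩ := Nat.exists_eq_two_pow_mul_odd (n := b ^ w0) hbw.ne'
  have hK : Nat.Coprime K 2 := Nat.coprime_two_right.2 hKo
  obtain ⟨w1, r1, t0, m0, hw1, -, hr1, ht0, hr01, hcyl⟩ := cyl_of v r0
  have hr01' : r0 % 2 ^ w1 = r1 := by
    rw [hr01, Nat.mul_add_mod, Nat.mod_eq_of_lt hr1]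
  obtain ⟨X, hX⟩ : ∃ X, X = 3 ^ v * (b * (b ^ w0 * (B + 1))) := ⟨_, rfl⟩
  obtain ⟨N, hN⟩ : ∃ N, N = X + 1 := ⟨_, rfl⟩
  obtain ⟨Q, hQ⟩ : ∃ Q, Q = w1 + 4 * N + 2 * v := ⟨_, rfl⟩
  have hSex : ∀ l : ℕ, l < N → ∃ S : Finset ℕ, b ^ Q ≤ 3 ^ v * (b * S.card) ∧
      ∀ e ∈ S, e < b ^ Q * (b ^ w0 * (B + 1)) ∧ ∃ n ∈ D, g^[l + v] n = e := by
    intro l hl
    exact levelB hb1 hb2 hfac hK hr0 hw1 hr1 hr01' ht0 hcyl hB l Q (by omega)
  choose! S hS1 hS2 using hSex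
  have hdisj' : ∀ l1 l2 : ℕ, l1 < l2 → l2 < N → Disjoint (S l1) (S l2) := by
    intro l1 l2 h12 h2N
    rw [Finset.disjoint_left]
    intro e he1 he2
    obtain ⟨-, n1, hn1, hg1⟩ := hS2 l1 (by omega) e he1
    obtain ⟨-, n2, hn2, hg2⟩ := hS2 l2 h2N e he2
    have e1 : l2 + v = (l1 + v) + (l2 - l1) := by omega
    rw [e1, Function.iterate_add_apply, ← hg1] at hg2
    have e2 := g_iterate_injective _ hg2
    exact hw n2 hn2 (l2 - l1) (by omega) (by rw [e2]; exact hn1)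
  have hdisj : ∀ l1 ∈ Finset.range N, ∀ l2 ∈ Finset.range N, l1 ≠ l2 →
      Disjoint (S l1) (S l2) := by
    intro l1 h1 l2 h2 hne
    rw [Finset.mem_range] at h1 h2
    rcases Nat.lt_or_gt_of_ne hne with hlt | hgt
    · exact hdisj' l1 l2 hlt h2
    · exact (hdisj' l2 l1 hgt h1).symm
  have hcard := Finset.card_biUnion hdisj
  have hsub : (Finset.range N).biUnion S ⊆ Finset.range (b ^ Q * (b ^ w0 * (B + 1))) := by
    intro e he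
    rw [Finset.mem_biUnion] at he
    obtain ⟨l, hl, hel⟩ := he
    rw [Finset.mem_range]
    exact (hS2 l (Finset.mem_range.1 hl) e hel).1
  have hle := Finset.card_le_card hsub
  rw [hcard, Finset.card_range] at hle
  have hge : N * b ^ Q ≤ 3 ^ v * (b * ∑ l ∈ Finset.range N, (S l).card) := by
    calc N * b ^ Q = ∑ l ∈ Finset.range N, b ^ Q := by
          rw [Finset.sum_const, Finset.card_range, smul_eq_mul]
      _ ≤ ∑ l ∈ Finset.range N, 3 ^ v * (b * (S l).card) :=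
          Finset.sum_le_sum fun l hl => hS1 l (Finset.mem_range.1 hl)
      _ = _ := by rw [← Finset.mul_sum, ← Finset.mul_sum]
  have hfin : N * b ^ Q ≤ X * b ^ Q := by
    calc N * b ^ Q ≤ 3 ^ v * (b * ∑ l ∈ Finset.range N, (S l).card) := hge
      _ ≤ 3 ^ v * (b * (b ^ Q * (b ^ w0 * (B + 1)))) :=
          Nat.mul_le_mul_left _ (Nat.mul_le_mul_left _ hle)
      _ = X * b ^ Q := by
          rw [hX]
          ring
  have hfin2 := Nat.le_of_mul_le_mul_right hfin (by positivity)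
  omega

end ConwayAuto
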