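import Pool.Agent.Lib.ConwayAuto.Defs

/-!
MODULE Good: good blocks exist, and the transfer of membership along them.
-/

namespace ConwayAuto

namespace GoodAux

/-- every residue class mod `2^w` contains a class mod `2^(w+w')` inside `A` -/
def Fat (A : Set ℕ) : Prop :=
  ∀ w r : ℕ, r < 2 ^ w → ∃ w' r' : ℕ, r' < 2 ^ w' ∧ ∀ m : ℕ, 2 ^ w * (2 ^ w' * m + r') + r ∈ A

theorem lt_aux {w w1 r r1 : ℕ} (hr : r < 2 ^ w) (hr1 : r1 < 2 ^ w1) :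
    2 ^ w * r1 + r < 2 ^ (w + w1) := by
  have h1 : 2 ^ w * (r1 + 1) ≤ 2 ^ w * 2 ^ w1 := Nat.mul_le_mul_left _ hr1
  rw [pow_add]
  have h2 : 2 ^ w * (r1 + 1) = 2 ^ w * r1 + 2 ^ w := by ring
  omega

theorem Fat.inter {A B : Set ℕ} (hA : Fat A) (hB : Fat B) : Fat (A ∩ B) := by
  intro w r hr
  obtain ⟨w1, r1, hr1, h1⟩ := hA w r hr
  obtain ⟨w2, r2, hr2, h2⟩ := hB (w + w1) (2 ^ w * r1 + r) (lt_aux hr hr1)
  refine ⟨w1 + w2, 2 ^ w1 * r2 + r1, lt_aux hr1 hr2, fun m => ⟨?_, ?_⟩⟩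
  · have e : 2 ^ w * (2 ^ (w1 + w2) * m + (2 ^ w1 * r2 + r1)) + r =
        2 ^ w * (2 ^ w1 * (2 ^ w2 * m + r2) + r1) + r := by
      rw [pow_add]; ring
    rw [e]
    exact h1 _
  · have e : 2 ^ w * (2 ^ (w1 + w2) * m + (2 ^ w1 * r2 + r1)) + r =
        2 ^ (w + w1) * (2 ^ w2 * m + r2) + (2 ^ w * r1 + r) := by
      rw [pow_add, pow_add]; ring
    rw [e]
    exact h2 _

theorem fat_univ : Fat Set.univ := fun _ _ _ => ⟨0, 0, by norm_num, fun _ => trivial⟩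

theorem fat_finset {ι : Type} (s : Finset ι) (A : ι → Set ℕ) (hA : ∀ i, Fat (A i)) :
    Fat {y | ∀ i ∈ s, y ∈ A i} := by
  classical
  induction s using Finset.induction_on with
  | empty =>
    have : {y : ℕ | ∀ i ∈ (∅ : Finset ι), y ∈ A i} = Set.univ := by
      ext y; simp
    rw [this]
    exact fat_univ
  | insert b s hb ih =>
    have : {y : ℕ | ∀ i ∈ insert b s, y ∈ A i} = A b ∩ {y | ∀ i ∈ s, y ∈ A i} := by
      ext y; simp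
    rw [this]
    exact (hA b).inter ih

theorem exists_solve (j w u1 r' : ℕ) (hr' : r' < 2 ^ w) :
    ∃ ρ : ℕ, ρ < 2 ^ w ∧ (3 ^ j * ρ + u1) % 2 ^ w = r' := by
  have : NeZero (2 ^ w) := ⟨by positivity⟩
  have hcop : Nat.Coprime (3 ^ j) (2 ^ w) := Nat.Coprime.pow _ _ (by norm_num)
  let x : ZMod (2 ^ w) := ((r' : ZMod (2 ^ w)) - (u1 : ZMod (2 ^ w))) *
    ((3 ^ j : ℕ) : ZMod (2 ^ w))⁻¹
  refine ⟨x.val, ZMod.val_lt x, ?_⟩
  have hone : ((3 ^ j : ℕ) : ZMod (2 ^ w)) * ((3 ^ j : ℕ) : ZMod (2 ^ w))⁻¹ = 1 :=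
    ZMod.coe_mul_inv_eq_one _ hcop
  have h1 : ((3 ^ j * x.val + u1 : ℕ) : ZMod (2 ^ w)) = ((r' : ℕ) : ZMod (2 ^ w)) := by
    rw [Nat.cast_add, Nat.cast_mul, ZMod.natCast_zmod_val]
    calc ((3 ^ j : ℕ) : ZMod (2 ^ w)) * x + (u1 : ZMod (2 ^ w))
        = (((3 ^ j : ℕ) : ZMod (2 ^ w)) * ((3 ^ j : ℕ) : ZMod (2 ^ w))⁻¹) *
            ((r' : ZMod (2 ^ w)) - (u1 : ZMod (2 ^ w))) + (u1 : ZMod (2 ^ w)) := by
          simp only [x]; ring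
      _ = (r' : ZMod (2 ^ w)) := by rw [hone]; ring
  have h2 := (ZMod.natCast_eq_natCast_iff _ _ _).1 h1
  have h3 : (3 ^ j * x.val + u1) % 2 ^ w = r' % 2 ^ w := h2
  rw [h3, Nat.mod_eq_of_lt hr']

theorem fat_shift (D : Set ℕ) (hD : NowhereDense2 D) (j a t i : ℕ) :
    Fat {y : ℕ | 2 ^ a * 3 ^ j * (y + i) + t ∉ D} := by
  intro w r hr
  have hu0 : (2 ^ a * 3 ^ j * (r + i) + t) % 2 ^ (a + w) < 2 ^ (a + w) :=
    Nat.mod_lt _ (by positivity)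
  obtain ⟨w', r', hr', h⟩ := hD (a + w) _ hu0
  obtain ⟨ρ, hρ, hρ2⟩ := exists_solve j w' ((2 ^ a * 3 ^ j * (r + i) + t) / 2 ^ (a + w)) r' hr'
  refine ⟨w', ρ, hρ, fun m => ?_⟩
  show 2 ^ a * 3 ^ j * (2 ^ w * (2 ^ w' * m + ρ) + r + i) + t ∉ D
  have e1 := Nat.div_add_mod (2 ^ a * 3 ^ j * (r + i) + t) (2 ^ (a + w))
  have e2 := Nat.div_add_mod
    (3 ^ j * ρ + (2 ^ a * 3 ^ j * (r + i) + t) / 2 ^ (a + w)) (2 ^ w')
  rw [hρ2] at e2
  generalize (2 ^ a * 3 ^ j * (r + i) + t) / 2 ^ (a + w) = u1 at e1 e2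
  generalize hu : (2 ^ a * 3 ^ j * (r + i) + t) % 2 ^ (a + w) = u0 at e1 h
  generalize (3 ^ j * ρ + u1) / 2 ^ w' = q at e2
  have e3 : 2 ^ a * 3 ^ j * (2 ^ w * (2 ^ w' * m + ρ) + r + i) + t =
      2 ^ (a + w) * (2 ^ w' * (3 ^ j * m + q) + r') + u0 := by
    calc 2 ^ a * 3 ^ j * (2 ^ w * (2 ^ w' * m + ρ) + r + i) + t
        = 2 ^ (a + w) * (2 ^ w' * (3 ^ j * m)) + 2 ^ (a + w) * (3 ^ j * ρ) +
            (2 ^ a * 3 ^ j * (r + i) + t) := by rw [pow_add]; ring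
      _ = 2 ^ (a + w) * (2 ^ w' * (3 ^ j * m)) + 2 ^ (a + w) * (3 ^ j * ρ) +
            (2 ^ (a + w) * u1 + u0) := by rw [e1]
      _ = 2 ^ (a + w) * (2 ^ w' * (3 ^ j * m)) + 2 ^ (a + w) * (3 ^ j * ρ + u1) + u0 := by ring
      _ = 2 ^ (a + w) * (2 ^ w' * (3 ^ j * m)) + 2 ^ (a + w) * (2 ^ w' * q + r') + u0 := by
          rw [e2]
      _ = 2 ^ (a + w) * (2 ^ w' * (3 ^ j * m + q) + r') + u0 := by ring
  rw [e3]
  exact h _

theorem step {S : Set ℕ} (hS : ∀ n ∈ S, g n ∈ S) {N' N : ℕ} (hg : g N' = N)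
    (hN : N' ∉ Entry S) : N' ∈ S ↔ N ∈ S := by
  constructor
  · intro h
    rw [← hg]
    exact hS _ h
  · intro h
    by_contra hc
    exact hN ⟨hc, by rw [hg]; exact h⟩

theorem transfer_aux (S : Set ℕ) (hS : ∀ n ∈ S, g n ∈ S) (n x y : ℕ)
    (hx : Good (Entry S) n x) (hy : Good (Entry S) n y)
    (hxy : ∀ w r, r < 2 ^ w → (2 ^ w * x + r ∈ S ↔ 2 ^ w * y + r ∈ S)) (j : ℕ) :
    j ≤ n → ∀ a ≤ 2 * (n - j), ∀ t < 2 ^ a * 3 ^ j,
      (2 ^ a * 3 ^ j * x + t ∈ S ↔ 2 ^ a * 3 ^ j * y + t ∈ S) := by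
  induction j with
  | zero =>
    intro _ a _ t ht
    rw [pow_zero, mul_one] at ht ⊢
    exact hxy a t ht
  | succ j ih =>
    intro hj a ha t ht
    have e3 : 3 ^ (j + 1) = 3 * 3 ^ j := by rw [pow_succ]; ring
    have hj' : j ≤ n := by omega
    obtain ⟨s, h | h | h⟩ : ∃ s, t = 3 * s ∨ t = 3 * s + 1 ∨ t = 3 * s + 2 := ⟨t / 3, by omega⟩
    · have hs : s < 2 ^ a * 3 ^ j := by
        rw [e3] at ht
        have : 2 ^ a * (3 * 3 ^ j) = 3 * (2 ^ a * 3 ^ j) := by ring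
        omega
      have e4 : 2 ^ (a + 1) * 3 ^ j = 2 * (2 ^ a * 3 ^ j) := by rw [pow_succ]; ring
      have hlt : 2 * s < 2 ^ (a + 1) * 3 ^ j := by omega
      have key : ∀ z, Good (Entry S) n z →
          (2 ^ (a + 1) * 3 ^ j * z + 2 * s ∈ S ↔ 2 ^ a * 3 ^ (j + 1) * z + t ∈ S) := by
        intro z hz
        apply step hS _ (hz j hj' (a + 1) (by omega) (2 * s) hlt)
        have : 2 ^ (a + 1) * 3 ^ j * z + 2 * s = 2 * (2 ^ a * 3 ^ j * z + s) := by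
          rw [pow_succ]; ring
        rw [this, g_even, e3, h]; ring
      rw [← key x hx, ← key y hy]
      exact ih hj' (a + 1) (by omega) (2 * s) hlt
    · have hs : s < 2 ^ a * 3 ^ j := by
        rw [e3] at ht
        have : 2 ^ a * (3 * 3 ^ j) = 3 * (2 ^ a * 3 ^ j) := by ring
        omega
      have e4 : 2 ^ (a + 2) * 3 ^ j = 4 * (2 ^ a * 3 ^ j) := by rw [pow_add]; ring
      have hlt : 4 * s + 1 < 2 ^ (a + 2) * 3 ^ j := by omega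
      have key : ∀ z, Good (Entry S) n z →
          (2 ^ (a + 2) * 3 ^ j * z + (4 * s + 1) ∈ S ↔ 2 ^ a * 3 ^ (j + 1) * z + t ∈ S) := by
        intro z hz
        apply step hS _ (hz j hj' (a + 2) (by omega) (4 * s + 1) hlt)
        have : 2 ^ (a + 2) * 3 ^ j * z + (4 * s + 1) = 4 * (2 ^ a * 3 ^ j * z + s) + 1 := by
          rw [pow_add]; ring
        rw [this, g_one, e3, h]; ring
      rw [← key x hx, ← key y hy]
      exact ih hj' (a + 2) (by omega) (4 * s + 1) hlt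
    · have hs : s < 2 ^ a * 3 ^ j := by
        rw [e3] at ht
        have : 2 ^ a * (3 * 3 ^ j) = 3 * (2 ^ a * 3 ^ j) := by ring
        omega
      have e4 : 2 ^ (a + 2) * 3 ^ j = 4 * (2 ^ a * 3 ^ j) := by rw [pow_add]; ring
      have hlt : 4 * s + 3 < 2 ^ (a + 2) * 3 ^ j := by omega
      have key : ∀ z, Good (Entry S) n z →
          (2 ^ (a + 2) * 3 ^ j * z + (4 * s + 3) ∈ S ↔ 2 ^ a * 3 ^ (j + 1) * z + t ∈ S) := by
        intro z hz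
        apply step hS _ (hz j hj' (a + 2) (by omega) (4 * s + 3) hlt)
        have : 2 ^ (a + 2) * 3 ^ j * z + (4 * s + 3) = 4 * (2 ^ a * 3 ^ j * z + s) + 3 := by
          rw [pow_add]; ring
        rw [this, g_three, e3, h]; ring
      rw [← key x hx, ← key y hy]
      exact ih hj' (a + 2) (by omega) (4 * s + 3) hlt

end GoodAux

theorem exists_good (D : Set ℕ) (hD : NowhereDense2 D) (n C : ℕ) :
    ∃ W ρ : ℕ, ∀ m, ∀ i ≤ C, Good D n (2 ^ W * m + ρ + i) := by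
  classical
  have hfat := GoodAux.fat_finset
    (Finset.range (n + 1) ×ˢ (Finset.range (2 * n + 1) ×ˢ
      (Finset.range (2 ^ (2 * n) * 3 ^ n) ×ˢ Finset.range (C + 1))))
    (fun p : ℕ × ℕ × ℕ × ℕ =>
      {y : ℕ | 2 ^ p.2.1 * 3 ^ p.1 * (y + p.2.2.2) + p.2.2.1 ∉ D})
    (fun p => GoodAux.fat_shift D hD p.1 p.2.1 p.2.2.1 p.2.2.2)
  obtain ⟨W, ρ, _, h⟩ := hfat 0 0 (by norm_num)
  refine ⟨W, ρ, fun m i hi j hj a ha t ht => ?_⟩
  have hm := h m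
  rw [pow_zero, one_mul, add_zero] at hm
  have ht' : t < 2 ^ (2 * n) * 3 ^ n :=
    lt_of_lt_of_le ht (Nat.mul_le_mul (Nat.pow_le_pow_right (by norm_num) ha)
      (Nat.pow_le_pow_right (by norm_num) hj))
  exact hm (j, a, t, i) (by
    simp only [Finset.mem_product, Finset.mem_range]
    exact ⟨by omega, by omega, ht', by omega⟩)

theorem transfer' (S : Set ℕ) (hS : ∀ n ∈ S, g n ∈ S) (n x y : ℕ)
    (hx : Good (Entry S) n x) (hy : Good (Entry S) n y)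
    (hxy : ∀ w r, r < 2 ^ w → (2 ^ w * x + r ∈ S ↔ 2 ^ w * y + r ∈ S)) (t : ℕ)
    (ht : t < 3 ^ n) : (3 ^ n * x + t ∈ S ↔ 3 ^ n * y + t ∈ S) := by
  have h := GoodAux.transfer_aux S hS n x y hx hy hxy n le_rfl 0 (Nat.zero_le _) t
    (by rw [pow_zero, one_mul]; exact ht)
  rw [pow_zero, one_mul] at h
  exact h

theorem transfer (S : Set ℕ) (hS : ∀ n ∈ S, g n ∈ S) (n x y : ℕ)
    (hx : Good (Entry S) n x) (hy : Good (Entry S) n y) (hxy : Eqv S x y) (t : ℕ)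
    (ht : t < 3 ^ n) : (3 ^ n * x + t ∈ S ↔ 3 ^ n * y + t ∈ S) :=
  transfer' S hS n x y hx hy (fun w r hr => hxy w r (by
    have : 2 ^ (w + 1) = 2 * 2 ^ w := by rw [pow_succ]; ring
    omega)) t ht

end ConwayAuto
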