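import Pool.Agent.Lib.ConwayAuto.Defs
import Pool.Agent.Lib.ConwayAuto.DensePow

/-!
Base 3: if an invariant set `S` contains the windows `[3^j x, 3^j (x+1))` for all large `j`, then
every class mod `3^K` contains a class whose elements (except possibly the first) are all in `S`.

Scales: `m / 3^L` for a fixed power of `3`.  STEP: one refinement makes a class good near a given
scale `A`.  Refinements do not destroy this (`persist`), and finitely many scales suffice.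
-/

namespace ConwayAuto

namespace Kill3

/-- the class `(K, t)` is good at all scales in `(α, β)`, for every `β < B` -/
def GG (S : Set ℕ) (K t : ℕ) (α B : ℝ) : Prop :=
  ∀ β : ℝ, β < B → ∃ L₀ : ℕ, ∀ L ≥ L₀, ∀ m : ℕ, α * 3 ^ L < m → (m : ℝ) < β * 3 ^ L →
    3 ^ K * m + t ∈ S

theorem persist {S : Set ℕ} {K t : ℕ} {α B : ℝ} (h : GG S K t α B) (k c : ℕ) (hc : c < 3 ^ k) :
    GG S (K + k) (3 ^ K * c + t) α B := by
  intro β hβ
  obtain ⟨β', h1, h2⟩ := exists_between hβ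
  obtain ⟨L₀, hL₀⟩ := h β' h2
  obtain ⟨L₁, hL₁⟩ := pow_unbounded_of_one_lt (1 / (β' - β)) (by norm_num : (1:ℝ) < 3)
  refine ⟨max L₀ L₁, fun L hL m hm1 hm2 => ?_⟩
  have e : 3 ^ (K + k) * m + (3 ^ K * c + t) = 3 ^ K * (3 ^ k * m + c) + t := by
    rw [pow_add]; ring
  rw [e]
  have hd : 0 < β' - β := sub_pos.2 h1
  have hk : (0:ℝ) < 3 ^ k := by positivity
  have hL1 : L₁ ≤ L := (le_max_right _ _).trans hL
  have h3 : (3:ℝ) ^ L₁ ≤ 3 ^ L := pow_le_pow_right₀ (by norm_num) hL1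
  have h4 : 1 ≤ (β' - β) * 3 ^ L := by
    have h5 : 1 / (β' - β) ≤ 3 ^ L := hL₁.le.trans h3
    rw [div_le_iff₀ hd] at h5
    linarith
  have hc' : (c:ℝ) < 3 ^ k := by exact_mod_cast hc
  have hL0 : L₀ ≤ L := (le_max_left _ _).trans hL
  apply hL₀ (L + k) (by omega) (3 ^ k * m + c)
  · push_cast
    rw [pow_add]
    have h6 : (0:ℝ) ≤ c := by positivity
    have h7 := mul_lt_mul_of_pos_right hm1 hk
    nlinarith
  · push_cast
    rw [pow_add]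
    have h6 : (3:ℝ) ^ k * m + c < 3 ^ k * (m + 1) := by nlinarith
    have h7 : (3:ℝ) ^ k * (m + 1) ≤ 3 ^ k * (β' * 3 ^ L) :=
      mul_le_mul_of_nonneg_left (by nlinarith) hk.le
    calc (3:ℝ) ^ k * m + c < 3 ^ k * (β' * 3 ^ L) := h6.trans_le h7
      _ = β' * (3 ^ L * 3 ^ k) := by ring

theorem exists_c (w r u : ℕ) : ∃ c d : ℕ, c < 3 ^ u ∧ 2 ^ w * c + r = 3 ^ u * d := by
  have hco : IsCoprime ((2:ℤ) ^ w) ((3:ℤ) ^ u) :=
    IsCoprime.pow (Int.isCoprime_iff_gcd_eq_one.2 (by norm_num))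
  obtain ⟨a, b, hab⟩ := hco
  have h3 : (0:ℤ) < 3 ^ u := by positivity
  set c : ℤ := (-(r:ℤ) * a) % 3 ^ u with hc
  have hc0 : 0 ≤ c := Int.emod_nonneg _ h3.ne'
  have hc1 : c < 3 ^ u := Int.emod_lt_of_pos _ h3
  have hcd : c = -(r:ℤ) * a - 3 ^ u * ((-(r:ℤ) * a) / 3 ^ u) := by rw [hc, Int.emod_def]
  obtain ⟨d, hd⟩ : (3:ℤ) ^ u ∣ 2 ^ w * c + r := by
    refine ⟨r * b - 2 ^ w * ((-(r:ℤ) * a) / 3 ^ u), ?_⟩
    rw [hcd]
    linear_combination (-(r:ℤ)) * hab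
  have hd0 : 0 ≤ d := by
    have h4 : (0:ℤ) ≤ 3 ^ u * d := by rw [← hd]; positivity
    exact nonneg_of_mul_nonneg_right h4 h3
  clear_value c
  lift c to ℕ using hc0
  lift d to ℕ using hd0
  exact ⟨c, d, by exact_mod_cast hc1, by exact_mod_cast hd⟩

theorem g_pow (k Q : ℕ) : g^[k] (2 ^ k * Q) = 3 ^ k * Q := by
  induction k generalizing Q with
  | zero => simp
  | succ k ih =>
    have e : 2 ^ (k + 1) * Q = 2 * (2 ^ k * Q) := by rw [pow_succ]; ring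
    rw [Function.iterate_succ_apply, e, g_even]
    have e2 : 3 * (2 ^ k * Q) = 2 ^ k * (3 * Q) := by ring
    rw [e2, ih, pow_succ]
    ring

theorem mem_iter {S : Set ℕ} (hS : ∀ n ∈ S, g n ∈ S) (k n : ℕ) (hn : n ∈ S) : g^[k] n ∈ S := by
  induction k with
  | zero => exact hn
  | succ k ih => rw [Function.iterate_succ_apply']; exact hS _ ih

/-- the relative width of the scale windows -/
noncomputable def eta (x : ℕ) : ℝ := 1 / (8 * ((x:ℝ) + 1))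

theorem eta_pos (x : ℕ) : 0 < eta x := by unfold eta; positivity

theorem eta_le (x : ℕ) : eta x ≤ 1 / 8 := by
  unfold eta
  rw [div_le_div_iff₀ (by positivity) (by norm_num)]
  have : (0:ℝ) ≤ x := by positivity
  linarith

theorem eta_mul (x : ℕ) : ((x:ℝ) + 1) * eta x = 1 / 8 := by
  unfold eta
  have : (x:ℝ) + 1 ≠ 0 := by positivity
  field_simp

theorem step {S : Set ℕ} (hS : ∀ n ∈ S, g n ∈ S) (x i : ℕ)
    (hZ : ∀ j ≥ i, ∀ z, 3 ^ j * x ≤ z → z < 3 ^ j * (x + 1) → z ∈ S) (K t : ℕ) (ht : t < 3 ^ K)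
    (A : ℝ) (hA : 0 < A) :
    ∃ k c : ℕ, c < 3 ^ k ∧
      GG S (K + k) (3 ^ K * c + t) (A * (1 - eta x)) (A * (1 + eta x)) := by
  obtain ⟨w, r, -, -, -, hcyl⟩ := cyl K t ht
  have hx0 : (0:ℝ) ≤ x := by positivity
  have hw : (0:ℝ) < 2 ^ w := by positivity
  have hη := eta_pos x
  have hη8 := eta_le x
  have hηm := eta_mul x
  obtain ⟨u, v, huv1, huv2⟩ := dense_two_third (((x:ℝ) + 1 / 4) / (2 ^ w * A))
    (((x:ℝ) + 3 / 4) / (2 ^ w * A)) (by positivity)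
    (div_lt_div_of_pos_right (by linarith) (by positivity))
  have hv : (0:ℝ) < 3 ^ v := by positivity
  have hu : (0:ℝ) < 2 ^ u := by positivity
  rw [div_lt_div_iff₀ (by positivity) hv] at huv1
  rw [div_lt_div_iff₀ hv (by positivity)] at huv2
  set T : ℝ := 2 ^ u * 2 ^ w with hT
  have hT0 : 0 < T := by positivity
  have hTA1 : ((x:ℝ) + 1 / 4) * 3 ^ v < T * A := by rw [hT]; linarith
  have hTA2 : T * A < ((x:ℝ) + 3 / 4) * 3 ^ v := by rw [hT]; linarith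
  obtain ⟨c, d, hc, hcd⟩ := exists_c w r u
  refine ⟨u, c, hc, ?_⟩
  intro β hβ
  obtain ⟨L₁, hL₁⟩ := pow_unbounded_of_one_lt (8 * 2 ^ u * (d:ℝ)) (by norm_num : (1:ℝ) < 3)
  refine ⟨max i L₁, fun L hL m hm1 hm2 => ?_⟩
  have hLi : i ≤ L := (le_max_left _ _).trans hL
  have hL1 : L₁ ≤ L := (le_max_right _ _).trans hL
  have hP : (0:ℝ) < 3 ^ L := by positivity
  have hd : 8 * 2 ^ u * (d:ℝ) < 3 ^ L :=
    hL₁.trans_le (pow_le_pow_right₀ (by norm_num) hL1)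
  -- the element of the window
  have e : 3 ^ (K + u) * m + (3 ^ K * c + t) = 3 ^ K * (3 ^ u * m + c) + t := by
    rw [pow_add]; ring
  have e2 : 3 ^ K * (3 ^ u * m + c) + t = g^[K] (g^[u] (2 ^ u * (2 ^ w * m + d))) := by
    rw [g_pow, ← hcyl]
    congr 1
    calc 2 ^ w * (3 ^ u * m + c) + r = 3 ^ u * (2 ^ w * m) + (2 ^ w * c + r) := by ring
      _ = 3 ^ u * (2 ^ w * m + d) := by rw [hcd]; ring
  rw [e, e2]
  apply mem_iter hS
  apply mem_iter hS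
  have hPv : (3:ℝ) ^ (L + v) = 3 ^ L * 3 ^ v := pow_add _ _ _
  have hv1 : (1:ℝ) ≤ 3 ^ v := one_le_pow₀ (by norm_num)
  have hTm1 : T * (A * (1 - eta x) * 3 ^ L) < T * m := mul_lt_mul_of_pos_left hm1 hT0
  have hTm2 : T * m < T * (A * (1 + eta x) * 3 ^ L) := by
    apply mul_lt_mul_of_pos_left _ hT0
    exact hm2.trans (mul_lt_mul_of_pos_right hβ hP)
  have hQ : (0:ℝ) < 3 ^ L * 3 ^ v := by positivity
  apply hZ (L + v) (by omega)
  · have h1 : ((3:ℝ) ^ L * 3 ^ v) * x ≤ T * m := by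
      have h2 : ((x:ℝ) + 1 / 4) * 3 ^ v * ((1 - eta x) * 3 ^ L) ≤ T * A * ((1 - eta x) * 3 ^ L) := by
        apply mul_le_mul_of_nonneg_right hTA1.le
        apply mul_nonneg (by linarith) hP.le
      have h3 : (x:ℝ) ≤ ((x:ℝ) + 1 / 4) * (1 - eta x) := by nlinarith
      have h4 : ((3:ℝ) ^ L * 3 ^ v) * x ≤ ((3:ℝ) ^ L * 3 ^ v) * (((x:ℝ) + 1 / 4) * (1 - eta x)) :=
        mul_le_mul_of_nonneg_left h3 hQ.le
      calc ((3:ℝ) ^ L * 3 ^ v) * x ≤ ((3:ℝ) ^ L * 3 ^ v) * (((x:ℝ) + 1 / 4) * (1 - eta x)) := h4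
        _ = ((x:ℝ) + 1 / 4) * 3 ^ v * ((1 - eta x) * 3 ^ L) := by ring
        _ ≤ T * A * ((1 - eta x) * 3 ^ L) := h2
        _ = T * (A * (1 - eta x) * 3 ^ L) := by ring
        _ ≤ T * m := hTm1.le
    have h5 : ((3 ^ (L + v) * x : ℕ) : ℝ) ≤ ((2 ^ u * (2 ^ w * m + d) : ℕ) : ℝ) := by
      push_cast
      rw [hPv]
      have h6 : (0:ℝ) ≤ 2 ^ u * d := by positivity
      calc (3:ℝ) ^ L * 3 ^ v * x ≤ T * m := h1
        _ ≤ 2 ^ u * (2 ^ w * m + d) := by rw [hT]; linarith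
    exact_mod_cast h5
  · have h1 : T * m < ((3:ℝ) ^ L * 3 ^ v) * ((x:ℝ) + 7 / 8) := by
      have h2 : T * A * ((1 + eta x) * 3 ^ L) ≤ ((x:ℝ) + 3 / 4) * 3 ^ v * ((1 + eta x) * 3 ^ L) := by
        apply mul_le_mul_of_nonneg_right hTA2.le
        positivity
      have h3 : ((x:ℝ) + 3 / 4) * (1 + eta x) ≤ (x:ℝ) + 7 / 8 := by nlinarith
      have h4 : ((3:ℝ) ^ L * 3 ^ v) * (((x:ℝ) + 3 / 4) * (1 + eta x)) ≤
          ((3:ℝ) ^ L * 3 ^ v) * ((x:ℝ) + 7 / 8) := mul_le_mul_of_nonneg_left h3 hQ.le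
      calc T * m < T * (A * (1 + eta x) * 3 ^ L) := hTm2
        _ = T * A * ((1 + eta x) * 3 ^ L) := by ring
        _ ≤ ((x:ℝ) + 3 / 4) * 3 ^ v * ((1 + eta x) * 3 ^ L) := h2
        _ = ((3:ℝ) ^ L * 3 ^ v) * (((x:ℝ) + 3 / 4) * (1 + eta x)) := by ring
        _ ≤ _ := h4
    have h5 : ((2 ^ u * (2 ^ w * m + d) : ℕ) : ℝ) < ((3 ^ (L + v) * (x + 1) : ℕ) : ℝ) := by
      push_cast
      rw [hPv]
      have h6 : (3:ℝ) ^ L ≤ 3 ^ L * 3 ^ v := le_mul_of_one_le_right hP.le hv1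
      have h7 : 2 ^ u * (d:ℝ) < (3 ^ L * 3 ^ v) * (1 / 8) := by linarith
      calc 2 ^ u * (2 ^ w * (m:ℝ) + d) = T * m + 2 ^ u * d := by rw [hT]; ring
        _ < (3:ℝ) ^ L * 3 ^ v * ((x:ℝ) + 7 / 8) + (3 ^ L * 3 ^ v) * (1 / 8) := add_lt_add h1 h7
        _ = (3:ℝ) ^ L * 3 ^ v * (x + 1) := by ring
    exact_mod_cast h5

theorem cover {S : Set ℕ} (hS : ∀ n ∈ S, g n ∈ S) (x i : ℕ)
    (hZ : ∀ j ≥ i, ∀ z, 3 ^ j * x ≤ z → z < 3 ^ j * (x + 1) → z ∈ S) (K t : ℕ) (ht : t < 3 ^ K)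
    (N : ℕ) :
    ∃ k c : ℕ, c < 3 ^ k ∧ ∀ s < N, GG S (K + k) (3 ^ K * c + t)
      ((1 + s * (eta x / 2)) * (1 - eta x)) ((1 + s * (eta x / 2)) * (1 + eta x)) := by
  induction N with
  | zero => exact ⟨0, 0, by norm_num, fun s hs => absurd hs (by omega)⟩
  | succ N ih =>
    obtain ⟨k₁, c₁, hc₁, h₁⟩ := ih
    have ht₁ : 3 ^ K * c₁ + t < 3 ^ (K + k₁) := by
      have h2 : 3 ^ K * (c₁ + 1) ≤ 3 ^ K * 3 ^ k₁ := Nat.mul_le_mul_left _ hc₁
      rw [pow_add]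
      nlinarith
    have hη := eta_pos x
    obtain ⟨k₂, c₂, hc₂, h₂⟩ := step hS x i hZ (K + k₁) (3 ^ K * c₁ + t) ht₁
      (1 + N * (eta x / 2)) (by positivity)
    have e1 : K + (k₁ + k₂) = K + k₁ + k₂ := by ring
    have e2 : 3 ^ K * (3 ^ k₁ * c₂ + c₁) + t = 3 ^ (K + k₁) * c₂ + (3 ^ K * c₁ + t) := by
      rw [pow_add]; ring
    refine ⟨k₁ + k₂, 3 ^ k₁ * c₂ + c₁, ?_, fun s hs => ?_⟩
    · have h3 : 3 ^ k₁ * (c₂ + 1) ≤ 3 ^ k₁ * 3 ^ k₂ := Nat.mul_le_mul_left _ hc₂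
      rw [pow_add]
      nlinarith
    · rw [e1, e2]
      rcases Nat.lt_succ_iff_lt_or_eq.1 hs with h | h
      · exact persist (h₁ s h) k₂ c₂ hc₂
      · rw [h]
        exact h₂

end Kill3

open Kill3

theorem kill3 (S : Set ℕ) (hS : ∀ n ∈ S, g n ∈ S) (x i : ℕ) (hx : 0 < x)
    (hZ : ∀ j ≥ i, ∀ z, 3 ^ j * x ≤ z → z < 3 ^ j * (x + 1) → z ∈ S) (K t : ℕ) (ht : t < 3 ^ K) :
    ∃ K' t' : ℕ, t' < 3 ^ K' ∧ ∀ m ≥ 1, 3 ^ K * (3 ^ K' * m + t') + t ∈ S := by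
  have _ := hx
  have hη := eta_pos x
  obtain ⟨N, hN⟩ := exists_nat_gt (2 / (eta x / 2))
  obtain ⟨k, c, hc, h⟩ := cover hS x i hZ K t ht N
  have h1 : ∀ s < N, ∃ L₀ : ℕ, ∀ L ≥ L₀, ∀ m : ℕ,
      ((1 + s * (eta x / 2)) * (1 - eta x)) * 3 ^ L < m →
      (m : ℝ) < (1 + s * (eta x / 2) + eta x / 2) * 3 ^ L →
      3 ^ (K + k) * m + (3 ^ K * c + t) ∈ S := by
    intro s hs
    apply h s hs
    have h2 : (0:ℝ) ≤ s * (eta x / 2) := by positivity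
    nlinarith
  choose! f hf using h1
  set L₀ : ℕ := (Finset.range N).sup f with hL₀
  have hfL : ∀ s < N, f s ≤ L₀ := fun s hs => Finset.le_sup (f := f) (Finset.mem_range.2 hs)
  have key : ∀ m : ℕ, 3 ^ L₀ ≤ m → 3 ^ (K + k) * m + (3 ^ K * c + t) ∈ S := by
    intro m hm
    have hm0 : m ≠ 0 := by
      have : 0 < 3 ^ L₀ := by positivity
      omega
    set L : ℕ := Nat.log 3 m with hL
    have hL1 : L₀ ≤ L := Nat.le_log_of_pow_le (by norm_num) hm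
    have hLm : 3 ^ L ≤ m := Nat.pow_log_le_self 3 hm0
    have hLm2 : m < 3 ^ (L + 1) := Nat.lt_pow_succ_log_self (by norm_num) m
    have hP : (0:ℝ) < 3 ^ L := by positivity
    have hLm' : (3:ℝ) ^ L ≤ m := by exact_mod_cast hLm
    have hLm2' : (m:ℝ) < 3 * 3 ^ L := by
      have : (m:ℝ) < 3 ^ (L + 1) := by exact_mod_cast hLm2
      rw [pow_succ] at this
      linarith
    set y : ℝ := (m:ℝ) / 3 ^ L with hy
    have hy1 : 1 ≤ y := by rw [hy, le_div_iff₀ hP]; linarith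
    have hy3 : y < 3 := by rw [hy, div_lt_iff₀ hP]; exact hLm2'
    have hη2 : 0 < eta x / 2 := by linarith
    set s : ℕ := ⌊(y - 1) / (eta x / 2)⌋₊ with hs
    have hs0 : 0 ≤ (y - 1) / (eta x / 2) := div_nonneg (by linarith) hη2.le
    have hs1 : (s:ℝ) ≤ (y - 1) / (eta x / 2) := Nat.floor_le hs0
    have hs2 : (y - 1) / (eta x / 2) < s + 1 := Nat.lt_floor_add_one _
    have hsN : s < N := by
      have h3 : (y - 1) / (eta x / 2) < 2 / (eta x / 2) :=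
        div_lt_div_of_pos_right (by linarith) hη2
      have h4 : (s:ℝ) < N := by linarith
      exact_mod_cast h4
    rw [le_div_iff₀ hη2] at hs1
    rw [div_lt_iff₀ hη2] at hs2
    have hmy : (m:ℝ) = y * 3 ^ L := by rw [hy]; field_simp
    apply hf s hsN L ((hfL s hsN).trans hL1) m
    · rw [hmy]
      apply mul_lt_mul_of_pos_right _ hP
      have h5 : (0:ℝ) ≤ s * (eta x / 2) := by positivity
      nlinarith
    · rw [hmy]
      apply mul_lt_mul_of_pos_right _ hP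
      linarith
  refine ⟨k + L₀, c, ?_, fun m hm => ?_⟩
  · exact hc.trans_le (Nat.pow_le_pow_right (by norm_num) (by omega))
  · have h2 := key (3 ^ L₀ * m) (Nat.le_mul_of_pos_right _ hm)
    have e : 3 ^ K * (3 ^ (k + L₀) * m + c) + t = 3 ^ (K + k) * (3 ^ L₀ * m) + (3 ^ K * c + t) := by
      rw [pow_add, pow_add]; ring
    rw [e]
    exact h2

end ConwayAuto
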