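import Pool.Agent.Lib.ConwayAuto.Good

/-!
A local period of an invariant 2-automatic set in the middle of a binary block.
-/

namespace ConwayAuto

namespace Mid

theorem pigeon {ι : Type} [Finite ι] (c : ℕ → ι) (x y : ℕ) :
    ∃ i i' : ℕ, i < i' ∧ i' ≤ Nat.card (ι × ι) ∧ c (x + i) = c (x + i') ∧
      c (y + i) = c (y + i') := by
  classical
  have : Fintype ι := Fintype.ofFinite ι
  have hcard : Fintype.card (ι × ι) < Fintype.card (Fin (Nat.card (ι × ι) + 1)) := by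
    rw [Fintype.card_fin, Nat.card_eq_fintype_card]
    exact Nat.lt_succ_self _
  obtain ⟨i, j, hij, he⟩ := Fintype.exists_ne_map_eq_of_card_lt
    (fun i : Fin (Nat.card (ι × ι) + 1) => (c (x + i.1), c (y + i.1))) hcard
  have h1 := congrArg Prod.fst he
  have h2 := congrArg Prod.snd he
  have hne : i.1 ≠ j.1 := fun h => hij (Fin.ext h)
  rcases lt_or_gt_of_ne hne with h | h
  · exact ⟨i.1, j.1, h, Nat.le_of_lt_succ j.2, h1, h2⟩
  · exact ⟨j.1, i.1, h, Nat.le_of_lt_succ i.2, h1.symm, h2.symm⟩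

theorem eqv_one {S : Set ℕ} {x y : ℕ} (h : Eqv S x y) (w r : ℕ) (hr : r < 2 ^ w) :
    2 ^ w * x + r ∈ S ↔ 2 ^ w * y + r ∈ S := by
  apply h
  have : 2 ^ (w + 1) = 2 * 2 ^ w := by rw [pow_succ]; ring
  omega

theorem eqv_succ {S : Set ℕ} {x y : ℕ} (h : Eqv S x y) (w r : ℕ) (hr : r < 2 ^ w) :
    2 ^ w * (x + 1) + r ∈ S ↔ 2 ^ w * (y + 1) + r ∈ S := by
  have e : ∀ z : ℕ, 2 ^ w * (z + 1) + r = 2 ^ w * z + (2 ^ w + r) := fun z => by ring
  rw [e, e]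
  apply h
  have : 2 ^ (w + 1) = 2 * 2 ^ w := by rw [pow_succ]; ring
  omega

end Mid

/-- **A local period.** If `3 ^ n` is a little larger than `2 ^ m` and the blocks above `y`, ...,
`y + C + 1` are not entered, then `S` has a period at most `C * h` on a quarter of a block. -/
theorem mid_periodic (S : Set ℕ) (hA : TwoAutomatic S) (hS : ∀ n ∈ S, g n ∈ S) :
    ∃ C : ℕ, ∀ m n h : ℕ, 2 ≤ m → 3 ^ n = 2 ^ m + h → 0 < h → C * h ≤ 2 ^ (m - 2) →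
      ∀ y : ℕ, (∀ i ≤ C + 1, Good (Entry S) n (y + i)) →
        ∃ X p : ℕ, 0 < p ∧ p ≤ C * h ∧ 3 ^ n * y / 2 ^ m < X ∧ X ≤ 3 ^ n * y / 2 ^ m + C + 1 ∧
          ∀ z, 2 ^ m * X + 2 ^ (m - 2) ≤ z → z < 2 ^ m * X + 2 ^ (m - 1) →
            (z ∈ S ↔ z + p ∈ S) := by
  obtain ⟨ι, hι, c, hc⟩ := hA.coloring
  have := hι
  refine ⟨Nat.card (ι × ι), fun m n h hm hn hh hC y hy => ?_⟩
  set C := Nat.card (ι × ι) with hCdef
  set x0 := 3 ^ n * y / 2 ^ m with hx0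
  obtain ⟨i, i', hii, hi', e1, e2⟩ := Mid.pigeon c x0 y
  rw [hc] at e1 e2
  obtain ⟨A, hA1, hA2, hA3⟩ : ∃ A, 2 ^ (m - 2) = A ∧ 2 ^ (m - 1) = 2 * A ∧ 2 ^ m = 4 * A := by
    refine ⟨2 ^ (m - 2), rfl, ?_, ?_⟩
    · have : m - 1 = (m - 2) + 1 := by omega
      rw [this, pow_succ]; ring
    · have : m = (m - 2) + 2 := by omega
      conv_lhs => rw [this]
      rw [pow_add]; ring
  obtain ⟨d, rfl⟩ : ∃ d, i' = i + d := ⟨i' - i, by omega⟩
  have hd : 0 < d := by omega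
  have hdC : d ≤ C := by omega
  have hiC : i ≤ C := by omega
  have hlow : 2 ^ m * x0 ≤ 3 ^ n * y := Nat.mul_div_le _ _
  have hupp : 3 ^ n * y < 2 ^ m * (x0 + 1) := by
    have := Nat.lt_mul_div_succ (3 ^ n * y) (show 0 < 2 ^ m by positivity)
    exact this
  refine ⟨x0 + (i + d) + 1, d * h, Nat.mul_pos hd hh, Nat.mul_le_mul_right _ hdC, by omega,
    by omega, fun z hz1 hz2 => ?_⟩
  rw [hA1] at hz1 hC
  rw [hA2] at hz2
  have hih : i * h ≤ A := le_trans (Nat.mul_le_mul_right _ hiC) hC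
  -- `z` and `z0 = z - 2 ^ m * d`
  obtain ⟨r, hr⟩ : ∃ r, z = 2 ^ m * (x0 + (i + d)) + r := by
    refine ⟨z - 2 ^ m * (x0 + (i + d)), ?_⟩
    have : 2 ^ m * (x0 + (i + d)) ≤ 2 ^ m * (x0 + (i + d) + 1) := Nat.mul_le_mul_left _ (by omega)
    omega
  have hex : 2 ^ m * (x0 + (i + d) + 1) = 2 ^ m * (x0 + (i + d)) + 2 ^ m := by ring
  have hr1 : 2 ^ m + A ≤ r := by omega
  have hr2 : r < 2 ^ m + 2 * A := by omega
  have key1 : 2 ^ m * (x0 + i) + r ∈ S ↔ z ∈ S := by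
    rw [hr]
    apply e1
    have : 2 ^ (m + 1) = 2 * 2 ^ m := by rw [pow_succ]; ring
    rw [this, hA3]
    rw [hA3] at hr2
    omega
  rw [← key1]
  have hni : 3 ^ n * (y + i) = 3 ^ n * y + 2 ^ m * i + i * h := by rw [hn]; ring
  have hup1 : 2 ^ m * (x0 + 1) = 2 ^ m * x0 + 2 ^ m := by ring
  have hxi : 2 ^ m * (x0 + i) = 2 ^ m * x0 + 2 ^ m * i := by ring
  have hge : 3 ^ n * (y + i) ≤ 2 ^ m * (x0 + i) + r := by
    rw [hni, hxi]
    omega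
  have hlt : 2 ^ m * (x0 + i) + r < 3 ^ n * (y + i) + 2 * 3 ^ n := by
    have hnn : 2 * 3 ^ n = 2 * 2 ^ m + 2 * h := by rw [hn]; ring
    rw [hnn, hni, hxi]
    omega
  have hzp : z + d * h = 2 ^ m * (x0 + i) + r + 3 ^ n * d := by
    rw [hr, hn]; ring
  rw [hzp]
  obtain ⟨t, ht⟩ : ∃ t, 2 ^ m * (x0 + i) + r = 3 ^ n * (y + i) + t := ⟨_, (Nat.add_sub_of_le hge).symm⟩
  rw [ht] at hlt ⊢
  by_cases htn : t < 3 ^ n
  · have e3 : 3 ^ n * (y + i) + t + 3 ^ n * d = 3 ^ n * (y + (i + d)) + t := by ring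
    rw [e3]
    exact transfer' S hS n (y + i) (y + (i + d)) (hy i (by omega)) (hy (i + d) (by omega))
      (Mid.eqv_one e2) t htn
  · obtain ⟨t', rfl⟩ : ∃ t', t = 3 ^ n + t' := ⟨t - 3 ^ n, by omega⟩
    have e3 : 3 ^ n * (y + i) + (3 ^ n + t') = 3 ^ n * (y + i + 1) + t' := by ring
    have e4 : 3 ^ n * (y + i) + (3 ^ n + t') + 3 ^ n * d = 3 ^ n * (y + (i + d) + 1) + t' := by
      ring
    rw [e4, e3]
    refine transfer' S hS n (y + i + 1) (y + (i + d) + 1) (hy (i + 1) (by omega))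
      (hy (i + d + 1) (by omega)) (Mid.eqv_succ e2) t' (by omega)

end ConwayAuto
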