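import Pool.Agent.Lib.ConwayAuto.DefsB

/-!
# Automatic sets in base `b ^ k` are automatic in base `b`
-/

set_option autoImplicit false

namespace ConwayAuto

theorem automatic_of_pow (b k : ℕ) (hb : 0 < b) (hk : 1 ≤ k) (S : Set ℕ)
    (hA : AutomaticIn (b ^ k) S) : AutomaticIn b S := by
  unfold AutomaticIn at *
  set KK : Set (Set ℕ) :=
    {T : Set ℕ | ∃ w r : ℕ, r < (b ^ k) ^ w ∧ T = {m : ℕ | (b ^ k) ^ w * m + r ∈ S}} with hKK
  have hfin : ((fun q : Set ℕ × ℕ × ℕ => {m : ℕ | b ^ q.2.1 * m + q.2.2 ∈ q.1}) ''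
      (KK ×ˢ (Set.Iio k ×ˢ Set.Iio (b ^ k)))).Finite :=
    (hA.prod ((Set.finite_Iio k).prod (Set.finite_Iio (b ^ k)))).image _
  apply hfin.subset
  rintro T ⟨w, r, hr, rfl⟩
  have hbk : 0 < b ^ k := by positivity
  set q := w / k with hq
  set d := w % k with hd
  have hdk : d < k := Nat.mod_lt _ (by omega)
  have hw : w = k * q + d := (Nat.div_add_mod w k).symm
  set B := (b ^ k) ^ q with hB
  have hB0 : 0 < B := by positivity
  have hBw : b ^ w = B * b ^ d := by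
    rw [hw, pow_add, pow_mul]
  have hc : r / B < b ^ d := by
    rw [Nat.div_lt_iff_lt_mul hB0, mul_comm, ← hBw]
    exact hr
  have hdk' : b ^ d ≤ b ^ k := Nat.pow_le_pow_right hb hdk.le
  refine ⟨({m : ℕ | B * m + r % B ∈ S}, d, r / B), ⟨⟨q, r % B, Nat.mod_lt _ hB0, rfl⟩, hdk,
    lt_of_lt_of_le hc hdk'⟩, ?_⟩
  ext m
  simp only [Set.mem_ofPred_eq]
  have e : B * (b ^ d * m + r / B) + r % B = b ^ w * m + r := by
    rw [hBw, mul_add, ← mul_assoc, add_assoc, Nat.div_add_mod]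
  rw [e]

end ConwayAuto
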