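import Pool.Agent.Lib.ConwayAuto.Defs
import Pool.Agent.Lib.ConwayAuto.DensePow

/-!
An infinite 2-automatic set which is closed under `g` (or under `gi`) meets, for every `x > 0`,
one of the blocks `[2^j x, 2^j (x+1))`.
-/

namespace ConwayAuto

namespace RightDense

/-- the pumped sequence of digits -/
def seq (a v x0 : ℕ) : ℕ → ℕ
  | 0 => x0
  | l + 1 => 2 ^ a * seq a v x0 l + v

theorem seq_formula (a v x0 l : ℕ) :
    ((2 : ℤ) ^ a - 1) * (seq a v x0 l : ℤ) = (((2 : ℤ) ^ a - 1) * x0 + v) * 2 ^ (a * l) - v := by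
  induction l with
  | zero => simp [seq]
  | succ l ih =>
    have e : (2 : ℤ) ^ (a * (l + 1)) = 2 ^ (a * l) * 2 ^ a := by rw [← pow_add]; congr 1
    have e1 : ((seq a v x0 (l + 1) : ℕ) : ℤ) = 2 ^ a * (seq a v x0 l : ℤ) + v := by
      simp [seq]
    rw [e1, e]
    calc ((2 : ℤ) ^ a - 1) * (2 ^ a * (seq a v x0 l : ℤ) + v)
        = 2 ^ a * (((2 : ℤ) ^ a - 1) * (seq a v x0 l : ℤ)) + (2 ^ a - 1) * v := by ring
      _ = 2 ^ a * ((((2 : ℤ) ^ a - 1) * x0 + v) * 2 ^ (a * l) - v) + (2 ^ a - 1) * v := by rw [ih]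
      _ = _ := by ring

theorem pump (S : Set ℕ) (hA : TwoAutomatic S) (hinf : S.Infinite) :
    ∃ (a : ℕ) (B C : ℤ) (N : ℕ → ℕ), 1 ≤ a ∧ 0 < B ∧ (∀ l, N l ∈ S) ∧
      ∀ l, ((2 : ℤ) ^ a - 1) * (N l : ℤ) = B * 2 ^ (a * l) + C := by
  classical
  obtain ⟨ι, hι, c, hc⟩ := hA.coloring
  have := hι
  have := Fintype.ofFinite ι
  obtain ⟨n, hnS, hn⟩ := hinf.exists_gt (2 ^ (Fintype.card ι + 1))
  obtain ⟨p, q, hpq, hcol⟩ := Fintype.exists_ne_map_eq_of_card_lt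
    (fun i : Fin (Fintype.card ι + 1) => c (n / 2 ^ (i : ℕ))) (by simp)
  -- order the two indices
  have key : ∀ i i' : ℕ, i < i' → i' ≤ Fintype.card ι → c (n / 2 ^ i) = c (n / 2 ^ i') →
      ∃ (a : ℕ) (B C : ℤ) (N : ℕ → ℕ), 1 ≤ a ∧ 0 < B ∧ (∀ l, N l ∈ S) ∧
      ∀ l, ((2 : ℤ) ^ a - 1) * (N l : ℤ) = B * 2 ^ (a * l) + C := by
    intro i i' hii hi' hcc
    obtain ⟨a, rfl⟩ : ∃ a, i' = i + a := ⟨i' - i, by omega⟩
    have ha : 1 ≤ a := by omega
    set x0 := n / 2 ^ (i + a) with hx0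
    have hx0pos : 1 ≤ x0 := by
      rw [hx0, Nat.le_div_iff_mul_le (by positivity)]
      have : 2 ^ (i + a) ≤ 2 ^ (Fintype.card ι + 1) := Nat.pow_le_pow_right (by norm_num) (by omega)
      omega
    set v := (n / 2 ^ i) % 2 ^ a with hv
    have hvlt : v < 2 ^ a := Nat.mod_lt _ (by positivity)
    have hni : n / 2 ^ i = 2 ^ a * x0 + v := by
      have : x0 = (n / 2 ^ i) / 2 ^ a := by rw [hx0, pow_add, Nat.div_div_eq_div_mul]
      rw [this, hv]; exact (Nat.div_add_mod _ _).symm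
    set z := n % 2 ^ (i + a) with hz
    have hzlt : z < 2 ^ (i + a) := Nat.mod_lt _ (by positivity)
    have hn' : n = 2 ^ (i + a) * x0 + z := (Nat.div_add_mod _ _).symm
    have hE0 : Eqv S (2 ^ a * x0 + v) x0 := by
      rw [← hni]; exact (hc _ _).1 hcc
    have hE : ∀ l, Eqv S (seq a v x0 l) x0 := by
      intro l
      induction l with
      | zero => exact Eqv.refl _ _
      | succ l ih => exact (ih.desc hvlt).trans hE0
    refine ⟨a, 2 ^ (i + a) * (((2 : ℤ) ^ a - 1) * x0 + v),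
      ((2 : ℤ) ^ a - 1) * z - 2 ^ (i + a) * v, fun l => 2 ^ (i + a) * seq a v x0 l + z, ha, ?_, ?_, ?_⟩
    · have h1 : (2 : ℤ) ≤ 2 ^ a := by
        calc (2 : ℤ) = 2 ^ 1 := by norm_num
          _ ≤ 2 ^ a := pow_le_pow_right₀ (by norm_num) ha
      have h2 : (1 : ℤ) ≤ x0 := by exact_mod_cast hx0pos
      have h3 : (0 : ℤ) ≤ v := by positivity
      have h4 : 0 < ((2 : ℤ) ^ a - 1) * x0 + v := by nlinarith
      positivity
    · intro l
      have hzlt' : z < 2 ^ (i + a + 1) := by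
        rw [pow_succ]; omega
      have := ((hE l) (i + a) z hzlt').2
      apply this
      rw [← hn']; exact hnS
    · intro l
      have := seq_formula a v x0 l
      push_cast
      calc ((2 : ℤ) ^ a - 1) * (2 ^ (i + a) * (seq a v x0 l : ℤ) + z)
          = 2 ^ (i + a) * (((2 : ℤ) ^ a - 1) * (seq a v x0 l : ℤ)) + (2 ^ a - 1) * z := by ring
        _ = 2 ^ (i + a) * ((((2 : ℤ) ^ a - 1) * x0 + v) * 2 ^ (a * l) - v) + (2 ^ a - 1) * z := by
            rw [this]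
        _ = _ := by ring
  have hpq' : (p : ℕ) ≠ (q : ℕ) := fun h => hpq (Fin.ext h)
  rcases lt_or_gt_of_ne hpq' with h | h
  · exact key p q h (by have := q.2; omega) hcol
  · exact key q p h (by have := p.2; omega) hcol.symm

theorem close (S : Set ℕ) (x : ℕ) (θ c : ℝ) (u v : ℕ) (h1 : (x : ℝ) < θ * 2 ^ u / 2 ^ v)
    (h2 : θ * 2 ^ u / 2 ^ v < x + 1)
    (H : ∀ L : ℕ, ∃ b ≥ L, ∃ M ∈ S, (M : ℝ) = θ * 2 ^ b + c) :
    ∃ j r : ℕ, r < 2 ^ j ∧ 2 ^ j * x + r ∈ S := by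
  set δ := min (θ * 2 ^ u / 2 ^ v - x) (x + 1 - θ * 2 ^ u / 2 ^ v) with hδ
  have hδ0 : 0 < δ := lt_min (by linarith) (by linarith)
  have hδ1 : δ ≤ θ * 2 ^ u / 2 ^ v - x := min_le_left _ _
  have hδ2 : δ ≤ x + 1 - θ * 2 ^ u / 2 ^ v := min_le_right _ _
  obtain ⟨L, hL⟩ := pow_unbounded_of_one_lt (|c| / δ) (by norm_num : (1 : ℝ) < 2)
  obtain ⟨b, hb, M, hMS, hM⟩ := H (L + u)
  obtain ⟨d, rfl⟩ : ∃ d, b = L + u + d := ⟨b - (L + u), by omega⟩
  set j := L + d + v with hj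
  have hP : (2 : ℝ) ^ (L + u + d) = 2 ^ j * (2 ^ u / 2 ^ v) := by
    rw [hj, eq_comm]
    field_simp
    rw [← pow_add, ← pow_add]
    congr 1; omega
  have hPL : (2 : ℝ) ^ L ≤ 2 ^ j := pow_le_pow_right₀ (by norm_num) (by omega)
  have hc : |c| < 2 ^ j * δ := by
    rw [div_lt_iff₀ hδ0] at hL
    nlinarith
  have hMe : (M : ℝ) = 2 ^ j * (θ * 2 ^ u / 2 ^ v) + c := by
    rw [hM, hP]; ring
  have hpos : (0 : ℝ) < 2 ^ j := by positivity
  have hc1 := neg_abs_le c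
  have hc2 := le_abs_self c
  have hlow : (2 : ℝ) ^ j * x < M := by
    rw [hMe]
    have := mul_le_mul_of_nonneg_left hδ1 hpos.le
    nlinarith
  have hup : (M : ℝ) < 2 ^ j * (x + 1) := by
    rw [hMe]
    have := mul_le_mul_of_nonneg_left hδ2 hpos.le
    nlinarith
  have hlow' : 2 ^ j * x < M := by exact_mod_cast hlow
  have hup' : M < 2 ^ j * (x + 1) := by exact_mod_cast hup
  refine ⟨j, M - 2 ^ j * x, ?_, ?_⟩
  · have : 2 ^ j * (x + 1) = 2 ^ j * x + 2 ^ j := by ring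
    omega
  · have : 2 ^ j * x + (M - 2 ^ j * x) = M := by omega
    rw [this]; exact hMS

theorem iter_mem {S : Set ℕ} {f : ℕ → ℕ} (hS : ∀ n ∈ S, f n ∈ S) (k : ℕ) {n : ℕ} (hn : n ∈ S) :
    f^[k] n ∈ S := by
  induction k with
  | zero => exact hn
  | succ k ih => rw [Function.iterate_succ_apply']; exact hS _ ih

theorem gi_iter_g_iter (k n : ℕ) : gi^[k] (g^[k] n) = n :=
  (Function.LeftInverse.iterate gi_g k) n

end RightDense

open RightDense

theorem right_dense_fwd (S : Set ℕ) (hA : TwoAutomatic S) (hS : ∀ n ∈ S, g n ∈ S)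
    (hinf : S.Infinite) (x : ℕ) (hx : 0 < x) : ∃ j r : ℕ, r < 2 ^ j ∧ 2 ^ j * x + r ∈ S := by
  obtain ⟨a, B, C, N, ha, hB, hN, hform⟩ := pump S hA hinf
  have hD : (0 : ℝ) < (2 : ℝ) ^ a - 1 := by
    have : (2 : ℝ) ^ 1 ≤ 2 ^ a := pow_le_pow_right₀ (by norm_num) ha
    norm_num at this; linarith
  have hBr : (0 : ℝ) < (B : ℝ) := by exact_mod_cast hB
  have hxr : (0 : ℝ) < (x : ℝ) := by exact_mod_cast hx
  obtain ⟨k, v, hk1, hk2⟩ := dense_three_half (x * ((2 : ℝ) ^ a - 1) / B)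
    ((x + 1) * ((2 : ℝ) ^ a - 1) / B) (by positivity)
    (by rw [div_lt_div_iff_of_pos_right hBr]; nlinarith)
  obtain ⟨w, r, t, m, hw1, hw2, hr, ht, hn0, hcyl⟩ := cyl_of k (N (2 * k))
  have hmod : ∀ l, 2 * k ≤ l → N l = 2 ^ w * (N l / 2 ^ w) + r := by
    intro l hl
    have h1 : ((2 : ℤ) ^ a - 1) * ((N l : ℤ) - N (2 * k)) = B * (2 ^ (a * l) - 2 ^ (a * (2 * k))) := by
      have e1 := hform l
      have e2 := hform (2 * k)
      linear_combination e1 - e2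
    have h2 : (2 : ℤ) ^ w ∣ ((2 : ℤ) ^ a - 1) * ((N l : ℤ) - N (2 * k)) := by
      rw [h1]
      apply Dvd.dvd.mul_left
      apply dvd_sub
      · exact pow_dvd_pow _ (by nlinarith)
      · exact pow_dvd_pow _ (by nlinarith)
    have h3 : IsCoprime ((2 : ℤ) ^ w) ((2 : ℤ) ^ a - 1) := by
      apply IsCoprime.pow_left
      obtain ⟨a', rfl⟩ : ∃ a', a = a' + 1 := ⟨a - 1, by omega⟩
      exact ⟨2 ^ a', -1, by rw [pow_succ]; ring⟩
    have h4 : (2 : ℤ) ^ w ∣ ((N l : ℤ) - N (2 * k)) := h3.dvd_of_dvd_mul_left h2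
    have h5 : N l ≡ N (2 * k) [MOD 2 ^ w] := by
      apply Nat.ModEq.symm
      rw [Nat.modEq_iff_dvd]
      exact_mod_cast h4
    have h6 : N l % 2 ^ w = r := by
      rw [h5, hn0]
      rw [Nat.mul_add_mod, Nat.mod_eq_of_lt hr]
    conv_lhs => rw [← Nat.div_add_mod (N l) (2 ^ w)]
    rw [h6]
  refine close S x (3 ^ k * B / ((2 : ℝ) ^ a - 1))
    ((3 ^ k * (C / ((2 : ℝ) ^ a - 1) - r)) / 2 ^ w + t) 0 v ?_ ?_ ?_
  · rw [div_lt_iff₀ hBr, div_mul_eq_mul_div, lt_div_iff₀ (by positivity)] at hk1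
    rw [lt_div_iff₀ (by positivity), pow_zero, mul_one, lt_div_iff₀ hD]
    nlinarith
  · rw [lt_div_iff₀ hBr, div_mul_eq_mul_div, div_lt_iff₀ (by positivity)] at hk2
    rw [div_lt_iff₀ (by positivity), pow_zero, mul_one, div_lt_iff₀ hD]
    nlinarith
  · intro L
    have hal : w + L ≤ a * (2 * k + L) := by nlinarith
    obtain ⟨b, hb⟩ : ∃ b, a * (2 * k + L) = w + b := ⟨a * (2 * k + L) - w, by omega⟩
    refine ⟨b, by omega, g^[k] (N (2 * k + L)), iter_mem hS k (hN _), ?_⟩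
    have e1 := hmod (2 * k + L) (by omega)
    set q := N (2 * k + L) / 2 ^ w with hq
    have e2 : g^[k] (N (2 * k + L)) = 3 ^ k * q + t := by rw [e1]; exact hcyl q
    rw [e2]
    have e3 : ((2 : ℝ) ^ a - 1) * (2 ^ w * q + r) = B * (2 ^ w * 2 ^ b) + C := by
      have := hform (2 * k + L)
      rw [e1, hb, pow_add] at this
      have h := congrArg (fun z : ℤ => (z : ℝ)) this
      push_cast at h
      exact h
    have hDne : (2 : ℝ) ^ a - 1 ≠ 0 := hD.ne'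
    have hwne : (2 : ℝ) ^ w ≠ 0 := by positivity
    have e4 : (q : ℝ) = ((B * (2 ^ w * 2 ^ b) + C) / ((2 : ℝ) ^ a - 1) - r) / 2 ^ w := by
      rw [← e3]; field_simp; ring
    push_cast
    rw [e4]
    field_simp
    ring

theorem right_dense_bwd (S : Set ℕ) (hA : TwoAutomatic S) (hS : ∀ n ∈ S, gi n ∈ S)
    (hinf : S.Infinite) (x : ℕ) (hx : 0 < x) : ∃ j r : ℕ, r < 2 ^ j ∧ 2 ^ j * x + r ∈ S := by
  obtain ⟨a, B, C, N, ha, hB, hN, hform⟩ := pump S hA hinf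
  have hD : (0 : ℝ) < (2 : ℝ) ^ a - 1 := by
    have : (2 : ℝ) ^ 1 ≤ 2 ^ a := pow_le_pow_right₀ (by norm_num) ha
    norm_num at this; linarith
  have hBr : (0 : ℝ) < (B : ℝ) := by exact_mod_cast hB
  have hxr : (0 : ℝ) < (x : ℝ) := by exact_mod_cast hx
  obtain ⟨u, k, hk1, hk2⟩ := dense_two_third (x * ((2 : ℝ) ^ a - 1) / B)
    ((x + 1) * ((2 : ℝ) ^ a - 1) / B) (by positivity)
    (by rw [div_lt_div_iff_of_pos_right hBr]; nlinarith)
  have hDn : 2 ≤ 2 ^ a := by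
    calc 2 = 2 ^ 1 := by norm_num
      _ ≤ 2 ^ a := Nat.pow_le_pow_right (by norm_num) ha
  obtain ⟨w, r, hw1, hw2, hr, hcyl⟩ := cyl k (N 0 % 3 ^ k) (Nat.mod_lt _ (by positivity))
  set t := N 0 % 3 ^ k with ht
  -- the modulus
  set Q := (2 ^ a - 1) * 3 ^ k with hQ
  have hQpos : 0 < Q := by rw [hQ]; have : 0 < 2 ^ a - 1 := by omega
                           positivity
  have hcop : Nat.Coprime 2 Q := by
    rw [Nat.coprime_two_left, hQ]
    apply Odd.mul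
    · obtain ⟨a', rfl⟩ : ∃ a', a = a' + 1 := ⟨a - 1, by omega⟩
      refine ⟨2 ^ a' - 1, ?_⟩
      have : 1 ≤ 2 ^ a' := Nat.one_le_two_pow
      rw [pow_succ]; omega
    · exact Odd.pow (by decide)
  have hφ : 0 < Nat.totient Q := Nat.totient_pos.2 hQpos
  have hmod : ∀ l, N (Nat.totient Q * l) = 3 ^ k * (N (Nat.totient Q * l) / 3 ^ k) + t := by
    intro l
    have h1 : ((2 : ℤ) ^ a - 1) * ((N (Nat.totient Q * l) : ℤ) - N 0) =
        B * (2 ^ (a * (Nat.totient Q * l)) - 1) := by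
      have e1 := hform (Nat.totient Q * l)
      have e2 := hform 0
      rw [mul_zero, pow_zero] at e2
      linear_combination e1 - e2
    have h2 : (2 : ℕ) ^ (a * (Nat.totient Q * l)) ≡ 1 [MOD Q] := by
      have := (Nat.ModEq.pow_totient hcop).pow (a * l)
      rw [← pow_mul, one_pow] at this
      have e : a * (Nat.totient Q * l) = Nat.totient Q * (a * l) := by ring
      rw [e]; exact this
    have h3 : (Q : ℤ) ∣ (2 ^ (a * (Nat.totient Q * l)) - 1) := by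
      have := (Nat.modEq_iff_dvd.1 h2.symm)
      push_cast at this
      exact this
    have hQz : (Q : ℤ) = ((2 : ℤ) ^ a - 1) * 3 ^ k := by
      rw [hQ]; push_cast [Nat.cast_sub (by omega : 1 ≤ 2 ^ a)]; ring
    have h4 : ((2 : ℤ) ^ a - 1) * 3 ^ k ∣ ((2 : ℤ) ^ a - 1) * ((N (Nat.totient Q * l) : ℤ) - N 0) := by
      rw [h1, ← hQz]; exact Dvd.dvd.mul_left h3 _
    have hDz : (0 : ℤ) < (2 : ℤ) ^ a - 1 := by
      have : (2 : ℤ) ≤ 2 ^ a := by exact_mod_cast hDn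
      linarith
    have h5 : (3 : ℤ) ^ k ∣ ((N (Nat.totient Q * l) : ℤ) - N 0) :=
      (mul_dvd_mul_iff_left hDz.ne').1 h4
    have h6 : N (Nat.totient Q * l) ≡ N 0 [MOD 3 ^ k] := by
      apply Nat.ModEq.symm
      rw [Nat.modEq_iff_dvd]
      exact_mod_cast h5
    have h7 : N (Nat.totient Q * l) % 3 ^ k = t := h6
    conv_lhs => rw [← Nat.div_add_mod (N (Nat.totient Q * l)) (3 ^ k)]
    rw [h7]
  have hgi : ∀ m, gi^[k] (3 ^ k * m + t) = 2 ^ w * m + r := by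
    intro m
    rw [← hcyl m, gi_iter_g_iter]
  refine close S x (B / (((2 : ℝ) ^ a - 1) * 3 ^ k))
    (2 ^ w * (C / ((2 : ℝ) ^ a - 1) - t) / 3 ^ k + r) u 0 ?_ ?_ ?_
  · rw [div_lt_iff₀ hBr, div_mul_eq_mul_div, lt_div_iff₀ (by positivity)] at hk1
    rw [pow_zero, div_one, div_mul_eq_mul_div, lt_div_iff₀ (by positivity)]
    nlinarith
  · rw [lt_div_iff₀ hBr, div_mul_eq_mul_div, div_lt_iff₀ (by positivity)] at hk2
    rw [pow_zero, div_one, div_mul_eq_mul_div, div_lt_iff₀ (by positivity)]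
    nlinarith
  · intro L
    refine ⟨a * (Nat.totient Q * L) + w, ?_, gi^[k] (N (Nat.totient Q * L)),
      iter_mem hS k (hN _), ?_⟩
    · have : L ≤ Nat.totient Q * L := Nat.le_mul_of_pos_left _ hφ
      nlinarith
    have e1 := hmod L
    set q := N (Nat.totient Q * L) / 3 ^ k with hq
    have e2 : gi^[k] (N (Nat.totient Q * L)) = 2 ^ w * q + r := by rw [e1]; exact hgi q
    rw [e2]
    have e3 : ((2 : ℝ) ^ a - 1) * (3 ^ k * q + t) = B * 2 ^ (a * (Nat.totient Q * L)) + C := by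
      have := hform (Nat.totient Q * L)
      rw [e1] at this
      have h := congrArg (fun z : ℤ => (z : ℝ)) this
      push_cast at h
      exact h
    have hDne : (2 : ℝ) ^ a - 1 ≠ 0 := hD.ne'
    have h3ne : (3 : ℝ) ^ k ≠ 0 := by positivity
    have e4 : (q : ℝ) = ((B * 2 ^ (a * (Nat.totient Q * L)) + C) / ((2 : ℝ) ^ a - 1) - t) / 3 ^ k := by
      rw [← e3]; field_simp; ring
    push_cast
    rw [e4, pow_add]
    field_simp
    ring

end ConwayAuto
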