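import Pool.Agent.Lib.ConwayAuto.Defs3
import Pool.Agent.Lib.ConwayAuto.DensePow

/-!
An infinite 3-automatic set which is closed under `g` (or under `gi`) meets, for some `x₀ > 0`, the
blocks `[3^j x, 3^j (x+1))` of all descendants `x = 3^a x₀ + v`, `v < 3^a`, of `x₀`.
-/

namespace ConwayAuto

namespace SomeDense3

/-- the pumped sequence of digits -/
def seq (a v x0 : ℕ) : ℕ → ℕ
  | 0 => x0
  | l + 1 => 3 ^ a * seq a v x0 l + v

theorem seq_formula (a v x0 l : ℕ) :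
    ((3 : ℤ) ^ a - 1) * (seq a v x0 l : ℤ) = (((3 : ℤ) ^ a - 1) * x0 + v) * 3 ^ (a * l) - v := by
  induction l with
  | zero => simp [seq]
  | succ l ih =>
    have e : (3 : ℤ) ^ (a * (l + 1)) = 3 ^ (a * l) * 3 ^ a := by rw [← pow_add]; congr 1
    have e1 : ((seq a v x0 (l + 1) : ℕ) : ℤ) = 3 ^ a * (seq a v x0 l : ℤ) + v := by
      simp [seq]
    rw [e1, e]
    calc ((3 : ℤ) ^ a - 1) * (3 ^ a * (seq a v x0 l : ℤ) + v)
        = 3 ^ a * (((3 : ℤ) ^ a - 1) * (seq a v x0 l : ℤ)) + (3 ^ a - 1) * v := by ring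
      _ = 3 ^ a * ((((3 : ℤ) ^ a - 1) * x0 + v) * 3 ^ (a * l) - v) + (3 ^ a - 1) * v := by rw [ih]
      _ = _ := by ring

theorem pump (S : Set ℕ) (hA : ThreeAutomatic S) (hinf : S.Infinite) :
    ∃ (a : ℕ) (B C : ℤ) (N : ℕ → ℕ), 1 ≤ a ∧ 0 < B ∧ (∀ l, N l ∈ S) ∧
      ∀ l, ((3 : ℤ) ^ a - 1) * (N l : ℤ) = B * 3 ^ (a * l) + C := by
  classical
  obtain ⟨ι, hι, c, hc⟩ := hA.coloring
  have := hι
  have := Fintype.ofFinite ι
  obtain ⟨n, hnS, hn⟩ := hinf.exists_gt (3 ^ (Fintype.card ι + 1))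
  obtain ⟨p, q, hpq, hcol⟩ := Fintype.exists_ne_map_eq_of_card_lt
    (fun i : Fin (Fintype.card ι + 1) => c (n / 3 ^ (i : ℕ))) (by simp)
  have key : ∀ i i' : ℕ, i < i' → i' ≤ Fintype.card ι → c (n / 3 ^ i) = c (n / 3 ^ i') →
      ∃ (a : ℕ) (B C : ℤ) (N : ℕ → ℕ), 1 ≤ a ∧ 0 < B ∧ (∀ l, N l ∈ S) ∧
      ∀ l, ((3 : ℤ) ^ a - 1) * (N l : ℤ) = B * 3 ^ (a * l) + C := by
    intro i i' hii hi' hcc
    obtain ⟨a, rfl⟩ : ∃ a, i' = i + a := ⟨i' - i, by omega⟩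
    have ha : 1 ≤ a := by omega
    set x0 := n / 3 ^ (i + a) with hx0
    have hx0pos : 1 ≤ x0 := by
      rw [hx0, Nat.le_div_iff_mul_le (by positivity)]
      have : 3 ^ (i + a) ≤ 3 ^ (Fintype.card ι + 1) := Nat.pow_le_pow_right (by norm_num) (by omega)
      omega
    set v := (n / 3 ^ i) % 3 ^ a with hv
    have hvlt : v < 3 ^ a := Nat.mod_lt _ (by positivity)
    have hni : n / 3 ^ i = 3 ^ a * x0 + v := by
      have : x0 = (n / 3 ^ i) / 3 ^ a := by rw [hx0, pow_add, Nat.div_div_eq_div_mul]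
      rw [this, hv]; exact (Nat.div_add_mod _ _).symm
    set z := n % 3 ^ (i + a) with hz
    have hzlt : z < 3 ^ (i + a) := Nat.mod_lt _ (by positivity)
    have hn' : n = 3 ^ (i + a) * x0 + z := (Nat.div_add_mod _ _).symm
    have hE0 : Eqv3 S (3 ^ a * x0 + v) x0 := by
      rw [← hni]; exact (hc _ _).1 hcc
    have hE : ∀ l, Eqv3 S (seq a v x0 l) x0 := by
      intro l
      induction l with
      | zero => exact Eqv3.refl _ _
      | succ l ih => exact (ih.desc hvlt).trans hE0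
    refine ⟨a, 3 ^ (i + a) * (((3 : ℤ) ^ a - 1) * x0 + v),
      ((3 : ℤ) ^ a - 1) * z - 3 ^ (i + a) * v, fun l => 3 ^ (i + a) * seq a v x0 l + z, ha, ?_, ?_, ?_⟩
    · have h1 : (3 : ℤ) ≤ 3 ^ a := by
        calc (3 : ℤ) = 3 ^ 1 := by norm_num
          _ ≤ 3 ^ a := pow_le_pow_right₀ (by norm_num) ha
      have h2 : (1 : ℤ) ≤ x0 := by exact_mod_cast hx0pos
      have h3 : (0 : ℤ) ≤ v := by positivity
      have h4 : 0 < ((3 : ℤ) ^ a - 1) * x0 + v := by nlinarith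
      positivity
    · intro l
      have hzlt' : z < 2 * 3 ^ (i + a) := by omega
      have := ((hE l) (i + a) z hzlt').2
      apply this
      rw [← hn']; exact hnS
    · intro l
      have := seq_formula a v x0 l
      push_cast
      calc ((3 : ℤ) ^ a - 1) * (3 ^ (i + a) * (seq a v x0 l : ℤ) + z)
          = 3 ^ (i + a) * (((3 : ℤ) ^ a - 1) * (seq a v x0 l : ℤ)) + (3 ^ a - 1) * z := by ring
        _ = 3 ^ (i + a) * ((((3 : ℤ) ^ a - 1) * x0 + v) * 3 ^ (a * l) - v) + (3 ^ a - 1) * z := by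
            rw [this]
        _ = _ := by ring
  have hpq' : (p : ℕ) ≠ (q : ℕ) := fun h => hpq (Fin.ext h)
  rcases lt_or_gt_of_ne hpq' with h | h
  · exact key p q h (by have := q.2; omega) hcol
  · exact key q p h (by have := p.2; omega) hcol.symm

/-- `S` meets one of the blocks below `x` -/
def Hit (S : Set ℕ) (x : ℕ) : Prop := ∃ j r : ℕ, r < 3 ^ j ∧ 3 ^ j * x + r ∈ S

/-- the scale `θ` (modulo powers of 3) hits -/
def Hp (S : Set ℕ) (θ : ℝ) : Prop :=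
  ∀ x u v : ℕ, (x : ℝ) < θ * 3 ^ u / 3 ^ v → θ * 3 ^ u / 3 ^ v < x + 1 → Hit S x

theorem Hp.mul_pow {S : Set ℕ} {θ : ℝ} (h : Hp S θ) (K : ℕ) : Hp S (θ * 3 ^ K) := by
  intro x u v h1 h2
  have e : θ * 3 ^ K * 3 ^ u / 3 ^ v = θ * 3 ^ (K + u) / 3 ^ v := by rw [pow_add]; ring
  rw [e] at h1 h2
  exact h x (K + u) v h1 h2

theorem close (S : Set ℕ) (θ c : ℝ) (H : ∀ L : ℕ, ∃ b ≥ L, ∃ M ∈ S, (M : ℝ) = θ * 3 ^ b + c) :
    Hp S θ := by
  intro x u v h1 h2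
  set δ := min (θ * 3 ^ u / 3 ^ v - x) (x + 1 - θ * 3 ^ u / 3 ^ v) with hδ
  have hδ0 : 0 < δ := lt_min (by linarith) (by linarith)
  have hδ1 : δ ≤ θ * 3 ^ u / 3 ^ v - x := min_le_left _ _
  have hδ2 : δ ≤ x + 1 - θ * 3 ^ u / 3 ^ v := min_le_right _ _
  obtain ⟨L, hL⟩ := pow_unbounded_of_one_lt (|c| / δ) (by norm_num : (1 : ℝ) < 3)
  obtain ⟨b, hb, M, hMS, hM⟩ := H (L + u)
  obtain ⟨d, rfl⟩ : ∃ d, b = L + u + d := ⟨b - (L + u), by omega⟩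
  set j := L + d + v with hj
  have hP : (3 : ℝ) ^ (L + u + d) = 3 ^ j * (3 ^ u / 3 ^ v) := by
    rw [hj, eq_comm]
    field_simp
    rw [← pow_add, ← pow_add]
    congr 1; omega
  have hPL : (3 : ℝ) ^ L ≤ 3 ^ j := pow_le_pow_right₀ (by norm_num) (by omega)
  have hc : |c| < 3 ^ j * δ := by
    rw [div_lt_iff₀ hδ0] at hL
    nlinarith
  have hMe : (M : ℝ) = 3 ^ j * (θ * 3 ^ u / 3 ^ v) + c := by
    rw [hM, hP]; ring
  have hpos : (0 : ℝ) < 3 ^ j := by positivity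
  have hc1 := neg_abs_le c
  have hc2 := le_abs_self c
  have hlow : (3 : ℝ) ^ j * x < M := by
    rw [hMe]
    have := mul_le_mul_of_nonneg_left hδ1 hpos.le
    nlinarith
  have hup : (M : ℝ) < 3 ^ j * (x + 1) := by
    rw [hMe]
    have := mul_le_mul_of_nonneg_left hδ2 hpos.le
    nlinarith
  have hlow' : 3 ^ j * x < M := by exact_mod_cast hlow
  have hup' : M < 3 ^ j * (x + 1) := by exact_mod_cast hup
  refine ⟨j, M - 3 ^ j * x, ?_, ?_⟩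
  · have : 3 ^ j * (x + 1) = 3 ^ j * x + 3 ^ j := by ring
    omega
  · have : 3 ^ j * x + (M - 3 ^ j * x) = M := by omega
    rw [this]; exact hMS

theorem iter_mem {S : Set ℕ} {f : ℕ → ℕ} (hS : ∀ n ∈ S, f n ∈ S) (k : ℕ) {n : ℕ} (hn : n ∈ S) :
    f^[k] n ∈ S := by
  induction k with
  | zero => exact hn
  | succ k ih => rw [Function.iterate_succ_apply']; exact hS _ ih

/-! ### the gap argument -/

theorem gap_bwd (S : Set ℕ) (Θ : ℝ) (hΘ : 0 < Θ) (W : ℕ → Prop) (hW : ∀ n, W n ∨ W (n + 1))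
    (h : ∀ w, W w → Hp S (Θ * 2 ^ w)) :
    ∃ x₀ : ℕ, 0 < x₀ ∧ ∀ a v, v < 3 ^ a → Hit S (3 ^ a * x₀ + v) := by
  by_contra hcon
  push Not at hcon
  obtain ⟨a1, v1, hv1, hn1⟩ := hcon 1 one_pos
  set x1 := 3 ^ a1 * 1 + v1 with hx1
  have hx1pos : 0 < x1 := by rw [hx1]; positivity
  obtain ⟨a2, v2, hv2, hn2⟩ := hcon (2 * x1) (by omega)
  set x2 := 3 ^ a2 * (2 * x1) + v2 with hx2
  have hx2pos : 0 < x2 := by rw [hx2]; positivity
  have hx2r : (0 : ℝ) < (x2 : ℝ) := by exact_mod_cast hx2pos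
  have hp : (0 : ℝ) < (3 : ℝ) ^ a2 := by positivity
  -- comparison of the windows
  have hc1 : (3 : ℝ) ^ a2 * (2 * x1) ≤ x2 := by
    have : 3 ^ a2 * (2 * x1) ≤ x2 := by omega
    exact_mod_cast this
  have hc2 : (x2 : ℝ) + 1 ≤ 3 ^ a2 * (2 * (x1 + 1)) := by
    have : x2 + 1 ≤ 3 ^ a2 * (2 * (x1 + 1)) := by
      have : 3 ^ a2 * (2 * (x1 + 1)) = 3 ^ a2 * (2 * x1) + 2 * 3 ^ a2 := by ring
      omega
    exact_mod_cast this
  obtain ⟨u, v, h1, h2⟩ := dense_two_third ((x2 : ℝ) / (2 * 3 ^ a2 * Θ))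
    (((x2 : ℝ) + 1) / (2 * 3 ^ a2 * Θ)) (by positivity)
    (by rw [div_lt_div_iff_of_pos_right (by positivity)]; linarith)
  rw [div_lt_iff₀ (by positivity)] at h1
  rw [lt_div_iff₀ (by positivity)] at h2
  have e1 : (2 : ℝ) ^ u / 3 ^ v * (2 * 3 ^ a2 * Θ) = Θ * 2 ^ (u + 1) * 3 ^ a2 / 3 ^ v := by
    rw [pow_succ]; ring
  have e2 : (2 : ℝ) ^ u / 3 ^ v * (2 * 3 ^ a2 * Θ) = 2 * 3 ^ a2 * (Θ * 2 ^ u * 3 ^ 0 / 3 ^ v) := by
    rw [pow_zero]; ring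
  rcases hW u with hw | hw
  · apply hn1
    refine h u hw x1 0 v ?_ ?_
    · rw [e2] at h1
      have : (2 * 3 ^ a2 : ℝ) * x1 < 2 * 3 ^ a2 * (Θ * 2 ^ u * 3 ^ 0 / 3 ^ v) := by nlinarith
      exact lt_of_mul_lt_mul_left this (by positivity)
    · rw [e2] at h2
      have : 2 * 3 ^ a2 * (Θ * 2 ^ u * 3 ^ 0 / 3 ^ v) < (2 * 3 ^ a2 : ℝ) * (x1 + 1) := by nlinarith
      exact lt_of_mul_lt_mul_left this (by positivity)
  · apply hn2
    rw [e1] at h1 h2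
    exact h (u + 1) hw x2 a2 v h1 h2

theorem gap_fwd (S : Set ℕ) (Θ : ℝ) (hΘ : 0 < Θ) (W : ℕ → Prop) (hW : ∀ n, W n ∨ W (n + 1))
    (h : ∀ w, W w → Hp S (Θ / 2 ^ w)) :
    ∃ x₀ : ℕ, 0 < x₀ ∧ ∀ a v, v < 3 ^ a → Hit S (3 ^ a * x₀ + v) := by
  by_contra hcon
  push Not at hcon
  obtain ⟨a1, v1, hv1, hn1⟩ := hcon 1 one_pos
  set x1 := 3 ^ a1 * 1 + v1 with hx1
  have hx1pos : 0 < x1 := by rw [hx1]; positivity
  obtain ⟨a2, v2, hv2, hn2⟩ := hcon (2 * x1) (by omega)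
  set x2 := 3 ^ a2 * (2 * x1) + v2 with hx2
  have hx2pos : 0 < x2 := by rw [hx2]; positivity
  have hx2r : (0 : ℝ) < (x2 : ℝ) := by exact_mod_cast hx2pos
  have hp : (0 : ℝ) < (3 : ℝ) ^ a2 := by positivity
  have hc1 : (3 : ℝ) ^ a2 * (2 * x1) ≤ x2 := by
    have : 3 ^ a2 * (2 * x1) ≤ x2 := by omega
    exact_mod_cast this
  have hc2 : (x2 : ℝ) + 1 ≤ 3 ^ a2 * (2 * (x1 + 1)) := by
    have : x2 + 1 ≤ 3 ^ a2 * (2 * (x1 + 1)) := by
      have : 3 ^ a2 * (2 * (x1 + 1)) = 3 ^ a2 * (2 * x1) + 2 * 3 ^ a2 := by ring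
      omega
    exact_mod_cast this
  obtain ⟨u, v, h1, h2⟩ := dense_three_half ((x2 : ℝ) / (3 ^ a2 * Θ))
    (((x2 : ℝ) + 1) / (3 ^ a2 * Θ)) (by positivity)
    (by rw [div_lt_div_iff_of_pos_right (by positivity)]; linarith)
  rw [div_lt_iff₀ (by positivity)] at h1
  rw [lt_div_iff₀ (by positivity)] at h2
  have e1 : (3 : ℝ) ^ u / 2 ^ v * (3 ^ a2 * Θ) = Θ / 2 ^ v * 3 ^ (u + a2) / 3 ^ 0 := by
    rw [pow_add, pow_zero]; ring
  have e2 : (3 : ℝ) ^ u / 2 ^ v * (3 ^ a2 * Θ) = 2 * 3 ^ a2 * (Θ / 2 ^ (v + 1) * 3 ^ u / 3 ^ 0) := by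
    rw [pow_succ, pow_zero]; field_simp
  rcases hW v with hw | hw
  · apply hn2
    rw [e1] at h1 h2
    exact h v hw x2 (u + a2) 0 h1 h2
  · apply hn1
    refine h (v + 1) hw x1 u 0 ?_ ?_
    · rw [e2] at h1
      have : (2 * 3 ^ a2 : ℝ) * x1 < 2 * 3 ^ a2 * (Θ / 2 ^ (v + 1) * 3 ^ u / 3 ^ 0) := by nlinarith
      exact lt_of_mul_lt_mul_left this (by positivity)
    · rw [e2] at h2
      have : 2 * 3 ^ a2 * (Θ / 2 ^ (v + 1) * 3 ^ u / 3 ^ 0) < (2 * 3 ^ a2 : ℝ) * (x1 + 1) := by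
        nlinarith
      exact lt_of_mul_lt_mul_left this (by positivity)

/-! ### the scales -/

/-- the scale `2^w / 3^K` of `gi^[K]` -/
def PB (N : ℕ → ℕ) (K w : ℕ) : Prop :=
  ∃ (c : ℤ) (L : ℕ), ∀ l ≥ L, (3 : ℤ) ^ K * (gi^[K] (N l) : ℤ) = 2 ^ w * (N l : ℤ) + c

/-- the scale `3^k / 2^w` of `g^[k]` -/
def PF (N : ℕ → ℕ) (k w : ℕ) : Prop :=
  ∃ (c : ℤ) (T : ℕ), 0 < T ∧ ∀ l, (2 : ℤ) ^ w * (g^[k] (N (T * l)) : ℤ) = 3 ^ k * (N (T * l) : ℤ) + c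

theorem gi_formula (M e : ℕ) (he : M % 3 = e) :
    (e = 0 ∧ (3 : ℤ) * (gi M : ℤ) = 2 * M) ∨ (e = 1 ∧ (3 : ℤ) * (gi M : ℤ) = 4 * M - 1) ∨
      (e = 2 ∧ (3 : ℤ) * (gi M : ℤ) = 4 * M + 1) := by
  obtain ⟨m, h | h | h⟩ : ∃ m, M = 3 * m ∨ M = 3 * m + 1 ∨ M = 3 * m + 2 := ⟨M / 3, by omega⟩
  · left; refine ⟨by omega, ?_⟩; rw [h, gi_zero]; push_cast; ring
  · right; left; refine ⟨by omega, ?_⟩; rw [h, gi_one]; push_cast; ring
  · right; right; refine ⟨by omega, ?_⟩; rw [h, gi_two]; push_cast; ring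

theorem g_formula (M e : ℕ) (he : M % 4 = e) :
    ((e = 0 ∨ e = 2) ∧ (2 : ℤ) * (g M : ℤ) = 3 * M) ∨ (e = 1 ∧ (4 : ℤ) * (g M : ℤ) = 3 * M + 1) ∨
      (e = 3 ∧ (4 : ℤ) * (g M : ℤ) = 3 * M - 1) := by
  obtain ⟨m, h | h | h⟩ : ∃ m, M = 2 * m ∨ M = 4 * m + 1 ∨ M = 4 * m + 3 := by
    by_cases h2 : M % 2 = 0
    · exact ⟨M / 2, by omega⟩
    · exact ⟨M / 4, by omega⟩
  · left; refine ⟨by omega, ?_⟩; rw [h, g_even]; push_cast; ring
  · right; left; refine ⟨by omega, ?_⟩; rw [h, g_one]; push_cast; ring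
  · right; right; refine ⟨by omega, ?_⟩; rw [h, g_three]; push_cast; ring

theorem PB_succ {a : ℕ} {B C : ℤ} {N : ℕ → ℕ} (ha : 1 ≤ a)
    (hform : ∀ l, ((3 : ℤ) ^ a - 1) * (N l : ℤ) = B * 3 ^ (a * l) + C) {K w : ℕ} (h : PB N K w) :
    PB N (K + 1) (w + 1) ∨ PB N (K + 1) (w + 2) := by
  obtain ⟨c, L, hL⟩ := h
  set L' := max L (K + 1) with hL'
  have hL1 : L ≤ L' := le_max_left _ _
  have hL2 : K + 1 ≤ L' := le_max_right _ _
  -- the residue modulo 3 is constant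
  have hres : ∀ l ≥ L', gi^[K] (N l) % 3 = gi^[K] (N L') % 3 := by
    intro l hl
    have h1 : ((3 : ℤ) ^ a - 1) * ((N l : ℤ) - N L') = B * (3 ^ (a * l) - 3 ^ (a * L')) := by
      have e1 := hform l
      have e2 := hform L'
      linear_combination e1 - e2
    have h2 : (3 : ℤ) ^ (K + 1) ∣ ((3 : ℤ) ^ a - 1) * ((N l : ℤ) - N L') := by
      rw [h1]
      apply Dvd.dvd.mul_left
      apply dvd_sub
      · exact pow_dvd_pow _ (by nlinarith)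
      · exact pow_dvd_pow _ (by nlinarith)
    have h3 : IsCoprime ((3 : ℤ) ^ (K + 1)) ((3 : ℤ) ^ a - 1) := by
      apply IsCoprime.pow_left
      obtain ⟨a', rfl⟩ : ∃ a', a = a' + 1 := ⟨a - 1, by omega⟩
      exact ⟨3 ^ a', -1, by rw [pow_succ]; ring⟩
    obtain ⟨t, ht⟩ : (3 : ℤ) ^ (K + 1) ∣ ((N l : ℤ) - N L') := h3.dvd_of_dvd_mul_left h2
    have h4 : (3 : ℤ) ^ K * ((gi^[K] (N l) : ℤ) - gi^[K] (N L')) = 3 ^ K * (3 * (2 ^ w * t)) := by
      have e1 := hL l (hL1.trans hl)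
      have e2 := hL L' hL1
      rw [mul_sub, e1, e2]
      have : (2 : ℤ) ^ w * (N l : ℤ) + c - (2 ^ w * (N L' : ℤ) + c) = 2 ^ w * ((N l : ℤ) - N L') := by
        ring
      rw [this, ht, pow_succ]; ring
    have h5 : ((gi^[K] (N l) : ℤ) - gi^[K] (N L')) = 3 * (2 ^ w * t) :=
      mul_left_cancel₀ (by positivity) h4
    omega
  rcases gi_formula (gi^[K] (N L')) _ rfl with h0 | h0 | h0
  · left
    refine ⟨2 * c, L', fun l hl => ?_⟩
    rw [Function.iterate_succ_apply']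
    rcases gi_formula (gi^[K] (N l)) _ rfl with h1 | h1 | h1
    · have e1 := hL l (hL1.trans hl)
      have e2 := h1.2
      rw [pow_succ (3 : ℤ) K, pow_succ (2 : ℤ) w]
      linear_combination (3 : ℤ) ^ K * e2 + 2 * e1
    · have := hres l hl; omega
    · have := hres l hl; omega
  · right
    refine ⟨4 * c - 3 ^ K, L', fun l hl => ?_⟩
    rw [Function.iterate_succ_apply']
    rcases gi_formula (gi^[K] (N l)) _ rfl with h1 | h1 | h1
    · have := hres l hl; omega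
    · have e1 := hL l (hL1.trans hl)
      have e2 := h1.2
      rw [pow_succ (3 : ℤ) K, pow_add (2 : ℤ) w 2]
      linear_combination (3 : ℤ) ^ K * e2 + 4 * e1
    · have := hres l hl; omega
  · right
    refine ⟨4 * c + 3 ^ K, L', fun l hl => ?_⟩
    rw [Function.iterate_succ_apply']
    rcases gi_formula (gi^[K] (N l)) _ rfl with h1 | h1 | h1
    · have := hres l hl; omega
    · have := hres l hl; omega
    · have e1 := hL l (hL1.trans hl)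
      have e2 := h1.2
      rw [pow_succ (3 : ℤ) K, pow_add (2 : ℤ) w 2]
      linear_combination (3 : ℤ) ^ K * e2 + 4 * e1

theorem PF_succ {a : ℕ} {B C : ℤ} {N : ℕ → ℕ} (ha : 1 ≤ a)
    (hform : ∀ l, ((3 : ℤ) ^ a - 1) * (N l : ℤ) = B * 3 ^ (a * l) + C) {k w : ℕ} (h : PF N k w) :
    PF N (k + 1) (w + 1) ∨ PF N (k + 1) (w + 2) := by
  obtain ⟨c, T, hT, hc⟩ := h
  have hDn : 3 ≤ 3 ^ a := by
    calc 3 = 3 ^ 1 := by norm_num
      _ ≤ 3 ^ a := Nat.pow_le_pow_right (by norm_num) ha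
  set Q := (3 ^ a - 1) * 2 ^ (w + 2) with hQ
  have hQpos : 0 < Q := by
    rw [hQ]
    have : 0 < 3 ^ a - 1 := by omega
    positivity
  have hcop : Nat.Coprime 3 Q := by
    rw [hQ]
    apply Nat.Coprime.mul_right
    · obtain ⟨a', rfl⟩ : ∃ a', a = a' + 1 := ⟨a - 1, by omega⟩
      rw [Nat.Prime.coprime_iff_not_dvd Nat.prime_three]
      intro hd
      rw [pow_succ] at hd hDn
      omega
    · apply Nat.Coprime.pow_right; decide
  have hφ : 0 < Nat.totient Q := Nat.totient_pos.2 hQpos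
  set T' := T * Nat.totient Q with hT'
  have hT'pos : 0 < T' := Nat.mul_pos hT hφ
  have hc' : ∀ l, (2 : ℤ) ^ w * (g^[k] (N (T' * l)) : ℤ) = 3 ^ k * (N (T' * l) : ℤ) + c := by
    intro l
    have := hc (Nat.totient Q * l)
    rw [← mul_assoc] at this
    exact this
  have hres : ∀ l, g^[k] (N (T' * l)) % 4 = g^[k] (N (T' * 0)) % 4 := by
    intro l
    have h1 : ((3 : ℤ) ^ a - 1) * ((N (T' * l) : ℤ) - N (T' * 0)) = B * (3 ^ (a * (T' * l)) - 1) := by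
      have e1 := hform (T' * l)
      have e2 := hform (T' * 0)
      rw [mul_zero, mul_zero, pow_zero] at e2
      rw [mul_zero]
      linear_combination e1 - e2
    have h2 : (3 : ℕ) ^ (a * (T' * l)) ≡ 1 [MOD Q] := by
      have := (Nat.ModEq.pow_totient hcop).pow (a * T * l)
      rw [← pow_mul, one_pow] at this
      have e : a * (T' * l) = Nat.totient Q * (a * T * l) := by rw [hT']; ring
      rw [e]; exact this
    have h3 : (Q : ℤ) ∣ (3 ^ (a * (T' * l)) - 1) := by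
      have := (Nat.modEq_iff_dvd.1 h2.symm)
      push_cast at this
      exact this
    have hQz : (Q : ℤ) = ((3 : ℤ) ^ a - 1) * 2 ^ (w + 2) := by
      rw [hQ]; push_cast [Nat.cast_sub (by omega : 1 ≤ 3 ^ a)]; ring
    have h4 : ((3 : ℤ) ^ a - 1) * 2 ^ (w + 2) ∣
        ((3 : ℤ) ^ a - 1) * ((N (T' * l) : ℤ) - N (T' * 0)) := by
      rw [h1, ← hQz]; exact Dvd.dvd.mul_left h3 _
    have hDz : (0 : ℤ) < (3 : ℤ) ^ a - 1 := by
      have : (3 : ℤ) ≤ 3 ^ a := by exact_mod_cast hDn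
      linarith
    obtain ⟨t, ht⟩ : (2 : ℤ) ^ (w + 2) ∣ ((N (T' * l) : ℤ) - N (T' * 0)) :=
      (mul_dvd_mul_iff_left hDz.ne').1 h4
    have h5 : (2 : ℤ) ^ w * ((g^[k] (N (T' * l)) : ℤ) - g^[k] (N (T' * 0))) =
        2 ^ w * (4 * (3 ^ k * t)) := by
      have e1 := hc' l
      have e2 := hc' 0
      rw [mul_sub, e1, e2]
      have : (3 : ℤ) ^ k * (N (T' * l) : ℤ) + c - (3 ^ k * (N (T' * 0) : ℤ) + c) =
          3 ^ k * ((N (T' * l) : ℤ) - N (T' * 0)) := by ring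
      rw [this, ht, pow_add]; ring
    have h6 : ((g^[k] (N (T' * l)) : ℤ) - g^[k] (N (T' * 0))) = 4 * (3 ^ k * t) :=
      mul_left_cancel₀ (by positivity) h5
    omega
  rcases g_formula (g^[k] (N (T' * 0))) _ rfl with h0 | h0 | h0
  · left
    refine ⟨3 * c, T', hT'pos, fun l => ?_⟩
    rw [Function.iterate_succ_apply']
    rcases g_formula (g^[k] (N (T' * l))) _ rfl with h1 | h1 | h1
    · have e1 := hc' l
      have e2 := h1.2
      rw [pow_succ (3 : ℤ) k, pow_succ (2 : ℤ) w]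
      linear_combination (2 : ℤ) ^ w * e2 + 3 * e1
    · have := hres l; omega
    · have := hres l; omega
  · right
    refine ⟨3 * c + 2 ^ w, T', hT'pos, fun l => ?_⟩
    rw [Function.iterate_succ_apply']
    rcases g_formula (g^[k] (N (T' * l))) _ rfl with h1 | h1 | h1
    · have := hres l; omega
    · have e1 := hc' l
      have e2 := h1.2
      rw [pow_succ (3 : ℤ) k, pow_add (2 : ℤ) w 2]
      linear_combination (2 : ℤ) ^ w * e2 + 3 * e1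
    · have := hres l; omega
  · right
    refine ⟨3 * c - 2 ^ w, T', hT'pos, fun l => ?_⟩
    rw [Function.iterate_succ_apply']
    rcases g_formula (g^[k] (N (T' * l))) _ rfl with h1 | h1 | h1
    · have := hres l; omega
    · have := hres l; omega
    · have e1 := hc' l
      have e2 := h1.2
      rw [pow_succ (3 : ℤ) k, pow_add (2 : ℤ) w 2]
      linear_combination (2 : ℤ) ^ w * e2 + 3 * e1

theorem dense_of_succ (P : ℕ → ℕ → Prop) (h0 : P 0 0)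
    (hs : ∀ k w, P k w → P (k + 1) (w + 1) ∨ P (k + 1) (w + 2)) :
    ∀ n, (∃ k, P k n) ∨ (∃ k, P k (n + 1)) := by
  intro n
  induction n with
  | zero => exact Or.inl ⟨0, h0⟩
  | succ n ih =>
    rcases ih with ⟨k, hk⟩ | ⟨k, hk⟩
    · rcases hs k n hk with h | h
      · exact Or.inl ⟨_, h⟩
      · exact Or.inr ⟨_, h⟩
    · exact Or.inl ⟨_, hk⟩

end SomeDense3

open SomeDense3

theorem some_dense_bwd (S : Set ℕ) (hA : ThreeAutomatic S) (hS : ∀ n ∈ S, gi n ∈ S)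
    (hinf : S.Infinite) : ∃ x₀ : ℕ, 0 < x₀ ∧ ∀ a v, v < 3 ^ a →
      ∃ j r : ℕ, r < 3 ^ j ∧ 3 ^ j * (3 ^ a * x₀ + v) + r ∈ S := by
  obtain ⟨a, B, C, N, ha, hB, hN, hform⟩ := pump S hA hinf
  have hD : (0 : ℝ) < (3 : ℝ) ^ a - 1 := by
    have : (3 : ℝ) ^ 1 ≤ 3 ^ a := pow_le_pow_right₀ (by norm_num) ha
    norm_num at this; linarith
  have hBr : (0 : ℝ) < (B : ℝ) := by exact_mod_cast hB
  refine gap_bwd S (B / ((3 : ℝ) ^ a - 1)) (by positivity) (fun w => ∃ K, PB N K w)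
    (dense_of_succ (PB N) ⟨0, 0, fun l _ => by simp⟩ (fun K w h => PB_succ ha hform h)) ?_
  rintro w ⟨K, c, L, hL⟩
  have key : Hp S (B / ((3 : ℝ) ^ a - 1) * 2 ^ w / 3 ^ K) := by
    refine close S _ ((2 ^ w * (C / ((3 : ℝ) ^ a - 1)) + c) / 3 ^ K) (fun L0 => ?_)
    refine ⟨a * max L L0, ?_, gi^[K] (N (max L L0)), iter_mem hS K (hN _), ?_⟩
    · have : L0 ≤ max L L0 := le_max_right _ _
      nlinarith
    · have e1 := hL (max L L0) (le_max_left _ _)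
      have e2 := hform (max L L0)
      have e1r : (3 : ℝ) ^ K * (gi^[K] (N (max L L0)) : ℝ) = 2 ^ w * (N (max L L0) : ℝ) + c := by
        exact_mod_cast e1
      have e2r : ((3 : ℝ) ^ a - 1) * (N (max L L0) : ℝ) = B * 3 ^ (a * max L L0) + C := by
        exact_mod_cast e2
      have hDne : (3 : ℝ) ^ a - 1 ≠ 0 := hD.ne'
      have hKne : (3 : ℝ) ^ K ≠ 0 := by positivity
      have e3 : (N (max L L0) : ℝ) = (B * 3 ^ (a * max L L0) + C) / ((3 : ℝ) ^ a - 1) := by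
        rw [← e2r]; field_simp
      have e4 : (gi^[K] (N (max L L0)) : ℝ) = (2 ^ w * (N (max L L0) : ℝ) + c) / 3 ^ K := by
        rw [← e1r]; field_simp
      rw [e4, e3]
      field_simp
      ring
  have := key.mul_pow K
  have e : B / ((3 : ℝ) ^ a - 1) * 2 ^ w / 3 ^ K * 3 ^ K = B / ((3 : ℝ) ^ a - 1) * 2 ^ w := by
    field_simp
  rwa [e] at this

theorem some_dense_fwd (S : Set ℕ) (hA : ThreeAutomatic S) (hS : ∀ n ∈ S, g n ∈ S)
    (hinf : S.Infinite) : ∃ x₀ : ℕ, 0 < x₀ ∧ ∀ a v, v < 3 ^ a →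
      ∃ j r : ℕ, r < 3 ^ j ∧ 3 ^ j * (3 ^ a * x₀ + v) + r ∈ S := by
  obtain ⟨a, B, C, N, ha, hB, hN, hform⟩ := pump S hA hinf
  have hD : (0 : ℝ) < (3 : ℝ) ^ a - 1 := by
    have : (3 : ℝ) ^ 1 ≤ 3 ^ a := pow_le_pow_right₀ (by norm_num) ha
    norm_num at this; linarith
  have hBr : (0 : ℝ) < (B : ℝ) := by exact_mod_cast hB
  refine gap_fwd S (B / ((3 : ℝ) ^ a - 1)) (by positivity) (fun w => ∃ k, PF N k w)
    (dense_of_succ (PF N) ⟨0, 1, one_pos, fun l => by simp⟩ (fun k w h => PF_succ ha hform h)) ?_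
  rintro w ⟨k, c, T, hT, hc⟩
  refine close S _ ((3 ^ k * (C / ((3 : ℝ) ^ a - 1)) + c) / 2 ^ w) (fun L0 => ?_)
  refine ⟨a * (T * L0) + k, ?_, g^[k] (N (T * L0)), iter_mem hS k (hN _), ?_⟩
  · have : L0 ≤ T * L0 := Nat.le_mul_of_pos_left _ hT
    nlinarith
  · have e1 := hc L0
    have e2 := hform (T * L0)
    have e1r : (2 : ℝ) ^ w * (g^[k] (N (T * L0)) : ℝ) = 3 ^ k * (N (T * L0) : ℝ) + c := by
      exact_mod_cast e1
    have e2r : ((3 : ℝ) ^ a - 1) * (N (T * L0) : ℝ) = B * 3 ^ (a * (T * L0)) + C := by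
      exact_mod_cast e2
    have hDne : (3 : ℝ) ^ a - 1 ≠ 0 := hD.ne'
    have hwne : (2 : ℝ) ^ w ≠ 0 := by positivity
    have e3 : (N (T * L0) : ℝ) = (B * 3 ^ (a * (T * L0)) + C) / ((3 : ℝ) ^ a - 1) := by
      rw [← e2r]; field_simp
    have e4 : (g^[k] (N (T * L0)) : ℝ) = (3 ^ k * (N (T * L0) : ℝ) + c) / 2 ^ w := by
      rw [← e1r]; field_simp
    rw [e4, e3, pow_add]
    field_simp
    ring

end ConwayAuto
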