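import Pool.Agent.Lib.ConwayAuto.DefsB
import Pool.Agent.Lib.ConwayAuto.DensePow

/-!
An infinite b-automatic set, `b = 2^i 3^j` with `i, j ≥ 1`, which is closed under `g` (or under `gi`)
meets, for some `x₀ > 0`, the blocks `[b^k x, b^k (x+1))` of all descendants `x = b^a x₀ + v`,
`v < b^a`, of `x₀`.
-/

namespace ConwayAuto

namespace SomeDenseB

/-- the pumped sequence of digits -/
def seq (b a v x0 : ℕ) : ℕ → ℕ
  | 0 => x0
  | l + 1 => b ^ a * seq b a v x0 l + v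

theorem seq_formula (b a v x0 l : ℕ) :
    ((b : ℤ) ^ a - 1) * (seq b a v x0 l : ℤ) = (((b : ℤ) ^ a - 1) * x0 + v) * b ^ (a * l) - v := by
  induction l with
  | zero => simp [seq]
  | succ l ih =>
    have e : (b : ℤ) ^ (a * (l + 1)) = b ^ (a * l) * b ^ a := by rw [← pow_add]; congr 1
    have e1 : ((seq b a v x0 (l + 1) : ℕ) : ℤ) = b ^ a * (seq b a v x0 l : ℤ) + v := by
      simp [seq]
    rw [e1, e]
    calc ((b : ℤ) ^ a - 1) * (b ^ a * (seq b a v x0 l : ℤ) + v)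
        = b ^ a * (((b : ℤ) ^ a - 1) * (seq b a v x0 l : ℤ)) + (b ^ a - 1) * v := by ring
      _ = b ^ a * ((((b : ℤ) ^ a - 1) * x0 + v) * b ^ (a * l) - v) + (b ^ a - 1) * v := by rw [ih]
      _ = _ := by ring

theorem pump (b : ℕ) (hb : 2 ≤ b) (S : Set ℕ) (hA : AutomaticIn b S) (hinf : S.Infinite) :
    ∃ (a : ℕ) (B C : ℤ) (N : ℕ → ℕ), 1 ≤ a ∧ 0 < B ∧ (∀ l, N l ∈ S) ∧
      ∀ l, ((b : ℤ) ^ a - 1) * (N l : ℤ) = B * b ^ (a * l) + C := by
  classical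
  have hb0 : 0 < b := by omega
  obtain ⟨ι, hι, c, hc⟩ := hA.coloring
  have := hι
  have := Fintype.ofFinite ι
  obtain ⟨n, hnS, hn⟩ := hinf.exists_gt (b ^ (Fintype.card ι + 1))
  obtain ⟨p, q, hpq, hcol⟩ := Fintype.exists_ne_map_eq_of_card_lt
    (fun i : Fin (Fintype.card ι + 1) => c (n / b ^ (i : ℕ))) (by simp)
  have key : ∀ i i' : ℕ, i < i' → i' ≤ Fintype.card ι → c (n / b ^ i) = c (n / b ^ i') →
      ∃ (a : ℕ) (B C : ℤ) (N : ℕ → ℕ), 1 ≤ a ∧ 0 < B ∧ (∀ l, N l ∈ S) ∧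
      ∀ l, ((b : ℤ) ^ a - 1) * (N l : ℤ) = B * b ^ (a * l) + C := by
    intro i i' hii hi' hcc
    obtain ⟨a, rfl⟩ : ∃ a, i' = i + a := ⟨i' - i, by omega⟩
    have ha : 1 ≤ a := by omega
    set x0 := n / b ^ (i + a) with hx0
    have hx0pos : 1 ≤ x0 := by
      rw [hx0, Nat.le_div_iff_mul_le (by positivity)]
      have : b ^ (i + a) ≤ b ^ (Fintype.card ι + 1) := Nat.pow_le_pow_right hb0 (by omega)
      omega
    set v := (n / b ^ i) % b ^ a with hv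
    have hvlt : v < b ^ a := Nat.mod_lt _ (by positivity)
    have hni : n / b ^ i = b ^ a * x0 + v := by
      have : x0 = (n / b ^ i) / b ^ a := by rw [hx0, pow_add, Nat.div_div_eq_div_mul]
      rw [this, hv]; exact (Nat.div_add_mod _ _).symm
    set z := n % b ^ (i + a) with hz
    have hzlt : z < b ^ (i + a) := Nat.mod_lt _ (by positivity)
    have hn' : n = b ^ (i + a) * x0 + z := (Nat.div_add_mod _ _).symm
    have hE0 : EqvB b S (b ^ a * x0 + v) x0 := by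
      rw [← hni]; exact (hc _ _).1 hcc
    have hE : ∀ l, EqvB b S (seq b a v x0 l) x0 := by
      intro l
      induction l with
      | zero => exact EqvB.refl _ _
      | succ l ih => exact (EqvB.desc hb0 ih hvlt).trans hE0
    refine ⟨a, b ^ (i + a) * (((b : ℤ) ^ a - 1) * x0 + v),
      ((b : ℤ) ^ a - 1) * z - b ^ (i + a) * v, fun l => b ^ (i + a) * seq b a v x0 l + z, ha,
      ?_, ?_, ?_⟩
    · have h1 : (2 : ℤ) ≤ (b : ℤ) ^ a := by
        have h0 : (2 : ℤ) ≤ (b : ℤ) := by exact_mod_cast hb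
        calc (2 : ℤ) ≤ (b : ℤ) := h0
          _ = (b : ℤ) ^ 1 := (pow_one _).symm
          _ ≤ (b : ℤ) ^ a := pow_le_pow_right₀ (by linarith) ha
      have h2 : (1 : ℤ) ≤ x0 := by exact_mod_cast hx0pos
      have h3 : (0 : ℤ) ≤ v := by positivity
      have h4 : 0 < ((b : ℤ) ^ a - 1) * x0 + v := by nlinarith
      have h5 : (0 : ℤ) < (b : ℤ) ^ (i + a) := by positivity
      positivity
    · intro l
      have hzlt' : z < 2 * b ^ (i + a) := by omega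
      have := ((hE l) (i + a) z hzlt').2
      apply this
      rw [← hn']; exact hnS
    · intro l
      have := seq_formula b a v x0 l
      push_cast
      calc ((b : ℤ) ^ a - 1) * (b ^ (i + a) * (seq b a v x0 l : ℤ) + z)
          = b ^ (i + a) * (((b : ℤ) ^ a - 1) * (seq b a v x0 l : ℤ)) + (b ^ a - 1) * z := by ring
        _ = b ^ (i + a) * ((((b : ℤ) ^ a - 1) * x0 + v) * b ^ (a * l) - v) + (b ^ a - 1) * z := by
            rw [this]
        _ = _ := by ring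
  have hpq' : (p : ℕ) ≠ (q : ℕ) := fun h => hpq (Fin.ext h)
  rcases lt_or_gt_of_ne hpq' with h | h
  · exact key p q h (by have := q.2; omega) hcol
  · exact key q p h (by have := p.2; omega) hcol.symm

/-- `S` meets one of the blocks below `x` -/
def Hit (b : ℕ) (S : Set ℕ) (x : ℕ) : Prop := ∃ k r : ℕ, r < b ^ k ∧ b ^ k * x + r ∈ S

/-- the scale `θ` (modulo powers of `b`) hits -/
def Hp (b : ℕ) (S : Set ℕ) (θ : ℝ) : Prop :=
  ∀ x u v : ℕ, (x : ℝ) < θ * b ^ u / b ^ v → θ * b ^ u / b ^ v < x + 1 → Hit b S x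

theorem close (b : ℕ) (hb : 2 ≤ b) (S : Set ℕ) (θ c : ℝ)
    (H : ∀ L : ℕ, ∃ n ≥ L, ∃ M ∈ S, (M : ℝ) = θ * b ^ n + c) : Hp b S θ := by
  intro x u v h1 h2
  have hb1 : (1 : ℝ) < b := by
    have : (2 : ℝ) ≤ b := by exact_mod_cast hb
    linarith
  have hb0 : (0 : ℝ) < b := by linarith
  set δ := min (θ * b ^ u / b ^ v - x) (x + 1 - θ * b ^ u / b ^ v) with hδ
  have hδ0 : 0 < δ := lt_min (by linarith) (by linarith)
  have hδ1 : δ ≤ θ * b ^ u / b ^ v - x := min_le_left _ _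
  have hδ2 : δ ≤ x + 1 - θ * b ^ u / b ^ v := min_le_right _ _
  obtain ⟨L, hL⟩ := pow_unbounded_of_one_lt (|c| / δ) hb1
  obtain ⟨n, hn, M, hMS, hM⟩ := H (L + u)
  obtain ⟨d, rfl⟩ : ∃ d, n = L + u + d := ⟨n - (L + u), by omega⟩
  set j := L + d + v with hj
  have hP : (b : ℝ) ^ (L + u + d) = b ^ j * (b ^ u / b ^ v) := by
    rw [hj, eq_comm]
    field_simp
    rw [← pow_add, ← pow_add]
    congr 1; omega
  have hPL : (b : ℝ) ^ L ≤ b ^ j := pow_le_pow_right₀ hb1.le (by omega)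
  have hc : |c| < b ^ j * δ := by
    rw [div_lt_iff₀ hδ0] at hL
    nlinarith
  have hMe : (M : ℝ) = b ^ j * (θ * b ^ u / b ^ v) + c := by
    rw [hM, hP]; ring
  have hpos : (0 : ℝ) < (b : ℝ) ^ j := by positivity
  have hc1 := neg_abs_le c
  have hc2 := le_abs_self c
  have hlow : (b : ℝ) ^ j * x < M := by
    rw [hMe]
    have := mul_le_mul_of_nonneg_left hδ1 hpos.le
    nlinarith
  have hup : (M : ℝ) < b ^ j * (x + 1) := by
    rw [hMe]
    have := mul_le_mul_of_nonneg_left hδ2 hpos.le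
    nlinarith
  have hlow' : b ^ j * x < M := by exact_mod_cast hlow
  have hup' : M < b ^ j * (x + 1) := by exact_mod_cast hup
  refine ⟨j, M - b ^ j * x, ?_, ?_⟩
  · have : b ^ j * (x + 1) = b ^ j * x + b ^ j := by ring
    omega
  · have : b ^ j * x + (M - b ^ j * x) = M := by omega
    rw [this]; exact hMS

theorem iter_mem {S : Set ℕ} {f : ℕ → ℕ} (hS : ∀ n ∈ S, f n ∈ S) (k : ℕ) {n : ℕ} (hn : n ∈ S) :
    f^[k] n ∈ S := by
  induction k with
  | zero => exact hn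
  | succ k ih => rw [Function.iterate_succ_apply']; exact hS _ ih

/-! ### the gap argument -/

/-- no hitting scale has a `b`-multiple between `α` and `β` -/
def Un (b : ℕ) (S : Set ℕ) (α β : ℝ) : Prop :=
  ∀ (θ : ℝ) (u v : ℕ), Hp b S θ → α < θ * b ^ u / b ^ v → ¬ θ * b ^ u / b ^ v < β

theorem Un.mono {b : ℕ} {S : Set ℕ} {α β α' β' : ℝ} (h : Un b S α β) (h1 : α ≤ α') (h2 : β' ≤ β) :
    Un b S α' β' := fun θ u v hθ ha hb => h θ u v hθ (h1.trans_lt ha) (hb.trans_le h2)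

theorem un_of_not_hit {b : ℕ} (hb : 0 < b) {S : Set ℕ} {x : ℕ} (hx : ¬ Hit b S x) (m : ℕ) :
    Un b S (x / b ^ m) ((x + 1) / b ^ m) := by
  intro θ u v hθ h1 h2
  have hbr : (0 : ℝ) < b := by exact_mod_cast hb
  apply hx
  apply hθ x (u + m) v
  · rw [div_lt_iff₀ (by positivity)] at h1
    rw [pow_add]
    calc (x : ℝ) < θ * b ^ u / b ^ v * b ^ m := h1
      _ = θ * (b ^ u * b ^ m) / b ^ v := by ring
  · rw [lt_div_iff₀ (by positivity)] at h2
    rw [pow_add]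
    calc θ * (b ^ u * b ^ m) / b ^ v = θ * b ^ u / b ^ v * b ^ m := by ring
      _ < x + 1 := h2

theorem exists_un {b : ℕ} (hb : 2 ≤ b) {S : Set ℕ}
    (H : ∀ x : ℕ, 0 < x → ∃ a v, v < b ^ a ∧ ¬ Hit b S (b ^ a * x + v)) (α β : ℝ) (hα : 0 < α)
    (hαβ : α < β) : ∃ α' β' : ℝ, α ≤ α' ∧ α' < β' ∧ β' ≤ β ∧ Un b S α' β' := by
  have hb1 : (1 : ℝ) < b := by
    have : (2 : ℝ) ≤ b := by exact_mod_cast hb
    linarith
  have hb0 : (0 : ℝ) < b := by linarith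
  obtain ⟨m, hm⟩ := pow_unbounded_of_one_lt (2 / (β - α)) hb1
  rw [div_lt_iff₀ (by linarith)] at hm
  set x := ⌈α * b ^ m⌉₊ with hx
  have hx1 : α * b ^ m ≤ x := Nat.le_ceil _
  have hx2 : (x : ℝ) < α * b ^ m + 1 := Nat.ceil_lt_add_one (by positivity)
  have hx0 : 0 < x := by rw [hx, Nat.ceil_pos]; positivity
  obtain ⟨a, v, hv, hn⟩ := H x hx0
  set y := b ^ a * x + v with hy
  have hpa : (0 : ℝ) < (b : ℝ) ^ a := by positivity
  have hy1 : (b : ℝ) ^ a * x ≤ y := by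
    have : b ^ a * x ≤ y := by omega
    exact_mod_cast this
  have hy2 : (y : ℝ) + 1 ≤ b ^ a * (x + 1) := by
    have : y + 1 ≤ b ^ a * (x + 1) := by
      have : b ^ a * (x + 1) = b ^ a * x + b ^ a := by ring
      omega
    exact_mod_cast this
  refine ⟨y / b ^ (m + a), (y + 1) / b ^ (m + a), ?_, ?_, ?_, un_of_not_hit (by omega) hn _⟩
  · rw [le_div_iff₀ (by positivity), pow_add]
    nlinarith
  · rw [div_lt_div_iff_of_pos_right (by positivity)]; linarith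
  · rw [div_le_iff₀ (by positivity), pow_add]
    have : (x : ℝ) + 1 ≤ β * b ^ m := by nlinarith
    nlinarith

theorem exists_un_list {b : ℕ} (hb : 2 ≤ b) {S : Set ℕ}
    (H : ∀ x : ℕ, 0 < x → ∃ a v, v < b ^ a ∧ ¬ Hit b S (b ^ a * x + v)) :
    ∀ (L : List ℝ), (∀ μ ∈ L, 0 < μ) → ∀ (α β : ℝ), 0 < α → α < β →
      ∃ α' β' : ℝ, α ≤ α' ∧ α' < β' ∧ β' ≤ β ∧ ∀ μ ∈ L, Un b S (μ * α') (μ * β') := by
  intro L
  induction L with
  | nil =>
    intro _ α β hα hαβ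
    exact ⟨α, β, le_rfl, hαβ, le_rfl, by simp⟩
  | cons μ L ih =>
    intro hL α β hα hαβ
    obtain ⟨α1, β1, h1, h2, h3, h4⟩ := ih (fun ν hν => hL ν (List.mem_cons_of_mem _ hν)) α β hα hαβ
    have hμ : 0 < μ := hL μ List.mem_cons_self
    have hα1 : 0 < α1 := hα.trans_le h1
    obtain ⟨α2, β2, k1, k2, k3, k4⟩ := exists_un hb H (μ * α1) (μ * β1) (by positivity)
      (mul_lt_mul_of_pos_left h2 hμ)
    have e1 : α1 ≤ α2 / μ := by rw [le_div_iff₀ hμ]; linarith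
    have e2 : β2 / μ ≤ β1 := by rw [div_le_iff₀ hμ]; linarith
    refine ⟨α2 / μ, β2 / μ, h1.trans e1, ?_, e2.trans h3, ?_⟩
    · rw [div_lt_div_iff_of_pos_right hμ]; exact k2
    · intro ν hν
      rcases List.mem_cons.1 hν with rfl | hν
      · have f1 : ν * (α2 / ν) = α2 := by field_simp
        have f2 : ν * (β2 / ν) = β2 := by field_simp
        rw [f1, f2]; exact k4
      · have hν0 : 0 < ν := hL ν (List.mem_cons_of_mem _ hν)
        exact (h4 ν hν).mono (mul_le_mul_of_nonneg_left e1 hν0.le)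
          (mul_le_mul_of_nonneg_left e2 hν0.le)

theorem scale_steps (P : ℕ → ℕ → Prop) (h0 : P 0 0)
    (hs : ∀ k w, P k w → P (k + 1) (w + 1) ∨ P (k + 1) (w + 2)) (i j : ℕ) (hj : 1 ≤ j) :
    ∀ t, ∃ k w, P k w ∧ t ≤ j * w + i * k ∧ j * w + i * k < t + 2 * j + i := by
  intro t
  induction t with
  | zero => exact ⟨0, 0, h0, by simp, by simp; omega⟩
  | succ t ih =>
    obtain ⟨k, w, h1, h2, h3⟩ := ih
    by_cases h4 : t + 1 ≤ j * w + i * k
    · exact ⟨k, w, h1, h4, by omega⟩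
    · have h5 : j * w + i * k = t := by omega
      rcases hs k w h1 with h | h
      · refine ⟨k + 1, w + 1, h, ?_, ?_⟩
        · have : j * (w + 1) + i * (k + 1) = j * w + i * k + j + i := by ring
          omega
        · have : j * (w + 1) + i * (k + 1) = j * w + i * k + j + i := by ring
          omega
      · refine ⟨k + 1, w + 2, h, ?_, ?_⟩
        · have : j * (w + 2) + i * (k + 1) = j * w + i * k + 2 * j + i := by ring
          omega
        · have : j * (w + 2) + i * (k + 1) = j * w + i * k + 2 * j + i := by ring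
          omega

/-- the numbers of the gap argument -/
theorem scale_num (P : ℕ → ℕ → Prop) (h0 : P 0 0)
    (hs : ∀ k w, P k w → P (k + 1) (w + 1) ∨ P (k + 1) (w + 2)) (i j : ℕ) (hj : 1 ≤ j) (u : ℕ) :
    ∃ k w q d f, P k w ∧ k = j * q + d ∧ d < j ∧ w + i * q + i = u + f ∧ f < 2 * i + 2 := by
  obtain ⟨k, w, h1, h2, h3⟩ := scale_steps P h0 hs i j hj (j * u)
  have hd : k % j < j := Nat.mod_lt _ hj
  have hk : k = j * (k / j) + k % j := (Nat.div_add_mod _ _).symm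
  set q := k / j with hq
  set d := k % j with hdd
  have e1 : i * k = j * (i * q) + i * d := by rw [hk]; ring
  have e2 : i * d ≤ i * j := Nat.mul_le_mul_left _ hd.le
  have e3 : i ≤ i * j := Nat.le_mul_of_pos_right _ hj
  have h4 : u ≤ w + i * q + i := by
    apply Nat.le_of_mul_le_mul_left _ hj
    have : j * (w + i * q + i) = j * w + j * (i * q) + i * j := by ring
    omega
  have h5 : w + i * q + i < u + 2 * i + 2 := by
    apply Nat.lt_of_mul_lt_mul_left (a := j)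
    have f1 : j * (w + i * q + i) = j * w + j * (i * q) + i * j := by ring
    have f2 : j * (u + 2 * i + 2) = j * u + 2 * (i * j) + 2 * j := by ring
    omega
  exact ⟨k, w, q, d, w + i * q + i - u, h1, hk, hd, by omega, by omega⟩

theorem gap_fwd (b i j : ℕ) (hb : b = 2 ^ i * 3 ^ j) (hj : 1 ≤ j) (S : Set ℕ) (Θ : ℝ) (hΘ : 0 < Θ)
    (P : ℕ → ℕ → Prop) (h0 : P 0 0) (hs : ∀ k w, P k w → P (k + 1) (w + 1) ∨ P (k + 1) (w + 2))
    (h : ∀ k w, P k w → Hp b S (Θ * 3 ^ k / 2 ^ w)) :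
    ∃ x₀ : ℕ, 0 < x₀ ∧ ∀ a v, v < b ^ a → Hit b S (b ^ a * x₀ + v) := by
  have hb3 : 3 ∣ b := by rw [hb]; exact Dvd.dvd.mul_left (dvd_pow_self 3 (by omega)) _
  have hb2 : 2 ≤ b := by
    have : 0 < b := by rw [hb]; positivity
    have := Nat.le_of_dvd this hb3
    omega
  by_contra hcon
  push Not at hcon
  obtain ⟨α, β, hα1, hαβ, -, hL⟩ := exists_un_list hb2 hcon
    (((List.range j).product (List.range (2 * i + 2))).map
      (fun p => (3 : ℝ) ^ p.1 * 2 ^ i / 2 ^ p.2)) (by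
        intro μ hμ
        obtain ⟨p, -, rfl⟩ := List.mem_map.1 hμ
        positivity) 1 2 one_pos (by norm_num)
  have hα : 0 < α := by linarith
  obtain ⟨n, u, h1, h2⟩ := dense_pow_pow (b : ℝ) (1 / 2) (by
      have : (2 : ℝ) ≤ b := by exact_mod_cast hb2
      linarith) (by norm_num) (by norm_num) (by
      intro i' j' hi' he
      have h3 : (b : ℝ) ^ i' = 2 ^ j' := by
        rw [one_div, inv_pow, ← div_eq_mul_inv, div_eq_one_iff_eq (by positivity)] at he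
        exact he
      have h4 : b ^ i' = 2 ^ j' := by exact_mod_cast h3
      have h5 : 3 ∣ 2 ^ j' := by rw [← h4]; exact dvd_pow hb3 (by omega)
      have := Nat.Prime.dvd_of_dvd_pow Nat.prime_three h5
      omega) (α / Θ) (β / Θ) (by positivity) (by rw [div_lt_div_iff_of_pos_right hΘ]; exact hαβ)
  rw [div_lt_iff₀ hΘ] at h1
  rw [lt_div_iff₀ hΘ] at h2
  obtain ⟨k, w, q, d, f, hP, hk, hd, hf, hf2⟩ := scale_num P h0 hs i j hj u
  have hmem : (3 : ℝ) ^ d * 2 ^ i / 2 ^ f ∈ (((List.range j).product (List.range (2 * i + 2))).map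
      (fun p => (3 : ℝ) ^ p.1 * 2 ^ i / 2 ^ p.2)) :=
    List.mem_map.2 ⟨(d, f), List.mem_product.2 ⟨List.mem_range.2 hd, List.mem_range.2 hf2⟩, rfl⟩
  have hU := hL _ hmem
  have hμ : (0 : ℝ) < (3 : ℝ) ^ d * 2 ^ i / 2 ^ f := by positivity
  -- the scale
  have hbr : (b : ℝ) = 2 ^ i * 3 ^ j := by rw [hb]; push_cast; ring
  have hbq : (b : ℝ) ^ q = 2 ^ (i * q) * 3 ^ (j * q) := by
    rw [hbr, mul_pow, ← pow_mul, ← pow_mul]
  have hw : (2 : ℝ) ^ w * 2 ^ (i * q) * 2 ^ i = 2 ^ u * 2 ^ f := by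
    rw [← pow_add, ← pow_add, ← pow_add, hf]
  have e : Θ * 3 ^ k / 2 ^ w * b ^ n / b ^ q =
      (3 : ℝ) ^ d * 2 ^ i / 2 ^ f * ((b : ℝ) ^ n * (1 / 2) ^ u * Θ) := by
    rw [hbq, hk, pow_add, one_div, inv_pow]
    have hx : (2 : ℝ) ^ w * 2 ^ (i * q) ≠ 0 := by positivity
    have hy : (2 : ℝ) ^ f ≠ 0 := by positivity
    have hz : (3 : ℝ) ^ (j * q) ≠ 0 := by positivity
    have hu : (2 : ℝ) ^ u ≠ 0 := by positivity
    rw [div_mul_eq_mul_div, div_div, div_mul_eq_mul_div, div_eq_div_iff (by positivity) hy]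
    have hu2 : (2 : ℝ) ^ f = 2 ^ w * 2 ^ (i * q) * 2 ^ i * (2 ^ u)⁻¹ := by
      rw [hw]; field_simp
    rw [hu2]
    ring
  refine hU (Θ * 3 ^ k / 2 ^ w) n q (h k w hP) ?_ ?_
  · rw [e]; exact mul_lt_mul_of_pos_left h1 hμ
  · rw [e]; exact mul_lt_mul_of_pos_left h2 hμ

theorem gap_bwd (b i j : ℕ) (hb : b = 2 ^ i * 3 ^ j) (hj : 1 ≤ j) (S : Set ℕ) (Θ : ℝ) (hΘ : 0 < Θ)
    (P : ℕ → ℕ → Prop) (h0 : P 0 0) (hs : ∀ k w, P k w → P (k + 1) (w + 1) ∨ P (k + 1) (w + 2))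
    (h : ∀ k w, P k w → Hp b S (Θ * 2 ^ w / 3 ^ k)) :
    ∃ x₀ : ℕ, 0 < x₀ ∧ ∀ a v, v < b ^ a → Hit b S (b ^ a * x₀ + v) := by
  have hb3 : 3 ∣ b := by rw [hb]; exact Dvd.dvd.mul_left (dvd_pow_self 3 (by omega)) _
  have hb2 : 2 ≤ b := by
    have : 0 < b := by rw [hb]; positivity
    have := Nat.le_of_dvd this hb3
    omega
  by_contra hcon
  push Not at hcon
  obtain ⟨α, β, hα1, hαβ, -, hL⟩ := exists_un_list hb2 hcon
    (((List.range j).product (List.range (2 * i + 2))).map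
      (fun p => (2 : ℝ) ^ p.2 / (2 ^ i * 3 ^ p.1))) (by
        intro μ hμ
        obtain ⟨p, -, rfl⟩ := List.mem_map.1 hμ
        positivity) 1 2 one_pos (by norm_num)
  have hα : 0 < α := by linarith
  have hbr2 : (2 : ℝ) ≤ b := by exact_mod_cast hb2
  have hbr0 : (0 : ℝ) < b := by linarith
  obtain ⟨u, n, h1, h2⟩ := dense_pow_pow 2 (1 / (b : ℝ)) (by norm_num) (by positivity) (by
      rw [div_lt_one hbr0]; linarith) (by
      intro i' j' hi' he
      have h3 : (2 : ℝ) ^ i' = b ^ j' := by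
        rw [one_div, inv_pow, ← div_eq_mul_inv, div_eq_one_iff_eq (by positivity)] at he
        exact he
      have h4 : 2 ^ i' = b ^ j' := by exact_mod_cast h3
      rcases Nat.eq_zero_or_pos j' with h6 | h6
      · rw [h6, pow_zero] at h4
        have : 1 < 2 ^ i' := Nat.one_lt_two_pow (by omega)
        omega
      · have h5 : 3 ∣ 2 ^ i' := by rw [h4]; exact dvd_pow hb3 (by omega)
        have := Nat.Prime.dvd_of_dvd_pow Nat.prime_three h5
        omega) (α / Θ) (β / Θ) (by positivity) (by rw [div_lt_div_iff_of_pos_right hΘ]; exact hαβ)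
  rw [div_lt_iff₀ hΘ] at h1
  rw [lt_div_iff₀ hΘ] at h2
  obtain ⟨k, w, q, d, f, hP, hk, hd, hf, hf2⟩ := scale_num P h0 hs i j hj u
  have hmem : (2 : ℝ) ^ f / (2 ^ i * 3 ^ d) ∈ (((List.range j).product (List.range (2 * i + 2))).map
      (fun p => (2 : ℝ) ^ p.2 / (2 ^ i * 3 ^ p.1))) :=
    List.mem_map.2 ⟨(d, f), List.mem_product.2 ⟨List.mem_range.2 hd, List.mem_range.2 hf2⟩, rfl⟩
  have hU := hL _ hmem
  have hμ : (0 : ℝ) < (2 : ℝ) ^ f / (2 ^ i * 3 ^ d) := by positivity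
  have hbr : (b : ℝ) = 2 ^ i * 3 ^ j := by rw [hb]; push_cast; ring
  have hbq : (b : ℝ) ^ q = 2 ^ (i * q) * 3 ^ (j * q) := by
    rw [hbr, mul_pow, ← pow_mul, ← pow_mul]
  have hw : (2 : ℝ) ^ w * 2 ^ (i * q) * 2 ^ i = 2 ^ u * 2 ^ f := by
    rw [← pow_add, ← pow_add, ← pow_add, hf]
  have e : Θ * 2 ^ w / 3 ^ k * b ^ q / b ^ n =
      (2 : ℝ) ^ f / (2 ^ i * 3 ^ d) * (2 ^ u * (1 / (b : ℝ)) ^ n * Θ) := by
    rw [hbq, hk, pow_add, one_div, inv_pow]
    have hbn : (b : ℝ) ^ n ≠ 0 := by positivity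
    have hz : (3 : ℝ) ^ (j * q) ≠ 0 := by positivity
    have hz2 : (3 : ℝ) ^ d ≠ 0 := by positivity
    have hi2 : (2 : ℝ) ^ i ≠ 0 := by positivity
    have hu2 : (2 : ℝ) ^ w * 2 ^ (i * q) = 2 ^ u * 2 ^ f / 2 ^ i := by
      rw [← hw]; field_simp
    calc Θ * 2 ^ w / (3 ^ (j * q) * 3 ^ d) * (2 ^ (i * q) * 3 ^ (j * q)) / (b : ℝ) ^ n
        = Θ * (2 ^ w * 2 ^ (i * q)) / (3 ^ d) / (b : ℝ) ^ n := by field_simp
      _ = Θ * (2 ^ u * 2 ^ f / 2 ^ i) / (3 ^ d) / (b : ℝ) ^ n := by rw [hu2]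
      _ = _ := by field_simp
  refine hU (Θ * 2 ^ w / 3 ^ k) q n (h k w hP) ?_ ?_
  · rw [e]; exact mul_lt_mul_of_pos_left h1 hμ
  · rw [e]; exact mul_lt_mul_of_pos_left h2 hμ

/-! ### the scales -/

/-- the scale `2^w / 3^K` of `gi^[K]` -/
def PB (N : ℕ → ℕ) (K w : ℕ) : Prop :=
  ∃ (c : ℤ) (L : ℕ), ∀ l ≥ L, (3 : ℤ) ^ K * (gi^[K] (N l) : ℤ) = 2 ^ w * (N l : ℤ) + c

/-- the scale `3^k / 2^w` of `g^[k]` -/
def PF (N : ℕ → ℕ) (k w : ℕ) : Prop :=
  ∃ (c : ℤ) (L : ℕ), ∀ l ≥ L, (2 : ℤ) ^ w * (g^[k] (N l) : ℤ) = 3 ^ k * (N l : ℤ) + c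

theorem gi_formula (M e : ℕ) (he : M % 3 = e) :
    (e = 0 ∧ (3 : ℤ) * (gi M : ℤ) = 2 * M) ∨ (e = 1 ∧ (3 : ℤ) * (gi M : ℤ) = 4 * M - 1) ∨
      (e = 2 ∧ (3 : ℤ) * (gi M : ℤ) = 4 * M + 1) := by
  obtain ⟨m, h | h | h⟩ : ∃ m, M = 3 * m ∨ M = 3 * m + 1 ∨ M = 3 * m + 2 := ⟨M / 3, by omega⟩
  · left; refine ⟨by omega, ?_⟩; rw [h, gi_zero]; push_cast; ring
  · right; left; refine ⟨by omega, ?_⟩; rw [h, gi_one]; push_cast; ring
  · right; right; refine ⟨by omega, ?_⟩; rw [h, gi_two]; push_cast; ring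

theorem g_formula (M e : ℕ) (he : M % 4 = e) :
    ((e = 0 ∨ e = 2) ∧ (2 : ℤ) * (g M : ℤ) = 3 * M) ∨ (e = 1 ∧ (4 : ℤ) * (g M : ℤ) = 3 * M + 1) ∨
      (e = 3 ∧ (4 : ℤ) * (g M : ℤ) = 3 * M - 1) := by
  obtain ⟨m, h | h | h⟩ : ∃ m, M = 2 * m ∨ M = 4 * m + 1 ∨ M = 4 * m + 3 := by
    by_cases h2 : M % 2 = 0
    · exact ⟨M / 2, by omega⟩
    · exact ⟨M / 4, by omega⟩
  · left; refine ⟨by omega, ?_⟩; rw [h, g_even]; push_cast; ring
  · right; left; refine ⟨by omega, ?_⟩; rw [h, g_one]; push_cast; ring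
  · right; right; refine ⟨by omega, ?_⟩; rw [h, g_three]; push_cast; ring

/-- the pumped numbers are eventually constant modulo powers of a divisor of `b` -/
theorem const_mod {b a : ℕ} {B C : ℤ} {N : ℕ → ℕ} (ha : 1 ≤ a)
    (hform : ∀ l, ((b : ℤ) ^ a - 1) * (N l : ℤ) = B * b ^ (a * l) + C) (p : ℕ) (hp : p ∣ b)
    (n l l' : ℕ) (hl : n ≤ l) (hl' : n ≤ l') : (p : ℤ) ^ n ∣ ((N l : ℤ) - N l') := by
  have h1 : ((b : ℤ) ^ a - 1) * ((N l : ℤ) - N l') = B * (b ^ (a * l) - b ^ (a * l')) := by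
    have e1 := hform l
    have e2 := hform l'
    linear_combination e1 - e2
  have hpz : (p : ℤ) ∣ (b : ℤ) := Int.natCast_dvd_natCast.2 hp
  have hd : ∀ m, n ≤ m → (p : ℤ) ^ n ∣ (b : ℤ) ^ (a * m) := by
    intro m hm
    exact (pow_dvd_pow _ (by nlinarith)).trans (pow_dvd_pow_of_dvd hpz _)
  have h2 : (p : ℤ) ^ n ∣ ((b : ℤ) ^ a - 1) * ((N l : ℤ) - N l') := by
    rw [h1]
    exact Dvd.dvd.mul_left (dvd_sub (hd l hl) (hd l' hl')) _
  have h3 : IsCoprime ((p : ℤ) ^ n) ((b : ℤ) ^ a - 1) := by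
    apply IsCoprime.pow_left
    obtain ⟨a', rfl⟩ : ∃ a', a = a' + 1 := ⟨a - 1, by omega⟩
    obtain ⟨c, hc⟩ := hpz
    refine ⟨c * (b : ℤ) ^ a', -1, ?_⟩
    have : (b : ℤ) ^ (a' + 1) = p * c * b ^ a' := by
      rw [pow_succ]
      conv_lhs => rw [hc]
      rw [← hc]; ring
    rw [this]; ring
  exact h3.dvd_of_dvd_mul_left h2

theorem PB_succ {b a : ℕ} {B C : ℤ} {N : ℕ → ℕ} (ha : 1 ≤ a) (hb : 3 ∣ b)
    (hform : ∀ l, ((b : ℤ) ^ a - 1) * (N l : ℤ) = B * b ^ (a * l) + C) {K w : ℕ} (h : PB N K w) :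
    PB N (K + 1) (w + 1) ∨ PB N (K + 1) (w + 2) := by
  obtain ⟨c, L, hL⟩ := h
  set L' := max L (K + 1) with hL'
  have hL1 : L ≤ L' := le_max_left _ _
  have hL2 : K + 1 ≤ L' := le_max_right _ _
  have hres : ∀ l ≥ L', gi^[K] (N l) % 3 = gi^[K] (N L') % 3 := by
    intro l hl
    obtain ⟨t, ht⟩ : ((3 : ℕ) : ℤ) ^ (K + 1) ∣ ((N l : ℤ) - N L') :=
      const_mod ha hform 3 hb (K + 1) l L' (hL2.trans hl) hL2
    push_cast at ht
    have h4 : (3 : ℤ) ^ K * ((gi^[K] (N l) : ℤ) - gi^[K] (N L')) = 3 ^ K * (3 * (2 ^ w * t)) := by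
      have e1 := hL l (hL1.trans hl)
      have e2 := hL L' hL1
      rw [mul_sub, e1, e2]
      have : (2 : ℤ) ^ w * (N l : ℤ) + c - (2 ^ w * (N L' : ℤ) + c) = 2 ^ w * ((N l : ℤ) - N L') := by
        ring
      rw [this, ht, pow_succ]; ring
    have h5 : ((gi^[K] (N l) : ℤ) - gi^[K] (N L')) = 3 * (2 ^ w * t) :=
      mul_left_cancel₀ (by positivity) h4
    omega
  rcases gi_formula (gi^[K] (N L')) _ rfl with h0 | h0 | h0
  · left
    refine ⟨2 * c, L', fun l hl => ?_⟩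
    rw [Function.iterate_succ_apply']
    rcases gi_formula (gi^[K] (N l)) _ rfl with h1 | h1 | h1
    · have e1 := hL l (hL1.trans hl)
      have e2 := h1.2
      rw [pow_succ (3 : ℤ) K, pow_succ (2 : ℤ) w]
      linear_combination (3 : ℤ) ^ K * e2 + 2 * e1
    · have := hres l hl; omega
    · have := hres l hl; omega
  · right
    refine ⟨4 * c - 3 ^ K, L', fun l hl => ?_⟩
    rw [Function.iterate_succ_apply']
    rcases gi_formula (gi^[K] (N l)) _ rfl with h1 | h1 | h1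
    · have := hres l hl; omega
    · have e1 := hL l (hL1.trans hl)
      have e2 := h1.2
      rw [pow_succ (3 : ℤ) K, pow_add (2 : ℤ) w 2]
      linear_combination (3 : ℤ) ^ K * e2 + 4 * e1
    · have := hres l hl; omega
  · right
    refine ⟨4 * c + 3 ^ K, L', fun l hl => ?_⟩
    rw [Function.iterate_succ_apply']
    rcases gi_formula (gi^[K] (N l)) _ rfl with h1 | h1 | h1
    · have := hres l hl; omega
    · have := hres l hl; omega
    · have e1 := hL l (hL1.trans hl)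
      have e2 := h1.2
      rw [pow_succ (3 : ℤ) K, pow_add (2 : ℤ) w 2]
      linear_combination (3 : ℤ) ^ K * e2 + 4 * e1

theorem PF_succ {b a : ℕ} {B C : ℤ} {N : ℕ → ℕ} (ha : 1 ≤ a) (hb : 2 ∣ b)
    (hform : ∀ l, ((b : ℤ) ^ a - 1) * (N l : ℤ) = B * b ^ (a * l) + C) {k w : ℕ} (h : PF N k w) :
    PF N (k + 1) (w + 1) ∨ PF N (k + 1) (w + 2) := by
  obtain ⟨c, L, hL⟩ := h
  set L' := max L (w + 2) with hL'
  have hL1 : L ≤ L' := le_max_left _ _
  have hL2 : w + 2 ≤ L' := le_max_right _ _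
  have hres : ∀ l ≥ L', g^[k] (N l) % 4 = g^[k] (N L') % 4 := by
    intro l hl
    obtain ⟨t, ht⟩ : ((2 : ℕ) : ℤ) ^ (w + 2) ∣ ((N l : ℤ) - N L') :=
      const_mod ha hform 2 hb (w + 2) l L' (hL2.trans hl) hL2
    push_cast at ht
    have h5 : (2 : ℤ) ^ w * ((g^[k] (N l) : ℤ) - g^[k] (N L')) = 2 ^ w * (4 * (3 ^ k * t)) := by
      have e1 := hL l (hL1.trans hl)
      have e2 := hL L' hL1
      rw [mul_sub, e1, e2]
      have : (3 : ℤ) ^ k * (N l : ℤ) + c - (3 ^ k * (N L' : ℤ) + c) =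
          3 ^ k * ((N l : ℤ) - N L') := by ring
      rw [this, ht, pow_add]; ring
    have h6 : ((g^[k] (N l) : ℤ) - g^[k] (N L')) = 4 * (3 ^ k * t) :=
      mul_left_cancel₀ (by positivity) h5
    omega
  rcases g_formula (g^[k] (N L')) _ rfl with h0 | h0 | h0
  · left
    refine ⟨3 * c, L', fun l hl => ?_⟩
    rw [Function.iterate_succ_apply']
    rcases g_formula (g^[k] (N l)) _ rfl with h1 | h1 | h1
    · have e1 := hL l (hL1.trans hl)
      have e2 := h1.2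
      rw [pow_succ (3 : ℤ) k, pow_succ (2 : ℤ) w]
      linear_combination (2 : ℤ) ^ w * e2 + 3 * e1
    · have := hres l hl; omega
    · have := hres l hl; omega
  · right
    refine ⟨3 * c + 2 ^ w, L', fun l hl => ?_⟩
    rw [Function.iterate_succ_apply']
    rcases g_formula (g^[k] (N l)) _ rfl with h1 | h1 | h1
    · have := hres l hl; omega
    · have e1 := hL l (hL1.trans hl)
      have e2 := h1.2
      rw [pow_succ (3 : ℤ) k, pow_add (2 : ℤ) w 2]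
      linear_combination (2 : ℤ) ^ w * e2 + 3 * e1
    · have := hres l hl; omega
  · right
    refine ⟨3 * c - 2 ^ w, L', fun l hl => ?_⟩
    rw [Function.iterate_succ_apply']
    rcases g_formula (g^[k] (N l)) _ rfl with h1 | h1 | h1
    · have := hres l hl; omega
    · have := hres l hl; omega
    · have e1 := hL l (hL1.trans hl)
      have e2 := h1.2
      rw [pow_succ (3 : ℤ) k, pow_add (2 : ℤ) w 2]
      linear_combination (2 : ℤ) ^ w * e2 + 3 * e1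

end SomeDenseB

open SomeDenseB

theorem some_denseB_bwd (b i j : ℕ) (hb : b = 2 ^ i * 3 ^ j) (hi : 1 ≤ i) (hj : 1 ≤ j) (S : Set ℕ)
    (hA : AutomaticIn b S) (hS : ∀ n ∈ S, gi n ∈ S) (hinf : S.Infinite) :
    ∃ x₀ : ℕ, 0 < x₀ ∧ ∀ a v, v < b ^ a →
      ∃ k r : ℕ, r < b ^ k ∧ b ^ k * (b ^ a * x₀ + v) + r ∈ S := by
  have hb3 : 3 ∣ b := by rw [hb]; exact Dvd.dvd.mul_left (dvd_pow_self 3 (by omega)) _
  have hb2 : 2 ≤ b := by
    have : 0 < b := by rw [hb]; positivity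
    have := Nat.le_of_dvd this hb3
    omega
  have hbr : (2 : ℝ) ≤ b := by exact_mod_cast hb2
  obtain ⟨a, B, C, N, ha, hB, hN, hform⟩ := pump b hb2 S hA hinf
  have hD : (0 : ℝ) < (b : ℝ) ^ a - 1 := by
    have : (b : ℝ) ^ 1 ≤ (b : ℝ) ^ a := pow_le_pow_right₀ (by linarith) ha
    rw [pow_one] at this; linarith
  have hBr : (0 : ℝ) < (B : ℝ) := by exact_mod_cast hB
  refine gap_bwd b i j hb hj S (B / ((b : ℝ) ^ a - 1)) (by positivity) (PB N)
    ⟨0, 0, fun l _ => by simp⟩ (fun K w h => PB_succ ha hb3 hform h) ?_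
  rintro K w ⟨c, L, hL⟩
  refine close b hb2 S _ ((2 ^ w * (C / ((b : ℝ) ^ a - 1)) + c) / 3 ^ K) (fun L0 => ?_)
  refine ⟨a * max L L0, ?_, gi^[K] (N (max L L0)), iter_mem hS K (hN _), ?_⟩
  · have : L0 ≤ max L L0 := le_max_right _ _
    nlinarith
  · have e1 := hL (max L L0) (le_max_left _ _)
    have e2 := hform (max L L0)
    have e1r : (3 : ℝ) ^ K * (gi^[K] (N (max L L0)) : ℝ) = 2 ^ w * (N (max L L0) : ℝ) + c := by
      exact_mod_cast e1
    have e2r : ((b : ℝ) ^ a - 1) * (N (max L L0) : ℝ) = B * b ^ (a * max L L0) + C := by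
      exact_mod_cast e2
    have hDne : (b : ℝ) ^ a - 1 ≠ 0 := hD.ne'
    have hKne : (3 : ℝ) ^ K ≠ 0 := by positivity
    have e3 : (N (max L L0) : ℝ) = (B * b ^ (a * max L L0) + C) / ((b : ℝ) ^ a - 1) := by
      rw [← e2r]; field_simp
    have e4 : (gi^[K] (N (max L L0)) : ℝ) = (2 ^ w * (N (max L L0) : ℝ) + c) / 3 ^ K := by
      rw [← e1r]; field_simp
    rw [e4, e3]
    field_simp
    ring

theorem some_denseB_fwd (b i j : ℕ) (hb : b = 2 ^ i * 3 ^ j) (hi : 1 ≤ i) (hj : 1 ≤ j) (S : Set ℕ)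
    (hA : AutomaticIn b S) (hS : ∀ n ∈ S, g n ∈ S) (hinf : S.Infinite) :
    ∃ x₀ : ℕ, 0 < x₀ ∧ ∀ a v, v < b ^ a →
      ∃ k r : ℕ, r < b ^ k ∧ b ^ k * (b ^ a * x₀ + v) + r ∈ S := by
  have hb3 : 3 ∣ b := by rw [hb]; exact Dvd.dvd.mul_left (dvd_pow_self 3 (by omega)) _
  have hb2' : 2 ∣ b := by rw [hb]; exact Dvd.dvd.mul_right (dvd_pow_self 2 (by omega)) _
  have hb2 : 2 ≤ b := by
    have : 0 < b := by rw [hb]; positivity
    have := Nat.le_of_dvd this hb3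
    omega
  have hbr : (2 : ℝ) ≤ b := by exact_mod_cast hb2
  obtain ⟨a, B, C, N, ha, hB, hN, hform⟩ := pump b hb2 S hA hinf
  have hD : (0 : ℝ) < (b : ℝ) ^ a - 1 := by
    have : (b : ℝ) ^ 1 ≤ (b : ℝ) ^ a := pow_le_pow_right₀ (by linarith) ha
    rw [pow_one] at this; linarith
  have hBr : (0 : ℝ) < (B : ℝ) := by exact_mod_cast hB
  refine gap_fwd b i j hb hj S (B / ((b : ℝ) ^ a - 1)) (by positivity) (PF N)
    ⟨0, 0, fun l _ => by simp⟩ (fun k w h => PF_succ ha hb2' hform h) ?_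
  rintro k w ⟨c, L, hL⟩
  refine close b hb2 S _ ((3 ^ k * (C / ((b : ℝ) ^ a - 1)) + c) / 2 ^ w) (fun L0 => ?_)
  refine ⟨a * max L L0, ?_, g^[k] (N (max L L0)), iter_mem hS k (hN _), ?_⟩
  · have : L0 ≤ max L L0 := le_max_right _ _
    nlinarith
  · have e1 := hL (max L L0) (le_max_left _ _)
    have e2 := hform (max L L0)
    have e1r : (2 : ℝ) ^ w * (g^[k] (N (max L L0)) : ℝ) = 3 ^ k * (N (max L L0) : ℝ) + c := by
      exact_mod_cast e1
    have e2r : ((b : ℝ) ^ a - 1) * (N (max L L0) : ℝ) = B * b ^ (a * max L L0) + C := by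
      exact_mod_cast e2
    have hDne : (b : ℝ) ^ a - 1 ≠ 0 := hD.ne'
    have hwne : (2 : ℝ) ^ w ≠ 0 := by positivity
    have e3 : (N (max L L0) : ℝ) = (B * b ^ (a * max L L0) + C) / ((b : ℝ) ^ a - 1) := by
      rw [← e2r]; field_simp
    have e4 : (g^[k] (N (max L L0)) : ℝ) = (3 ^ k * (N (max L L0) : ℝ) + c) / 2 ^ w := by
      rw [← e1r]; field_simp
    rw [e4, e3]
    field_simp
    ring

end ConwayAuto
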