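import Pool.Agent.Lib.ConwayAuto.Final
import Pool.Agent.Lib.ConwayAuto.Final3
import Pool.Agent.Lib.ConwayAuto.FinalB
import Pool.Agent.Lib.ConwayAuto.PowBase

/-!
For every base `b ≥ 2` with no prime factor except `2` and `3`, a `b`-automatic set of naturals which is
closed under Conway's map is finite or cofinite.
-/

namespace ConwayAuto

namespace Summary

theorem smooth_form (b : ℕ) (hb : 2 ≤ b) (hsm : ∀ p : ℕ, p.Prime → p ∣ b → p = 2 ∨ p = 3) :
    ∃ i j : ℕ, b = 2 ^ i * 3 ^ j := by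
  obtain ⟨i, b₁, hb₁, hbe⟩ := Nat.exists_eq_pow_mul_and_not_dvd (by omega : b ≠ 0) 2 (by norm_num)
  have hb₁0 : b₁ ≠ 0 := by rintro rfl; simp at hb₁
  obtain ⟨j, b₂, hb₂, hb₁e⟩ := Nat.exists_eq_pow_mul_and_not_dvd hb₁0 3 (by norm_num)
  have h1 : b₂ = 1 := by
    by_contra hne
    obtain ⟨p, hp, hpd⟩ := Nat.exists_prime_and_dvd hne
    have hpb₁ : p ∣ b₁ := by rw [hb₁e]; exact Dvd.dvd.mul_left hpd _
    have hpb : p ∣ b := by rw [hbe]; exact Dvd.dvd.mul_left hpb₁ _
    rcases hsm p hp hpb with h | h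
    · rw [h] at hpb₁; exact hb₁ hpb₁
    · rw [h] at hpd; exact hb₂ hpd
  exact ⟨i, j, by rw [hbe, hb₁e, h1, mul_one]⟩

end Summary

/-- For `b ≥ 2` with all prime factors in `{2, 3}`, a `b`-automatic set closed under Conway's map is
finite or cofinite. -/
theorem smooth_base (b : ℕ) (hb : 2 ≤ b) (hsm : ∀ p : ℕ, p.Prime → p ∣ b → p = 2 ∨ p = 3)
    (S : Set ℕ) (hA : AutomaticIn b S) (hS : ∀ n ∈ S, g n ∈ S) : S.Finite ∨ Sᶜ.Finite := by
  obtain ⟨i, j, hbe⟩ := Summary.smooth_form b hb hsm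
  rcases Nat.eq_zero_or_pos j with hj | hj
  · rw [hj, pow_zero, mul_one] at hbe
    have hi : 1 ≤ i := by
      rcases Nat.eq_zero_or_pos i with h | h
      · rw [h, pow_zero] at hbe; omega
      · exact h
    rw [hbe] at hA
    exact finite_or_cofinite S (automaticIn_two.1 (automatic_of_pow 2 i (by norm_num) hi S hA)) hS
  · rcases Nat.eq_zero_or_pos i with hi | hi
    · rw [hi, pow_zero, one_mul] at hbe
      rw [hbe] at hA
      exact finite_or_cofinite3 S
        (automaticIn_three.1 (automatic_of_pow 3 j (by norm_num) hj S hA)) hS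
    · exact finite_or_cofiniteB b i j hbe hi hj S hA hS

/-- For no `b ≥ 2` with all prime factors in `{2, 3}` is there a `b`-automatic set which is closed
under Conway's map and contains `12 = g 8` but not `8`. -/
theorem no_smooth_invariant :
    ¬ ∃ (b : ℕ) (S : Set ℕ), 2 ≤ b ∧ (∀ p : ℕ, p.Prime → p ∣ b → p = 2 ∨ p = 3) ∧
      AutomaticIn b S ∧ (∀ n ∈ S, g n ∈ S) ∧ 12 ∈ S ∧ 8 ∉ S := by
  rintro ⟨b, S, hb, hsm, hA, hS, h12, h8⟩
  have hg8 : g 8 = 12 := g_even 4
  rcases smooth_base b hb hsm S hA hS with hfin | hfin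
  · have h := Final.image_eq_of_closed g_injective hfin hS
    rw [← h] at h12
    obtain ⟨s, hs, hs12⟩ := h12
    have : s = 8 := g_injective (hs12.trans hg8.symm)
    rw [this] at hs
    exact h8 hs
  · have hS' : ∀ n ∈ Sᶜ, gi n ∈ Sᶜ := by
      intro n hn' h
      apply hn'
      rw [← g_gi n]
      exact hS _ h
    have h := Final.image_eq_of_closed gi_injective hfin hS'
    have h8' : 8 ∈ Sᶜ := h8
    rw [← h] at h8'
    obtain ⟨s, hs, hs8⟩ := h8'
    have : s = 12 := by rw [← g_gi s, hs8, hg8]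
    rw [this] at hs
    exact hs h12

end ConwayAuto
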