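import Pool.Agent.Lib.ConwayAuto.Defs
import Pool.Agent.Lib.ConwayAuto.DensePow
import Pool.Agent.Lib.ConwayAuto.Good
import Pool.Agent.Lib.ConwayAuto.Mid
import Pool.Agent.Lib.ConwayAuto.GraphB

/-!
Eventual windows of periodicity for a 2-automatic set closed under Conway's map.
-/

namespace ConwayAuto

namespace Windows

/-- `p` is a period of `S` on the block of `Y` at level `j` -/
def Per (S : Set ℕ) (j Y p : ℕ) : Prop :=
  ∀ z, 2 ^ j * Y ≤ z → z < 2 ^ j * (Y + 1) → (z ∈ S ↔ z + p ∈ S)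

theorem per_of_eqv {S : Set ℕ} {j Y Y' p : ℕ} (hp : p ≤ 2 ^ j) (h : Eqv S Y Y')
    (hY : Per S j Y p) : Per S j Y' p := by
  intro z hz1 hz2
  have h2 : 2 ^ (j + 1) = 2 * 2 ^ j := by rw [pow_succ]; ring
  have h3 : 2 ^ j * (Y' + 1) = 2 ^ j * Y' + 2 ^ j := by ring
  have h4 : 2 ^ j * (Y + 1) = 2 ^ j * Y + 2 ^ j := by ring
  obtain ⟨r, rfl⟩ : ∃ r, z = 2 ^ j * Y' + r := ⟨z - 2 ^ j * Y', by omega⟩
  have hr : r < 2 ^ j := by omega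
  have e1 := h j r (by omega)
  have e2 := h j (r + p) (by omega)
  have e3 := hY (2 ^ j * Y + r) (by omega) (by omega)
  rw [← e1, e3, add_assoc, add_assoc]
  exact e2

theorem per_iter {S : Set ℕ} {j Y p : ℕ} (hY : Per S j Y p) (k : ℕ) :
    ∀ z, 2 ^ j * Y ≤ z → z + k * p < 2 ^ j * (Y + 1) → (z ∈ S ↔ z + k * p ∈ S) := by
  induction k with
  | zero => intro z _ _; simp
  | succ k ih =>
    intro z h1 h2
    have e : (k + 1) * p = k * p + p := by ring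
    rw [e] at h2 ⊢
    have i1 := ih z h1 (by omega)
    have i2 := hY (z + k * p) (by omega) (by omega)
    rw [i1, i2, add_assoc]

/-- good starting points for every large `L` -/
theorem exists_start {m n h W ρ C u L : ℕ} (h3 : 3 ^ n = 2 ^ m + h) (hh : h ≤ 2 ^ m)
    (hL : 2 * (2 ^ W + ρ) + C + 2 ≤ L) :
    ∃ k : ℕ, 2 ^ L * u ≤ 3 ^ n * (2 ^ W * k + ρ) / 2 ^ m ∧
      3 ^ n * (2 ^ W * k + ρ) / 2 ^ m + C + 1 < 2 ^ L * (u + 1) := by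
  have hpos : 0 < 3 ^ n * 2 ^ W := by positivity
  have hm : 0 < 2 ^ m := by positivity
  refine ⟨2 ^ m * (2 ^ L * u) / (3 ^ n * 2 ^ W) + 1, ?_, ?_⟩
  · rw [Nat.le_div_iff_mul_le hm]
    have h1 := Nat.lt_succ_iff.mp (Nat.lt_succ_of_le
      (Nat.lt_mul_div_succ (2 ^ m * (2 ^ L * u)) hpos).le)
    calc 2 ^ L * u * 2 ^ m = 2 ^ m * (2 ^ L * u) := by ring
      _ ≤ 3 ^ n * 2 ^ W * (2 ^ m * (2 ^ L * u) / (3 ^ n * 2 ^ W) + 1) := h1
      _ ≤ 3 ^ n * (2 ^ W * (2 ^ m * (2 ^ L * u) / (3 ^ n * 2 ^ W) + 1) + ρ) := by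
        rw [mul_assoc (3 ^ n)]; exact Nat.mul_le_mul_left _ (Nat.le_add_right _ _)
  · have h1 := Nat.mul_div_le (2 ^ m * (2 ^ L * u)) (3 ^ n * 2 ^ W)
    set k := 2 ^ m * (2 ^ L * u) / (3 ^ n * 2 ^ W) with hk
    have h2 : 3 ^ n * (2 ^ W * (k + 1) + ρ) ≤ 2 ^ m * (2 ^ L * u + 2 * (2 ^ W + ρ)) := by
      have e1 : 3 ^ n * (2 ^ W * (k + 1) + ρ) = 3 ^ n * 2 ^ W * k + 3 ^ n * (2 ^ W + ρ) := by ring
      have e2 : 3 ^ n * (2 ^ W + ρ) ≤ 2 * 2 ^ m * (2 ^ W + ρ) :=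
        Nat.mul_le_mul_right _ (by omega)
      have e3 : 2 ^ m * (2 ^ L * u + 2 * (2 ^ W + ρ))
          = 2 ^ m * (2 ^ L * u) + 2 * 2 ^ m * (2 ^ W + ρ) := by ring
      omega
    have h4 : 3 ^ n * (2 ^ W * (k + 1) + ρ) / 2 ^ m ≤ 2 ^ L * u + 2 * (2 ^ W + ρ) := by
      calc 3 ^ n * (2 ^ W * (k + 1) + ρ) / 2 ^ m
          ≤ 2 ^ m * (2 ^ L * u + 2 * (2 ^ W + ρ)) / 2 ^ m := Nat.div_le_div_right h2
        _ = 2 ^ L * u + 2 * (2 ^ W + ρ) := Nat.mul_div_cancel_left _ hm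
    have h5 : L < 2 ^ L := Nat.lt_two_pow_self
    have h6 : 2 ^ L * (u + 1) = 2 ^ L * u + 2 ^ L := by ring
    omega

/-- propagation of the period of the second quarter of a block -/
theorem propagate {S : Set ℕ} {ι : Type} (c : ℕ → ι) (hc : ∀ x y, c x = c y ↔ Eqv S x y)
    {m s e X p : ℕ} (hs2 : 2 ≤ s) (hsm : s ≤ m) (hp : p ≤ 2 ^ (m - s))
    (hG : ∀ l r, r < 2 ^ (s + e * l) → ∃ r', 2 ^ (s - 2) ≤ r' ∧ r' < 2 ^ (s - 1) ∧
      c (2 ^ (s + e * l) * X + r) = c (2 ^ s * X + r'))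
    (hq : ∀ z, 2 ^ m * X + 2 ^ (m - 2) ≤ z → z < 2 ^ m * X + 2 ^ (m - 1) → (z ∈ S ↔ z + p ∈ S))
    (l : ℕ) : Per S (m + e * l) X p := by
  intro z hz1 hz2
  have ht : 0 < 2 ^ (m - s) := by positivity
  have em : 2 ^ (m + e * l) = 2 ^ (m - s) * 2 ^ (s + e * l) := by
    rw [← pow_add]; congr 1; omega
  set Y := z / 2 ^ (m - s) with hY
  have hYz : 2 ^ (m - s) * Y ≤ z := Nat.mul_div_le _ _
  have hYz' : z < 2 ^ (m - s) * (Y + 1) := Nat.lt_mul_div_succ z ht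
  have hY1 : 2 ^ (s + e * l) * X ≤ Y := by
    rw [hY, Nat.le_div_iff_mul_le ht]
    calc 2 ^ (s + e * l) * X * 2 ^ (m - s) = 2 ^ (m - s) * 2 ^ (s + e * l) * X := by ring
      _ = 2 ^ (m + e * l) * X := by rw [em]
      _ ≤ z := hz1
  have hY2 : Y < 2 ^ (s + e * l) * (X + 1) := by
    rw [hY, Nat.div_lt_iff_lt_mul ht]
    calc z < 2 ^ (m + e * l) * (X + 1) := hz2
      _ = 2 ^ (s + e * l) * (X + 1) * 2 ^ (m - s) := by rw [em]; ring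
  obtain ⟨r, hr⟩ : ∃ r, Y = 2 ^ (s + e * l) * X + r := ⟨Y - 2 ^ (s + e * l) * X, by omega⟩
  have hrlt : r < 2 ^ (s + e * l) := by
    have : 2 ^ (s + e * l) * (X + 1) = 2 ^ (s + e * l) * X + 2 ^ (s + e * l) := by ring
    omega
  obtain ⟨r', hr1, hr2, hcc⟩ := hG l r hrlt
  rw [← hr, hc] at hcc
  have hP : Per S (m - s) (2 ^ s * X + r') p := by
    intro z' h1 h2
    apply hq
    · refine le_trans ?_ h1
      have e1 : 2 ^ m = 2 ^ (m - s) * 2 ^ s := by rw [← pow_add]; congr 1; omega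
      have e2 : 2 ^ (m - 2) = 2 ^ (m - s) * 2 ^ (s - 2) := by rw [← pow_add]; congr 1; omega
      rw [e1, e2, mul_assoc, ← mul_add]
      exact Nat.mul_le_mul_left _ (by omega)
    · refine lt_of_lt_of_le h2 ?_
      have e1 : 2 ^ m = 2 ^ (m - s) * 2 ^ s := by rw [← pow_add]; congr 1; omega
      have e2 : 2 ^ (m - 1) = 2 ^ (m - s) * 2 ^ (s - 1) := by rw [← pow_add]; congr 1; omega
      rw [e1, e2, mul_assoc, ← mul_add]
      exact Nat.mul_le_mul_left _ (by omega)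
  exact per_of_eqv hp hcc.symm hP z hYz hYz'

/-- a period on a large block is a period on a subblock -/
theorem per_sub {S : Set ℕ} {j b X x v p : ℕ} (hv : v < 2 ^ b) (hx : x = 2 ^ b * X + v)
    (hX : Per S (j + b) X p) : Per S j x p := by
  intro z h1 h2
  subst hx
  apply hX
  · refine le_trans ?_ h1
    rw [pow_add, mul_assoc]
    exact Nat.mul_le_mul_left _ (by omega)
  · refine lt_of_lt_of_le h2 ?_
    rw [pow_add, mul_assoc]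
    refine Nat.mul_le_mul_left _ ?_
    have : 2 ^ b * (X + 1) = 2 ^ b * X + 2 ^ b := by ring
    omega

theorem level_arith {e m j a b Lx LT T : ℕ} (hj : m ≤ j) (hab : a + b = Lx)
    (ha : a % e = LT % e) (hT : T = (j + Lx) % e) (hLT : (m + LT) % e = T) :
    ∃ l, j + b = m + e * l := by
  have h1 : (m + a) ≡ (j + b) + a [MOD e] := by
    have e1 : (m + a) ≡ (m + LT) [MOD e] := Nat.ModEq.add_left m ha
    have e2 : (m + LT) ≡ (j + Lx) [MOD e] := by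
      unfold Nat.ModEq; rw [hLT, hT]
    have e3 : j + Lx = (j + b) + a := by omega
    rw [← e3]
    exact e1.trans e2
  have h2 : m ≡ j + b [MOD e] := Nat.ModEq.add_right_cancel' a h1
  have h3 := (Nat.modEq_iff_dvd' (by omega : m ≤ j + b)).mp h2
  obtain ⟨l, hl⟩ := h3
  exact ⟨l, by omega⟩

/-- the windows theorem from its four ingredients (`approx`, `exists_good`, `mid_periodic`,
`graph`) -/
theorem windows_of (S : Set ℕ) (hA : TwoAutomatic S) (hD : NowhereDense2 (Entry S))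
    (approx : ∀ K : ℕ, ∃ m n h : ℕ, 3 ^ n = 2 ^ m + h ∧ 0 < h ∧ K * h ≤ 2 ^ m)
    (exists_good : ∀ D : Set ℕ, NowhereDense2 D → ∀ n C : ℕ,
      ∃ W ρ : ℕ, ∀ m, ∀ i ≤ C, Good D n (2 ^ W * m + ρ + i))
    (mid_periodic : ∃ C : ℕ, ∀ m n h : ℕ, 2 ≤ m → 3 ^ n = 2 ^ m + h → 0 < h →
      C * h ≤ 2 ^ (m - 2) → ∀ y : ℕ, (∀ i ≤ C + 1, Good (Entry S) n (y + i)) →
        ∃ X p : ℕ, 0 < p ∧ p ≤ C * h ∧ 3 ^ n * y / 2 ^ m < X ∧ X ≤ 3 ^ n * y / 2 ^ m + C + 1 ∧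
          ∀ z, 2 ^ m * X + 2 ^ (m - 2) ≤ z → z < 2 ^ m * X + 2 ^ (m - 1) → (z ∈ S ↔ z + p ∈ S))
    (graph : ∀ (ι : Type) (_ : Finite ι) (c : ℕ → ι),
      (∀ x y, c x = c y → ∀ a v, v < 2 ^ a → c (2 ^ a * x + v) = c (2 ^ a * y + v)) →
      ∃ e s₀ u : ℕ, 0 < e ∧ 0 < u ∧
        (∀ L V, V < 2 ^ L → ∃ s, 2 ≤ s ∧ s ≤ s₀ ∧ ∀ l r, r < 2 ^ (s + e * l) →
          ∃ r', 2 ^ (s - 2) ≤ r' ∧ r' < 2 ^ (s - 1) ∧
            c (2 ^ (s + e * l) * (2 ^ L * u + V) + r) = c (2 ^ s * (2 ^ L * u + V) + r')) ∧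
        (∀ L V : ℕ → ℕ, (∀ T, V T < 2 ^ L T) →
          ∃ x Lx Vx : ℕ, Vx < 2 ^ Lx ∧ x = 2 ^ Lx * u + Vx ∧
            ∀ T < e, ∃ a b X v : ℕ, a + b = Lx ∧ a % e = L T % e ∧ v < 2 ^ b ∧
              x = 2 ^ b * X + v ∧ c X = c (2 ^ L T * u + V T))) :
    ∃ x P j₀ : ℕ, 0 < x ∧ 0 < P ∧
      ∀ j ≥ j₀, ∀ z, 2 ^ j * x ≤ z → z < 2 ^ j * (x + 1) → (z ∈ S ↔ z + P ∈ S) := by
  obtain ⟨ι, hfin, c, hc⟩ := hA.coloring
  obtain ⟨e, s₀, u, he, hu, G1, G2⟩ := graph ι hfin c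
    (fun x y hxy a v hv => (hc _ _).mpr (((hc _ _).mp hxy).desc hv))
  obtain ⟨C, M⟩ := mid_periodic
  obtain ⟨m, n, h, h3, hpos, hK⟩ := approx ((C + 1) * 2 ^ (s₀ + 3))
  have hs0 : 2 ^ (s₀ + 3) ≤ 2 ^ m := by
    calc 2 ^ (s₀ + 3) = 1 * 2 ^ (s₀ + 3) * 1 := by ring
      _ ≤ (C + 1) * 2 ^ (s₀ + 3) * h :=
        Nat.mul_le_mul (Nat.mul_le_mul_right _ (by omega)) hpos
      _ ≤ 2 ^ m := hK
  have hm : s₀ + 3 ≤ m := (Nat.pow_le_pow_iff_right (by norm_num)).mp hs0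
  have hem : 2 ^ m = 2 ^ (m - (s₀ + 3)) * 2 ^ (s₀ + 3) := by rw [← pow_add]; congr 1; omega
  have hC1 : (C + 1) * h ≤ 2 ^ (m - (s₀ + 3)) := by
    have hp : 0 < 2 ^ (s₀ + 3) := by positivity
    apply Nat.le_of_mul_le_mul_right _ hp
    rw [← hem]
    calc (C + 1) * h * 2 ^ (s₀ + 3) = (C + 1) * 2 ^ (s₀ + 3) * h := by ring
      _ ≤ 2 ^ m := hK
  have hCh : C * h ≤ 2 ^ (m - (s₀ + 3)) :=
    le_trans (Nat.mul_le_mul_right _ (by omega)) hC1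
  have hhm : h ≤ 2 ^ m := by
    calc h = 1 * h := by ring
      _ ≤ (C + 1) * h := Nat.mul_le_mul_right _ (by omega)
      _ ≤ 2 ^ (m - (s₀ + 3)) := hC1
      _ ≤ 2 ^ m := Nat.pow_le_pow_right (by norm_num) (by omega)
  have hCh2 : C * h ≤ 2 ^ (m - 2) := hCh.trans (Nat.pow_le_pow_right (by norm_num) (by omega))
  obtain ⟨W, ρ, hg⟩ := exists_good (Entry S) hD n (C + 1)
  -- the levels
  let L : ℕ → ℕ := fun T => T + (e - 1) * m + e * (2 * (2 ^ W + ρ) + C + 2)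
  have hLT : ∀ T < e, (m + L T) % e = T := by
    intro T hT
    have e1 : m + L T = T + e * (m + (2 * (2 ^ W + ρ) + C + 2)) := by
      obtain ⟨e', rfl⟩ : ∃ e', e = e' + 1 := ⟨e - 1, by omega⟩
      simp only [L, Nat.add_sub_cancel]; ring
    rw [e1, Nat.add_mul_mod_self_left, Nat.mod_eq_of_lt hT]
  have hLbig : ∀ T, 2 * (2 ^ W + ρ) + C + 2 ≤ L T := by
    intro T
    have : 1 * (2 * (2 ^ W + ρ) + C + 2) ≤ e * (2 * (2 ^ W + ρ) + C + 2) :=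
      Nat.mul_le_mul_right _ he
    simp only [L]; omega
  have hall : ∀ T, ∃ V p : ℕ, V < 2 ^ L T ∧ 0 < p ∧ p ≤ C * h ∧
      ∀ z, 2 ^ m * (2 ^ L T * u + V) + 2 ^ (m - 2) ≤ z →
        z < 2 ^ m * (2 ^ L T * u + V) + 2 ^ (m - 1) → (z ∈ S ↔ z + p ∈ S) := by
    intro T
    obtain ⟨k, hk1, hk2⟩ := exists_start (u := u) h3 hhm (hLbig T)
    obtain ⟨X, p, hp0, hpC, hX1, hX2, hX3⟩ :=
      M m n h (by omega) h3 hpos hCh2 (2 ^ W * k + ρ) (fun i hi => hg k i hi)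
    have e6 : 2 ^ L T * (u + 1) = 2 ^ L T * u + 2 ^ L T := by ring
    obtain ⟨V, rfl⟩ : ∃ V, X = 2 ^ L T * u + V := ⟨X - 2 ^ L T * u, by omega⟩
    exact ⟨V, p, by omega, hp0, hpC, hX3⟩
  choose V p hV hp0 hpC hq using hall
  -- propagation
  have hprop : ∀ T l, Per S (m + e * l) (2 ^ L T * u + V T) (p T) := by
    intro T l
    obtain ⟨s, hs2, hss, hG⟩ := G1 (L T) (V T) (hV T)
    refine propagate c hc hs2 (by omega) ?_ hG (hq T) l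
    exact (hpC T).trans (hCh.trans (Nat.pow_le_pow_right (by norm_num) (by omega)))
  obtain ⟨x, Lx, Vx, hVx, hx, hG2⟩ := G2 L V hV
  have hlev : ∀ j, m ≤ j → ∃ T < e, Per S j x (p T) := by
    intro j hj
    have hTe : (j + Lx) % e < e := Nat.mod_lt _ he
    obtain ⟨a, b, X, v, hab, ha, hv, hxX, hcX⟩ := hG2 _ hTe
    obtain ⟨l, hl⟩ := level_arith hj hab ha rfl (hLT _ hTe)
    refine ⟨_, hTe, per_sub hv hxX ?_⟩
    rw [hl]
    refine per_of_eqv ?_ ((hc _ _).mp hcX).symm (hprop _ l)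
    exact (hpC _).trans (hCh.trans (Nat.pow_le_pow_right (by norm_num) (by omega)))
  have hxpos : 0 < x := by
    have : 0 < 2 ^ Lx * u := by positivity
    omega
  refine ⟨2 * x, ∏ T ∈ Finset.range e, p T, m + ∏ T ∈ Finset.range e, p T, by omega,
    Finset.prod_pos (fun T _ => hp0 T), ?_⟩
  intro j hj z hz1 hz2
  obtain ⟨T, hT, hper⟩ := hlev (j + 1) (by omega)
  obtain ⟨q, hqe⟩ := Finset.dvd_prod_of_mem p (Finset.mem_range.mpr hT)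
  have hPj : ∏ T ∈ Finset.range e, p T < 2 ^ j :=
    lt_of_le_of_lt (by omega) (Nat.lt_two_pow_self (n := j))
  have e1 : 2 ^ (j + 1) * x = 2 ^ j * (2 * x) := by rw [pow_succ]; ring
  have e2 : 2 ^ (j + 1) * (x + 1) = 2 ^ j * (2 * x + 1) + 2 ^ j := by rw [pow_succ]; ring
  have hPq : ∏ T ∈ Finset.range e, p T = q * p T := by rw [hqe, mul_comm]
  rw [hPq] at hPj ⊢
  exact per_iter hper q z (by omega) (by omega)

end Windows

theorem windows (S : Set ℕ) (hA : TwoAutomatic S) (hS : ∀ n ∈ S, g n ∈ S)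
    (hD : NowhereDense2 (Entry S)) :
    ∃ x P j₀ : ℕ, 0 < x ∧ 0 < P ∧
      ∀ j ≥ j₀, ∀ z, 2 ^ j * x ≤ z → z < 2 ^ j * (x + 1) → (z ∈ S ↔ z + P ∈ S) := by
  refine Windows.windows_of S hA hD approx exists_good (mid_periodic S hA hS)
    (fun ι _ c hc => ?_)
  obtain ⟨e, s₀, u, he, ⟨L, V, -, hu⟩, G1, G2⟩ := graphB 2 le_rfl c hc 1 one_pos
  refine ⟨e, s₀, u, he, ?_, ?_, G2⟩
  · rw [hu]; positivity
  · intro L' V' hV'
    obtain ⟨s, hs2, hss, hG⟩ := G1 L' V' hV'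
    refine ⟨s, hs2, hss, fun l r hr => ?_⟩
    obtain ⟨r', h1, h2, h3⟩ := hG l r hr
    refine ⟨r', h1, ?_, h3⟩
    have : 2 ^ (s - 1) = 2 * 2 ^ (s - 2) := by rw [← pow_succ']; congr 1; omega
    rw [this]; exact h2

end ConwayAuto
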