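import Mathlib

/-!
Eventual windows of periodicity: the part of the argument common to all bases.
-/

namespace ConwayAuto.WindowsG

/-- `p` is a period of `S` on the block of `Y` at level `j` -/
def Per (b : ℕ) (S : Set ℕ) (j Y p : ℕ) : Prop :=
  ∀ z, b ^ j * Y ≤ z → z < b ^ j * (Y + 1) → (z ∈ S ↔ z + p ∈ S)

theorem per_of_eqv {b : ℕ} {S : Set ℕ} {j Y Y' p : ℕ} (hp : p ≤ b ^ j)
    (h : ∀ w r, r < 2 * b ^ w → (b ^ w * Y + r ∈ S ↔ b ^ w * Y' + r ∈ S))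
    (hY : Per b S j Y p) : Per b S j Y' p := by
  intro z hz1 hz2
  have h3 : b ^ j * (Y' + 1) = b ^ j * Y' + b ^ j := by ring
  have h4 : b ^ j * (Y + 1) = b ^ j * Y + b ^ j := by ring
  obtain ⟨r, rfl⟩ : ∃ r, z = b ^ j * Y' + r := ⟨z - b ^ j * Y', by omega⟩
  have hr : r < b ^ j := by omega
  have e1 := h j r (by omega)
  have e2 := h j (r + p) (by omega)
  have e3 := hY (b ^ j * Y + r) (by omega) (by omega)
  rw [← e1, e3, add_assoc, add_assoc]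
  exact e2

theorem per_iter {b : ℕ} {S : Set ℕ} {j Y p : ℕ} (hY : Per b S j Y p) (k : ℕ) :
    ∀ z, b ^ j * Y ≤ z → z + k * p < b ^ j * (Y + 1) → (z ∈ S ↔ z + k * p ∈ S) := by
  induction k with
  | zero => intro z _ _; simp
  | succ k ih =>
    intro z h1 h2
    have e : (k + 1) * p = k * p + p := by ring
    rw [e] at h2 ⊢
    have i1 := ih z h1 (by omega)
    have i2 := hY (z + k * p) (by omega) (by omega)
    rw [i1, i2, add_assoc]

/-- good starting points for every large `L` -/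
theorem exists_start {b m A h W ρ C u L : ℕ} (hb : 2 ≤ b) (h3 : A = b ^ m + h) (hh : h ≤ b ^ m)
    (hL : 2 * (b ^ W + ρ) + C + 2 ≤ L) :
    ∃ k : ℕ, b ^ L * u ≤ A * (b ^ W * k + ρ) / b ^ m ∧
      A * (b ^ W * k + ρ) / b ^ m + C + 1 < b ^ L * (u + 1) := by
  have hb0 : 0 < b := by omega
  have hm : 0 < b ^ m := by positivity
  have hpos : 0 < A * b ^ W := by rw [h3]; positivity
  refine ⟨b ^ m * (b ^ L * u) / (A * b ^ W) + 1, ?_, ?_⟩
  · rw [Nat.le_div_iff_mul_le hm]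
    have h1 := (Nat.lt_mul_div_succ (b ^ m * (b ^ L * u)) hpos).le
    calc b ^ L * u * b ^ m = b ^ m * (b ^ L * u) := by ring
      _ ≤ A * b ^ W * (b ^ m * (b ^ L * u) / (A * b ^ W) + 1) := h1
      _ ≤ A * (b ^ W * (b ^ m * (b ^ L * u) / (A * b ^ W) + 1) + ρ) := by
        rw [mul_assoc A]; exact Nat.mul_le_mul_left _ (Nat.le_add_right _ _)
  · have h1 := Nat.mul_div_le (b ^ m * (b ^ L * u)) (A * b ^ W)
    set k := b ^ m * (b ^ L * u) / (A * b ^ W) with hk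
    have h2 : A * (b ^ W * (k + 1) + ρ) ≤ b ^ m * (b ^ L * u + 2 * (b ^ W + ρ)) := by
      have e1 : A * (b ^ W * (k + 1) + ρ) = A * b ^ W * k + A * (b ^ W + ρ) := by ring
      have e2 : A * (b ^ W + ρ) ≤ 2 * b ^ m * (b ^ W + ρ) :=
        Nat.mul_le_mul_right _ (by omega)
      have e3 : b ^ m * (b ^ L * u + 2 * (b ^ W + ρ))
          = b ^ m * (b ^ L * u) + 2 * b ^ m * (b ^ W + ρ) := by ring
      omega
    have h4 : A * (b ^ W * (k + 1) + ρ) / b ^ m ≤ b ^ L * u + 2 * (b ^ W + ρ) := by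
      calc A * (b ^ W * (k + 1) + ρ) / b ^ m
          ≤ b ^ m * (b ^ L * u + 2 * (b ^ W + ρ)) / b ^ m := Nat.div_le_div_right h2
        _ = b ^ L * u + 2 * (b ^ W + ρ) := Nat.mul_div_cancel_left _ hm
    have h5 : L < b ^ L := Nat.lt_pow_self (by omega)
    have h6 : b ^ L * (u + 1) = b ^ L * u + b ^ L := by ring
    omega

/-- propagation of the period of the middle part of a block -/
theorem propagate {b d : ℕ} {S : Set ℕ} {ι : Type} (c : ℕ → ι) (hb : 2 ≤ b)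
    (hc : ∀ x y, c x = c y → ∀ w r, r < 2 * b ^ w → (b ^ w * x + r ∈ S ↔ b ^ w * y + r ∈ S))
    {m s e X p : ℕ} (hs2 : d ≤ s) (hsm : s ≤ m) (hp : p ≤ b ^ (m - s))
    (hG : ∀ l r, r < b ^ (s + e * l) → ∃ r', b ^ (s - d) ≤ r' ∧ r' < 2 * b ^ (s - d) ∧
      c (b ^ (s + e * l) * X + r) = c (b ^ s * X + r'))
    (hq : ∀ z, b ^ m * X + b ^ (m - d) ≤ z → z < b ^ m * X + 2 * b ^ (m - d) →
      (z ∈ S ↔ z + p ∈ S))
    (l : ℕ) : Per b S (m + e * l) X p := by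
  have hb0 : 0 < b := by omega
  intro z hz1 hz2
  have ht : 0 < b ^ (m - s) := by positivity
  have em : b ^ (m + e * l) = b ^ (m - s) * b ^ (s + e * l) := by
    rw [← pow_add]; congr 1; omega
  set Y := z / b ^ (m - s) with hY
  have hYz : b ^ (m - s) * Y ≤ z := Nat.mul_div_le _ _
  have hYz' : z < b ^ (m - s) * (Y + 1) := Nat.lt_mul_div_succ z ht
  have hY1 : b ^ (s + e * l) * X ≤ Y := by
    rw [hY, Nat.le_div_iff_mul_le ht]
    calc b ^ (s + e * l) * X * b ^ (m - s) = b ^ (m - s) * b ^ (s + e * l) * X := by ring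
      _ = b ^ (m + e * l) * X := by rw [em]
      _ ≤ z := hz1
  have hY2 : Y < b ^ (s + e * l) * (X + 1) := by
    rw [hY, Nat.div_lt_iff_lt_mul ht]
    calc z < b ^ (m + e * l) * (X + 1) := hz2
      _ = b ^ (s + e * l) * (X + 1) * b ^ (m - s) := by rw [em]; ring
  obtain ⟨r, hr⟩ : ∃ r, Y = b ^ (s + e * l) * X + r := ⟨Y - b ^ (s + e * l) * X, by omega⟩
  have hrlt : r < b ^ (s + e * l) := by
    have : b ^ (s + e * l) * (X + 1) = b ^ (s + e * l) * X + b ^ (s + e * l) := by ring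
    omega
  obtain ⟨r', hr1, hr2, hcc⟩ := hG l r hrlt
  rw [← hr] at hcc
  have e1 : b ^ m = b ^ (m - s) * b ^ s := by rw [← pow_add]; congr 1; omega
  have e2 : b ^ (m - d) = b ^ (m - s) * b ^ (s - d) := by rw [← pow_add]; congr 1; omega
  have hP : Per b S (m - s) (b ^ s * X + r') p := by
    intro z' h1 h2
    apply hq
    · refine le_trans ?_ h1
      rw [e1, e2, mul_assoc, ← mul_add]
      exact Nat.mul_le_mul_left _ (by omega)
    · refine lt_of_lt_of_le h2 ?_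
      have e3 : b ^ m * X + 2 * b ^ (m - d) = b ^ (m - s) * (b ^ s * X + 2 * b ^ (s - d)) := by
        rw [e1, e2]; ring
      rw [e3]
      exact Nat.mul_le_mul_left _ (by omega)
  exact per_of_eqv hp (hc _ _ hcc.symm) hP z hYz hYz'

/-- a period on a large block is a period on a subblock -/
theorem per_sub {β : ℕ} {S : Set ℕ} {j b X x v p : ℕ} (hv : v < β ^ b) (hx : x = β ^ b * X + v)
    (hX : Per β S (j + b) X p) : Per β S j x p := by
  intro z h1 h2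
  subst hx
  apply hX
  · refine le_trans ?_ h1
    rw [pow_add, mul_assoc]
    exact Nat.mul_le_mul_left _ (by omega)
  · refine lt_of_lt_of_le h2 ?_
    rw [pow_add, mul_assoc]
    refine Nat.mul_le_mul_left _ ?_
    have : β ^ b * (X + 1) = β ^ b * X + β ^ b := by ring
    omega

theorem level_arith {e m j a b Lx LT T : ℕ} (hj : m ≤ j) (hab : a + b = Lx)
    (ha : a % e = LT % e) (hT : T = (j + Lx) % e) (hLT : (m + LT) % e = T) :
    ∃ l, j + b = m + e * l := by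
  have h1 : (m + a) ≡ (j + b) + a [MOD e] := by
    have e1 : (m + a) ≡ (m + LT) [MOD e] := Nat.ModEq.add_left m ha
    have e2 : (m + LT) ≡ (j + Lx) [MOD e] := by
      unfold Nat.ModEq; rw [hLT, hT]
    have e3 : j + Lx = (j + b) + a := by omega
    rw [← e3]
    exact e1.trans e2
  have h2 : m ≡ j + b [MOD e] := Nat.ModEq.add_right_cancel' a h1
  have h3 := (Nat.modEq_iff_dvd' (by omega : m ≤ j + b)).mp h2
  obtain ⟨l, hl⟩ := h3
  exact ⟨l, by omega⟩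

/-- The windows theorem in base `b`, from its ingredients. The middle part of a block of level `m`
is `[b ^ (m - d), 2 * b ^ (m - d))`. -/
theorem windows_gen (b d q : ℕ) (hb : 2 ≤ b) (hd : d ≤ 3) (S : Set ℕ) {ι : Type} (c : ℕ → ι)
    (hc : ∀ x y, c x = c y → ∀ w r, r < 2 * b ^ w → (b ^ w * x + r ∈ S ↔ b ^ w * y + r ∈ S))
    (Gd : ℕ → ℕ → Prop)
    (approx : ∀ K : ℕ, ∃ m n h : ℕ, q ^ n = b ^ m + h ∧ 0 < h ∧ K * h ≤ b ^ m)
    (good : ∀ n C : ℕ, ∃ W ρ : ℕ, ∀ m, ∀ i ≤ C, Gd n (b ^ W * m + ρ + i))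
    (mid : ∃ C : ℕ, ∀ m n h : ℕ, d ≤ m → q ^ n = b ^ m + h → 0 < h → C * h ≤ b ^ (m - d) →
      ∀ y : ℕ, (∀ i ≤ C + 1, Gd n (y + i)) →
        ∃ X p : ℕ, 0 < p ∧ p ≤ C * h ∧ q ^ n * y / b ^ m < X ∧ X ≤ q ^ n * y / b ^ m + C + 1 ∧
          ∀ z, b ^ m * X + b ^ (m - d) ≤ z → z < b ^ m * X + 2 * b ^ (m - d) →
            (z ∈ S ↔ z + p ∈ S))
    (x₀ : ℕ)
    (graph : ∃ e s₀ u : ℕ, 0 < e ∧ (∃ L V, V < b ^ L ∧ u = b ^ L * x₀ + V) ∧
      (∀ L V, V < b ^ L → ∃ s, d ≤ s ∧ s ≤ s₀ ∧ ∀ l r, r < b ^ (s + e * l) →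
        ∃ r', b ^ (s - d) ≤ r' ∧ r' < 2 * b ^ (s - d) ∧
          c (b ^ (s + e * l) * (b ^ L * u + V) + r) = c (b ^ s * (b ^ L * u + V) + r')) ∧
      (∀ L V : ℕ → ℕ, (∀ T, V T < b ^ L T) → ∃ x Lx Vx : ℕ, Vx < b ^ Lx ∧ x = b ^ Lx * u + Vx ∧
        ∀ T < e, ∃ a k X v : ℕ, a + k = Lx ∧ a % e = L T % e ∧ v < b ^ k ∧ x = b ^ k * X + v ∧
          c X = c (b ^ L T * u + V T))) :
    ∃ x P k₀ : ℕ, (∃ L V, V < b ^ L ∧ x = b ^ L * x₀ + V) ∧ 0 < P ∧
      ∀ k ≥ k₀, ∀ z, b ^ k * x ≤ z → z < b ^ k * (x + 1) → (z ∈ S ↔ z + P ∈ S) := by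
  have hb0 : 0 < b := by omega
  obtain ⟨e, s₀, u, he, ⟨L₀, V₀, hV₀, hu₀⟩, G1, G2⟩ := graph
  obtain ⟨C, M⟩ := mid
  obtain ⟨m, n, h, h3, hpos, hK⟩ := approx ((C + 1) * b ^ (s₀ + 3))
  have hs0 : b ^ (s₀ + 3) ≤ b ^ m := by
    calc b ^ (s₀ + 3) = 1 * b ^ (s₀ + 3) * 1 := by ring
      _ ≤ (C + 1) * b ^ (s₀ + 3) * h :=
        Nat.mul_le_mul (Nat.mul_le_mul_right _ (by omega)) hpos
      _ ≤ b ^ m := hK
  have hm : s₀ + 3 ≤ m := (Nat.pow_le_pow_iff_right (by omega)).mp hs0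
  have hem : b ^ m = b ^ (m - (s₀ + 3)) * b ^ (s₀ + 3) := by rw [← pow_add]; congr 1; omega
  have hC1 : (C + 1) * h ≤ b ^ (m - (s₀ + 3)) := by
    have hp : 0 < b ^ (s₀ + 3) := by positivity
    apply Nat.le_of_mul_le_mul_right _ hp
    rw [← hem]
    calc (C + 1) * h * b ^ (s₀ + 3) = (C + 1) * b ^ (s₀ + 3) * h := by ring
      _ ≤ b ^ m := hK
  have hCh : C * h ≤ b ^ (m - (s₀ + 3)) :=
    le_trans (Nat.mul_le_mul_right _ (by omega)) hC1
  have hhm : h ≤ b ^ m := by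
    calc h = 1 * h := by ring
      _ ≤ (C + 1) * h := Nat.mul_le_mul_right _ (by omega)
      _ ≤ b ^ (m - (s₀ + 3)) := hC1
      _ ≤ b ^ m := Nat.pow_le_pow_right hb0 (by omega)
  have hCh2 : C * h ≤ b ^ (m - d) := hCh.trans (Nat.pow_le_pow_right hb0 (by omega))
  obtain ⟨W, ρ, hg⟩ := good n (C + 1)
  -- the levels
  let L : ℕ → ℕ := fun T => T + (e - 1) * m + e * (2 * (b ^ W + ρ) + C + 2)
  have hLT : ∀ T < e, (m + L T) % e = T := by
    intro T hT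
    have e1 : m + L T = T + e * (m + (2 * (b ^ W + ρ) + C + 2)) := by
      obtain ⟨e', rfl⟩ : ∃ e', e = e' + 1 := ⟨e - 1, by omega⟩
      simp only [L, Nat.add_sub_cancel]; ring
    rw [e1, Nat.add_mul_mod_self_left, Nat.mod_eq_of_lt hT]
  have hLbig : ∀ T, 2 * (b ^ W + ρ) + C + 2 ≤ L T := by
    intro T
    have : 1 * (2 * (b ^ W + ρ) + C + 2) ≤ e * (2 * (b ^ W + ρ) + C + 2) :=
      Nat.mul_le_mul_right _ he
    simp only [L]; omega
  have hall : ∀ T, ∃ V p : ℕ, V < b ^ L T ∧ 0 < p ∧ p ≤ C * h ∧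
      ∀ z, b ^ m * (b ^ L T * u + V) + b ^ (m - d) ≤ z →
        z < b ^ m * (b ^ L T * u + V) + 2 * b ^ (m - d) → (z ∈ S ↔ z + p ∈ S) := by
    intro T
    obtain ⟨k, hk1, hk2⟩ := exists_start (u := u) hb h3 hhm (hLbig T)
    obtain ⟨X, p, hp0, hpC, hX1, hX2, hX3⟩ :=
      M m n h (by omega) h3 hpos hCh2 (b ^ W * k + ρ) (fun i hi => hg k i hi)
    have e6 : b ^ L T * (u + 1) = b ^ L T * u + b ^ L T := by ring
    obtain ⟨V, rfl⟩ : ∃ V, X = b ^ L T * u + V := ⟨X - b ^ L T * u, by omega⟩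
    exact ⟨V, p, by omega, hp0, hpC, hX3⟩
  choose V p hV hp0 hpC hq using hall
  -- propagation
  have hprop : ∀ T l, Per b S (m + e * l) (b ^ L T * u + V T) (p T) := by
    intro T l
    obtain ⟨s, hs2, hss, hG⟩ := G1 (L T) (V T) (hV T)
    refine propagate c hb hc hs2 (by omega) ?_ hG (hq T) l
    exact (hpC T).trans (hCh.trans (Nat.pow_le_pow_right hb0 (by omega)))
  obtain ⟨x, Lx, Vx, hVx, hx, hG2⟩ := G2 L V hV
  have hlev : ∀ j, m ≤ j → ∃ T < e, Per b S j x (p T) := by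
    intro j hj
    have hTe : (j + Lx) % e < e := Nat.mod_lt _ he
    obtain ⟨a, k, X, v, hab, ha, hv, hxX, hcX⟩ := hG2 _ hTe
    obtain ⟨l, hl⟩ := level_arith hj hab ha rfl (hLT _ hTe)
    refine ⟨_, hTe, per_sub hv hxX ?_⟩
    rw [hl]
    refine per_of_eqv ?_ (hc _ _ hcX.symm) (hprop _ l)
    exact (hpC _).trans (hCh.trans (Nat.pow_le_pow_right hb0 (by omega)))
  refine ⟨b * x, ∏ T ∈ Finset.range e, p T, m + ∏ T ∈ Finset.range e, p T,
    ⟨Lx + 1 + L₀, b ^ (Lx + 1) * V₀ + b * Vx, ?_, ?_⟩,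
    Finset.prod_pos (fun T _ => hp0 T), ?_⟩
  · have h1 : b ^ (Lx + 1) * (V₀ + 1) ≤ b ^ (Lx + 1) * b ^ L₀ := Nat.mul_le_mul_left _ hV₀
    have h2 : b * Vx < b ^ (Lx + 1) := by
      rw [pow_succ, mul_comm]; exact Nat.mul_lt_mul_of_pos_right hVx hb0
    rw [pow_add b (Lx + 1) L₀]
    have h4 : b ^ (Lx + 1) * (V₀ + 1) = b ^ (Lx + 1) * V₀ + b ^ (Lx + 1) := by ring
    omega
  · rw [hx, hu₀, pow_add b (Lx + 1) L₀, pow_succ]; ring
  intro j hj z hz1 hz2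
  obtain ⟨T, hT, hper⟩ := hlev (j + 1) (by omega)
  obtain ⟨q', hqe⟩ := Finset.dvd_prod_of_mem p (Finset.mem_range.mpr hT)
  have hPj : ∏ T ∈ Finset.range e, p T < b ^ j :=
    lt_of_le_of_lt (by omega) (Nat.lt_pow_self (n := j) (by omega))
  have e1 : b ^ (j + 1) * x = b ^ j * (b * x) := by rw [pow_succ]; ring
  have e2 : b ^ j * (b * x + 1) + b ^ j ≤ b ^ (j + 1) * (x + 1) := by
    have : b ^ (j + 1) * (x + 1) = b ^ j * (b * x + b) := by rw [pow_succ]; ring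
    rw [this]
    calc b ^ j * (b * x + 1) + b ^ j = b ^ j * (b * x + 2) := by ring
      _ ≤ b ^ j * (b * x + b) := Nat.mul_le_mul_left _ (by omega)
  have hPq : ∏ T ∈ Finset.range e, p T = q' * p T := by rw [hqe, mul_comm]
  rw [hPq] at hPj ⊢
  exact per_iter hper q' z (by omega) (by omega)

end ConwayAuto.WindowsG
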